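import Pool.Agent.Lib.MP_a52643_an.NS.Defs

/-!
Two counting inequalities for random finite sets.
-/

open MeasureTheory Set Filter Topology Metric UpperHalfPlane
open scoped ENNReal MatrixGroups Real FourierTransform ComplexConjugate

noncomputable section

namespace Pool.Agent.Lib.MP_a52643_an.NS

variable {Ω : Type} [MeasurableSpace Ω] {P : Measure Ω} [IsProbabilityMeasure P]

private lemma layer_ind {S : Set Ω} (hS : MeasurableSet S) :
    Integrable (S.indicator (1 : Ω → ℝ)) P :=
  (integrable_const (1 : ℝ)).indicator hS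

private lemma layer_sum_int (s : Finset ℕ) {S : ℕ → Set Ω} (hS : ∀ i, MeasurableSet (S i)) :
    Integrable (fun ω => ∑ i ∈ s, (S i).indicator (1 : Ω → ℝ) ω) P :=
  integrable_finsetSum _ fun i _ => layer_ind (hS i)

private lemma layer_sum_eq (s : Finset ℕ) {S : ℕ → Set Ω} (hS : ∀ i, MeasurableSet (S i)) :
    ∫ ω, ∑ i ∈ s, (S i).indicator (1 : Ω → ℝ) ω ∂P = ∑ i ∈ s, P.real (S i) := by
  rw [integral_finsetSum _ fun i _ => layer_ind (hS i)]
  exact Finset.sum_congr rfl fun i _ => integral_indicator_one (hS i)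

private lemma layer_card {N : ℕ} {a : Ω → Finset ℕ} (ha : ∀ ω, a ω ⊆ Finset.range N) (ω : Ω) :
    ∑ j ∈ Finset.range N, {ω | j ∈ a ω}.indicator (1 : Ω → ℝ) ω = (a ω).card := by
  classical
  have h : ∀ j, {ω | j ∈ a ω}.indicator (1 : Ω → ℝ) ω = if j ∈ a ω then 1 else 0 := fun j => by
    by_cases hj : j ∈ a ω <;> simp [Set.indicator, hj]
  simp only [h]
  rw [Finset.sum_boole, Finset.filter_mem_eq_inter, Finset.inter_eq_right.2 (ha ω)]

private lemma layer_count (M : ℕ) (f : Ω → ℕ) (ω : Ω) :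
    ∑ j ∈ Finset.range M, {ω | j + 1 ≤ f ω}.indicator (1 : Ω → ℝ) ω = (min M (f ω) : ℕ) := by
  classical
  have h : ∀ j, {ω | j + 1 ≤ f ω}.indicator (1 : Ω → ℝ) ω = if j < f ω then 1 else 0 := fun j => by
    by_cases hj : j < f ω
    · have : j + 1 ≤ f ω := hj
      simp [Set.indicator, hj, this]
    · have : ¬ j + 1 ≤ f ω := hj
      simp [Set.indicator, hj, this]
  simp only [h]
  rw [Finset.sum_boole]
  have e : (Finset.range M).filter (fun j => j < f ω) = Finset.range (min M (f ω)) := by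
    ext j
    simp
  rw [e, Finset.card_range]

private lemma layer_low {N : ℕ} {a : Ω → Finset ℕ} {m : ℝ}
    (h1 : ∀ j < N, m ≤ P.real {ω | j ∈ a ω}) :
    N * m ≤ ∑ j ∈ Finset.range N, P.real {ω | j ∈ a ω} := by
  have := Finset.card_nsmul_le_sum (Finset.range N) (fun j => P.real {ω | j ∈ a ω}) m
    fun j hj => h1 j (Finset.mem_range.1 hj)
  rwa [Finset.card_range, nsmul_eq_mul] at this

open Classical in
theorem layer {N K H : ℕ} {a b : Ω → Finset ℕ} (ha : ∀ ω, a ω ⊆ Finset.range N)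
    (hb : ∀ ω, b ω ⊆ Finset.range N) (ma : ∀ Φ : Finset ℕ → Prop, MeasurableSet {ω | Φ (a ω)})
    (mb : ∀ Φ : Finset ℕ → Prop, MeasurableSet {ω | Φ (b ω)}) (B : Finset ℕ → Prop) {m e : ℝ}
    (h1 : ∀ j < N, m ≤ P.real {ω | j ∈ a ω}) (h2 : ∀ j < N, m ≤ P.real {ω | j ∈ b ω})
    (h3 : ∀ j : ℕ, P.real {ω | j ≤ (a ω).card + if B (a ω) then K else 0}
      ≤ P.real {ω | j + (b ω).card ≤ N + H} + e) :
    K * P.real {ω | B (a ω)} ≤ N * (1 - 2 * m) + H + (N + K) * e := by
  have cN : ∀ ω, (a ω).card ≤ N := fun ω => by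
    simpa using Finset.card_le_card (ha ω)
  have cN' : ∀ ω, (b ω).card ≤ N := fun ω => by
    simpa using Finset.card_le_card (hb ω)
  have mA : ∀ j : ℕ, MeasurableSet {ω | j ∈ a ω} := fun j => ma fun s => j ∈ s
  have mB : ∀ j : ℕ, MeasurableSet {ω | j ∈ b ω} := fun j => mb fun s => j ∈ s
  have mF : ∀ j : ℕ, MeasurableSet {ω | j + 1 ≤ (a ω).card + if B (a ω) then K else 0} :=
    fun j => ma fun s => j + 1 ≤ s.card + if B s then K else 0
  have mG : ∀ j : ℕ, MeasurableSet {ω | j + 1 ≤ N + H - (b ω).card} :=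
    fun j => mb fun s => j + 1 ≤ N + H - s.card
  have e1 : ∑ j ∈ Finset.range N, P.real {ω | j ∈ a ω} + K * P.real {ω | B (a ω)}
      = ∑ j ∈ Finset.range (N + K),
        P.real {ω | j + 1 ≤ (a ω).card + if B (a ω) then K else 0} := by
    rw [← layer_sum_eq _ mA, ← layer_sum_eq _ mF, ← integral_indicator_one (ma B),
      ← integral_const_mul, ← integral_add (layer_sum_int _ mA) ((layer_ind (ma B)).const_mul _)]
    refine integral_congr_ae (Eventually.of_forall fun ω => ?_)
    have h := layer_count (N + K) (fun ω => (a ω).card + if B (a ω) then K else 0) ω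
    simp only at h ⊢
    rw [h, layer_card ha]
    have := cN ω
    by_cases hB : B (a ω)
    · rw [if_pos hB, min_eq_right (by omega)]
      simp [Set.indicator, hB]
    · rw [if_neg hB, min_eq_right (by omega)]
      simp [Set.indicator, hB]
  have e2 : ∑ j ∈ Finset.range (N + K), P.real {ω | j + 1 ≤ N + H - (b ω).card}
      + ∑ j ∈ Finset.range N, P.real {ω | j ∈ b ω} ≤ N + H := by
    rw [← layer_sum_eq _ mB, ← layer_sum_eq _ mG,
      ← integral_add (layer_sum_int _ mG) (layer_sum_int _ mB)]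
    have e : ((N : ℝ) + H) = ∫ _ω, ((N : ℝ) + H) ∂P := by simp
    rw [e]
    refine integral_mono ((layer_sum_int _ mG).add (layer_sum_int _ mB)) (integrable_const _)
      fun ω => ?_
    have h := layer_count (N + K) (fun ω => N + H - (b ω).card) ω
    simp only at h ⊢
    rw [h, layer_card hb]
    have h4 := cN' ω
    have h5 : min (N + K) (N + H - (b ω).card) + (b ω).card ≤ N + H := by omega
    exact_mod_cast h5
  have e3 : ∑ j ∈ Finset.range (N + K),
        P.real {ω | j + 1 ≤ (a ω).card + if B (a ω) then K else 0}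
      ≤ ∑ j ∈ Finset.range (N + K), (P.real {ω | j + 1 ≤ N + H - (b ω).card} + e) := by
    refine Finset.sum_le_sum fun j _ => ?_
    have e : {ω | j + 1 ≤ N + H - (b ω).card} = {ω | j + 1 + (b ω).card ≤ N + H} := by
      ext ω
      simp only [Set.mem_ofPred_eq]
      omega
    rw [e]
    exact h3 (j + 1)
  rw [Finset.sum_add_distrib, Finset.sum_const, Finset.card_range, nsmul_eq_mul] at e3
  have l1 := layer_low h1
  have l2 := layer_low h2
  push_cast at e3
  nlinarith

theorem markov {N : ℕ} (hN : 0 < N) {a : Ω → Finset ℕ} (ha : ∀ ω, a ω ⊆ Finset.range N)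
    (ma : ∀ Φ : Finset ℕ → Prop, MeasurableSet {ω | Φ (a ω)}) {m : ℝ}
    (h1 : ∀ j < N, m ≤ P.real {ω | j ∈ a ω}) :
    m - 1 / 20 ≤ P.real {ω | N < 20 * (a ω).card} := by
  have cN : ∀ ω, (a ω).card ≤ N := fun ω => by
    simpa using Finset.card_le_card (ha ω)
  have mA : ∀ j : ℕ, MeasurableSet {ω | j ∈ a ω} := fun j => ma fun s => j ∈ s
  have mS : MeasurableSet {ω | N < 20 * (a ω).card} := ma fun s => N < 20 * s.card
  have e1 : ∑ j ∈ Finset.range N, P.real {ω | j ∈ a ω}
      ≤ N * P.real {ω | N < 20 * (a ω).card} + N / 20 := by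
    have e : ((N : ℝ) / 20) = ∫ _ω, ((N : ℝ) / 20) ∂P := by simp
    rw [← layer_sum_eq _ mA, ← integral_indicator_one mS, ← integral_const_mul, e,
      ← integral_add ((layer_ind mS).const_mul _) (integrable_const _)]
    refine integral_mono (layer_sum_int _ mA)
      (((layer_ind mS).const_mul _).add (integrable_const _)) fun ω => ?_
    simp only
    rw [layer_card ha]
    have h4 : ((a ω).card : ℝ) ≤ N := by exact_mod_cast cN ω
    have h0 : (0 : ℝ) ≤ N := Nat.cast_nonneg N
    by_cases hB : N < 20 * (a ω).card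
    · have : {ω | N < 20 * (a ω).card}.indicator (1 : Ω → ℝ) ω = 1 := by
        simp [Set.indicator, hB]
      rw [this]
      linarith
    · have : {ω | N < 20 * (a ω).card}.indicator (1 : Ω → ℝ) ω = 0 := by
        simp [Set.indicator, hB]
      rw [this]
      have h5 : (20 * (a ω).card : ℝ) ≤ N := by exact_mod_cast not_lt.1 hB
      linarith
  have l1 := layer_low h1
  have hN' : (0 : ℝ) < N := by exact_mod_cast hN
  refine le_of_mul_le_mul_left ?_ hN'
  nlinarith

end Pool.Agent.Lib.MP_a52643_an.NS
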