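import Pool.Agent.Lib.MP_a52643_an.NS.Defs

/-!
Selection of windows.
-/

open MeasureTheory Set Filter Topology Metric UpperHalfPlane
open scoped ENNReal MatrixGroups Real FourierTransform ComplexConjugate

noncomputable section

namespace Pool.Agent.Lib.MP_a52643_an.NS

structure Clo (N : ℕ) (a b : Finset ℕ) (G : ℕ → ℝ → Prop) : Prop where
  top : G N 0
  mono : ∀ q q' x, q' ≤ q → G q x → G q' x
  step : ∀ (q₀ q q₁ k : ℕ) (x y : ℝ), q₀ ≤ q → q + 2 * k ≤ q₁ → q₀ < q₁ → q₁ ≤ N →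
    y ≤ cd a q₀ q₁ + cd b q q₁ - (q₁ - q) → (q₀ < q → y ≤ cd b q₀ q₁ + k / 8 - (q₁ - q₀)) →
    G q₁ x → G q₀ (x + y)

private lemma comb_cd_nonneg (a : Finset ℕ) (s t : ℕ) : 0 ≤ cd a s t := Nat.cast_nonneg _

private lemma comb_cd_add (a : Finset ℕ) {s t r : ℕ} (h1 : s ≤ t) (h2 : t ≤ r) :
    cd a s t + cd a t r = cd a s r := by
  unfold cd
  rw [← Nat.cast_add, ← Finset.card_union_of_disjoint, ← Finset.inter_union_distrib_left,
    Finset.Ico_union_Ico_eq_Ico h1 h2]
  rw [Finset.disjoint_left]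
  intro i hi hi'
  simp only [Finset.mem_inter, Finset.mem_Ico] at hi hi'
  omega

private lemma comb_cd_le (a : Finset ℕ) {s t : ℕ} (h : s ≤ t) : cd a s t ≤ (t : ℝ) - s := by
  unfold cd
  rw [← Nat.cast_sub h, Nat.cast_le, ← Nat.card_Ico s t]
  exact Finset.card_le_card Finset.inter_subset_right

private lemma comb_cd_mem {a : Finset ℕ} {q : ℕ} (h : q ∈ a) : cd a q (q + 1) = 1 := by
  unfold cd
  rw [Nat.Ico_succ_singleton, Finset.inter_singleton_of_mem h, Finset.card_singleton,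
    Nat.cast_one]

private lemma comb_cd_notMem {a : Finset ℕ} {q : ℕ} (h : q ∉ a) : cd a q (q + 1) = 0 := by
  unfold cd
  rw [Nat.Ico_succ_singleton, Finset.inter_singleton_of_notMem h, Finset.card_empty,
    Nat.cast_zero]

private lemma comb_cd_cover (a b : Finset ℕ) {N s t : ℕ} (h1 : s ≤ t) (h2 : t ≤ N) :
    (t : ℝ) - s ≤ cd a s t + cd b s t + cd (Finset.range N \ (a ∪ b)) s t := by
  unfold cd
  rw [← Nat.cast_sub h1, ← Nat.cast_add, ← Nat.cast_add, Nat.cast_le, ← Nat.card_Ico s t]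
  refine le_trans (Finset.card_le_card ?_) (le_trans (Finset.card_union_le _ _)
    (Nat.add_le_add_right (Finset.card_union_le _ _) _))
  intro i hi
  simp only [Finset.mem_union, Finset.mem_inter, Finset.mem_sdiff, Finset.mem_range,
    Finset.mem_Ico] at hi ⊢
  by_cases ha : i ∈ a
  · exact Or.inl (Or.inl ⟨ha, hi⟩)
  by_cases hb : i ∈ b
  · exact Or.inl (Or.inr ⟨hb, hi⟩)
  exact Or.inr ⟨⟨by omega, fun h => h.elim ha hb⟩, hi⟩

private lemma comb_card_up (c : Finset ℕ) : (up c).card = 2000 * c.card := by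
  unfold up
  rw [Finset.card_biUnion]
  · rw [Finset.sum_congr rfl (g := fun _ => 2000), Finset.sum_const, smul_eq_mul, mul_comm]
    intro j _
    rw [Nat.card_Ico]
    omega
  · intro i _ j _ hij
    rw [Function.onFun, Finset.disjoint_left]
    intro x hx hx'
    simp only [Finset.mem_Ico] at hx hx'
    omega

theorem Clo.overlap {N : ℕ} {a b : Finset ℕ} {G : ℕ → ℝ → Prop} (h : Clo N a b G) :
    G 0 (cd (a ∩ b) 0 N) := by
  have key : ∀ d q, q + d = N → G q (cd (a ∩ b) q N) := by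
    intro d
    induction d with
    | zero =>
      intro q hq
      obtain rfl : q = N := by omega
      have : cd (a ∩ b) q q = 0 := by simp [cd]
      rw [this]
      exact h.top
    | succ d ih =>
      intro q hq
      have h1 := ih (q + 1) (by omega)
      rw [← comb_cd_add (a ∩ b) (Nat.le_succ q) (show q + 1 ≤ N by omega)]
      by_cases hm : q ∈ a ∩ b
      · rw [comb_cd_mem hm, add_comm]
        refine h.step q q (q + 1) 0 _ 1 le_rfl (by omega) (by omega) (by omega) ?_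
          (fun h => absurd h (lt_irrefl _)) h1
        rw [comb_cd_mem (Finset.mem_inter.1 hm).1, comb_cd_mem (Finset.mem_inter.1 hm).2]
        push_cast
        linarith
      · rw [comb_cd_notMem hm, zero_add]
        exact h.mono _ _ _ (Nat.le_succ q) h1
  exact key N 0 (by omega)

/-- one window below a large block that is missing in `a` -/
private lemma comb_window {n : ℕ} {a b : Finset ℕ} {G : ℕ → ℝ → Prop}
    (h : Clo (2000 * (26 * n)) (up a) (up b) G) (hB : n < 20 * (a ∩ Finset.range n).card)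
    {j : ℕ} (hj1 : 25 * n ≤ j) (hj2 : j < 26 * n) (hja : j ∉ a) {x : ℝ}
    (hx : G (2000 * (j + 1)) x) :
    ∃ q₀ L : ℕ, q₀ < 2000 * (j + 1) ∧ 2000 ≤ L ∧ 2000 * (j + 1) ≤ q₀ + 2 * L ∧
      G q₀ (x + (L / 4000000 -
        cd (Finset.range (2000 * (26 * n)) \ (up a ∪ up b)) q₀ (2000 * (j + 1)))) := by
  classical
  set q₁ := 2000 * (j + 1) with hq₁
  set u := Finset.range (2000 * (26 * n)) \ (up a ∪ up b) with hu
  have hz : cd (up a) (2000 * j) q₁ = 0 := by
    unfold cd
    rw [Nat.cast_eq_zero, Finset.card_eq_zero, Finset.eq_empty_iff_forall_notMem]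
    intro i hi
    simp only [Finset.mem_inter, mem_up, Finset.mem_Ico] at hi
    exact hja (by rw [show j = i / 2000 by omega]; exact hi.1)
  have hj0 : 2000 * cd (up a) (2000 * j) q₁ ≤ (q₁ : ℝ) - (2000 * j : ℕ) := by
    rw [hz, hq₁]
    push_cast
    linarith
  have hex : ∃ τ : ℕ, 2000 * cd (up a) τ q₁ ≤ (q₁ : ℝ) - τ := ⟨_, hj0⟩
  obtain ⟨τ, hτ, hτj, hmin⟩ : ∃ τ : ℕ, 2000 * cd (up a) τ q₁ ≤ (q₁ : ℝ) - τ ∧ τ ≤ 2000 * j ∧
      ∀ m < τ, ¬ 2000 * cd (up a) m q₁ ≤ (q₁ : ℝ) - m :=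
    ⟨Nat.find hex, Nat.find_spec hex, Nat.find_min' hex hj0, fun m hm => Nat.find_min hex hm⟩
  obtain ⟨L, hL⟩ : ∃ L, q₁ = τ + L := ⟨q₁ - τ, by omega⟩
  have hL2 : 2000 ≤ L := by omega
  obtain ⟨i, hi1, hi2⟩ : ∃ i, L ≤ 2000 * i ∧ 2000 * i < L + 2000 :=
    ⟨(L + 1999) / 2000, by omega, by omega⟩
  have hLr : (q₁ : ℝ) = τ + L := by exact_mod_cast hL
  have hL2r : (2000 : ℝ) ≤ L := by exact_mod_cast hL2
  have hi1r : (L : ℝ) ≤ 2000 * i := by exact_mod_cast hi1
  have hi2r : (2000 : ℝ) * i < L + 2000 := by exact_mod_cast hi2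
  have hτq : τ ≤ q₁ := by omega
  have hqN : q₁ ≤ 2000 * (26 * n) := by omega
  have hlow : (100 : ℝ) * n < cd (up a) 0 q₁ := by
    have hs : up (a ∩ Finset.range n) ⊆ up a ∩ Finset.Ico 0 q₁ := by
      intro i hi
      simp only [mem_up, Finset.mem_inter, Finset.mem_range, Finset.mem_Ico] at hi ⊢
      exact ⟨hi.1, by omega, by omega⟩
    have h1 := Finset.card_le_card hs
    rw [comb_card_up] at h1
    unfold cd
    exact_mod_cast (show 100 * n < (up a ∩ Finset.Ico 0 q₁).card by omega)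
  have hiτ : i ≤ τ := by
    by_contra hlt
    have h1 := comb_cd_add (up a) (Nat.zero_le τ) hτq
    have h2 := comb_cd_le (up a) (Nat.zero_le τ)
    have h3 : (τ : ℝ) + 1 ≤ i := by exact_mod_cast (show τ + 1 ≤ i by omega)
    have h4 : (q₁ : ℝ) ≤ 2000 * (26 * n) := by exact_mod_cast hqN
    have h5 : (0 : ℝ) ≤ τ := Nat.cast_nonneg _
    have h6 : (0 : ℝ) ≤ n := Nat.cast_nonneg _
    push_cast at h2
    linarith
  obtain ⟨q₀, hq₀⟩ : ∃ q₀, τ = q₀ + i := ⟨τ - i, by omega⟩
  have hq₀r : (τ : ℝ) = q₀ + i := by exact_mod_cast hq₀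
  have hq₀τ : q₀ < τ := by omega
  have hm := not_le.1 (hmin q₀ hq₀τ)
  have a1 := comb_cd_add (up a) hq₀τ.le hτq
  have a2 := comb_cd_le (up a) hq₀τ.le
  have u1 := comb_cd_add u hq₀τ.le hτq
  have u2 := comb_cd_nonneg u q₀ τ
  have c1 := comb_cd_cover (up a) (up b) hτq hqN
  have c2 := comb_cd_cover (up a) (up b) (hq₀τ.le.trans hτq) hqN
  rw [← hu] at c1 c2
  have hk : (L : ℝ) ≤ 2 * ((L / 2 : ℕ) : ℝ) + 1 := by
    exact_mod_cast (show L ≤ 2 * (L / 2) + 1 by omega)
  refine ⟨q₀, L, by omega, hL2, by omega, ?_⟩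
  refine h.step q₀ τ q₁ (L / 2) x _ hq₀τ.le (by omega) (by omega) hqN ?_ (fun _ => ?_) hx
  · linarith
  · linarith

theorem Clo.descent {n : ℕ} {a b : Finset ℕ} {G : ℕ → ℝ → Prop}
    (h : Clo (2000 * (26 * n)) (up a) (up b) G) (hB : Bad n a a)
    (hU : 960000000 * (Finset.range (26 * n) \ (a ∪ b)).card ≤ n) :
    ∃ x : ℝ, n / 480000 ≤ x ∧ G 0 x := by
  classical
  set u := Finset.range (2000 * (26 * n)) \ (up a ∪ up b) with hu
  set W := Finset.Ico (25 * n) (26 * n) \ a with hW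
  have key : ∀ q x, G q x → ∃ x', G 0 x' ∧
      x + ((W.filter fun j => 2000 * (j + 1) ≤ q).card : ℝ) / 6000 - cd u 0 q ≤ x' := by
    intro q
    induction q using Nat.strong_induction_on with
    | _ q ih =>
      intro x hx
      rcases (W.filter fun j => 2000 * (j + 1) ≤ q).eq_empty_or_nonempty with he | hne
      · refine ⟨x, h.mono _ _ _ (Nat.zero_le q) hx, ?_⟩
        rw [he, Finset.card_empty]
        have := comb_cd_nonneg u 0 q
        push_cast
        linarith
      · obtain ⟨j, hj, hmax⟩ := Finset.exists_max_image _ (fun j => j) hne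
        simp only [hW, Finset.mem_filter, Finset.mem_sdiff, Finset.mem_Ico] at hj
        obtain ⟨⟨⟨hj1, hj2⟩, hja⟩, hjq⟩ := hj
        obtain ⟨q₀, L, h1, h2, h3, h4⟩ :=
          comb_window h hB.1 hj1 hj2 hja (h.mono _ _ _ hjq hx)
        rw [← hu] at h4
        obtain ⟨x', hx', hle⟩ := ih q₀ (by omega) _ h4
        refine ⟨x', hx', le_trans ?_ hle⟩
        have hs : (W.filter fun j => 2000 * (j + 1) ≤ q) ⊆
            (W.filter fun j => 2000 * (j + 1) ≤ q₀) ∪ Finset.Ico (q₀ / 2000) (j + 1) := by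
          intro i hi
          have hij := hmax i hi
          simp only [Finset.mem_union, Finset.mem_filter, Finset.mem_Ico] at hi ⊢
          by_cases hc : 2000 * (i + 1) ≤ q₀
          · exact Or.inl ⟨hi.1, hc⟩
          · exact Or.inr ⟨by omega, by omega⟩
        have hc := (Finset.card_le_card hs).trans (Finset.card_union_le _ _)
        rw [Nat.card_Ico] at hc
        have hc' : 2000 * (W.filter fun j => 2000 * (j + 1) ≤ q).card ≤
            2000 * (W.filter fun j => 2000 * (j + 1) ≤ q₀).card + 3 * L := by omega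
        have hcr : (2000 : ℝ) * (W.filter fun j => 2000 * (j + 1) ≤ q).card ≤
            2000 * (W.filter fun j => 2000 * (j + 1) ≤ q₀).card + 3 * L := by exact_mod_cast hc'
        have u1 := comb_cd_add u (Nat.zero_le q₀) h1.le
        have u2 := comb_cd_add u (Nat.zero_le _) hjq
        have u3 := comb_cd_nonneg u (2000 * (j + 1)) q
        linarith
  obtain ⟨x, hx, hle⟩ := key _ _ h.top
  refine ⟨x, le_trans ?_ hle, hx⟩
  have hf : (W.filter fun j => 2000 * (j + 1) ≤ 2000 * (26 * n)) = W := by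
    refine Finset.filter_true_of_mem fun j hj => ?_
    simp only [hW, Finset.mem_sdiff, Finset.mem_Ico] at hj
    omega
  have hWc : n < 40 * W.card := by
    have h1 := Finset.card_sdiff_add_card_inter (Finset.Ico (25 * n) (26 * n)) a
    have h2 := hB.2
    rw [Nat.card_Ico, Finset.inter_comm, ← hW] at h1
    omega
  have hus : u ∩ Finset.Ico 0 (2000 * (26 * n)) ⊆ up (Finset.range (26 * n) \ (a ∪ b)) := by
    intro i hi
    simp only [hu, mem_up, Finset.mem_inter, Finset.mem_sdiff, Finset.mem_range,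
      Finset.mem_union, Finset.mem_Ico] at hi ⊢
    exact ⟨by omega, hi.1.2⟩
  have huc := Finset.card_le_card hus
  rw [comb_card_up] at huc
  have hur : 480000 * cd u 0 (2000 * (26 * n)) ≤ n := by
    unfold cd
    exact_mod_cast (show 480000 * (u ∩ Finset.Ico 0 (2000 * (26 * n))).card ≤ n by omega)
  have hWr : (n : ℝ) < 40 * W.card := by exact_mod_cast hWc
  rw [hf]
  linarith

end Pool.Agent.Lib.MP_a52643_an.NS
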