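import Pool.Agent.Lib.MP_a52643_an.NS.Step
import Pool.Agent.Lib.MP_a52643_an.NS.Comb

/-!
The uncertainty principle for forbidden pairs of patterns.
-/

open MeasureTheory Set Filter Topology Metric UpperHalfPlane
open scoped ENNReal MatrixGroups Real FourierTransform ComplexConjugate

noncomputable section

namespace Pool.Agent.Lib.MP_a52643_an.NS

lemma fup_card (a : Finset ℕ) : (up a).card = 2000 * a.card := by
  rw [up, Finset.card_biUnion]
  · simp only [Nat.card_Ico]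
    rw [Finset.sum_congr rfl (g := fun _ => 2000) fun j _ => by omega]
    simp [mul_comm]
  · intro i _ j _ hij
    refine Finset.disjoint_left.2 fun x h1 h2 => hij ?_
    simp only [Finset.mem_Ico] at h1 h2
    omega

lemma fup_cd {N : ℕ} {a b : Finset ℕ} (ha : a ⊆ Finset.range N) :
    cd (up a ∩ up b) 0 (2000 * N) = 2000 * (a ∩ b).card := by
  have : up a ∩ up b ∩ Finset.Ico 0 (2000 * N) = up (a ∩ b) := by
    ext i
    simp only [Finset.mem_inter, mem_up, Finset.mem_Ico]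
    refine ⟨fun h => h.1, fun h => ⟨h, Nat.zero_le _, ?_⟩⟩
    have := Finset.mem_range.1 (ha h.1)
    omega
  rw [cd, this, fup_card]; push_cast; ring

lemma fup_bit {L : Set SL2} {t t' ℓ : ℝ} (ht : t' ≤ t) {N : ℕ} {g : SL2} {i : ℕ}
    (hi : i ∈ up (pat L t' ℓ N g)) :
    near L t (bp (g * aG (i * ℓ))) (bp (g * aG (i * ℓ + ℓ))) := by
  classical
  have h1 := (Finset.mem_filter.1 (mem_up.1 hi)).2 (i % 2000) (Nat.mod_lt _ (by norm_num))
  have e : ((i / 2000 : ℕ) : ℝ) * (2000 * ℓ) + ((i % 2000 : ℕ) : ℝ) * ℓ = i * ℓ := by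
    have : (i : ℝ) = 2000 * ((i / 2000 : ℕ) : ℝ) + ((i % 2000 : ℕ) : ℝ) := by
      exact_mod_cast (Nat.div_add_mod i 2000).symm
    rw [this]; ring
  rw [sb, mul_assoc, ← aG_add, e, mul_assoc, ← aG_add] at h1
  exact h1.mono ht

theorem Geo.fupm {Λ L : Set SL2} (G : Geo Λ L) {t c : ℝ} (ht : 1 ≤ t)
    (hc : 1 / 384000000000 ≤ c) :
    ∃ ℓ₁ : ℝ, 1 ≤ ℓ₁ ∧ ∀ ℓ ≥ ℓ₁, ∀ n N : ℕ, N ≤ 26 * n → ∀ (g₁ g₂ : SL2) (τ : ℝ) (a b : Finset ℕ),
      a ⊆ Finset.range N → b ⊆ Finset.range N → Forb c n N a b →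
      UP (Zt L t ℓ g₂ τ (up a)) (Zs L t ℓ g₁ τ (up b)) (Real.exp (-n) / 4 ^ N) := by
  obtain ⟨C, ℓ₀, hC, h0, H⟩ := G.step ht
  have hl : 0 ≤ Real.log C := Real.log_nonneg hC
  refine ⟨max ℓ₀ ((52000 * Real.log C + 79) * 10 ^ 9), h0.trans (le_max_left _ _),
    fun ℓ hℓ n N hN g₁ g₂ τ a b ha hb hF => ?_⟩
  have h1 := (le_max_left _ _).trans hℓ
  have h2 := (le_max_right _ _).trans hℓ
  have l0 : 0 ≤ ℓ := by linarith
  set C' := C * Real.exp (3 * ℓ / 10 ^ 14) with hC'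
  have c1 : 1 ≤ C' := one_le_mul_of_one_le_of_one_le hC (Real.one_le_exp (by positivity))
  have cl : Clo (2000 * N) (up a) (up b) fun q x =>
      UP (nb (Zt L t ℓ g₂ τ (up a)) (Real.exp (τ + q * ℓ))) (Zs L t ℓ g₁ τ (up b))
        (C' ^ (2000 * N - q) * Real.exp (-(ℓ * x))) := by
    refine ⟨by simpa using UP_one _ _, fun q q' x hq h => h.mono ?_ subset_rfl ?_,
      fun q₀ q q₁ k x y a1 a2 a3 a4 a5 a6 h => ?_⟩
    · rintro z ⟨z', hz, hd⟩
      refine ⟨z', hz, hd.trans (Real.exp_le_exp.2 ?_)⟩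
      have : (q' : ℝ) ≤ q := by exact_mod_cast hq
      nlinarith
    · exact mul_le_mul_of_nonneg_right (pow_le_pow_right₀ c1 (by omega)) (Real.exp_pos _).le
    · refine (H ℓ h1 g₁ g₂ τ _ _ q₀ q q₁ k y _ a1 a2 a3 (by positivity) a5 a6 h).mono subset_rfl
        subset_rfl (le_of_eq ?_)
      rw [show 2000 * N - q₀ = (q₁ - q₀) + (2000 * N - q₁) by omega, pow_add, mul_add, neg_add,
        Real.exp_add]
      ring
  obtain ⟨x, hx, h⟩ : ∃ x : ℝ, n / 192000000 ≤ x ∧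
      UP (nb (Zt L t ℓ g₂ τ (up a)) (Real.exp (τ + (0 : ℕ) * ℓ))) (Zs L t ℓ g₁ τ (up b))
        (C' ^ (2000 * N - 0) * Real.exp (-(ℓ * x))) := by
    have n0 : (0 : ℝ) ≤ n := Nat.cast_nonneg n
    rcases hF with hF | ⟨rfl, hB, hU⟩
    · refine ⟨_, ?_, cl.overlap⟩
      rw [fup_cd ha]
      nlinarith [mul_le_mul_of_nonneg_right hc n0]
    · obtain ⟨x, hx, h⟩ := cl.descent hB hU
      exact ⟨x, by linarith, h⟩
  refine h.mono (fun z hz => ⟨z, hz, by simpa using (Real.exp_pos _).le⟩) subset_rfl ?_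
  have n0 : (0 : ℝ) ≤ n := Nat.cast_nonneg n
  have nN : (N : ℝ) ≤ 26 * n := by exact_mod_cast hN
  have e1 : C' ^ (2000 * N - 0) = Real.exp ((2000 * N : ℕ) * (Real.log C + 3 * ℓ / 10 ^ 14)) := by
    rw [Real.exp_nat_mul, Real.exp_add, Real.exp_log (by linarith), Nat.sub_zero]
  have e2 : (4 : ℝ) ^ N ≤ Real.exp (N * 3) := by
    rw [Real.exp_nat_mul]
    exact pow_le_pow_left₀ (by norm_num) (by linarith [Real.add_one_le_exp (3 : ℝ)]) N
  rw [le_div_iff₀ (by positivity), e1]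
  refine (mul_le_mul_of_nonneg_left e2 (by positivity)).trans ?_
  rw [← Real.exp_add, ← Real.exp_add, Real.exp_le_exp]
  push_cast
  have b1 : (N : ℝ) * (2000 * (Real.log C + 3 * ℓ / 10 ^ 14) + 3)
      ≤ 26 * n * (2000 * (Real.log C + 3 * ℓ / 10 ^ 14) + 3) :=
    mul_le_mul_of_nonneg_right nN (by positivity)
  have b2 := mul_le_mul_of_nonneg_left hx l0
  have b3 := mul_le_mul_of_nonneg_left h2 n0
  have b4 := mul_nonneg n0 l0
  nlinarith

theorem Geo.fupu {Λ L : Set SL2} (G : Geo Λ L) {t c : ℝ} (ht : 1 ≤ t)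
    (hc : 1 / 384000000000 ≤ c) :
    ∃ ℓ₁ : ℝ, 1 ≤ ℓ₁ ∧ ∀ ℓ ≥ ℓ₁, ∀ n N : ℕ, N ≤ 26 * n → ∀ (Φ Φ' : Finset ℕ → Prop) (t₁ t₂ : ℝ),
      t₁ ≤ t → t₂ ≤ t →
      (∀ a b, a ⊆ Finset.range N → b ⊆ Finset.range N → Φ a → Φ' b → Forb c n N a b) →
      ∀ (g : SL2) (p lam : ℝ),
        UP {x | Φ' (pat L t₂ ℓ N (g * uG x * aG (p + lam)))}
          {ξ | Φ (pat L t₁ ℓ N (g * vG (-(ξ / Real.exp lam)) * aG p))} (Real.exp (-n)) := by
  classical
  obtain ⟨ℓ₁, h1, H⟩ := G.fupm ht hc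
  refine ⟨ℓ₁, h1, fun ℓ hℓ n N hN Φ Φ' t₁ t₂ a1 a2 hF g p lam => ?_⟩
  set sa := (Finset.range N).powerset.filter Φ
  set sb := (Finset.range N).powerset.filter Φ'
  have ca : ∀ Ψ : Finset ℕ → Prop, (((Finset.range N).powerset.filter Ψ).card : ℝ) ≤ 2 ^ N :=
    fun Ψ => by
      have := Finset.card_filter_le (Finset.range N).powerset Ψ
      rw [Finset.card_powerset, Finset.card_range] at this
      exact_mod_cast this
  have k1 : ∀ a ∈ sa, UP (⋃ b ∈ sb, Zs L t ℓ g (p + lam) (up b))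
      (Zt L t ℓ (g * wG * aG lam) (p + lam) (up a)) (sb.card * (Real.exp (-n) / 4 ^ N)) :=
    fun a ha => by
      obtain ⟨a3, a4⟩ := Finset.mem_filter.1 ha
      refine (UP.biUnion_right fun b hb => ?_).symm (isOpen_Zt _ _ _ _ _ _).measurableSet
      obtain ⟨b3, b4⟩ := Finset.mem_filter.1 hb
      exact H ℓ hℓ n N hN _ _ _ a b (Finset.mem_powerset.1 a3) (Finset.mem_powerset.1 b3)
        (hF a b (Finset.mem_powerset.1 a3) (Finset.mem_powerset.1 b3) a4 b4)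
  refine (UP.biUnion_right k1).mono (fun x hx => ?_) (fun ξ hξ => ?_) ?_
  · refine mem_biUnion (Finset.mem_coe.2 (Finset.mem_filter.2
      ⟨Finset.mem_powerset.2 (Finset.filter_subset _ _), hx⟩)) fun i hi => ?_
    have := (fup_bit a2 hi).symm
    rw [mul_assoc _ (aG _), mul_assoc _ (aG _), ← aG_add, ← aG_add, bp_uG_aG, bp_uG_aG] at this
    unfold nr
    convert this using 3 <;> ring
  · refine mem_biUnion (Finset.mem_coe.2 (Finset.mem_filter.2
      ⟨Finset.mem_powerset.2 (Finset.filter_subset _ _), hξ⟩)) fun i hi => ?_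
    have := fup_bit a1 hi
    rw [mul_assoc _ (aG _), mul_assoc _ (aG _), ← aG_add, ← aG_add, bp_vG_aG, bp_vG_aG] at this
    unfold nr
    rw [mul_smul (g * wG), mul_smul (g * wG), aG_pt, aG_pt, Real.exp_neg]
    convert this using 3 <;> ring
  · have e : (4 : ℝ) ^ N = 2 ^ N * 2 ^ N := by rw [← mul_pow]; norm_num
    calc _ ≤ (2 : ℝ) ^ N * (2 ^ N * (Real.exp (-n) / 4 ^ N)) := by
          gcongr
          exacts [ca Φ, ca Φ']
      _ = _ := by rw [e]; field_simp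

end Pool.Agent.Lib.MP_a52643_an.NS
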