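import Pool.Agent.Lib.MP_a52643_an.NS.Defs

/-!
Plancherel identity and first consequences.
-/

open MeasureTheory Set Filter Topology Metric UpperHalfPlane
open scoped ENNReal MatrixGroups Real FourierTransform ComplexConjugate

noncomputable section

namespace Pool.Agent.Lib.MP_a52643_an.NS

lemma continuous_ft {f : ℝ → ℂ} (hf : Integrable f) : Continuous (𝓕 f) :=
  VectorFourier.fourierIntegral_continuous Real.continuous_fourierChar (L := innerₗ ℝ)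
    continuous_inner hf

lemma norm_ft_le (f : ℝ → ℂ) (ξ : ℝ) : ‖𝓕 f ξ‖ ≤ ∫ x, ‖f x‖ :=
  VectorFourier.norm_fourierIntegral_le_integral_norm _ _ (innerₗ ℝ) f ξ

lemma ft_swap {f g : ℝ → ℂ} (hf : Integrable f) (hg : Integrable g) :
    ∫ ξ, 𝓕 f ξ * g ξ = ∫ x, f x * 𝓕 g x := by
  simpa using! VectorFourier.integral_fourierIntegral_smul_eq_flip (L := innerₗ ℝ)
    Real.continuous_fourierChar continuous_inner hf hg

lemma fou_n2 (f : ℝ → ℂ) : n2 f = eLpNorm f 2 volume ^ 2 := by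
  rw [eLpNorm_eq_lintegral_rpow_enorm_toReal two_ne_zero ENNReal.ofNat_ne_top, ← ENNReal.rpow_natCast,
    ← ENNReal.rpow_mul]
  simp [n2]

lemma fou_ae {f : ℝ → ℂ} (h1 : Integrable f) (h2 : MemLp f 2) :
    𝓕 f =ᵐ[volume] (𝓕 (h2.toLp f) : Lp ℂ 2 (volume : Measure ℝ)) := by
  refine ae_eq_of_integral_contDiff_smul_eq (continuous_ft h1).locallyIntegrable
    ((Lp.memLp _).locallyIntegrable one_le_two) fun g g1 g2 => ?_
  have k1 : HasCompactSupport (Complex.ofRealCLM ∘ g) := g2.comp_left rfl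
  have k2 := Complex.ofRealCLM.contDiff.comp g1
  have e := congrArg (fun T => T (k1.toSchwartzMap k2))
    (Lp.fourier_toTemperedDistribution_eq (h2.toLp f))
  simp only [TemperedDistribution.fourier_apply, Lp.toTemperedDistribution_apply] at e
  have s := ft_swap h1 (k1.toSchwartzMap k2).integrable
  calc ∫ x, g x • 𝓕 f x = ∫ x, 𝓕 f x * k1.toSchwartzMap k2 x :=
        integral_congr_ae (Eventually.of_forall fun x => by simp [mul_comm])
    _ = ∫ x, 𝓕 (k1.toSchwartzMap k2) x • h2.toLp f x := by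
        rw [s]
        refine integral_congr_ae ?_
        filter_upwards [h2.coeFn_toLp] with x hx
        rw [hx, smul_eq_mul, mul_comm, SchwartzMap.fourier_coe]
    _ = _ := by
        rw [e]
        exact integral_congr_ae (Eventually.of_forall fun x => by simp)

theorem plancherel {f : ℝ → ℂ} (h1 : Integrable f) (h2 : MemLp f 2) : n2 (𝓕 f) = n2 f := by
  rw [fou_n2, fou_n2, eLpNorm_congr_ae (fou_ae h1 h2), ← Lp.enorm_def, ← ofReal_norm,
    Lp.norm_fourier_eq, ofReal_norm, Lp.enorm_toLp]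

lemma Nice.memLp' {f : ℝ → ℂ} (hf : Nice f) (p : ℝ≥0∞) : MemLp f p := by
  obtain ⟨B, hB⟩ := hf.bdd
  obtain ⟨R, hR⟩ := hf.supp
  have e : f = (Icc (-R) R).indicator f := by
    funext x
    by_cases hx : x ∈ Icc (-R) R
    · rw [indicator_of_mem hx]
    · rw [indicator_of_notMem hx, hR x (not_le.1 fun h => hx (abs_le.1 h))]
  rw [e, memLp_indicator_iff_restrict measurableSet_Icc]
  exact MemLp.of_bound hf.meas.aestronglyMeasurable B (Eventually.of_forall hB)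

lemma Nice.integrable {f : ℝ → ℂ} (hf : Nice f) : Integrable f :=
  memLp_one_iff_integrable.1 (hf.memLp' 1)

lemma Nice.memLp {f : ℝ → ℂ} (hf : Nice f) : MemLp f 2 := hf.memLp' 2

lemma Nice.n2_ne_top {f : ℝ → ℂ} (hf : Nice f) : n2 f ≠ ⊤ := by
  rw [fou_n2]
  exact ENNReal.pow_ne_top hf.memLp.2.ne

lemma Nice.plancherel {f : ℝ → ℂ} (hf : Nice f) : n2 (𝓕 f) = n2 f :=
  NS.plancherel hf.integrable hf.memLp

lemma Nice.mul_right {f g : ℝ → ℂ} (hf : Nice f) (hg : Measurable g) {B : ℝ}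
    (hB : ∀ x, ‖g x‖ ≤ B) : Nice fun x => f x * g x := by
  obtain ⟨A, hA⟩ := hf.bdd
  obtain ⟨R, hR⟩ := hf.supp
  refine ⟨hf.meas.mul hg, ⟨A * B, fun x => ?_⟩, R, fun x hx => by rw [hR x hx, zero_mul]⟩
  rw [norm_mul]
  exact mul_le_mul (hA x) (hB x) (norm_nonneg _) ((norm_nonneg _).trans (hA x))

lemma Nice.indicator {f : ℝ → ℂ} (hf : Nice f) {s : Set ℝ} (hs : MeasurableSet s) :
    Nice (s.indicator f) := by
  obtain ⟨A, hA⟩ := hf.bdd
  obtain ⟨R, hR⟩ := hf.supp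
  exact ⟨hf.meas.indicator hs, ⟨A, fun x => (norm_indicator_le_norm_self f x).trans (hA x)⟩, R,
    fun x hx => indicator_apply_eq_zero.2 fun _ => hR x hx⟩

lemma fou_sq (a : ℂ) : ‖a‖ₑ ^ 2 = ENNReal.ofReal (‖a‖ ^ 2) := by
  rw [ENNReal.ofReal_pow (norm_nonneg a), ofReal_norm]

lemma enorm_sq_le (a b : ℂ) {θ : ℝ} (hθ : 0 < θ) : ‖a‖ₑ ^ 2
    ≤ ENNReal.ofReal (1 + θ) * ‖b‖ₑ ^ 2 + ENNReal.ofReal (1 + θ⁻¹) * ‖a - b‖ₑ ^ 2 := by
  rw [fou_sq, fou_sq, fou_sq, ← ENNReal.ofReal_mul (by positivity),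
    ← ENNReal.ofReal_mul (by positivity), ← ENNReal.ofReal_add (by positivity) (by positivity)]
  refine ENNReal.ofReal_le_ofReal ?_
  have h1 : ‖a‖ ≤ ‖b‖ + ‖a - b‖ := norm_le_insert' a b
  have h2 := pow_le_pow_left₀ (norm_nonneg a) h1 2
  have h3 : 0 ≤ θ⁻¹ * (θ * ‖b‖ - ‖a - b‖) ^ 2 := by positivity
  have h4 : θ⁻¹ * (θ * ‖b‖ - ‖a - b‖) ^ 2
      = θ * ‖b‖ ^ 2 - 2 * (‖b‖ * ‖a - b‖) + θ⁻¹ * ‖a - b‖ ^ 2 := by
    field_simp
    ring
  nlinarith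

lemma enorm_sq_add3 (a b c : ℂ) :
    ‖a + b + c‖ₑ ^ 2 ≤ 3 * (‖a‖ₑ ^ 2 + ‖b‖ₑ ^ 2 + ‖c‖ₑ ^ 2) := by
  rw [fou_sq, fou_sq, fou_sq, fou_sq, ← ENNReal.ofReal_add (by positivity) (by positivity),
    ← ENNReal.ofReal_add (by positivity) (by positivity), ← ENNReal.ofReal_ofNat,
    ← ENNReal.ofReal_mul (by positivity)]
  refine ENNReal.ofReal_le_ofReal ?_
  have h1 : ‖a + b + c‖ ≤ ‖a‖ + ‖b‖ + ‖c‖ := norm_add₃_le
  have h2 := pow_le_pow_left₀ (norm_nonneg _) h1 2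
  nlinarith [sq_nonneg (‖a‖ - ‖b‖), sq_nonneg (‖a‖ - ‖c‖), sq_nonneg (‖b‖ - ‖c‖)]

/-- Cauchy-Schwarz inequality -/
lemma enorm_integral_sq_le {f g : ℝ → ℂ} (hf : AEMeasurable f) (hg : AEMeasurable g) :
    ‖∫ x, f x * g x‖ₑ ^ 2 ≤ n2 f * n2 g := by
  have h := ENNReal.lintegral_mul_le_Lp_mul_Lq volume Real.HolderConjugate.two_two hf.enorm hg.enorm
  have h0 : ‖∫ x, f x * g x‖ₑ ≤ ∫⁻ x, ((fun x => ‖f x‖ₑ) * fun x => ‖g x‖ₑ) x :=
    (enorm_integral_le_lintegral_enorm _).trans (le_of_eq (lintegral_congr fun x => enorm_mul _ _))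
  refine (pow_le_pow_left' (h0.trans h) 2).trans (le_of_eq ?_)
  rw [mul_pow, ← ENNReal.rpow_natCast, ← ENNReal.rpow_natCast, ← ENNReal.rpow_mul,
    ← ENNReal.rpow_mul]
  simp [n2]

end Pool.Agent.Lib.MP_a52643_an.NS
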