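import Pool.Agent.Lib.MP_a52643_an.NS.Osc
import Pool.Agent.Lib.MP_a52643_an.NS.Fou

/-!
Almost orthogonality of the pieces.
-/

open MeasureTheory Set Filter Topology Metric UpperHalfPlane
open scoped ENNReal MatrixGroups Real FourierTransform ComplexConjugate

noncomputable section

namespace Pool.Agent.Lib.MP_a52643_an.NS

lemma decay_den {h : SL2} (hh : Cl h) {z : ℝ} (hz : z ∈ Icc (0 : ℝ) 1) :
    0 < ec h * z + ed h := by
  obtain ⟨-, -, h3, h4⟩ := hh
  have h3 := abs_le.1 h3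
  have h4 := abs_le.1 h4
  nlinarith [hz.1, hz.2]

lemma decay_deriv {h : SL2} (hh : Cl h) {z : ℝ} (hz : z ∈ Icc (0 : ℝ) 1) :
    HasDerivAt (mob h) ((ec h * z + ed h) ^ 2)⁻¹ z := by
  have hD := decay_den hh hz
  have h1 : HasDerivAt (fun z => ea h * z + eb h) (ea h) z := by
    simpa using ((hasDerivAt_id z).const_mul (ea h)).add_const (eb h)
  have h2 : HasDerivAt (fun z => ec h * z + ed h) (ec h) z := by
    simpa using ((hasDerivAt_id z).const_mul (ec h)).add_const (ed h)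
  have h3 := h1.div h2 hD.ne'
  have e : (ea h * (ec h * z + ed h) - (ea h * z + eb h) * ec h) / (ec h * z + ed h) ^ 2
      = ((ec h * z + ed h) ^ 2)⁻¹ := by
    rw [show ea h * (ec h * z + ed h) - (ea h * z + eb h) * ec h = 1 by
      linear_combination det_eq h, one_div]
  rw [e] at h3
  exact h3

lemma decay_mono {h : SL2} (hh : Cl h) : StrictMonoOn (mob h) (Icc (0 : ℝ) 1) := by
  intro x hx y hy hxy
  unfold mob
  rw [div_lt_div_iff₀ (decay_den hh hx) (decay_den hh hy)]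
  have e : (ea h * y + eb h) * (ec h * x + ed h) - (ea h * x + eb h) * (ec h * y + ed h)
      = y - x := by linear_combination (y - x) * det_eq h
  linarith

lemma decay_image {h : SL2} (hh : Cl h) :
    mob h '' Ico (0 : ℝ) 1 = Ico (mob h 0) (mob h 1) :=
  ContinuousOn.image_Ico_of_strictMonoOn zero_le_one
    (fun _ hz => (decay_deriv hh hz).continuousAt.continuousWithinAt) (decay_mono hh)

lemma decay_inv {h : SL2} (hh : Cl h) {z : ℝ} (hz : z ∈ Icc (0 : ℝ) 1) :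
    mob h⁻¹ (mob h z) = z := by
  have hD := (decay_den hh hz).ne'
  have hd := det_eq h
  have hi := mul_inv_cancel₀ hD
  have e1 : ed h * mob h z + -eb h = z * (ec h * z + ed h)⁻¹ := by
    rw [mob, div_eq_mul_inv]
    linear_combination z * (ec h * z + ed h)⁻¹ * hd + eb h * hi
  have e2 : -ec h * mob h z + ea h = (ec h * z + ed h)⁻¹ := by
    rw [mob, div_eq_mul_inv]
    linear_combination (ec h * z + ed h)⁻¹ * hd - ea h * hi
  rw [mob, ea_inv, eb_inv, ec_inv, ed_inv, e1, e2, mul_div_cancel_right₀ _ (inv_ne_zero hD)]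

lemma decay_ends {h : SL2} (hh : Cl h) :
    -1 ≤ mob h 0 ∧ mob h 0 ≤ 1 / 2 ∧ 1 / 2 ≤ mob h 1 ∧ mob h 1 ≤ 2 := by
  have d0 := decay_den hh (z := 0) ⟨le_rfl, zero_le_one⟩
  have d1 := decay_den hh (z := 1) ⟨zero_le_one, le_rfl⟩
  obtain ⟨h1, h2, h3, h4⟩ := hh
  have h1 := abs_le.1 h1
  have h2 := abs_le.1 h2
  have h3 := abs_le.1 h3
  have h4 := abs_le.1 h4
  unfold mob
  refine ⟨?_, ?_, ?_, ?_⟩
  · rw [le_div_iff₀ d0]; linarith
  · rw [div_le_iff₀ d0]; linarith
  · rw [le_div_iff₀ d1]; linarith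
  · rw [div_le_iff₀ d1]; linarith

lemma decay_sub {h : SL2} (hh : Cl h) : Ico (mob h 0) (mob h 1) ⊆ Icc (-1) 2 := fun _ hw =>
  ⟨(decay_ends hh).1.trans hw.1, hw.2.le.trans (decay_ends hh).2.2.2⟩

lemma decay_change {F : Type} [NormedAddCommGroup F] [NormedSpace ℝ F] {h : SL2} (hh : Cl h)
    (g : ℝ → F) : ∫ w in Ico (mob h 0) (mob h 1), g w
      = ∫ z in Ico (0 : ℝ) 1, ((ec h * z + ed h) ^ 2)⁻¹ • g (mob h z) := by
  rw [← decay_image hh, integral_image_eq_integral_abs_deriv_smul measurableSet_Ico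
    (fun z hz => (decay_deriv hh (Ico_subset_Icc_self hz)).hasDerivWithinAt)
    ((decay_mono hh).injOn.mono Ico_subset_Icc_self)]
  refine setIntegral_congr_fun measurableSet_Ico fun z _ => ?_
  rw [abs_of_nonneg (by positivity)]

lemma decay_meas (h : SL2) : Measurable (mob h) := by
  unfold mob; fun_prop

/-- the piece attached to `h` -/
def decayP (h : SL2) (Ω : ℝ) : ℝ → ℂ :=
  (Ico (mob h 0) (mob h 1)).indicator fun w => ee (Ω * mob h⁻¹ w)

lemma decay_measP (h : SL2) (Ω : ℝ) : Measurable (decayP h Ω) :=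
  (continuous_ee.measurable.comp ((decay_meas h⁻¹).const_mul Ω)).indicator measurableSet_Ico

lemma decay_normP (h : SL2) (Ω w : ℝ) : ‖decayP h Ω w‖ ≤ 1 := by
  unfold decayP
  by_cases hw : w ∈ Ico (mob h 0) (mob h 1)
  · rw [indicator_of_mem hw, norm_ee]
  · rw [indicator_of_notMem hw, norm_zero]; exact zero_le_one

lemma decay_term {h : SL2} (hh : Cl h) (W : Set ℝ) (Ω : ℝ) :
    ∫ z in Ico (0 : ℝ) 1, (W.indicator 1 (mob h z) * ((ec h * z + ed h) ^ 2)⁻¹ : ℝ) * ee (Ω * z)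
      = ∫ w in Icc (-1 : ℝ) 2, ((W.indicator 1 w : ℝ) : ℂ) * decayP h Ω w := by
  have e : (fun w => ((W.indicator 1 w : ℝ) : ℂ) * decayP h Ω w)
      = (Ico (mob h 0) (mob h 1)).indicator
        fun w => ((W.indicator 1 w : ℝ) : ℂ) * ee (Ω * mob h⁻¹ w) := by
    ext w
    rw [decayP, indicator_mul_right]
  rw [e, setIntegral_indicator measurableSet_Ico, inter_eq_right.2 (decay_sub hh),
    decay_change hh]
  refine setIntegral_congr_fun measurableSet_Ico fun z hz => ?_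
  rw [decay_inv hh (Ico_subset_Icc_self hz), Complex.real_smul]
  push_cast
  ring

lemma decay_conj (t : ℝ) : conj (ee t) = ee (-t) := by
  rw [ee, ee, ← Complex.exp_conj]
  congr 1
  rw [map_mul, Complex.conj_ofReal, Complex.conj_I]
  push_cast
  ring

lemma decay_pair {h h' : SL2} (hh : Cl h) (hh' : Cl h') (Ω : ℝ) :
    ∫ w in Icc (-1 : ℝ) 2, decayP h Ω w * conj (decayP h' Ω w)
      = ∫ w in max (mob h 0) (mob h' 0)..min (mob h 1) (mob h' 1),
        ee (Ω * (mob h⁻¹ w - mob h'⁻¹ w)) := by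
  obtain ⟨a1, a2, a3, a4⟩ := decay_ends hh
  obtain ⟨b1, b2, b3, b4⟩ := decay_ends hh'
  have hle : max (mob h 0) (mob h' 0) ≤ min (mob h 1) (mob h' 1) :=
    (max_le a2 b2).trans (le_min a3 b3)
  have e : (fun w => decayP h Ω w * conj (decayP h' Ω w))
      = (Ico (max (mob h 0) (mob h' 0)) (min (mob h 1) (mob h' 1))).indicator
        fun w => ee (Ω * (mob h⁻¹ w - mob h'⁻¹ w)) := by
    ext w
    rw [← Ico_inter_Ico, decayP, decayP]
    by_cases h1 : w ∈ Ico (mob h 0) (mob h 1)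
    · by_cases h2 : w ∈ Ico (mob h' 0) (mob h' 1)
      · rw [indicator_of_mem h1, indicator_of_mem h2, indicator_of_mem (mem_inter h1 h2),
          decay_conj, ← ee_add]
        congr 1; ring
      · rw [indicator_of_notMem h2, indicator_of_notMem (notMem_subset inter_subset_right h2), map_zero, mul_zero]
    · rw [indicator_of_notMem h1, indicator_of_notMem (notMem_subset inter_subset_left h1), zero_mul]
  rw [e, setIntegral_indicator measurableSet_Ico, inter_eq_right.2, intervalIntegral.integral_of_le hle,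
    integral_Ico_eq_integral_Ioo, integral_Ioc_eq_integral_Ioo]
  intro w hw
  exact ⟨a1.trans ((le_max_left _ _).trans hw.1), hw.2.le.trans ((min_le_left _ _).trans a4)⟩

lemma decay_cs (S : Finset ℕ) (μ : Measure ℝ) [IsFiniteMeasure μ] (hμ : μ.real univ = 3)
    (φ : ℕ → ℝ → ℂ) (hm : ∀ m, Measurable (φ m)) (hb : ∀ m x, ‖φ m x‖ ≤ 1) (c : ℕ → ℂ)
    (hc : ∀ m, ‖c m‖ ≤ 1) (χ : ℝ → ℂ) (hχ : Measurable χ) (hχ1 : ∀ x, ‖χ x‖ ≤ 1) :
    ‖∑ m ∈ S, c m * ∫ x, χ x * φ m x ∂μ‖ ^ 2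
      ≤ 3 * ∑ m ∈ S, ∑ m' ∈ S, ‖∫ x, φ m x * conj (φ m' x) ∂μ‖ := by
  have i1 : ∀ m, Integrable (fun x => c m * (χ x * φ m x)) μ := fun m =>
    (Integrable.of_bound (hχ.mul (hm m)).aestronglyMeasurable 1 (ae_of_all _ fun x => by
      rw [Pi.mul_apply, norm_mul]; exact mul_le_one₀ (hχ1 x) (norm_nonneg _) (hb m x))).const_mul _
  have i2 : ∀ m m', Integrable (fun x => φ m x * conj (φ m' x)) μ := fun m m' =>
    Integrable.of_bound ((hm m).mul (Complex.continuous_conj.measurable.comp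
      (hm m'))).aestronglyMeasurable 1 (ae_of_all _ fun x => by
      rw [norm_mul, Complex.norm_conj]; exact mul_le_one₀ (hb m x) (norm_nonneg _) (hb m' x))
  set Φ : ℝ → ℂ := fun x => ∑ m ∈ S, c m * φ m x with hΦ
  have mΦ : Measurable Φ := Finset.measurable_sum _ fun m _ => (hm m).const_mul _
  have bΦ : ∀ x, ‖Φ x‖ ≤ S.card := fun x => by
    refine (norm_sum_le _ _).trans ?_
    rw [Finset.card_eq_sum_ones, Nat.cast_sum]
    refine Finset.sum_le_sum fun m _ => ?_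
    rw [norm_mul, Nat.cast_one]
    exact mul_le_one₀ (hc m) (norm_nonneg _) (hb m x)
  have j1 : Integrable (fun x => ‖Φ x‖) μ :=
    (Integrable.of_bound mΦ.aestronglyMeasurable _ (ae_of_all _ bΦ)).norm
  have j2 : Integrable (fun x => ‖Φ x‖ ^ 2) μ :=
    Integrable.of_bound (mΦ.norm.pow_const 2).aestronglyMeasurable ((S.card : ℝ) ^ 2)
      (ae_of_all _ fun x => by
        rw [norm_pow, norm_norm]; exact pow_le_pow_left₀ (norm_nonneg _) (bΦ x) 2)
  set A := ∫ x, ‖Φ x‖ ∂μ with hA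
  have s1 : ‖∑ m ∈ S, c m * ∫ x, χ x * φ m x ∂μ‖ ≤ A := by
    simp_rw [← integral_const_mul]
    rw [← integral_finsetSum _ fun m _ => i1 m]
    refine norm_integral_le_of_norm_le j1 (ae_of_all _ fun x => ?_)
    have e : ∑ m ∈ S, c m * (χ x * φ m x) = χ x * Φ x := by
      rw [hΦ, Finset.mul_sum]
      exact Finset.sum_congr rfl fun m _ => by ring
    rw [e, norm_mul]
    exact mul_le_of_le_one_left (norm_nonneg _) (hχ1 x)
  have s2 : A ^ 2 ≤ 3 * ∫ x, ‖Φ x‖ ^ 2 ∂μ := by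
    have k : ∫ x, 2 * (A / 3) * ‖Φ x‖ ∂μ ≤ ∫ x, ‖Φ x‖ ^ 2 + (A / 3) ^ 2 ∂μ :=
      integral_mono (j1.const_mul _) (j2.add (integrable_const _)) fun x => by
        simp only
        nlinarith [sq_nonneg (‖Φ x‖ - A / 3)]
    rw [integral_const_mul, integral_add j2 (integrable_const _), integral_const, hμ, ← hA,
      smul_eq_mul] at k
    nlinarith
  have s3 : ((∫ x, ‖Φ x‖ ^ 2 ∂μ : ℝ) : ℂ)
      = ∑ m ∈ S, ∑ m' ∈ S, c m * conj (c m') * ∫ x, φ m x * conj (φ m' x) ∂μ := by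
    rw [← integral_complex_ofReal]
    simp_rw [← integral_const_mul]
    rw [Finset.sum_congr rfl fun m _ =>
      (integral_finsetSum S fun m' _ => (i2 m m').const_mul (c m * conj (c m'))).symm,
      ← integral_finsetSum _ fun m _ =>
        integrable_finsetSum S fun m' _ => (i2 m m').const_mul (c m * conj (c m'))]
    refine integral_congr_ae (ae_of_all _ fun x => ?_)
    simp only
    have e : ((‖Φ x‖ ^ 2 : ℝ) : ℂ) = Φ x * conj (Φ x) := by
      rw [Complex.mul_conj, Complex.normSq_eq_norm_sq]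
    refine e.trans ?_
    rw [hΦ]
    simp only [map_sum, map_mul, Finset.sum_mul_sum]
    exact Finset.sum_congr rfl fun m _ => Finset.sum_congr rfl fun m' _ => by ring
  have s4 : ∫ x, ‖Φ x‖ ^ 2 ∂μ ≤ ∑ m ∈ S, ∑ m' ∈ S, ‖∫ x, φ m x * conj (φ m' x) ∂μ‖ := by
    refine (le_abs_self _).trans ?_
    rw [← Real.norm_eq_abs, ← Complex.norm_real, s3]
    refine (norm_sum_le _ _).trans (Finset.sum_le_sum fun m _ =>
      (norm_sum_le _ _).trans (Finset.sum_le_sum fun m' _ => ?_))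
    rw [norm_mul, norm_mul, Complex.norm_conj]
    exact mul_le_of_le_one_left (norm_nonneg _) (mul_le_one₀ (hc m) (norm_nonneg _) (hc m'))
  calc _ ≤ A ^ 2 := pow_le_pow_left₀ (norm_nonneg _) s1 2
    _ ≤ _ := s2.trans (by linarith)

theorem decay : ∃ C : ℝ, 0 ≤ C ∧ ∀ (S : Finset ℕ) (h : ℕ → SL2) (c : ℕ → ℂ) (W : Set ℝ)
    (Ω ρ n : ℝ), MeasurableSet W → (∀ m ∈ S, Cl (h m)) → (∀ m, ‖c m‖ ≤ 1) → 0 < ρ → Ω ≠ 0 →
    (∀ m ∈ S, ((S.filter fun m' =>
      |ea (h m') - ea (h m)| ≤ ρ ∧ |ec (h m') - ec (h m)| ≤ ρ).card : ℝ) ≤ n) →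
    ‖∑ m ∈ S, c m * ∫ z in Ico (0 : ℝ) 1, (W.indicator 1 (mob (h m) z)
        * ((ec (h m) * z + ed (h m)) ^ 2)⁻¹ : ℝ) * ee (Ω * z)‖ ^ 2
      ≤ C * (S.card * n + S.card ^ 2 * (|Ω| * ρ) ^ (-(1 / 3) : ℝ)) := by
  obtain ⟨C, hC, H⟩ := osc
  refine ⟨9 + 3 * C, by positivity, fun S h c W Ω ρ n hW hh hc hρ hΩ hn => ?_⟩
  set X := (|Ω| * ρ) ^ (-(1 / 3) : ℝ) with hX
  have X0 : 0 ≤ X := by positivity
  have hμ : (volume.restrict (Icc (-1 : ℝ) 2)).real univ = 3 := by
    rw [measureReal_restrict_apply_univ, Real.volume_real_Icc]; norm_num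
  rw [Finset.sum_congr rfl fun m hm => by rw [decay_term (hh m hm)]]
  refine (decay_cs S _ hμ (fun m => decayP (h m) Ω) (fun m => decay_measP _ _)
    (fun m => decay_normP _ _) c hc (fun w => ((W.indicator 1 w : ℝ) : ℂ))
    (Complex.measurable_ofReal.comp (measurable_one.indicator hW)) (fun x => ?_)).trans ?_
  · rw [Complex.norm_real]
    by_cases hx : x ∈ W
    · simp [hx]
    · simp [hx]
  have k : ∀ m ∈ S, ∑ m' ∈ S, ‖∫ x in Icc (-1 : ℝ) 2, decayP (h m) Ω x * conj (decayP (h m') Ω x)‖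
      ≤ 3 * n + S.card * (C * X) := fun m hm => by
    have k1 : ∀ m' ∈ S, ‖∫ x in Icc (-1 : ℝ) 2, decayP (h m) Ω x * conj (decayP (h m') Ω x)‖
        ≤ (if |ea (h m') - ea (h m)| ≤ ρ ∧ |ec (h m') - ec (h m)| ≤ ρ then 3 else 0)
          + C * X := fun m' hm' => by
      have CX : 0 ≤ C * X := by positivity
      split_ifs with hcl
      · refine (norm_integral_le_of_norm_le_const (C := 1) (ae_of_all _ fun x => ?_)).trans ?_
        · rw [norm_mul, Complex.norm_conj]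
          exact mul_le_one₀ (decay_normP _ _ _) (norm_nonneg _) (decay_normP _ _ _)
        · rw [hμ]; linarith
      · obtain ⟨a1, a2, a3, a4⟩ := decay_ends (hh m hm)
        obtain ⟨b1, b2, b3, b4⟩ := decay_ends (hh m' hm')
        rw [decay_pair (hh m hm) (hh m' hm'), zero_add]
        refine H _ _ (hh m hm) (hh m' hm') Ω ρ _ _ hρ hΩ ?_ (a1.trans (le_max_left _ _))
          ((max_le a2 b2).trans (le_min a3 b3)) ((min_le_left _ _).trans a4)
        simpa only [not_and_or, not_le] using hcl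
    refine (Finset.sum_le_sum k1).trans ?_
    rw [Finset.sum_add_distrib, ← Finset.sum_filter, Finset.sum_const, Finset.sum_const,
      nsmul_eq_mul, nsmul_eq_mul]
    linarith [hn m hm]
  have k2 := Finset.sum_le_sum k
  rw [Finset.sum_const, nsmul_eq_mul] at k2
  have n0 : 0 ≤ (S.card : ℝ) * n := by
    rcases S.eq_empty_or_nonempty with rfl | ⟨m, hm⟩
    · simp
    · exact mul_nonneg (Nat.cast_nonneg _) ((Nat.cast_nonneg _).trans (hn m hm))
  have n1 : 0 ≤ (S.card : ℝ) ^ 2 * X := by positivity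
  nlinarith [mul_nonneg hC n0]

theorem integral_mob {h : SL2} (hh : Cl h) {W : Set ℝ} (hW : MeasurableSet W) :
    ∫ z in Ico (0 : ℝ) 1, W.indicator 1 (mob h z) * ((ec h * z + ed h) ^ 2)⁻¹
      ≤ (volume (W ∩ Icc (-1) 2)).toReal := by
  have e := decay_change hh (W.indicator (1 : ℝ → ℝ))
  simp only [smul_eq_mul] at e
  simp_rw [mul_comm (W.indicator (1 : ℝ → ℝ) _)]
  rw [← e, integral_indicator_one hW, measureReal_restrict_apply hW]
  refine ENNReal.toReal_mono ?_ (measure_mono (inter_subset_inter_right _ (decay_sub hh)))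
  exact ((measure_mono inter_subset_right).trans_lt measure_Icc_lt_top).ne

end Pool.Agent.Lib.MP_a52643_an.NS
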