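import Pool.Agent.Lib.MP_a52643_an.NS.Defs

/-!
Finite charts, holonomy and packing.
-/

open MeasureTheory Set Filter Topology Metric UpperHalfPlane
open scoped ENNReal MatrixGroups Real FourierTransform ComplexConjugate

noncomputable section

namespace Pool.Agent.Lib.MP_a52643_an.NS

lemma net_floor {x y δ : ℝ} (hδ : 0 < δ) (h : ⌊x / δ⌋ = ⌊y / δ⌋) : |x - y| ≤ δ := by
  have h1 := Int.abs_sub_lt_one_of_floor_eq_floor h
  rw [← sub_div, abs_div, abs_of_pos hδ, div_lt_one hδ] at h1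
  exact h1.le

lemma net_two {p q x y M δ : ℝ} (hp : |p| ≤ M) (hq : |q| ≤ M) (hx : |x| ≤ δ) (hy : |y| ≤ δ) :
    |p * x + q * y| ≤ 2 * (M * δ) := by
  have h0 : 0 ≤ M := (abs_nonneg p).trans hp
  have h1 : |p * x| ≤ M * δ := by
    rw [abs_mul]; exact mul_le_mul hp hx (abs_nonneg _) h0
  have h2 : |q * y| ≤ M * δ := by
    rw [abs_mul]; exact mul_le_mul hq hy (abs_nonneg _) h0
  linarith [abs_add_le (p * x) (q * y)]

lemma net_conj (M : SL2) {s r : ℝ} (hr : 0 ≤ r)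
    (h : (ea M - ed M) ^ 2 + (eb M * Real.exp (-s) + ec M * Real.exp s) ^ 2 ≤ r ^ 2) :
    dist (M • pt 0 s) (pt 0 s) ≤ r := by
  have e0 : pt 0 s = bp (aG (-s)) := by rw [bp_aG, neg_neg]
  rw [e0, ← bp_mul, ← dist_bp]
  refine dist_bp_le hr (le_of_eq_of_le ?_ h)
  have h1 := exp_half s
  have h2 := exp_half (-s)
  have h3 := exp_half' s
  simp only [ea_mul, eb_mul, ec_mul, ed_mul, ea_inv, eb_inv, ec_inv, ed_inv, aG, ea_mkG, eb_mkG,
    ec_mkG, ed_mkG, neg_neg]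
  rw [← h1, ← h2]
  congr 2
  · linear_combination (ea M - ed M) * h3
  · ring

lemma net_bd {g : SL2} {R : ℝ} (h : dist (bp g) I ≤ R) :
    |ea g| ≤ 2 * Real.cosh R ∧ |eb g| ≤ 2 * Real.cosh R ∧ |ec g| ≤ 2 * Real.cosh R ∧
      |ed g| ≤ 2 * Real.cosh R := by
  have h0 : 0 ≤ dist (bp g) I := dist_nonneg
  have h1 : Real.cosh (dist (bp g) I) ≤ Real.cosh R :=
    Real.cosh_le_cosh.2 (by rw [abs_of_nonneg h0, abs_of_nonneg (h0.trans h)]; exact h)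
  have h2 := ent_sq g
  have h3 := det_eq g
  have h4 := Real.one_le_cosh R
  have h5 : ea g ^ 2 + eb g ^ 2 + ec g ^ 2 + ed g ^ 2 ≤ (2 * Real.cosh R) ^ 2 := by nlinarith
  have h6 : 0 ≤ 2 * Real.cosh R := by linarith
  refine ⟨abs_le_of_sq_le_sq ?_ h6, abs_le_of_sq_le_sq ?_ h6, abs_le_of_sq_le_sq ?_ h6,
    abs_le_of_sq_le_sq ?_ h6⟩ <;>
  nlinarith [sq_nonneg (ea g), sq_nonneg (eb g), sq_nonneg (ec g), sq_nonneg (ed g)]

theorem Geo.net {Λ L : Set SL2} (G : Geo Λ L) :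
    ∃ B : Finset SL2, ∀ g : SL2, ∃ γ ∈ Λ, ∃ β ∈ B, Cl (β⁻¹ * γ * g) := by
  obtain ⟨R, hR⟩ := G.coc
  obtain ⟨M, hM⟩ : ∃ M, M = 2 * Real.cosh R := ⟨_, rfl⟩
  have hM0 : 0 < M := by linarith [Real.one_le_cosh R]
  obtain ⟨δ, hδ⟩ : ∃ δ, δ = 1 / (200 * M) := ⟨_, rfl⟩
  have hδ0 : 0 < δ := by rw [hδ]; positivity
  have hMδ : 2 * (M * δ) = 1 / 100 := by rw [hδ]; field_simp; norm_num
  let cls : SL2 → ℤ × ℤ × ℤ × ℤ := fun h => (⌊ea h / δ⌋, ⌊eb h / δ⌋, ⌊ec h / δ⌋, ⌊ed h / δ⌋)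
  let Bd : Set SL2 := {h | |ea h| ≤ M ∧ |eb h| ≤ M ∧ |ec h| ≤ M ∧ |ed h| ≤ M}
  have hfl : ∀ x : ℝ, |x| ≤ M → ⌊x / δ⌋ ∈ Icc ⌊-M / δ⌋ ⌊M / δ⌋ := fun x hx =>
    ⟨Int.floor_mono (div_le_div_of_nonneg_right (abs_le.1 hx).1 hδ0.le),
      Int.floor_mono (div_le_div_of_nonneg_right (abs_le.1 hx).2 hδ0.le)⟩
  have hfin : (cls '' Bd).Finite := by
    have hI := finite_Icc ⌊-M / δ⌋ ⌊M / δ⌋
    refine (hI.prod (hI.prod (hI.prod hI))).subset ?_
    rintro _ ⟨h, ⟨h1, h2, h3, h4⟩, rfl⟩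
    exact ⟨hfl _ h1, hfl _ h2, hfl _ h3, hfl _ h4⟩
  obtain ⟨t, ht, htf, hte⟩ := hfin.exists_subset_finite_image_eq subset_rfl
  refine ⟨htf.toFinset, fun g => ?_⟩
  obtain ⟨γ, hγ, hd⟩ := hR (bp g)
  rw [← bp_mul] at hd
  have hb : γ * g ∈ Bd := by
    have h1 := net_bd hd
    rwa [← hM] at h1
  obtain ⟨β, hβ, he⟩ : cls (γ * g) ∈ cls '' t := hte ▸ mem_image_of_mem cls hb
  refine ⟨γ, hγ, β, htf.mem_toFinset.2 hβ, ?_⟩
  rw [mul_assoc]
  generalize γ * g = h at he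
  obtain ⟨b1, b2, b3, b4⟩ := ht hβ
  simp only [cls, Prod.mk.injEq] at he
  have d1 := net_floor hδ0 he.1.symm
  have d2 := net_floor hδ0 he.2.1.symm
  have d3 := net_floor hδ0 he.2.2.1.symm
  have d4 := net_floor hδ0 he.2.2.2.symm
  have b2' : |-eb β| ≤ M := by rwa [abs_neg]
  have b3' : |-ec β| ≤ M := by rwa [abs_neg]
  have hdet := det_eq β
  rw [Cl, ← hMδ]
  simp only [ea_mul, eb_mul, ec_mul, ed_mul, ea_inv, eb_inv, ec_inv, ed_inv]
  refine ⟨le_of_eq_of_le ?_ (net_two b4 b2' d1 d3), le_of_eq_of_le ?_ (net_two b4 b2' d2 d4),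
    le_of_eq_of_le ?_ (net_two b3' b1 d1 d3), le_of_eq_of_le ?_ (net_two b3' b1 d2 d4)⟩ <;>
    congr 1
  · linear_combination hdet
  · ring
  · ring
  · linear_combination hdet

theorem hol {h : SL2} (hh : Cl h) {z τ : ℝ} (hz : z ∈ Icc (0 : ℝ) 1) (hτ : τ ≤ 0) :
    dist (pt (mob h z) τ) (h • pt z τ) ≤ 1 := by
  obtain ⟨-, -, h3, h4⟩ := hh
  obtain ⟨hz0, hz1⟩ := hz
  obtain ⟨D, hD⟩ : ∃ D, D = ec h * z + ed h := ⟨_, rfl⟩
  have h5 : |ec h * z| ≤ 1 / 100 := by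
    rw [abs_mul, abs_of_nonneg hz0]
    nlinarith [abs_nonneg (ec h)]
  have hD1 : 98 / 100 ≤ D := by linarith [(abs_le.1 h5).1, (abs_le.1 h4).1]
  have hD2 : D ≤ 102 / 100 := by linarith [(abs_le.1 h5).2, (abs_le.1 h4).2]
  have hD0 : D ≠ 0 := by linarith
  have e1 : pt (mob h z) τ = uG (mob h z) • pt 0 τ := by rw [uG_pt, zero_add]
  have e2 : h • pt z τ = uG (mob h z) • ((uG (mob h z))⁻¹ * (h * uG z)) • pt 0 τ := by
    rw [← mul_smul, mul_inv_cancel_left, mul_smul, uG_pt, zero_add]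
  rw [e1, e2, dist_smul, dist_comm]
  refine net_conj _ zero_le_one ?_
  have hdet := det_eq h
  have hm : mob h z * D = ea h * z + eb h := by rw [mob, ← hD]; field_simp
  have a1 : ea ((uG (mob h z))⁻¹ * (h * uG z)) = D⁻¹ := by
    simp only [ea_mul, ec_mul, ea_inv, eb_inv, uG, ea_mkG, eb_mkG, ec_mkG, ed_mkG]
    field_simp
    linear_combination (-ec h) * hm + hdet + ea h * hD
  have a2 : eb ((uG (mob h z))⁻¹ * (h * uG z)) = 0 := by
    simp only [eb_mul, ed_mul, ea_inv, eb_inv, uG, eb_mkG, ed_mkG]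
    linear_combination -hm + mob h z * hD
  have a3 : ec ((uG (mob h z))⁻¹ * (h * uG z)) = ec h := by simp [uG]
  have a4 : ed ((uG (mob h z))⁻¹ * (h * uG z)) = D := by simp [uG, hD]
  rw [a1, a2, a3, a4]
  have i1 : D⁻¹ ≤ 11 / 10 := by rw [inv_le_comm₀ (by linarith) (by norm_num)]; linarith
  have i2 : 9 / 10 ≤ D⁻¹ := by rw [le_inv_comm₀ (by norm_num) (by linarith)]; linarith
  have i3 : Real.exp τ ≤ 1 := Real.exp_le_one_iff.2 hτ
  have i4 : |ec h * Real.exp τ| ≤ 1 / 100 := by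
    rw [abs_mul, abs_of_pos (Real.exp_pos τ)]
    nlinarith [abs_nonneg (ec h), Real.exp_pos τ]
  have i5 := abs_le.1 i4
  nlinarith

lemma net_quot {h h' : SL2} (hh : Cl h) (hh' : Cl h') {ρ : ℝ} (h1 : |ea h' - ea h| ≤ ρ)
    (h2 : |ec h' - ec h| ≤ ρ) : |ec h' / ea h' - ec h / ea h| ≤ 2 * ρ := by
  have a1 := abs_le.1 hh.1
  have a2 := abs_le.1 hh'.1
  have p1 : 0 < ea h := by linarith
  have p2 : 0 < ea h' := by linarith
  have hρ : 0 ≤ ρ := (abs_nonneg _).trans h1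
  have e : ec h' / ea h' - ec h / ea h
      = (ea h * (ec h' - ec h) + -ec h * (ea h' - ea h)) / (ea h * ea h') := by
    field_simp; ring
  have b1 : |ea h * (ec h' - ec h)| ≤ 101 / 100 * ρ := by
    rw [abs_mul, abs_of_pos p1]
    exact mul_le_mul (by linarith) h2 (abs_nonneg _) (by norm_num)
  have b2 : |-ec h * (ea h' - ea h)| ≤ 1 / 100 * ρ := by
    rw [abs_mul, abs_neg]
    exact mul_le_mul hh.2.2.1 h1 (abs_nonneg _) (by norm_num)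
  have b3 : 9 / 10 ≤ ea h * ea h' := by nlinarith
  rw [e, abs_div, abs_of_pos (mul_pos p1 p2), div_le_iff₀ (mul_pos p1 p2)]
  nlinarith [abs_add_le (ea h * (ec h' - ec h)) (-ec h * (ea h' - ea h))]

lemma net_near {h : SL2} (hh : Cl h) {s : ℝ} (hs : 0 ≤ s) {j : ℤ}
    (hj : ⌊ec h / ea h * Real.exp s⌋ = j) :
    dist (h • pt 0 s) (vG (j * Real.exp (-s)) • pt 0 s) ≤ 2 := by
  obtain ⟨u, hu⟩ : ∃ u, u = j * Real.exp (-s) := ⟨_, rfl⟩
  rw [← hu]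
  have e2 : h • pt 0 s = vG u • ((vG u)⁻¹ * h) • pt 0 s := by
    rw [← mul_smul, mul_inv_cancel_left]
  rw [e2, dist_smul]
  refine net_conj _ zero_le_two ?_
  have a1 := abs_le.1 hh.1
  have a2 := abs_le.1 hh.2.1
  have a3 := abs_le.1 hh.2.2.1
  have a4 := abs_le.1 hh.2.2.2
  have p1 : 0 < ea h := by linarith
  have x0 := Real.exp_pos (-s)
  have x1 : Real.exp (-s) ≤ 1 := Real.exp_le_one_iff.2 (by linarith)
  have x2 : Real.exp (-s) * Real.exp s = 1 := by rw [← Real.exp_add]; simp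
  obtain ⟨q, hq⟩ : ∃ q, q = ec h / ea h := ⟨_, rfl⟩
  obtain ⟨θ, hθ⟩ : ∃ θ, θ = q * Real.exp s - j := ⟨_, rfl⟩
  rw [← hq] at hj
  have t0 : 0 ≤ θ := by rw [hθ, ← hj]; linarith [Int.floor_le (q * Real.exp s)]
  have t1 : θ ≤ 1 := by rw [hθ, ← hj]; linarith [Int.lt_floor_add_one (q * Real.exp s)]
  have hc : ec h = q * ea h := by rw [hq]; field_simp
  have q1 : q ≤ 2 / 100 := by rw [hq, div_le_iff₀ p1]; linarith
  have q2 : -(2 / 100) ≤ q := by rw [hq, le_div_iff₀ p1]; linarith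
  have hu' : u = q - θ * Real.exp (-s) := by rw [hu, hθ]; linear_combination q * x2
  have u1 : u ≤ 2 := by nlinarith
  have u2 : -2 ≤ u := by nlinarith
  have c1 : ea ((vG u)⁻¹ * h) - ed ((vG u)⁻¹ * h) = ea h - ed h + u * eb h := by
    simp [vG]; ring
  have c2 : eb ((vG u)⁻¹ * h) * Real.exp (-s) + ec ((vG u)⁻¹ * h) * Real.exp s
      = eb h * Real.exp (-s) + ea h * θ := by
    simp only [eb_mul, ec_mul, ea_inv, eb_inv, ec_inv, ed_inv, vG, ea_mkG, eb_mkG, ec_mkG, ed_mkG]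
    rw [hc, hu']
    linear_combination (ea h * θ) * x2
  rw [c1, c2]
  have v1 : u * eb h ≤ 2 / 100 := by nlinarith
  have v2 : -(2 / 100) ≤ u * eb h := by nlinarith
  have w1 : eb h * Real.exp (-s) ≤ 1 / 100 := by nlinarith
  have w2 : -(1 / 100) ≤ eb h * Real.exp (-s) := by nlinarith
  have y1 : ea h * θ ≤ 101 / 100 := by nlinarith
  have y2 : 0 ≤ ea h * θ := by positivity
  have z1 : (ea h - ed h + u * eb h) ^ 2 ≤ 1 ^ 2 := sq_le_sq' (by linarith) (by linarith)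
  have z2 : (eb h * Real.exp (-s) + ea h * θ) ^ 2 ≤ (3 / 2) ^ 2 :=
    sq_le_sq' (by linarith) (by linarith)
  linarith

lemma net_inj {k : SL2} {m m' : ℕ} (h : Cl (k * uG m)) (h' : Cl (k * uG m')) : m = m' := by
  have a1 := abs_le.1 h.1
  have a2 := abs_le.1 h.2.1
  have a3 := abs_le.1 h'.2.1
  simp only [ea_mul, eb_mul, uG, ea_mkG, eb_mkG, ec_mkG, ed_mkG] at a1 a2 a3
  by_contra hne
  rcases Nat.lt_or_gt_of_ne hne with hl | hl
  · have : (m : ℝ) + 1 ≤ m' := by exact_mod_cast hl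
    nlinarith
  · have : (m' : ℝ) + 1 ≤ m := by exact_mod_cast hl
    nlinarith

theorem Geo.pack {Λ L : Set SL2} (G : Geo Λ L) : ∃ C : ℝ, 0 ≤ C ∧ ∀ (g β : SL2) (s ρ : ℝ)
    (S : Finset ℕ) (γ : ℕ → SL2), 0 ≤ s → 0 < ρ →
    (∀ m ∈ S, γ m ∈ Λ ∧ (m : ℝ) ≤ 4 * Real.exp s ∧ Cl (β⁻¹ * γ m * (g * uG m))) →
    ∀ m ∈ S, ((S.filter fun m' =>
      |ea (β⁻¹ * γ m' * (g * uG m')) - ea (β⁻¹ * γ m * (g * uG m))| ≤ ρ ∧
      |ec (β⁻¹ * γ m' * (g * uG m')) - ec (β⁻¹ * γ m * (g * uG m))| ≤ ρ).card : ℝ)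
        ≤ C * (ρ * Real.exp s + 1) := by
  classical
  obtain ⟨N, hN⟩ := G.orb 6
  refine ⟨4 * N, by positivity, fun g β s ρ S γ hs hρ hS m hm => ?_⟩
  obtain ⟨h, hh⟩ : ∃ h : ℕ → SL2, ∀ m, h m = β⁻¹ * γ m * (g * uG m) := ⟨_, fun _ => rfl⟩
  simp only [← hh] at hS ⊢
  obtain ⟨T, hT⟩ : ∃ T, T = S.filter fun m' =>
      |ea (h m') - ea (h m)| ≤ ρ ∧ |ec (h m') - ec (h m)| ≤ ρ := ⟨_, rfl⟩
  rw [← hT]
  have hTS : T ⊆ S := hT ▸ Finset.filter_subset _ _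
  have x0 := Real.exp_pos s
  let f : ℕ → ℤ := fun m' => ⌊ec (h m') / ea (h m') * Real.exp s⌋
  obtain ⟨u, hu⟩ : ∃ u, u = ec (h m) / ea (h m) := ⟨_, rfl⟩
  have hmap : ∀ m' ∈ T, f m' ∈
      Finset.Icc ⌊(u - 2 * ρ) * Real.exp s⌋ ⌊(u + 2 * ρ) * Real.exp s⌋ := fun m' hm' => by
    rw [hT, Finset.mem_filter] at hm'
    have h1 := abs_le.1 (net_quot (hS m hm).2.2 (hS m' hm'.1).2.2 hm'.2.1 hm'.2.2)
    rw [← hu] at h1
    exact Finset.mem_Icc.2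
      ⟨Int.floor_mono (mul_le_mul_of_nonneg_right (by linarith) x0.le),
        Int.floor_mono (mul_le_mul_of_nonneg_right (by linarith) x0.le)⟩
  have hfib : ∀ j ∈ Finset.Icc ⌊(u - 2 * ρ) * Real.exp s⌋ ⌊(u + 2 * ρ) * Real.exp s⌋,
      (T.filter fun m' => f m' = j).card ≤ N := fun j _ => by
    have hsub : ∀ m' ∈ T.filter fun m' => f m' = j, m' ∈ S := fun m' hm' =>
      hTS (Finset.mem_filter.1 hm').1
    rw [← Finset.card_image_of_injOn (f := γ) fun a ha b hb hab => ?_]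
    · refine hN (g • pt 0 s) (β • vG (j * Real.exp (-s)) • pt 0 s) _ ?_ ?_
      · intro x hx
        obtain ⟨a, ha, rfl⟩ := Finset.mem_image.1 hx
        exact (hS a (hsub a ha)).1
      · intro x hx
        obtain ⟨a, ha, rfl⟩ := Finset.mem_image.1 hx
        obtain ⟨-, h2, h3⟩ := hS a (hsub a ha)
        have d1 := net_near h3 hs (Finset.mem_filter.1 ha).2
        have e1 : β • h a • pt 0 s = γ a • g • pt a s := by
          rw [hh, ← mul_smul, mul_assoc β⁻¹, mul_inv_cancel_left, mul_smul, mul_smul, uG_pt,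
            zero_add]
        rw [← dist_smul β, e1] at d1
        have d2 : dist (γ a • g • pt 0 s) (γ a • g • pt a s) ≤ 4 := by
          rw [dist_smul, dist_smul]
          refine (dist_pt_le _ _ _).trans ?_
          rw [zero_sub, abs_neg, abs_of_nonneg (Nat.cast_nonneg a), Real.exp_neg,
            ← div_eq_mul_inv, div_le_iff₀ x0]
          exact h2
        linarith [dist_triangle (γ a • g • pt 0 s) (γ a • g • pt a s)
          (β • vG (j * Real.exp (-s)) • pt 0 s)]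
    · have h1 := (hS a (hsub a ha)).2.2
      have h2 := (hS b (hsub b hb)).2.2
      rw [hh, ← mul_assoc] at h1 h2
      rw [← hab] at h2
      exact net_inj h1 h2
  have h1 := Finset.card_le_mul_card_image_of_maps_to hmap N hfib
  have h2 : ((Finset.Icc ⌊(u - 2 * ρ) * Real.exp s⌋ ⌊(u + 2 * ρ) * Real.exp s⌋).card : ℝ)
      ≤ 4 * (ρ * Real.exp s + 1) := by
    have h3 : ⌊(u - 2 * ρ) * Real.exp s⌋ ≤ ⌊(u + 2 * ρ) * Real.exp s⌋ + 1 :=
      (Int.floor_mono (mul_le_mul_of_nonneg_right (show u - 2 * ρ ≤ u + 2 * ρ by linarith)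
        x0.le)).trans (by linarith)
    have h4 := Int.card_Icc_of_le _ _ h3
    have h5 : ((Finset.Icc ⌊(u - 2 * ρ) * Real.exp s⌋ ⌊(u + 2 * ρ) * Real.exp s⌋).card : ℝ)
        = ⌊(u + 2 * ρ) * Real.exp s⌋ + 1 - ⌊(u - 2 * ρ) * Real.exp s⌋ := by exact_mod_cast h4
    rw [h5]
    linarith [Int.floor_le ((u + 2 * ρ) * Real.exp s),
      Int.lt_floor_add_one ((u - 2 * ρ) * Real.exp s)]
  calc (T.card : ℝ) ≤ N * ((Finset.Icc ⌊(u - 2 * ρ) * Real.exp s⌋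
        ⌊(u + 2 * ρ) * Real.exp s⌋).card : ℝ) := by exact_mod_cast h1
    _ ≤ N * (4 * (ρ * Real.exp s + 1)) := by gcongr
    _ = _ := by ring

end Pool.Agent.Lib.MP_a52643_an.NS
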