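import Pool.Agent.Lib.MP_a52643_an.NS.Vol
import Pool.Agent.Lib.MP_a52643_an.NS.Decay
import Pool.Agent.Lib.MP_a52643_an.NS.Net

/-!
The majorant with Fourier decay, in a normalised frame.
-/

open MeasureTheory Set Filter Topology Metric UpperHalfPlane
open scoped ENNReal MatrixGroups Real FourierTransform ComplexConjugate

noncomputable section

namespace Pool.Agent.Lib.MP_a52643_an.NS

/-- the density of one piece -/
def maj0F (W : Set ℝ) (h : SL2) (z : ℝ) : ℝ :=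
  W.indicator 1 (mob h z) * ((ec h * z + ed h) ^ 2)⁻¹

/-- one piece on the unit interval -/
def maj0Q (W : Set ℝ) (h : SL2) : ℝ → ℝ := (Ico (0 : ℝ) 1).indicator fun z => 2 * maj0F W h z

lemma maj0F_meas {W : Set ℝ} (hW : MeasurableSet W) (h : SL2) : Measurable (maj0F W h) := by
  have h1 : Measurable (mob h) := by unfold mob; fun_prop
  have h2 : Measurable (W.indicator (1 : ℝ → ℝ)) := measurable_one.indicator hW
  have h3 : Measurable fun z : ℝ => ((ec h * z + ed h) ^ 2)⁻¹ := by fun_prop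
  exact (h2.comp h1).mul h3

lemma maj0F_nn (W : Set ℝ) (h : SL2) (z : ℝ) : 0 ≤ maj0F W h z :=
  mul_nonneg (indicator_nonneg (fun _ _ => zero_le_one) _) (by positivity)

lemma maj0_den {h : SL2} (hh : Cl h) {z : ℝ} (hz : z ∈ Ico (0 : ℝ) 1) :
    1 / 2 ≤ (ec h * z + ed h) ^ 2 ∧ (ec h * z + ed h) ^ 2 ≤ 2 := by
  obtain ⟨-, -, hc, hd⟩ := hh
  obtain ⟨h0, h1⟩ := hz
  rw [abs_le] at hc hd
  have a1 : 98 / 100 ≤ ec h * z + ed h := by nlinarith
  have a2 : ec h * z + ed h ≤ 102 / 100 := by nlinarith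
  constructor <;> nlinarith

lemma maj0F_le (W : Set ℝ) {h : SL2} (hh : Cl h) {z : ℝ} (hz : z ∈ Ico (0 : ℝ) 1) :
    maj0F W h z ≤ 2 := by
  have h1 := (maj0_den hh hz).1
  have h2 : ((ec h * z + ed h) ^ 2)⁻¹ ≤ 2 := by
    rw [inv_le_comm₀ (by linarith) (by norm_num)]; linarith
  have h3 : W.indicator (1 : ℝ → ℝ) (mob h z) ≤ 1 :=
    indicator_le_self' (fun _ _ => zero_le_one) _
  calc maj0F W h z ≤ 1 * 2 := mul_le_mul h3 h2 (by positivity) zero_le_one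
    _ = 2 := one_mul _

lemma maj0Q_meas {W : Set ℝ} (hW : MeasurableSet W) (h : SL2) : Measurable (maj0Q W h) :=
  ((maj0F_meas hW h).const_mul 2).indicator measurableSet_Ico

lemma maj0Q_nn (W : Set ℝ) (h : SL2) (z : ℝ) : 0 ≤ maj0Q W h z :=
  indicator_nonneg (fun y _ => mul_nonneg zero_le_two (maj0F_nn W h y)) _

lemma maj0Q_int {W : Set ℝ} (hW : MeasurableSet W) {h : SL2} (hh : Cl h) :
    Integrable (maj0Q W h) := by
  rw [maj0Q, integrable_indicator_iff measurableSet_Ico]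
  refine Measure.integrableOn_of_bounded (M := 4) (by simp)
    ((maj0F_meas hW h).const_mul 2).aestronglyMeasurable ?_
  filter_upwards [ae_restrict_mem measurableSet_Ico] with z hz
  rw [Real.norm_of_nonneg (mul_nonneg zero_le_two (maj0F_nn W h z))]
  linarith [maj0F_le W hh hz]

lemma maj0Q_one {W : Set ℝ} {h : SL2} (hh : Cl h) {z : ℝ} (hz : z ∈ Ico (0 : ℝ) 1)
    (hm : mob h z ∈ W) : 1 ≤ maj0Q W h z := by
  obtain ⟨h1, h2⟩ := maj0_den hh hz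
  rw [maj0Q, indicator_of_mem hz, maj0F, indicator_of_mem hm, Pi.one_apply, one_mul,
    ← div_eq_mul_inv, le_div_iff₀ (by linarith)]
  linarith

lemma maj0Q_integral {W : Set ℝ} (hW : MeasurableSet W) {h : SL2} (hh : Cl h) (y : ℝ) :
    ∫ x, maj0Q W h (x - y) ≤ 2 * (volume (W ∩ Icc (-1) 2)).toReal := by
  rw [integral_sub_right_eq_self (maj0Q W h) y, maj0Q, integral_indicator measurableSet_Ico,
    integral_const_mul]
  exact mul_le_mul_of_nonneg_left (integral_mob hh hW) zero_le_two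

lemma maj0Q_ft (W : Set ℝ) (h : SL2) (y Ω : ℝ) :
    ∫ x, ee (x * Ω) * (maj0Q W h (x - y) : ℝ)
      = 2 * (ee (y * Ω) * ∫ z in Ico (0 : ℝ) 1, (maj0F W h z : ℝ) * ee (Ω * z)) := by
  rw [← integral_add_right_eq_self _ y, ← integral_const_mul, ← integral_const_mul,
    ← integral_indicator measurableSet_Ico]
  refine integral_congr_ae (ae_of_all _ fun z => ?_)
  simp only [add_sub_cancel_right, maj0Q]
  by_cases hz : z ∈ Ico (0 : ℝ) 1
  · rw [indicator_of_mem hz, indicator_of_mem hz, add_mul, ee_add, mul_comm z Ω]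
    push_cast; ring
  · rw [indicator_of_notMem hz, indicator_of_notMem hz]; simp

/-- the number of unit intervals contained in a set -/
lemma maj0_card {S : Finset ℕ} {A : Set ℝ} (hS : ∀ m ∈ S, Ico (m : ℝ) (m + 1) ⊆ A) {v : ℝ}
    (hv0 : 0 ≤ v) (hv : volume A ≤ ENNReal.ofReal v) : (S.card : ℝ) ≤ v := by
  have h1 : volume (⋃ m ∈ S, Ico (m : ℝ) (m + 1)) = S.card := by
    rw [measure_biUnion_finset _ fun _ _ => measurableSet_Ico]
    · simp
    · intro m _ n _ hmn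
      refine Set.disjoint_left.2 fun x hx hx' => hmn ?_
      have e1 : ⌊x⌋₊ = m := (Nat.floor_eq_iff ((Nat.cast_nonneg m).trans hx.1)).2 hx
      have e2 : ⌊x⌋₊ = n := (Nat.floor_eq_iff ((Nat.cast_nonneg n).trans hx'.1)).2 hx'
      rw [← e1, e2]
  have h2 : ((S.card : ℕ) : ℝ≥0∞) ≤ ENNReal.ofReal v :=
    h1 ▸ (measure_mono (iUnion₂_subset hS)).trans hv
  rwa [← ENNReal.ofReal_natCast, ENNReal.ofReal_le_ofReal_iff hv0] at h2

/-- adding up the measure over `n` consecutive intervals -/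
lemma maj0_vol {A : Set ℝ} {E v : ℝ} (hv0 : 0 ≤ v)
    (hv : ∀ x, volume (A ∩ Icc x (x + E)) ≤ ENNReal.ofReal v) (x : ℝ) (n : ℕ) :
    volume (A ∩ Icc x (x + (n + 1) * E)) ≤ ENNReal.ofReal ((n + 1) * v) := by
  induction n with
  | zero => simpa using hv x
  | succ n ih =>
    have h1 : A ∩ Icc x (x + ((n + 1 : ℕ) + 1) * E) ⊆ A ∩ Icc x (x + (n + 1) * E)
        ∪ A ∩ Icc (x + (n + 1) * E) (x + (n + 1) * E + E) := by
      rintro y ⟨hy, h1, h2⟩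
      push_cast at h2
      rcases le_total y (x + (n + 1) * E) with h | h
      · exact Or.inl ⟨hy, h1, h⟩
      · exact Or.inr ⟨hy, h, by linarith⟩
    refine (measure_mono h1).trans ((measure_union_le _ _).trans ?_)
    refine (add_le_add ih (hv _)).trans (le_of_eq ?_)
    rw [← ENNReal.ofReal_add (by positivity) hv0]
    congr 1; push_cast; ring

lemma maj0_cd (a : Finset ℕ) (m k : ℕ) : cd (a ∩ Finset.Ico m k) m k = cd a m k := by
  rw [cd, cd, Finset.inter_assoc, Finset.inter_self]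

lemma maj0_cd_add (a : Finset ℕ) {m p k : ℕ} (h1 : m ≤ p) (h2 : p ≤ k) :
    cd a m k = cd a m p + cd a p k := by
  rw [cd, cd, cd, ← Nat.cast_add, ← Finset.card_union_of_disjoint, ← Finset.inter_union_distrib_left,
    Finset.Ico_union_Ico_eq_Ico h1 h2]
  exact Finset.disjoint_of_subset_left Finset.inter_subset_right
    (Finset.disjoint_of_subset_right Finset.inter_subset_right (Finset.Ico_disjoint_Ico_consecutive _ _ _))

/-- moving the small scales to the chart -/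
lemma Geo.maj0_chart {Λ L : Set SL2} (G : Geo Λ L) {t ℓ τ z y : ℝ} {g γ β : SL2} (hγ : γ ∈ Λ)
    (hh : Cl (β⁻¹ * γ * (g * uG y))) (hz : z ∈ Ico (0 : ℝ) 1) (hℓ : 0 ≤ ℓ) (hτ : τ + ℓ ≤ 0)
    (hn : nr L t ℓ g τ (z + y)) :
    nr L (t + 1) ℓ β τ (mob (β⁻¹ * γ * (g * uG y)) z) := by
  have key : ∀ σ, σ ≤ 0 → dist (β • pt (mob (β⁻¹ * γ * (g * uG y)) z) σ)
      (γ • g • pt (z + y) σ) ≤ 1 := fun σ hσ => by
    have e : γ • g • pt (z + y) σ = β • (β⁻¹ * γ * (g * uG y)) • pt z σ := by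
      rw [← uG_pt, ← mul_smul β, ← mul_smul g, ← mul_smul γ]
      congr 1; group
    rw [e, dist_smul]
    exact hol hh ⟨hz.1, hz.2.le⟩ hσ
  exact near.move ((G.near_iff hγ t _ _).2 hn) (key _ (by linarith)) (key _ hτ)

/-- the Fourier bound for the pieces in one chart -/
lemma Geo.maj0_fib {Λ L : Set SL2} (G : Geo Λ L) : ∃ C : ℝ, 0 ≤ C ∧ ∀ (g β : SL2) (s Ω : ℝ)
    (S : Finset ℕ) (γ : ℕ → SL2) (W : Set ℝ), MeasurableSet W → 0 ≤ s → Real.exp s ≤ |Ω| →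
    (S.card : ℝ) ≤ 4 * Real.exp s →
    (∀ m ∈ S, γ m ∈ Λ ∧ (m : ℝ) ≤ 4 * Real.exp s ∧ Cl (β⁻¹ * γ m * (g * uG m))) →
    ‖∑ m ∈ S, ee (m * Ω) * ∫ z in Ico (0 : ℝ) 1,
      (maj0F W (β⁻¹ * γ m * (g * uG m)) z : ℝ) * ee (Ω * z)‖ ≤ C * Real.exp (s - s / 8) := by
  obtain ⟨Cd, hCd, hd⟩ := decay
  obtain ⟨Cp, hCp, hp⟩ := G.pack
  refine ⟨Cd * (8 * Cp + 16) + 1, by positivity, fun g β s Ω S γ W hW hs hΩ hS hγ => ?_⟩
  set u := Real.exp (s / 8) with hu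
  have hu1 : 1 ≤ u := Real.one_le_exp (by linarith)
  have hu0 : 0 < u := by linarith
  have e8 : Real.exp s = u ^ 8 := by rw [hu, ← Real.exp_nat_mul]; congr 1; push_cast; ring
  have e7 : Real.exp (s - s / 8) = u ^ 7 := by
    rw [hu, ← Real.exp_nat_mul]; congr 1; push_cast; ring
  have hρ : 0 < (u ^ 2)⁻¹ := by positivity
  have hΩ0 : Ω ≠ 0 := by
    rintro rfl
    rw [abs_zero] at hΩ
    linarith [Real.exp_pos s]
  have h1 := hd S (fun m => β⁻¹ * γ m * (g * uG m)) (fun m => ee (m * Ω)) W Ω (u ^ 2)⁻¹ _ hW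
    (fun m hm => (hγ m hm).2.2) (fun m => (norm_ee _).le) hρ hΩ0 (hp g β s _ S γ hs hρ hγ)
  have h2 : (|Ω| * (u ^ 2)⁻¹) ^ (-(1 / 3) : ℝ) ≤ (u ^ 2)⁻¹ := by
    have a1 : (u ^ 2) ^ 3 ≤ |Ω| * (u ^ 2)⁻¹ := by
      rw [← div_eq_mul_inv, le_div_iff₀ (by positivity)]
      calc (u ^ 2) ^ 3 * u ^ 2 = u ^ 8 := by ring
        _ ≤ |Ω| := e8 ▸ hΩ
    calc (|Ω| * (u ^ 2)⁻¹) ^ (-(1 / 3) : ℝ) ≤ ((u ^ 2) ^ 3) ^ (-(1 / 3) : ℝ) :=
          Real.rpow_le_rpow_of_nonpos (by positivity) a1 (by norm_num)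
      _ = (u ^ 2)⁻¹ := by
          rw [← Real.rpow_natCast, ← Real.rpow_mul (by positivity), ← Real.rpow_neg_one]
          norm_num
  rw [e8] at hS h1
  have hc0 : (0 : ℝ) ≤ S.card := Nat.cast_nonneg _
  have h3 : (u ^ 2)⁻¹ * u ^ 8 + 1 ≤ 2 * u ^ 6 := by
    have : (u ^ 2)⁻¹ * u ^ 8 = u ^ 6 := by field_simp
    linarith [one_le_pow₀ (n := 6) hu1]
  have h4 : (S.card : ℝ) * (Cp * ((u ^ 2)⁻¹ * u ^ 8 + 1)) ≤ 4 * u ^ 8 * (Cp * (2 * u ^ 6)) := by
    gcongr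
  have h5 : (S.card : ℝ) ^ 2 * (|Ω| * (u ^ 2)⁻¹) ^ (-(1 / 3) : ℝ) ≤ (4 * u ^ 8) ^ 2 * (u ^ 2)⁻¹ := by
    gcongr
  have h6 : (4 * u ^ 8) ^ 2 * (u ^ 2)⁻¹ = 16 * u ^ 14 := by field_simp; ring
  rw [e7]
  refine (sq_le_sq₀ (norm_nonneg _) (by positivity)).1 ?_
  · refine h1.trans ?_
    set K := Cd * (8 * Cp + 16) with hK
    have hK0 : 0 ≤ K := by positivity
    calc Cd * _ ≤ Cd * (4 * u ^ 8 * (Cp * (2 * u ^ 6)) + 16 * u ^ 14) := by
          rw [← h6]; gcongr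
      _ = K * u ^ 14 := by rw [hK]; ring
      _ ≤ (K + 1) ^ 2 * u ^ 14 := by gcongr; nlinarith
      _ = ((K + 1) * u ^ 7) ^ 2 := by ring

theorem Geo.maj0 {Λ L : Set SL2} (G : Geo Λ L) {t : ℝ} (ht : 1 ≤ t) :
    ∃ C ℓ₁ : ℝ, 1 ≤ C ∧ 1 ≤ ℓ₁ ∧ ∀ ℓ ≥ ℓ₁, ∀ (g : SL2) (a : Finset ℕ) (q₀ p k : ℕ), q₀ ≤ p →
      ∃ ψ : ℝ → ℝ, Measurable ψ ∧ (∀ x, 0 ≤ ψ x) ∧ Integrable ψ ∧
        (∀ x ∈ Zt L t ℓ g (-(p * ℓ)) (a ∩ Finset.Ico q₀ (p + k)),
          x ∈ Icc 0 (3 * Real.exp (k * ℓ)) → 1 ≤ ψ x) ∧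
        ∫ x, ψ x ≤ (C * Real.exp (ℓ / 10 ^ 14)) ^ (p + k - q₀ + 1)
          * Real.exp (k * ℓ - ℓ * cd a q₀ (p + k)) ∧
        ∀ Ω, Real.exp (k * ℓ) ≤ |Ω| →
          ‖𝓕 (fun x => (ψ x : ℂ)) Ω‖ ≤ C * Real.exp (k * ℓ - k * ℓ / 8) := by
  classical
  obtain ⟨Cv, ℓ₁, hCv, hℓ₁, hv⟩ := G.vol (t := t + 1) (by linarith)
  obtain ⟨B, hB⟩ := G.net
  obtain ⟨Cf, hCf, hf⟩ := G.maj0_fib
  have hB0 : (0 : ℝ) ≤ B.card := Nat.cast_nonneg _
  have hBC : 0 ≤ 2 * (B.card * Cf) := by positivity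
  refine ⟨24 + Cv + 2 * (B.card * Cf), ℓ₁, by linarith, hℓ₁, fun ℓ hℓ g a q₀ p k hq => ?_⟩
  have hℓ0 : 0 ≤ ℓ := by linarith [hℓ.le]
  choose γ hγ β hβ hcl using fun m : ℕ => hB (g * uG m)
  have hs : 0 ≤ (k : ℝ) * ℓ := by positivity
  set E := Real.exp (k * ℓ) with hE
  have hE1 : 1 ≤ E := Real.one_le_exp hs
  set Z := Zt L t ℓ g (-(p * ℓ)) (a ∩ Finset.Ico q₀ (p + k)) with hZ
  set S := (Finset.range (⌊3 * E⌋₊ + 1)).filter fun m : ℕ => ∃ x ∈ Z, x ∈ Ico (m : ℝ) (m + 1)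
    with hSdef
  set W : SL2 → Set ℝ := fun b => Zt L (t + 1) ℓ b (-(p * ℓ)) (a ∩ Finset.Ico q₀ p) with hWdef
  have hW : ∀ b, MeasurableSet (W b) := fun b => (isOpen_Zt _ _ _ _ _ _).measurableSet
  have hS3 : ∀ m ∈ S, (m : ℝ) ≤ 3 * E := fun m hm => by
    have h1 := Finset.mem_range.1 (Finset.mem_filter.1 hm).1
    have h2 : (m : ℝ) ≤ ⌊3 * E⌋₊ := by exact_mod_cast Nat.lt_succ_iff.1 h1
    exact h2.trans (Nat.floor_le (by positivity))
  have hint : ∀ m ∈ S, Integrable fun x => maj0Q (W (β m)) ((β m)⁻¹ * γ m * (g * uG m)) (x - m) :=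
    fun m _ => (maj0Q_int (hW _) (hcl m)).comp_sub_right _
  refine ⟨fun x => ∑ m ∈ S, maj0Q (W (β m)) ((β m)⁻¹ * γ m * (g * uG m)) (x - m),
    Finset.measurable_sum _ fun m _ => (maj0Q_meas (hW _) _).comp (measurable_sub_const _),
    fun x => Finset.sum_nonneg fun m _ => maj0Q_nn _ _ _, integrable_finsetSum _ hint,
    fun x hx hx' => ?_, ?_, fun Ω hΩ => ?_⟩
  · have hm : x ∈ Ico (⌊x⌋₊ : ℝ) (⌊x⌋₊ + 1) := ⟨Nat.floor_le hx'.1, Nat.lt_floor_add_one x⟩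
    have hmS : ⌊x⌋₊ ∈ S := Finset.mem_filter.2
      ⟨Finset.mem_range.2 (Nat.lt_succ_of_le (Nat.floor_mono hx'.2)), x, hx, hm⟩
    refine le_trans ?_ (Finset.single_le_sum (fun m _ => maj0Q_nn _ _ _) hmS)
    have hz : x - ⌊x⌋₊ ∈ Ico (0 : ℝ) 1 := ⟨by linarith [hm.1], by linarith [hm.2]⟩
    refine maj0Q_one (hcl _) hz fun j hj => ?_
    obtain ⟨hja, hj⟩ := Finset.mem_inter.1 hj
    rw [Finset.mem_Ico] at hj
    refine G.maj0_chart (hγ _) (hcl _) hz hℓ0 ?_ ?_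
    · have : (j : ℝ) + 1 ≤ p := by exact_mod_cast hj.2
      nlinarith
    · rw [sub_add_cancel]
      exact hx j (Finset.mem_inter.2 ⟨hja, Finset.mem_Ico.2 ⟨hj.1, by omega⟩⟩)
  · set D := Cv * Real.exp (ℓ / 10 ^ 14) with hD
    have he1 : 1 ≤ Real.exp (ℓ / 10 ^ 14) := Real.one_le_exp (by positivity)
    have hD0 : 0 ≤ D := by positivity
    have hcard : (S.card : ℝ) ≤ 4 * (D ^ k * Real.exp (k * ℓ - ℓ * cd a p (p + k))) := by
      have h1 := maj0_vol (A := Zt L (t + 1) ℓ g (-(p * ℓ)) (a ∩ Finset.Ico p (p + k))) (E := E)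
        (v := D ^ k * Real.exp (k * ℓ - ℓ * cd a p (p + k))) (by positivity) (fun x => by
          have := (hv ℓ hℓ g (-(p * ℓ)) (a ∩ Finset.Ico p (p + k)) p (p + k) x (by omega)).1
          rwa [maj0_cd, Nat.add_sub_cancel_left,
            show -((p : ℝ) * ℓ) + ((p + k : ℕ) : ℝ) * ℓ = k * ℓ by push_cast; ring] at this) 0 3
      refine maj0_card (A := Zt L (t + 1) ℓ g (-(p * ℓ)) (a ∩ Finset.Ico p (p + k))
        ∩ Icc 0 (0 + ((3 : ℕ) + 1) * E)) (fun m hm y hy => ⟨fun j hj => ?_, ?_, ?_⟩) (by positivity)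
        (h1.trans (le_of_eq (by norm_num)))
      · obtain ⟨x, hx, hxm⟩ := (Finset.mem_filter.1 hm).2
        obtain ⟨hja, hj⟩ := Finset.mem_inter.1 hj
        rw [Finset.mem_Ico] at hj
        refine (hx j (Finset.mem_inter.2 ⟨hja, Finset.mem_Ico.2 ⟨by omega, hj.2⟩⟩)).move hℓ0 ?_
        have h2 : (p : ℝ) ≤ j := by exact_mod_cast hj.1
        refine le_trans ?_ (Real.one_le_exp (by nlinarith))
        rw [abs_le]
        constructor <;> linarith [hxm.1, hxm.2, hy.1, hy.2]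
      · exact (Nat.cast_nonneg m).trans hy.1
      · push_cast
        linarith [hS3 m hm, hy.2]
    have hpiece : ∀ b, (volume (W b ∩ Icc (-1) 2)).toReal
        ≤ 3 * (D ^ (p - q₀) * Real.exp (-(ℓ * cd a q₀ p))) := fun b => by
      have h1 := maj0_vol (A := W b) (E := 1)
        (v := D ^ (p - q₀) * Real.exp (-(ℓ * cd a q₀ p))) (by positivity) (fun x => by
          have := (hv ℓ hℓ b (-(p * ℓ)) (a ∩ Finset.Ico q₀ p) q₀ p x hq).1
          rwa [maj0_cd, neg_add_cancel, Real.exp_zero, zero_sub] at this) (-1) 2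
      refine ENNReal.toReal_le_of_le_ofReal (by positivity) ?_
      convert h1 using 3 <;> norm_num
    rw [integral_finsetSum _ hint]
    calc ∑ m ∈ S, ∫ x, maj0Q (W (β m)) ((β m)⁻¹ * γ m * (g * uG m)) (x - m)
        ≤ ∑ m ∈ S, 2 * (3 * (D ^ (p - q₀) * Real.exp (-(ℓ * cd a q₀ p)))) :=
          Finset.sum_le_sum fun m _ => (maj0Q_integral (hW _) (hcl m) _).trans
            (mul_le_mul_of_nonneg_left (hpiece _) zero_le_two)
      _ = S.card * (2 * (3 * (D ^ (p - q₀) * Real.exp (-(ℓ * cd a q₀ p))))) := by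
          rw [Finset.sum_const, nsmul_eq_mul]
      _ ≤ 4 * (D ^ k * Real.exp (k * ℓ - ℓ * cd a p (p + k)))
            * (2 * (3 * (D ^ (p - q₀) * Real.exp (-(ℓ * cd a q₀ p))))) := by gcongr
      _ = D ^ (p + k - q₀) * 24 * Real.exp (k * ℓ - ℓ * cd a q₀ (p + k)) := by
          rw [maj0_cd_add a hq (Nat.le_add_right p k), show p + k - q₀ = k + (p - q₀) by omega,
            pow_add, show (k : ℝ) * ℓ - ℓ * (cd a q₀ p + cd a p (p + k))
              = (k * ℓ - ℓ * cd a p (p + k)) + -(ℓ * cd a q₀ p) by ring, Real.exp_add]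
          ring
      _ ≤ _ := by
          rw [pow_succ]
          gcongr
          · rw [hD]; gcongr; linarith
          · nlinarith
  · have hcard : (S.card : ℝ) ≤ 4 * E := by
      have h1 : S.card ≤ ⌊3 * E⌋₊ + 1 := by
        simpa using Finset.card_filter_le (Finset.range (⌊3 * E⌋₊ + 1)) _
      have h2 : (S.card : ℝ) ≤ ⌊3 * E⌋₊ + 1 := by exact_mod_cast h1
      linarith [Nat.floor_le (show 0 ≤ 3 * E by positivity)]
    have h1 : 𝓕 (fun x => ((∑ m ∈ S, maj0Q (W (β m)) ((β m)⁻¹ * γ m * (g * uG m)) (x - m) : ℝ) : ℂ)) Ω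
        = 2 * ∑ m ∈ S, ee (m * Ω) * ∫ z in Ico (0 : ℝ) 1,
          (maj0F (W (β m)) ((β m)⁻¹ * γ m * (g * uG m)) z : ℝ) * ee (Ω * z) := by
      rw [ft_eq, Finset.mul_sum]
      simp only [Complex.ofReal_sum, Finset.mul_sum]
      rw [integral_finsetSum]
      · exact Finset.sum_congr rfl fun m _ => maj0Q_ft _ _ _ _
      · intro m hm
        refine (hint m hm).ofReal.bdd_mul (c := 1) ?_ (ae_of_all _ fun x => (norm_ee _).le)
        exact (continuous_ee.comp (continuous_id.mul continuous_const)).aestronglyMeasurable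
    rw [h1, norm_mul, Complex.norm_ofNat,
      ← Finset.sum_fiberwise_of_maps_to (g := β) (t := B) fun m _ => hβ m]
    have h2 : ∀ b ∈ B, ‖∑ m ∈ S with β m = b, ee (m * Ω) * ∫ z in Ico (0 : ℝ) 1,
          (maj0F (W (β m)) ((β m)⁻¹ * γ m * (g * uG m)) z : ℝ) * ee (Ω * z)‖
        ≤ Cf * Real.exp (k * ℓ - k * ℓ / 8) := fun b _ => by
      have h3 := hf g b (k * ℓ) Ω (S.filter fun m => β m = b) γ (W b) (hW b) hs hΩ
        (le_trans (by exact_mod_cast Finset.card_filter_le _ _) hcard) fun m hm => by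
          obtain ⟨hm, e⟩ := Finset.mem_filter.1 hm
          exact ⟨hγ m, by linarith [hS3 m hm], e ▸ hcl m⟩
      refine le_trans (le_of_eq ?_) h3
      congr 1
      exact Finset.sum_congr rfl fun m hm => by rw [(Finset.mem_filter.1 hm).2]
    have h4 := (norm_sum_le _ _).trans (Finset.sum_le_sum h2)
    rw [Finset.sum_const, nsmul_eq_mul] at h4
    have h5 := Real.exp_pos (k * ℓ - k * ℓ / 8)
    nlinarith

end Pool.Agent.Lib.MP_a52643_an.NS
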