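import Pool.Agent.Lib.MP_a52643_an.NS.Fou2

/-!
Events, their measurability and their transport in time.
-/

open MeasureTheory Set Filter Topology Metric UpperHalfPlane
open scoped ENNReal MatrixGroups Real FourierTransform ComplexConjugate

noncomputable section

namespace Pool.Agent.Lib.MP_a52643_an.NS

variable {Λ L : Set SL2}

lemma measurableSet_tube (L : Set SL2) (ε : ℝ) : MeasurableSet {g | bp g ∈ tube L ε} := by
  exact measurable_bp (isOpen_tube L ε).measurableSet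

lemma stat_sb (L : Set SL2) (t ℓ : ℝ) : MeasurableSet {g | sb L t ℓ g} :=
  (measurable_bp.prodMk (measurable_bp.comp (measurable_mul_const (aG ℓ))))
    (isOpen_near L t).measurableSet

lemma measurableSet_mb (L : Set SL2) (t ℓ : ℝ) : MeasurableSet {g | mb L t ℓ g} := by
  have : {g | mb L t ℓ g} = ⋂ i : ℕ, ⋂ _ : i < 2000,
      (fun g => g * aG ((i : ℕ) * ℓ)) ⁻¹' {g | sb L t ℓ g} := by
    ext g; simp [mb]
  rw [this]
  exact MeasurableSet.iInter fun i => MeasurableSet.iInter fun _ =>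
    measurable_mul_const _ (stat_sb L t ℓ)

lemma measurableSet_pat (L : Set SL2) (t ℓ : ℝ) (N : ℕ) (Φ : Finset ℕ → Prop) :
    MeasurableSet {g | Φ (pat L t ℓ N g)} := by
  have h1 : ∀ a : Finset ℕ, MeasurableSet {g | pat L t ℓ N g = a} := by
    intro a
    have : {g | pat L t ℓ N g = a} = ⋂ j : ℕ,
        {g | (j < N ∧ mb L t ℓ (g * aG (j * (2000 * ℓ)))) ↔ j ∈ a} := by
      ext g; simp [pat, Finset.ext_iff]
    rw [this]
    refine MeasurableSet.iInter fun j => ?_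
    have h2 : MeasurableSet {g | mb L t ℓ (g * aG (j * (2000 * ℓ)))} :=
      measurable_mul_const _ (measurableSet_mb L t ℓ)
    by_cases hj : j < N <;> by_cases ha : j ∈ a
    · simpa [hj, ha] using h2
    · simp only [hj, ha, true_and, iff_false]
      exact h2.compl
    · simp [hj, ha]
    · simp [hj, ha]
  have : {g | Φ (pat L t ℓ N g)} = ⋃ a : Finset ℕ, ⋃ _ : Φ a, {g | pat L t ℓ N g = a} := by
    ext g; simp
  rw [this]
  exact MeasurableSet.iUnion fun a => MeasurableSet.iUnion fun _ => h1 a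

lemma measurableSet_tm (p : ℝ) {S : Set SL2} (hS : MeasurableSet S) : MeasurableSet (tm p S) := by
  exact measurable_mul_const (aG p) hS

lemma tm_tm (p q : ℝ) (S : Set SL2) : tm p (tm q S) = tm (p + q) S := by
  ext g
  show g * aG p * aG q ∈ S ↔ g * aG (p + q) ∈ S
  rw [aG_add, mul_assoc]

lemma LI.tm {S : Set SL2} (h : LI Λ S) (p : ℝ) : LI Λ (tm p S) := by
  intro γ hγ g
  show γ * g * aG p ∈ S ↔ g * aG p ∈ S
  rw [mul_assoc]
  exact h γ hγ _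

lemma Geo.LI_tube (G : Geo Λ L) (ε : ℝ) : LI Λ {g | bp g ∈ tube L ε} := by
  intro γ hγ g
  show bp (γ * g) ∈ tube L ε ↔ bp g ∈ tube L ε
  rw [bp_mul]
  exact G.tube_iff hγ _ _

lemma Geo.LI_mb (G : Geo Λ L) (t ℓ : ℝ) : LI Λ {g | mb L t ℓ g} := by
  intro γ hγ g
  show mb L t ℓ (γ * g) ↔ mb L t ℓ g
  refine forall₂_congr fun i _ => ?_
  rw [sb, sb, mul_assoc γ g, mul_assoc γ, bp_mul γ, bp_mul γ]
  exact G.near_iff hγ _ _ _

lemma Geo.pat_inv (G : Geo Λ L) (t ℓ : ℝ) (N : ℕ) {γ : SL2} (hγ : γ ∈ Λ) (g : SL2) :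
    pat L t ℓ N (γ * g) = pat L t ℓ N g := by
  ext j
  simp only [pat, Finset.mem_filter]
  rw [mul_assoc]
  exact and_congr_right fun _ => G.LI_mb t ℓ γ hγ _

lemma pat_subset (L : Set SL2) (t ℓ : ℝ) (N : ℕ) (g : SL2) : pat L t ℓ N g ⊆ Finset.range N := by
  intro j hj
  simp only [pat, Finset.mem_filter] at hj
  exact hj.1

lemma mem_pat {t ℓ : ℝ} {N j : ℕ} {g : SL2} :
    j ∈ pat L t ℓ N g ↔ j < N ∧ mb L t ℓ (g * aG (j * (2000 * ℓ))) := by
  simp only [pat, Finset.mem_filter, Finset.mem_range]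

lemma mb.mono {t t' ℓ : ℝ} {g : SL2} (h : mb L t ℓ g) (ht : t ≤ t') : mb L t' ℓ g := by
  exact fun i hi => near.mono (h i hi) ht

lemma mb.move {t ℓ : ℝ} {g g' : SL2} (h : mb L t ℓ g) (hℓ : 0 ≤ ℓ) (hc : Cls 1 (2000 * ℓ) g g') :
    mb L (t + 1) ℓ g' := by
  intro i hi
  have h1 : (i : ℝ) + 1 ≤ 2000 := by exact_mod_cast hi
  have h0 : (0 : ℝ) ≤ i := Nat.cast_nonneg i
  refine near.move (h i hi) (hc _ ⟨by positivity, by nlinarith⟩) ?_
  rw [mul_assoc, mul_assoc, ← aG_add]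
  exact hc _ ⟨by positivity, by nlinarith⟩

lemma pat_move {t ℓ : ℝ} {N : ℕ} {g g' : SL2} (hℓ : 0 ≤ ℓ) (hc : Cls 1 (N * (2000 * ℓ)) g g') :
    pat L t ℓ N g ⊆ pat L (t + 1) ℓ N g' := by
  intro j hj
  obtain ⟨h1, h2⟩ := mem_pat.1 hj
  refine mem_pat.2 ⟨h1, h2.move hℓ fun τ hτ => ?_⟩
  have h3 : (j : ℝ) + 1 ≤ N := by exact_mod_cast h1
  have h0 : (0 : ℝ) ≤ j := Nat.cast_nonneg j
  have h4 := hτ.1
  have h5 := hτ.2
  rw [mul_assoc, mul_assoc, ← aG_add]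
  exact hc _ ⟨by positivity, by nlinarith⟩

lemma Cls.symm {ρ w : ℝ} {g g' : SL2} (h : Cls ρ w g g') : Cls ρ w g' g := by
  exact fun τ hτ => (dist_comm _ _).trans_le (h τ hτ)

lemma cls_box (g : SL2) {x s p w X S : ℝ} (hx : |x| ≤ X) (hs : |s| ≤ S) :
    Cls (S * Real.exp (-p) + X * Real.exp (p + w)) w (g * vG s * aG p) (g * uG x * aG p) := by
  intro τ hτ
  have h1 : dist (bp (g * uG x * aG (p + τ))) (bp (g * aG (p + τ))) ≤ X * Real.exp (p + w) := by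
    have e := bp_uG_aG g 0 (p + τ)
    rw [uG_zero, mul_one] at e
    rw [e, bp_uG_aG, dist_smul]
    refine (dist_pt_le _ _ _).trans ?_
    rw [sub_zero, neg_neg]
    exact mul_le_mul hx (Real.exp_le_exp.2 (by linarith [hτ.2])) (Real.exp_pos _).le
      ((abs_nonneg x).trans hx)
  have h2 : dist (bp (g * aG (p + τ))) (bp (g * vG s * aG (p + τ))) ≤ S * Real.exp (-p) := by
    have e := bp_vG_aG g 0 (p + τ)
    rw [neg_zero, vG_zero, mul_one] at e
    have e' := bp_vG_aG g (-s) (p + τ)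
    rw [neg_neg] at e'
    rw [e, e', dist_smul]
    refine (dist_pt_le _ _ _).trans ?_
    rw [zero_sub, neg_neg]
    exact mul_le_mul hs (Real.exp_le_exp.2 (by linarith [hτ.1])) (Real.exp_pos _).le
      ((abs_nonneg s).trans hs)
  rw [mul_assoc _ (aG p), mul_assoc _ (aG p), ← aG_add]
  linarith [dist_triangle (bp (g * uG x * aG (p + τ))) (bp (g * aG (p + τ)))
    (bp (g * vG s * aG (p + τ)))]

theorem Tr.stat {P₀ P : Measure SL2} {R X Ξ T θ ρ w p : ℝ} (h : Tr Λ P₀ P R X Ξ T θ) (hR : 0 < R)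
    {S S' : Set SL2} (mS : MeasurableSet S) (mS' : MeasurableSet S') (iS : LI Λ S)
    (iS' : LI Λ S') (hs : Stp ρ w S S')
    (hρ : Ξ / R * Real.exp (-p) + X * Real.exp (p + w) ≤ ρ) :
    P₀.real (tm p S) ≤ P.real (tm (p - T) S') + 30 * θ := by
  have h1 := h (tm p S) (tm p S') (measurableSet_tm p mS) (measurableSet_tm p mS') (iS.tm p)
    (iS'.tm p) fun g => ?_
  · rwa [tm_tm, show -T + p = p - T by ring] at h1
  · by_cases hY : ∃ ξ, |ξ| ≤ Ξ ∧ g * vG (-(ξ / R)) ∈ tm p S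
    · obtain ⟨ξ, hξ, hg⟩ := hY
      refine (UP_empty_left _ _).mono (fun x hx => hx.2 ?_) Subset.rfl le_rfl
      have h2 : |-(ξ / R)| ≤ Ξ / R := by
        rw [abs_neg, abs_div, abs_of_pos hR]
        exact div_le_div_of_nonneg_right hξ hR.le
      exact hs _ hg _ fun τ hτ => (cls_box g hx.1 h2 τ hτ).trans hρ
    · exact (UP_empty_right _ _).mono Subset.rfl (fun ξ hξ => hY ⟨ξ, hξ⟩) le_rfl

lemma stat_half {x : ℝ} (hx : x ≤ -1) : Real.exp x ≤ 1 / 2 := by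
  have h1 := Real.add_one_le_exp (-x)
  have h2 : Real.exp x * Real.exp (-x) = 1 := by rw [← Real.exp_add]; simp
  nlinarith [Real.exp_pos x]

lemma stat_back {P : Measure SL2} {h θ w a b : ℝ} (h1 : 1 ≤ h)
    (tr : ∀ T, 4 * h ≤ T → T ≤ 46 * h →
      Tr Λ P P (Real.exp (100 * h)) (Real.exp (-49 * h)) (Real.exp (52 * h + T)) T θ)
    {S S' : Set SL2} (mS : MeasurableSet S) (mS' : MeasurableSet S') (iS : LI Λ S)
    (iS' : LI Λ S') (hs : Stp 1 w S S') (b0 : -46 * h ≤ b) (a1 : a + w ≤ 46 * h)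
    (d0 : 4 * h ≤ a - b) (d1 : a - b ≤ 46 * h) :
    P.real (tm a S) ≤ P.real (tm b S') + 30 * θ := by
  have h2 := (tr (a - b) d0 d1).stat (p := a) (Real.exp_pos _) mS mS' iS iS' hs (by
    rw [← Real.exp_sub, ← Real.exp_add, ← Real.exp_add]
    linarith [stat_half (x := 52 * h + (a - b) - 100 * h + -a) (by linarith),
      stat_half (x := -49 * h + (a + w)) (by linarith)])
  rwa [sub_sub_cancel] at h2

lemma stat_jump {P : Measure SL2} [IsProbabilityMeasure P] {h θ w a b : ℝ} (h1 : 1 ≤ h)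
    (tr : ∀ T, 4 * h ≤ T → T ≤ 46 * h →
      Tr Λ P P (Real.exp (100 * h)) (Real.exp (-49 * h)) (Real.exp (52 * h + T)) T θ)
    {S S' : Set SL2} (mS : MeasurableSet S) (mS' : MeasurableSet S') (iS : LI Λ S)
    (iS' : LI Λ S') (hs : Stp 1 w S S') (a0 : -46 * h ≤ a) (a1 : a + w ≤ 46 * h)
    (b0 : -46 * h ≤ b) (b1 : b + w ≤ 46 * h)
    (d : 4 * h ≤ a - b ∧ a - b ≤ 46 * h ∨ 4 * h ≤ b - a ∧ b - a ≤ 46 * h) :
    P.real (tm a S) ≤ P.real (tm b S') + 30 * θ := by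
  rcases d with d | d
  · exact stat_back h1 tr mS mS' iS iS' hs b0 a1 d.1 d.2
  · have h2 := stat_back (S := S'ᶜ) (S' := Sᶜ) h1 tr mS'.compl mS.compl
      (fun γ hγ g => not_congr (iS' γ hγ g)) (fun γ hγ g => not_congr (iS γ hγ g))
      (fun g hg g' hc hg' => hg (hs g' hg' g hc.symm)) a0 b1 d.1 d.2
    rw [show tm b S'ᶜ = (tm b S')ᶜ from rfl, show tm a Sᶜ = (tm a S)ᶜ from rfl,
      probReal_compl_eq_one_sub (measurableSet_tm b mS'),
      probReal_compl_eq_one_sub (measurableSet_tm a mS)] at h2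
    linarith

theorem transport {P : Measure SL2} [IsProbabilityMeasure P] {h θ w p q : ℝ} (h1 : 1 ≤ h)
    (tr : ∀ T, 4 * h ≤ T → T ≤ 46 * h →
      Tr Λ P P (Real.exp (100 * h)) (Real.exp (-49 * h)) (Real.exp (52 * h + T)) T θ)
    {S₁ S₂ S₃ : Set SL2} (m₁ : MeasurableSet S₁) (m₂ : MeasurableSet S₂) (m₃ : MeasurableSet S₃)
    (i₁ : LI Λ S₁) (i₂ : LI Λ S₂) (i₃ : LI Λ S₃) (s₁ : Stp 1 w S₁ S₂) (s₂ : Stp 1 w S₂ S₃)
    (w0 : 0 ≤ w) (w1 : w ≤ 26 * h) (p0 : -46 * h ≤ p) (p1 : p + w ≤ 46 * h) (q0 : -46 * h ≤ q)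
    (q1 : q + w ≤ 46 * h) : P.real (tm p S₁) ≤ P.real (tm q S₃) + 60 * θ := by
  obtain ⟨m, m0, m1, d1, d2⟩ : ∃ m, -46 * h ≤ m ∧ m + w ≤ 46 * h ∧
      (4 * h ≤ p - m ∧ p - m ≤ 46 * h ∨ 4 * h ≤ m - p ∧ m - p ≤ 46 * h) ∧
      (4 * h ≤ m - q ∧ m - q ≤ 46 * h ∨ 4 * h ≤ q - m ∧ q - m ≤ 46 * h) := by
    rcases le_total (8 * h) (p - q) with c1 | c1
    · exact ⟨(p + q) / 2, by linarith, by linarith, Or.inl ⟨by linarith, by linarith⟩,
        Or.inl ⟨by linarith, by linarith⟩⟩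
    rcases le_total (8 * h) (q - p) with c2 | c2
    · exact ⟨(p + q) / 2, by linarith, by linarith, Or.inr ⟨by linarith, by linarith⟩,
        Or.inr ⟨by linarith, by linarith⟩⟩
    rcases le_total p (-20 * h) with c3 | c3
    · exact ⟨p + 12 * h, by linarith, by linarith, Or.inr ⟨by linarith, by linarith⟩,
        Or.inl ⟨by linarith, by linarith⟩⟩
    · exact ⟨p - 12 * h, by linarith, by linarith, Or.inl ⟨by linarith, by linarith⟩,
        Or.inr ⟨by linarith, by linarith⟩⟩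
  have j1 := stat_jump h1 tr m₁ m₂ i₁ i₂ s₁ p0 p1 m0 m1 d1
  have j2 := stat_jump h1 tr m₂ m₃ i₂ i₃ s₂ m0 m1 q0 q1 d2
  linarith

end Pool.Agent.Lib.MP_a52643_an.NS
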