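import Pool.Agent.Lib.MP_a52643_an.NS.Fou2

/-!
The Schur test.
-/

open MeasureTheory Set Filter Topology Metric UpperHalfPlane
open scoped ENNReal MatrixGroups Real FourierTransform ComplexConjugate

noncomputable section

namespace Pool.Agent.Lib.MP_a52643_an.NS

lemma schur_conj_ee (t : ℝ) : conj (ee t) = ee (-t) := by
  rw [ee, ee, ← Complex.exp_conj]
  congr 1
  simp only [map_mul, Complex.conj_ofReal, Complex.conj_I]
  push_cast
  ring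

/-- the smoothed majorant -/
lemma schur_kernel {η : ℝ → ℝ} {c : ℝ} (h : Fej η c) {ψ : ℝ → ℝ} {ρ : ℝ} (hρ : 0 < ρ)
    (h0 : ∀ x, 0 ≤ ψ x) (hi : Integrable ψ) :
    ∃ p : ℝ → ℝ, Integrable p ∧ (∀ x, 0 ≤ p x) ∧
      (∀ x, (∀ x', |x' - x| ≤ ρ → 1 ≤ ψ x') → c ≤ p x) ∧
      (∀ ξ, ‖𝓕 (fun x => (p x : ℂ)) ξ‖ ≤ ‖𝓕 (fun x => (ψ x : ℂ)) ξ‖) ∧
      ∀ ξ, 1 / ρ ≤ |ξ| → 𝓕 (fun x => (p x : ℂ)) ξ = 0 := by
  obtain ⟨e, he⟩ : ∃ e : ℝ → ℝ, e = fun u => η (u / ρ) / ρ := ⟨_, rfl⟩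
  have e0 : ∀ u, 0 ≤ e u := fun u => by rw [he]; exact div_nonneg (h.nn _) hρ.le
  have e1 : ∀ u, e u ≤ 1 / ρ := fun u => by
    rw [he]; exact div_le_div_of_nonneg_right (h.le1 _) hρ.le
  have ec : Continuous e := by
    rw [he]; exact (h.cont.comp (continuous_id.div_const ρ)).div_const ρ
  have ei : Integrable e := by
    rw [he]; exact (h.int.comp_div hρ.ne').div_const ρ
  have eI : ∫ u, e u ≤ 1 := by
    rw [he, integral_div, Measure.integral_comp_div, abs_of_pos hρ, smul_eq_mul,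
      mul_div_cancel_left₀ _ hρ.ne']
    exact h.le
  have eF : ∀ ξ, 𝓕 (fun x => (e x : ℂ)) ξ = 𝓕 (fun x => (η x : ℂ)) (ρ * ξ) := by
    intro ξ
    rw [ft_eq, ft_eq]
    have h1 := Measure.integral_comp_div (fun x => ee (x * (ρ * ξ)) * (η x : ℂ)) ρ
    rw [abs_of_pos hρ] at h1
    have h2 : ∀ x, ee (x * ξ) * (e x : ℂ)
        = (ρ : ℂ)⁻¹ * (ee (x / ρ * (ρ * ξ)) * (η (x / ρ) : ℂ)) := by
      intro x
      have : x / ρ * (ρ * ξ) = x * ξ := by field_simp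
      rw [this, he]
      push_cast
      ring
    simp_rw [h2]
    rw [integral_const_mul, h1, Complex.real_smul, ← mul_assoc,
      inv_mul_cancel₀ (by exact_mod_cast hρ.ne'), one_mul]
  have hψ : Integrable fun x => (ψ x : ℂ) := hi.ofReal
  have heC : Integrable fun x => (e x : ℂ) := ei.ofReal
  have hconv : (fun x => ((∫ t, ψ t * e (x - t) : ℝ) : ℂ))
      = MeasureTheory.convolution (fun x => (ψ x : ℂ)) (fun x => (e x : ℂ))
        (ContinuousLinearMap.mul ℂ ℂ) volume := by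
    funext x
    rw [convolution_def, ← integral_complex_ofReal]
    simp
  have hF : ∀ ξ, 𝓕 (fun x => ((∫ t, ψ t * e (x - t) : ℝ) : ℂ)) ξ
      = 𝓕 (fun x => (ψ x : ℂ)) ξ * 𝓕 (fun x => (η x : ℂ)) (ρ * ξ) := by
    intro ξ
    rw [hconv, Real.fourier_mul_convolution_eq hψ heC, eF]
  refine ⟨fun x => ∫ t, ψ t * e (x - t), ?_, fun x => integral_nonneg fun t =>
    mul_nonneg (h0 t) (e0 _), fun x hx => ?_, fun ξ => ?_, fun ξ hξ => ?_⟩
  · have := hi.integrable_convolution (ContinuousLinearMap.mul ℝ ℝ) ei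
    refine this.congr (Eventually.of_forall fun x => ?_)
    simp [convolution_def]
  · have h1 : Integrable fun t => ψ t * e (x - t) :=
      hi.mul_bdd (c := 1 / ρ) (ec.comp (continuous_const.sub continuous_id)).aestronglyMeasurable
        (Eventually.of_forall fun t => by rw [Real.norm_of_nonneg (e0 _)]; exact e1 _)
    obtain ⟨F, hF'⟩ : ∃ F : ℝ → ℝ, F = (Icc (-(1 / 2) : ℝ) (1 / 2)).indicator η := ⟨_, rfl⟩
    have h2 : ∫ t, F ((x - t) / ρ) / ρ = ∫ t in Icc (-(1 / 2) : ℝ) (1 / 2), η t := by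
      rw [integral_sub_left_eq_self (fun t => F (t / ρ) / ρ) volume x, integral_div,
        Measure.integral_comp_div, abs_of_pos hρ, smul_eq_mul, mul_div_cancel_left₀ _ hρ.ne', hF',
        integral_indicator measurableSet_Icc]
    refine h.low.trans (h2.symm.le.trans (integral_mono_of_nonneg
      (Eventually.of_forall fun t => ?_) h1 (Eventually.of_forall fun t => ?_)))
    · rw [hF']
      exact div_nonneg (indicator_nonneg (fun y _ => h.nn y) _) hρ.le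
    · by_cases ht : (x - t) / ρ ∈ Icc (-(1 / 2) : ℝ) (1 / 2)
      · have h3 : 1 ≤ ψ t := hx t (by
          have h4 := (le_div_iff₀ hρ).1 ht.1
          have h5 := (div_le_iff₀ hρ).1 ht.2
          rw [abs_le]
          constructor <;> linarith)
        have h4 : F ((x - t) / ρ) / ρ = e (x - t) := by rw [hF', indicator_of_mem ht, he]
        show F ((x - t) / ρ) / ρ ≤ ψ t * e (x - t)
        rw [h4]
        exact le_mul_of_one_le_left (e0 _) h3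
      · show F ((x - t) / ρ) / ρ ≤ ψ t * e (x - t)
        rw [hF', indicator_of_notMem ht, zero_div]
        exact mul_nonneg (h0 t) (e0 _)
  · rw [hF, norm_mul, ← eF]
    refine mul_le_of_le_one_right (norm_nonneg _) ((norm_ft_le _ _).trans (le_trans ?_ eI))
    refine (integral_congr_ae (Eventually.of_forall fun x => ?_)).le
    simp [abs_of_nonneg (e0 x)]
  · rw [hF, h.supp (ρ * ξ), mul_zero]
    rw [abs_mul, abs_of_pos hρ]
    rwa [div_le_iff₀' hρ] at hξ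

/-- the quadratic form of a weight on the frequency side -/
lemma schur_form {p : ℝ → ℝ} (hp : Integrable p) (h0 : ∀ x, 0 ≤ p x) {G : ℝ → ℂ}
    (hG : Integrable G) {κ : ℝ → ℝ≥0∞} (hκ : ∀ ζ, ‖𝓕 (fun x => (p x : ℂ)) ζ‖ₑ ≤ κ ζ) :
    ∫⁻ x, ENNReal.ofReal (p x) * ‖𝓕 G x‖ₑ ^ 2
      ≤ ∫⁻ ξ, ‖G ξ‖ₑ * ∫⁻ ξ', ‖G ξ'‖ₑ * κ (ξ' - ξ) := by
  have gc := continuous_ft hG
  have gb := norm_ft_le G
  have hpC : Integrable fun x => (p x : ℂ) := hp.ofReal
  have hh : Integrable fun x => (p x : ℂ) * conj (𝓕 G x) :=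
    hpC.mul_bdd (c := ∫ x, ‖G x‖) (Complex.continuous_conj.comp gc).aestronglyMeasurable
      (Eventually.of_forall fun x => by rw [Complex.norm_conj]; exact gb x)
  have h1 : Integrable fun x => p x * ‖𝓕 G x‖ ^ 2 :=
    hp.mul_bdd (c := (∫ x, ‖G x‖) ^ 2) (gc.norm.pow 2).aestronglyMeasurable
      (Eventually.of_forall fun x => by
        rw [Real.norm_of_nonneg (sq_nonneg _)]
        exact pow_le_pow_left₀ (norm_nonneg _) (gb x) 2)
  have h2 : ∫⁻ x, ENNReal.ofReal (p x) * ‖𝓕 G x‖ₑ ^ 2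
      = ENNReal.ofReal (∫ x, p x * ‖𝓕 G x‖ ^ 2) := by
    rw [ofReal_integral_eq_lintegral_ofReal h1
      (Eventually.of_forall fun x => mul_nonneg (h0 x) (sq_nonneg _))]
    refine lintegral_congr fun x => ?_
    rw [ENNReal.ofReal_mul (h0 x), ENNReal.ofReal_pow (norm_nonneg _), ofReal_norm]
  have h3 : ((∫ x, p x * ‖𝓕 G x‖ ^ 2 : ℝ) : ℂ)
      = ∫ ξ, G ξ * 𝓕 (fun x => (p x : ℂ) * conj (𝓕 G x)) ξ := by
    rw [← ft_swap hG hh, ← integral_complex_ofReal]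
    refine integral_congr_ae (Eventually.of_forall fun x => ?_)
    show ((p x * ‖𝓕 G x‖ ^ 2 : ℝ) : ℂ) = 𝓕 G x * ((p x : ℂ) * conj (𝓕 G x))
    rw [mul_left_comm, Complex.mul_conj, Complex.normSq_eq_norm_sq]
    push_cast
    ring
  have h4 : ∀ ξ, ‖𝓕 (fun x => (p x : ℂ) * conj (𝓕 G x)) ξ‖ₑ ≤ ∫⁻ ξ', ‖G ξ'‖ₑ * κ (ξ' - ξ) := by
    intro ξ
    have hk : Integrable fun x => (p x : ℂ) * ee (-(x * ξ)) :=
      hpC.mul_bdd (c := 1) (by fun_prop : Continuous fun x : ℝ => ee (-(x * ξ))).aestronglyMeasurable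
        (Eventually.of_forall fun x => (norm_ee _).le)
    have h5 : conj (𝓕 (fun x => (p x : ℂ) * conj (𝓕 G x)) ξ)
        = ∫ ξ', G ξ' * 𝓕 (fun x => (p x : ℂ)) (ξ' - ξ) := by
      have h6 : ∀ ξ', 𝓕 (fun x => (p x : ℂ)) (ξ' - ξ)
          = 𝓕 (fun x => (p x : ℂ) * ee (-(x * ξ))) ξ' := by
        intro ξ'
        rw [ft_eq, ft_eq]
        refine integral_congr_ae (Eventually.of_forall fun x => ?_)
        show ee (x * (ξ' - ξ)) * (p x : ℂ) = ee (x * ξ') * ((p x : ℂ) * ee (-(x * ξ)))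
        rw [show x * (ξ' - ξ) = x * ξ' + -(x * ξ) by ring, ee_add]
        ring
      simp_rw [h6]
      rw [← ft_swap hG hk, ft_eq, ← integral_conj]
      refine integral_congr_ae (Eventually.of_forall fun x => ?_)
      show conj (ee (x * ξ) * ((p x : ℂ) * conj (𝓕 G x))) = 𝓕 G x * ((p x : ℂ) * ee (-(x * ξ)))
      rw [map_mul, map_mul, schur_conj_ee, Complex.conj_ofReal, Complex.conj_conj]
      ring
    have h7 : ‖𝓕 (fun x => (p x : ℂ) * conj (𝓕 G x)) ξ‖ₑ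
        = ‖conj (𝓕 (fun x => (p x : ℂ) * conj (𝓕 G x)) ξ)‖ₑ := by
      rw [← ofReal_norm, ← ofReal_norm, Complex.norm_conj]
    rw [h7, h5]
    refine (enorm_integral_le_lintegral_enorm _).trans (lintegral_mono fun ξ' => ?_)
    rw [enorm_mul]
    exact mul_le_mul_right (hκ _) _
  rw [h2]
  calc ENNReal.ofReal (∫ x, p x * ‖𝓕 G x‖ ^ 2)
      ≤ ‖((∫ x, p x * ‖𝓕 G x‖ ^ 2 : ℝ) : ℂ)‖ₑ := by
        rw [← ofReal_norm, Complex.norm_real]
        exact ENNReal.ofReal_le_ofReal (le_abs_self _)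
    _ ≤ ∫⁻ ξ, ‖G ξ * 𝓕 (fun x => (p x : ℂ) * conj (𝓕 G x)) ξ‖ₑ := by
        rw [h3]; exact enorm_integral_le_lintegral_enorm _
    _ ≤ _ := lintegral_mono fun ξ => by
        rw [enorm_mul]
        exact mul_le_mul_right (h4 ξ) _

lemma schur_amgm (x y : ℝ≥0∞) : x * y ≤ x ^ 2 + y ^ 2 := by
  rcases le_total x y with h | h
  · calc x * y ≤ y * y := mul_le_mul_left h _
      _ = y ^ 2 := (sq y).symm
      _ ≤ _ := le_add_self
  · calc x * y ≤ x * x := mul_le_mul_right h _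
      _ = x ^ 2 := (sq x).symm
      _ ≤ _ := le_self_add

/-- the test itself -/
lemma schur_test {a b κ : ℝ → ℝ≥0∞} (ha : Measurable a) (hb : Measurable b) (hκ : Measurable κ)
    (h1 : ∀ ξ, a ξ ≤ 1) (hs : ∀ ζ, κ (-ζ) = κ ζ) {M : ℝ≥0∞}
    (hM : ∀ ξ, ∫⁻ ξ', a ξ' * κ (ξ' - ξ) ≤ M) :
    ∫⁻ ξ, a ξ * b ξ * ∫⁻ ξ', a ξ' * b ξ' * κ (ξ' - ξ) ≤ 2 * M * ∫⁻ ξ, b ξ ^ 2 := by
  have key : ∫⁻ ξ, ∫⁻ ξ', a ξ * b ξ ^ 2 * (a ξ' * κ (ξ' - ξ)) ≤ M * ∫⁻ ξ, b ξ ^ 2 := by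
    rw [← lintegral_const_mul _ (hb.pow_const 2)]
    refine lintegral_mono fun ξ => ?_
    rw [lintegral_const_mul _ (by fun_prop)]
    calc a ξ * b ξ ^ 2 * ∫⁻ ξ', a ξ' * κ (ξ' - ξ) ≤ 1 * b ξ ^ 2 * M := by
          gcongr
          exacts [h1 ξ, hM ξ]
      _ = M * b ξ ^ 2 := by ring
  have key2 : ∫⁻ ξ, ∫⁻ ξ', a ξ' * b ξ' ^ 2 * (a ξ * κ (ξ - ξ')) ≤ M * ∫⁻ ξ, b ξ ^ 2 := by
    rw [lintegral_lintegral_swap (by
      refine Measurable.aemeasurable ?_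
      unfold Function.uncurry
      fun_prop)]
    exact key
  calc ∫⁻ ξ, a ξ * b ξ * ∫⁻ ξ', a ξ' * b ξ' * κ (ξ' - ξ)
      ≤ ∫⁻ ξ, ((∫⁻ ξ', a ξ * b ξ ^ 2 * (a ξ' * κ (ξ' - ξ)))
          + ∫⁻ ξ', a ξ' * b ξ' ^ 2 * (a ξ * κ (ξ - ξ'))) := by
        refine lintegral_mono fun ξ => ?_
        rw [← lintegral_const_mul _ (by fun_prop), ← lintegral_add_left (by fun_prop)]
        refine lintegral_mono fun ξ' => ?_
        rw [← hs (ξ - ξ'), neg_sub]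
        calc a ξ * b ξ * (a ξ' * b ξ' * κ (ξ' - ξ))
            = a ξ * a ξ' * κ (ξ' - ξ) * (b ξ * b ξ') := by ring
          _ ≤ a ξ * a ξ' * κ (ξ' - ξ) * (b ξ ^ 2 + b ξ' ^ 2) :=
            mul_le_mul_right (schur_amgm _ _) _
          _ = _ := by ring
    _ = (∫⁻ ξ, ∫⁻ ξ', a ξ * b ξ ^ 2 * (a ξ' * κ (ξ' - ξ)))
          + ∫⁻ ξ, ∫⁻ ξ', a ξ' * b ξ' ^ 2 * (a ξ * κ (ξ - ξ')) :=
        lintegral_add_left (Measurable.lintegral_prod_right (by
          unfold Function.uncurry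
          fun_prop)) _
    _ ≤ M * (∫⁻ ξ, b ξ ^ 2) + M * ∫⁻ ξ, b ξ ^ 2 := add_le_add key key2
    _ = _ := by ring

lemma schur_dom {Y : Set ℝ} {Ψ : ℝ → ℝ} (h : Dom Y Ψ) {R v : ℝ} (hv : 0 ≤ v)
    (hY : ∀ ζ, volume (Y ∩ Icc ζ (ζ + R)) ≤ ENNReal.ofReal v) (W : ℝ≥0∞) (ξ : ℝ) :
    ∫⁻ ξ', ENNReal.ofReal (Ψ ξ') * (Icc (-R) R).indicator (fun _ => W) (ξ' - ξ)
      ≤ W * (2 * ENNReal.ofReal v) := by
  have h1 : ∀ ζ, ∫⁻ ξ' in Icc ζ (ζ + R), ENNReal.ofReal (Ψ ξ') ≤ ENNReal.ofReal v := fun ζ => by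
    rw [← ofReal_integral_eq_lintegral_ofReal h.int.integrableOn
      (Eventually.of_forall fun x => h.nn x)]
    exact ENNReal.ofReal_le_ofReal (h.vol R v hv hY ζ)
  have hm : Measurable fun ξ' => ENNReal.ofReal (Ψ ξ') := h.meas.ennreal_ofReal
  calc ∫⁻ ξ', ENNReal.ofReal (Ψ ξ') * (Icc (-R) R).indicator (fun _ => W) (ξ' - ξ)
      ≤ ∫⁻ ξ', W * (Icc (ξ - R) (ξ - R + R) ∪ Icc ξ (ξ + R)).indicator
          (fun ξ' => ENNReal.ofReal (Ψ ξ')) ξ' := by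
        refine lintegral_mono fun ξ' => ?_
        by_cases hx : ξ' - ξ ∈ Icc (-R) R
        · have h2 : ξ' ∈ Icc (ξ - R) (ξ - R + R) ∪ Icc ξ (ξ + R) := by
            rcases le_total ξ' ξ with h3 | h3
            · exact Or.inl ⟨by linarith [hx.1], by linarith⟩
            · exact Or.inr ⟨h3, by linarith [hx.2]⟩
          rw [indicator_of_mem hx, indicator_of_mem h2, mul_comm]
        · rw [indicator_of_notMem hx, mul_zero]
          exact zero_le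
    _ = W * ∫⁻ ξ' in Icc (ξ - R) (ξ - R + R) ∪ Icc ξ (ξ + R), ENNReal.ofReal (Ψ ξ') := by
        rw [lintegral_const_mul _ (hm.indicator (measurableSet_Icc.union measurableSet_Icc)),
          lintegral_indicator (measurableSet_Icc.union measurableSet_Icc)]
    _ ≤ W * (ENNReal.ofReal v + ENNReal.ofReal v) :=
        mul_le_mul_right ((lintegral_union_le _ _ _).trans (add_le_add (h1 _) (h1 _))) _
    _ = _ := by ring

theorem schur : ∃ C : ℝ, 1 ≤ C ∧ ∀ (A Y : Set ℝ) (ψ Ψ : ℝ → ℝ) (ρ R V D v₁ v₂ : ℝ), 0 < ρ → 0 < R →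
    0 ≤ D → 0 ≤ v₁ → 0 ≤ v₂ → Measurable ψ → (∀ x, 0 ≤ ψ x) → Integrable ψ →
    (∀ x ∈ A, ∀ x', |x' - x| ≤ ρ → 1 ≤ ψ x') → ∫ x, ψ x ≤ V →
    (∀ ξ, R ≤ |ξ| → |ξ| < 1 / ρ → ‖𝓕 (fun x => (ψ x : ℂ)) ξ‖ ≤ D) → Dom Y Ψ →
    (∀ ζ, volume (Y ∩ Icc ζ (ζ + R)) ≤ ENNReal.ofReal v₁) →
    (∀ ζ, volume (Y ∩ Icc ζ (ζ + 1 / ρ)) ≤ ENNReal.ofReal v₂) →
    ∀ f, Nice f → (∀ x, x ∉ A → f x = 0) →
      n2 (fun ξ => Ψ ξ * 𝓕 f ξ) ≤ ENNReal.ofReal (C * (V * v₁ + D * v₂)) * n2 f := by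
  obtain ⟨η, c, hη⟩ := exists_fej
  have hc := hη.pos
  refine ⟨max 1 (4 / c), le_max_left _ _, ?_⟩
  intro A Y ψ Ψ ρ R V D v₁ v₂ hρ hR hD hv₁ hv₂ _ h0 hi hA hV hF hΨ hY₁ hY₂ f hf hs
  have hV0 : 0 ≤ V := (integral_nonneg h0).trans hV
  obtain ⟨p, pi, p0, pc, pF, pz⟩ := schur_kernel hη hρ h0 hi
  obtain ⟨κ, hκ⟩ : ∃ κ : ℝ → ℝ≥0∞, κ = fun ζ => (Icc (-R) R).indicator (fun _ => ENNReal.ofReal V) ζ
    + (Icc (-(1 / ρ)) (1 / ρ)).indicator (fun _ => ENNReal.ofReal D) ζ := ⟨_, rfl⟩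
  have κm : Measurable κ := by
    rw [hκ]
    exact (measurable_const.indicator measurableSet_Icc).add
      (measurable_const.indicator measurableSet_Icc)
  have κs : ∀ ζ, κ (-ζ) = κ ζ := fun ζ => by
    have : ∀ (S : ℝ) (W : ℝ≥0∞), (Icc (-S) S).indicator (fun _ => W) (-ζ)
        = (Icc (-S) S).indicator (fun _ => W) ζ := fun S W => by
      by_cases h : ζ ∈ Icc (-S) S
      · rw [indicator_of_mem h, indicator_of_mem
          (show -ζ ∈ Icc (-S) S from ⟨by linarith [h.2], by linarith [h.1]⟩)]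
      · rw [indicator_of_notMem h,
          indicator_of_notMem fun h' => h ⟨by linarith [h'.2], by linarith [h'.1]⟩]
    simp only [hκ, this]
  have κF : ∀ ζ, ‖𝓕 (fun x => (p x : ℂ)) ζ‖ₑ ≤ κ ζ := fun ζ => by
    rw [← ofReal_norm, hκ]
    by_cases h1 : |ζ| ≤ R
    · refine le_trans ?_ le_self_add
      rw [indicator_of_mem (show ζ ∈ Icc (-R) R from abs_le.1 h1)]
      refine ENNReal.ofReal_le_ofReal ((pF ζ).trans ((norm_ft_le _ _).trans (le_trans ?_ hV)))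
      refine (integral_congr_ae (Eventually.of_forall fun x => ?_)).le
      simp [abs_of_nonneg (h0 x)]
    · by_cases h2 : |ζ| < 1 / ρ
      · refine le_trans ?_ le_add_self
        rw [indicator_of_mem (show ζ ∈ Icc (-(1 / ρ)) (1 / ρ) from abs_le.1 h2.le)]
        exact ENNReal.ofReal_le_ofReal ((pF ζ).trans (hF ζ (not_le.1 h1).le h2))
      · rw [pz ζ (not_lt.1 h2), norm_zero, ENNReal.ofReal_zero]
        exact zero_le
  have Ψm : Measurable fun ξ => ENNReal.ofReal (Ψ ξ) := hΨ.meas.ennreal_ofReal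
  have κM : ∀ ξ, ∫⁻ ξ', ENNReal.ofReal (Ψ ξ') * κ (ξ' - ξ)
      ≤ 2 * ENNReal.ofReal (V * v₁ + D * v₂) := fun ξ => by
    simp only [hκ, mul_add]
    have hm : Measurable fun ξ' => ENNReal.ofReal (Ψ ξ')
        * (Icc (-R) R).indicator (fun _ => ENNReal.ofReal V) (ξ' - ξ) :=
      Ψm.mul ((measurable_const.indicator measurableSet_Icc).comp (measurable_id.sub_const ξ))
    rw [lintegral_add_left hm]
    refine (add_le_add (schur_dom hΨ hv₁ hY₁ _ ξ) (schur_dom hΨ hv₂ hY₂ _ ξ)).trans (le_of_eq ?_)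
    rw [ENNReal.ofReal_add (mul_nonneg hV0 hv₁) (mul_nonneg hD hv₂), ENNReal.ofReal_mul hV0,
      ENNReal.ofReal_mul hD]
    ring
  have fc := continuous_ft hf.integrable
  have fb := norm_ft_le f
  obtain ⟨H, hH⟩ : ∃ H : ℝ → ℂ, H = fun ξ => Ψ ξ * 𝓕 f ξ := ⟨_, rfl⟩
  rw [← hH]
  have ΨC : Measurable fun ξ => (Ψ ξ : ℂ) := Complex.measurable_ofReal.comp hΨ.meas
  have Hm : Measurable H := by rw [hH]; exact ΨC.mul fc.measurable
  have Hb : ∀ ξ, ‖H ξ‖ ≤ ‖𝓕 f ξ‖ := fun ξ => by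
    rw [hH]
    show ‖(Ψ ξ : ℂ) * 𝓕 f ξ‖ ≤ _
    rw [norm_mul, Complex.norm_real, Real.norm_of_nonneg (hΨ.nn ξ)]
    exact mul_le_of_le_one_left (norm_nonneg _) (hΨ.le1 ξ)
  have Hfin : n2 H ≠ ⊤ := by
    refine ne_top_of_le_ne_top hf.n2_ne_top (le_trans (lintegral_mono fun ξ => ?_) hf.plancherel.le)
    have : ‖H ξ‖ₑ ≤ ‖𝓕 f ξ‖ₑ := by
      rw [← ofReal_norm, ← ofReal_norm]
      exact ENNReal.ofReal_le_ofReal (Hb ξ)
    exact pow_le_pow_left₀ zero_le this 2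
  have Gi : Integrable fun ξ => (Ψ ξ : ℂ) * conj (H ξ) :=
    hΨ.int.ofReal.mul_bdd (c := ∫ x, ‖f x‖)
      (Complex.continuous_conj.measurable.comp Hm).aestronglyMeasurable
      (Eventually.of_forall fun ξ => by rw [Complex.norm_conj]; exact (Hb ξ).trans (fb ξ))
  obtain ⟨G, hG⟩ : ∃ G : ℝ → ℂ, G = fun ξ => (Ψ ξ : ℂ) * conj (H ξ) := ⟨_, rfl⟩
  rw [← hG] at Gi
  have Gn : ∀ ξ, ‖G ξ‖ₑ = ENNReal.ofReal (Ψ ξ) * ‖H ξ‖ₑ := fun ξ => by
    rw [hG, ← ofReal_norm, ← ofReal_norm, ← ENNReal.ofReal_mul (hΨ.nn ξ)]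
    show ENNReal.ofReal ‖(Ψ ξ : ℂ) * conj (H ξ)‖ = _
    rw [norm_mul, Complex.norm_real, Real.norm_of_nonneg (hΨ.nn ξ), Complex.norm_conj]
  have s1 : ∫⁻ x, ENNReal.ofReal (p x) * ‖𝓕 G x‖ₑ ^ 2
      ≤ 2 * (2 * ENNReal.ofReal (V * v₁ + D * v₂)) * n2 H := by
    refine (schur_form pi p0 Gi κF).trans ?_
    simp_rw [Gn]
    exact schur_test Ψm Hm.enorm κm (fun ξ => ENNReal.ofReal_le_one.2 (hΨ.le1 ξ)) κs κM
  have Sm : MeasurableSet (Function.support f) := measurableSet_support hf.meas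
  have gc := continuous_ft Gi
  have s2 : ENNReal.ofReal c * n2 ((Function.support f).indicator (𝓕 G))
      ≤ ∫⁻ x, ENNReal.ofReal (p x) * ‖𝓕 G x‖ₑ ^ 2 := by
    rw [n2, ← lintegral_const_mul' _ _ ENNReal.ofReal_ne_top]
    refine lintegral_mono fun x => ?_
    by_cases hx : x ∈ Function.support f
    · have hx' : x ∈ A := by
        by_contra h
        exact hx (hs x h)
      rw [indicator_of_mem hx]
      exact mul_le_mul_left (ENNReal.ofReal_le_ofReal (pc x (hA x hx'))) _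
    · rw [indicator_of_notMem hx]
      simp
  have s3 : n2 H = ‖∫ x, f x * (Function.support f).indicator (𝓕 G) x‖ₑ := by
    have e1 : ∀ x, f x * (Function.support f).indicator (𝓕 G) x = f x * 𝓕 G x := fun x => by
      by_cases hx : x ∈ Function.support f
      · rw [indicator_of_mem hx]
      · rw [Function.notMem_support.1 hx, zero_mul, zero_mul]
    have e2 : ∀ ξ, 𝓕 f ξ * G ξ = ((‖H ξ‖ ^ 2 : ℝ) : ℂ) := fun ξ => by
      have e3 : H ξ = Ψ ξ * 𝓕 f ξ := by rw [hH]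
      rw [← Complex.normSq_eq_norm_sq, ← Complex.mul_conj, hG]
      show 𝓕 f ξ * ((Ψ ξ : ℂ) * conj (H ξ)) = H ξ * conj (H ξ)
      rw [← mul_assoc, mul_comm (𝓕 f ξ), ← e3]
    simp_rw [e1]
    rw [← ft_swap hf.integrable Gi]
    simp_rw [e2]
    rw [integral_complex_ofReal, ← ofReal_norm, Complex.norm_real,
      Real.norm_of_nonneg (integral_nonneg fun _ => sq_nonneg _),
      integral_eq_lintegral_of_nonneg_ae (Eventually.of_forall fun _ => sq_nonneg _)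
        (Hm.norm.pow_const 2).aestronglyMeasurable]
    have e4 : ∫⁻ ξ, ENNReal.ofReal (‖H ξ‖ ^ 2) = n2 H := lintegral_congr fun ξ => by
      rw [ENNReal.ofReal_pow (norm_nonneg _), ofReal_norm]
    rw [e4, ENNReal.ofReal_toReal Hfin]
  have s4 : n2 H ^ 2 ≤ n2 f * n2 ((Function.support f).indicator (𝓕 G)) := by
    rw [s3]
    exact enorm_integral_sq_le hf.meas.aemeasurable (gc.measurable.indicator Sm).aemeasurable
  by_cases hz : n2 H = 0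
  · rw [hz]; exact zero_le
  have hW : 0 ≤ V * v₁ + D * v₂ := add_nonneg (mul_nonneg hV0 hv₁) (mul_nonneg hD hv₂)
  have s5 : ENNReal.ofReal c * n2 H * n2 H
      ≤ ENNReal.ofReal c * (ENNReal.ofReal (max 1 (4 / c) * (V * v₁ + D * v₂)) * n2 f) * n2 H := by
    have e1 : (4 : ℝ≥0∞) * ENNReal.ofReal (V * v₁ + D * v₂)
        ≤ ENNReal.ofReal c * ENNReal.ofReal (max 1 (4 / c) * (V * v₁ + D * v₂)) := by
      rw [← ENNReal.ofReal_mul hc.le, ← ENNReal.ofReal_ofNat 4, ← ENNReal.ofReal_mul (by norm_num),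
        ← mul_assoc]
      refine ENNReal.ofReal_le_ofReal (mul_le_mul_of_nonneg_right ?_ hW)
      calc (4 : ℝ) = c * (4 / c) := by field_simp
        _ ≤ _ := mul_le_mul_of_nonneg_left (le_max_right _ _) hc.le
    calc ENNReal.ofReal c * n2 H * n2 H = ENNReal.ofReal c * n2 H ^ 2 := by ring
      _ ≤ ENNReal.ofReal c * (n2 f * n2 ((Function.support f).indicator (𝓕 G))) :=
        mul_le_mul_right s4 _
      _ = n2 f * (ENNReal.ofReal c * n2 ((Function.support f).indicator (𝓕 G))) := by ring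
      _ ≤ n2 f * (2 * (2 * ENNReal.ofReal (V * v₁ + D * v₂)) * n2 H) :=
        mul_le_mul_right (s2.trans s1) _
      _ = 4 * ENNReal.ofReal (V * v₁ + D * v₂) * (n2 f * n2 H) := by ring
      _ ≤ ENNReal.ofReal c * ENNReal.ofReal (max 1 (4 / c) * (V * v₁ + D * v₂)) * (n2 f * n2 H) :=
        mul_le_mul_left e1 _
      _ = _ := by ring
  exact (ENNReal.mul_le_mul_iff_right (ENNReal.ofReal_pos.2 hc).ne' ENNReal.ofReal_ne_top).1
    ((ENNReal.mul_le_mul_iff_left hz Hfin).1 s5)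

end Pool.Agent.Lib.MP_a52643_an.NS
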