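import Pool.Agent.Lib.MP_a52643_an.NS.Fou2

/-!
Submultiplicativity.
-/

open MeasureTheory Set Filter Topology Metric UpperHalfPlane
open scoped ENNReal MatrixGroups Real FourierTransform ComplexConjugate

noncomputable section

namespace Pool.Agent.Lib.MP_a52643_an.NS

open scoped Convolution

lemma subm_scale {E : Type} [NormedAddCommGroup E] [NormedSpace ℝ E] (g : ℝ → E) {s : ℝ}
    (hs : 0 < s) : ∫ u, s • g (s * u) = ∫ u, g u := by
  rw [integral_smul, Measure.integral_comp_mul_left, abs_of_pos (inv_pos.2 hs), smul_smul,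
    mul_inv_cancel₀ hs.ne', one_smul]

/-- The smoothed indicator function and its band limited transform. -/
lemma subm_ker {η : ℝ → ℝ} {c : ℝ} (H : Fej η c) {ρ : ℝ} (hρ : 0 < ρ) {Y₁ : Set ℝ}
    (hY : MeasurableSet Y₁) (T : ℝ) : ∃ (Ψ : ℝ → ℝ) (k : ℝ → ℂ), Dom Y₁ Ψ ∧
      (∀ ξ, (∀ ξ', |ξ' - ξ| ≤ 1 / ρ → ξ' ∈ Y₁ ∩ Icc (-T) T) → c ≤ Ψ ξ) ∧ Continuous k ∧
      (∀ x, ρ / 2 ≤ |x| → k x = 0) ∧ ∀ ξ, 𝓕 k ξ = Ψ ξ := by
  obtain ⟨s, hsd⟩ : ∃ s, s = ρ / 2 := ⟨_, rfl⟩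
  have hs : 0 < s := by rw [hsd]; positivity
  let e : ℝ → ℝ := fun u => s * η (s * u)
  let a : ℝ → ℝ := (Y₁ ∩ Icc (-T) T).indicator 1
  have hA : MeasurableSet (Y₁ ∩ Icc (-T) T) := hY.inter measurableSet_Icc
  have ec : Continuous e := continuous_const.mul (H.cont.comp (continuous_const.mul continuous_id))
  have e0 : ∀ u, 0 ≤ e u := fun u => mul_nonneg hs.le (H.nn _)
  have ei : Integrable e := (H.int.comp_mul_left' hs.ne').const_mul s
  have e1 : ∫ u, e u ≤ 1 := (subm_scale η hs).trans_le H.le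
  have eb : BddAbove (range fun u => ‖e u‖) := ⟨s, by
    rintro _ ⟨u, rfl⟩
    exact (Real.norm_of_nonneg (e0 u)).trans_le (mul_le_of_le_one_right hs.le (H.le1 _))⟩
  have a0 : ∀ u, 0 ≤ a u := fun u => indicator_nonneg (fun _ _ => zero_le_one) u
  have a1 : ∀ u, a u ≤ 1 := fun u => indicator_le_self' (fun _ _ => zero_le_one) u
  have ai : Integrable a := (integrable_indicator_iff hA).2 (integrableOn_const
    ((measure_mono inter_subset_right).trans_lt measure_Icc_lt_top).ne)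
  let Ψ : ℝ → ℝ := a ⋆[ContinuousLinearMap.mul ℝ ℝ] e
  have sw : ∀ ξ, Ψ ξ = ∫ t, a (ξ - t) * e t := fun ξ => convolution_eq_swap _
  have Ψc : Continuous Ψ := eb.continuous_convolution_right_of_integrable _ ai ec
  have Ψi : Integrable Ψ := ai.integrable_convolution _ ei
  have ae : ∀ ξ, Integrable fun t => a (ξ - t) * e t := fun ξ =>
    ei.bdd_mul (c := 1) (ai.comp_sub_left ξ).aestronglyMeasurable
      (ae_of_all _ fun t => (Real.norm_of_nonneg (a0 _)).trans_le (a1 _))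
  have hC : (fun ξ => (Ψ ξ : ℂ)) =
      (fun u => (a u : ℂ)) ⋆[ContinuousLinearMap.mul ℂ ℂ] fun u => (e u : ℂ) := by
    funext ξ
    simp only [Ψ, convolution_def, ContinuousLinearMap.mul_apply', ← Complex.ofReal_mul]
    exact integral_complex_ofReal.symm
  have hF : ∀ x, s ≤ |x| → 𝓕 (fun ξ => (Ψ ξ : ℂ)) x = 0 := by
    intro x hx
    have h1 : 𝓕 (fun u => (e u : ℂ)) x = 𝓕 (fun y => (η y : ℂ)) (x / s) := by
      rw [ft_eq, ft_eq, ← subm_scale (fun y => ee (y * (x / s)) * (η y : ℂ)) hs]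
      refine integral_congr_ae (ae_of_all _ fun u => ?_)
      have : s * u * (x / s) = u * x := by field_simp
      simp only [e, this, Complex.real_smul, Complex.ofReal_mul]
      ring
    have ai' : Integrable fun u => (a u : ℂ) := ai.ofReal
    have ei' : Integrable fun u => (e u : ℂ) := ei.ofReal
    rw [hC, Real.fourier_mul_convolution_eq ai' ei', h1, H.supp, mul_zero]
    rwa [abs_div, abs_of_pos hs, one_le_div hs]
  have Fc : Continuous (𝓕 fun ξ => (Ψ ξ : ℂ)) := continuous_ft Ψi.ofReal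
  have Fi : Integrable (𝓕 fun ξ => (Ψ ξ : ℂ)) := Fc.integrable_of_hasCompactSupport
    (HasCompactSupport.intro (isCompact_Icc (a := -s) (b := s)) fun x hx =>
      hF x (not_le.1 fun h => hx (abs_le.1 h)).le)
  have hk : 𝓕⁻ (fun ξ => (Ψ ξ : ℂ)) = fun x => 𝓕 (fun ξ => (Ψ ξ : ℂ)) (-x) :=
    funext (Real.fourierInv_eq_fourier_neg _)
  refine ⟨Ψ, 𝓕⁻ fun ξ => (Ψ ξ : ℂ), ⟨Ψc.measurable, fun ξ => ?_, fun ξ => ?_, Ψi,
    fun R v hv h ζ => ?_⟩, fun ξ h => ?_, hk ▸ Fc.comp continuous_neg, fun x hx => ?_,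
    congrFun ((Complex.continuous_ofReal.comp Ψc).fourier_fourierInv_eq Ψi.ofReal Fi)⟩
  · rw [sw]
    exact integral_nonneg fun t => mul_nonneg (a0 _) (e0 _)
  · rw [sw]
    exact (integral_mono (ae ξ) ei fun t => mul_le_of_le_one_left (e0 t) (a1 _)).trans e1
  · have hi : Integrable (Function.uncurry fun ξ t => a (ξ - t) * e t)
        ((volume.restrict (Icc ζ (ζ + R))).prod volume) := by
      rw [Measure.restrict_prod_eq_prod_univ]
      exact (ei.convolution_integrand (ContinuousLinearMap.mul ℝ ℝ).flip ai).integrableOn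
    have h2 : ∀ t, ∫ ξ in Icc ζ (ζ + R), a (ξ - t) ≤ v := by
      intro t
      have hB : MeasurableSet (Y₁ ∩ Icc (ζ - t) (ζ - t + R)) := hY.inter measurableSet_Icc
      have bi : Integrable ((Y₁ ∩ Icc (ζ - t) (ζ - t + R)).indicator (1 : ℝ → ℝ)) :=
        (integrable_indicator_iff hB).2 (integrableOn_const
          ((measure_mono inter_subset_right).trans_lt measure_Icc_lt_top).ne)
      refine le_trans ?_ (ENNReal.toReal_le_of_le_ofReal hv (h (ζ - t)))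
      rw [← integral_indicator measurableSet_Icc, ← measureReal_def, ← integral_indicator_one hB,
        ← integral_sub_right_eq_self ((Y₁ ∩ Icc (ζ - t) (ζ - t + R)).indicator (1 : ℝ → ℝ)) t]
      refine integral_mono ((ai.comp_sub_right t).indicator measurableSet_Icc)
        (bi.comp_sub_right t) fun ξ => ?_
      by_cases c1 : ξ ∈ Icc ζ (ζ + R)
      · by_cases c2 : ξ - t ∈ Y₁
        · have : ξ - t ∈ Y₁ ∩ Icc (ζ - t) (ζ - t + R) :=
            ⟨c2, by linarith [c1.1], by linarith [c1.2]⟩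
          simp only [indicator_of_mem c1, indicator_of_mem this]
          exact a1 _
        · simp [a, c1, c2]
      · simp only [indicator_of_notMem c1]
        exact indicator_nonneg (fun _ _ => zero_le_one) _
    simp only [sw]
    rw [integral_integral_swap hi]
    simp only [integral_mul_const]
    refine (integral_mono_of_nonneg (ae_of_all _ fun t => mul_nonneg (integral_nonneg fun _ =>
      a0 _) (e0 t)) (ei.const_mul v) (ae_of_all _ fun t =>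
        mul_le_mul_of_nonneg_right (h2 t) (e0 t))).trans ?_
    rw [integral_const_mul]
    exact mul_le_of_le_one_right hv e1
  · refine H.low.trans ?_
    rw [sw, ← integral_indicator measurableSet_Icc, ← subm_scale _ hs]
    refine integral_mono_of_nonneg (ae_of_all _ fun t => smul_nonneg hs.le
      (indicator_nonneg (fun _ _ => H.nn _) _)) (ae ξ) (ae_of_all _ fun t => ?_)
    by_cases c1 : s * t ∈ Icc (-(1 / 2) : ℝ) (1 / 2)
    · have : ξ - t ∈ Y₁ ∩ Icc (-T) T := h _ (by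
        have h3 := abs_le.2 c1
        rw [abs_mul, abs_of_pos hs, hsd] at h3
        rw [sub_sub_cancel_left, abs_neg, le_div_iff₀ hρ]
        linarith)
      simp only [indicator_of_mem c1, a, indicator_of_mem this, Pi.one_apply, one_mul]
      exact le_rfl
    · simp only [indicator_of_notMem c1, smul_zero]
      exact mul_nonneg (a0 _) (e0 _)
  · rw [hk]
    exact hF _ (by rwa [abs_neg, hsd])

section Cv

variable {k f : ℝ → ℂ} {r : ℝ}

lemma subm_supp (hk : ∀ x, r ≤ |x| → k x = 0) {x : ℝ}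
    (h : (f ⋆[ContinuousLinearMap.mul ℂ ℂ] k) x ≠ 0) : ∃ t, f t ≠ 0 ∧ |x - t| < r := by
  by_contra hc
  refine h (integral_eq_zero_of_ae (ae_of_all _ fun t => ?_))
  by_cases c : f t = 0
  · simp [c]
  · simp [hk _ (not_lt.1 fun e => hc ⟨t, c, e⟩)]

lemma subm_cs (hk : ∀ x, r ≤ |x| → k x = 0) : HasCompactSupport k :=
  HasCompactSupport.intro (isCompact_Icc (a := -r) (b := r)) fun x hx =>
    hk x (not_le.1 fun h => hx (abs_le.1 h)).le

lemma subm_nice (hc : Continuous k) (hk : ∀ x, r ≤ |x| → k x = 0) (hf : Nice f) :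
    Nice (f ⋆[ContinuousLinearMap.mul ℂ ℂ] k) := by
  obtain ⟨R, hR⟩ := hf.supp
  have h1 : Continuous (f ⋆[ContinuousLinearMap.mul ℂ ℂ] k) :=
    (subm_cs hk).continuous_convolution_right _ hf.integrable.locallyIntegrable hc
  have h2 : ∀ x, R + r ≤ |x| → (f ⋆[ContinuousLinearMap.mul ℂ ℂ] k) x = 0 := by
    intro x hx
    by_contra h
    obtain ⟨t, h3, h4⟩ := subm_supp hk h
    have h5 := not_lt.1 (mt (hR t) h3)
    have h6 := abs_sub_abs_le_abs_sub x t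
    linarith
  exact ⟨h1.measurable, h1.bounded_above_of_compact_support (subm_cs h2),
    R + r, fun x hx => h2 x hx.le⟩

lemma subm_two (S : Finset ℤ) (a : ℤ → ℂ) (m : ℤ) (h : ∀ j, a j ≠ 0 → j = m ∨ j = m + 1) :
    ‖∑ j ∈ S, a j‖ₑ ^ 2 ≤ 2 * ∑ j ∈ S, ‖a j‖ₑ ^ 2 := by
  classical
  have h1 : (S.filter (a · ≠ 0)).card ≤ 2 := (Finset.card_le_card (t := {m, m + 1}) fun j hj => by
    simpa using h j (Finset.mem_filter.1 hj).2).trans Finset.card_le_two
  have h2 : ‖∑ j ∈ S, a j‖₊ ^ 2 ≤ 2 * ∑ j ∈ S, ‖a j‖₊ ^ 2 := by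
    rw [← Finset.sum_filter_ne_zero]
    refine (pow_le_pow_left' (nnnorm_sum_le _ _) 2).trans (sq_sum_le_card_mul_sum_sq.trans ?_)
    exact mul_le_mul' (by exact_mod_cast h1)
      (Finset.sum_le_sum_of_subset (Finset.filter_subset _ _))
  simp only [enorm_eq_nnnorm]
  exact_mod_cast h2

/-- Almost orthogonality of the cells. -/
lemma subm_cells {ρ : ℝ} (hρ : 0 < ρ) (hc : Continuous k) (hk : ∀ x, ρ / 2 ≤ |x| → k x = 0)
    (hf : Nice f) : ∃ (S : Finset ℤ) (F : ℤ → ℝ → ℂ), (∀ j, Nice (F j)) ∧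
      (∀ j x, F j x ≠ 0 → f x ≠ 0 ∧ x ∈ Icc (j * ρ) (j * ρ + ρ)) ∧ ∑ j ∈ S, n2 (F j) ≤ n2 f ∧
      n2 (f ⋆[ContinuousLinearMap.mul ℂ ℂ] k) ≤
        2 * ∑ j ∈ S, n2 (F j ⋆[ContinuousLinearMap.mul ℂ ℂ] k) := by
  obtain ⟨R, hR⟩ := hf.supp
  let F : ℤ → ℝ → ℂ := fun j => {x | ⌊x / ρ⌋ = j}.indicator f
  have hF : ∀ j, Nice (F j) := fun j => hf.indicator
    ((measurable_id.div_const ρ).floor (measurableSet_singleton j))
  have hF2 : ∀ j x, F j x = if ⌊x / ρ⌋ = j then f x else 0 := fun j x => indicator_apply _ _ _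
  have hs : ∀ j x, F j x ≠ 0 → f x ≠ 0 ∧ x ∈ Icc (j * ρ) (j * ρ + ρ) := by
    intro j x hx
    rw [hF2] at hx
    obtain ⟨rfl, h1⟩ := ite_ne_right_iff.1 hx
    have h2 := (le_div_iff₀ hρ).1 (Int.floor_le (x / ρ))
    have h3 := (div_lt_iff₀ hρ).1 (Int.lt_floor_add_one (x / ρ))
    exact ⟨h1, h2, by linarith⟩
  refine ⟨Finset.Icc ⌊-R / ρ⌋ ⌊R / ρ⌋, F, hF, hs, ?_, ?_⟩
  · unfold n2
    rw [← lintegral_finset_sum _ fun j _ => (hF j).meas.enorm.pow_const 2]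
    refine lintegral_mono fun x => ?_
    have : ∀ j, ‖F j x‖ₑ ^ 2 = if ⌊x / ρ⌋ = j then ‖f x‖ₑ ^ 2 else 0 := fun j => by
      rw [hF2]
      split_ifs <;> simp
    simp only [this, Finset.sum_ite_eq]
    split_ifs <;> simp
  · have h1 : ∀ x, f x = ∑ j ∈ Finset.Icc ⌊-R / ρ⌋ ⌊R / ρ⌋, F j x := by
      intro x
      simp only [hF2, Finset.sum_ite_eq]
      split_ifs with h
      · rfl
      by_contra h2
      obtain ⟨h3, h4⟩ := abs_le.1 (not_lt.1 (mt (hR x) h2))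
      exact h (Finset.mem_Icc.2 ⟨Int.floor_mono (by gcongr), Int.floor_mono (by gcongr)⟩)
    have h2 : ∀ x, (f ⋆[ContinuousLinearMap.mul ℂ ℂ] k) x =
        ∑ j ∈ Finset.Icc ⌊-R / ρ⌋ ⌊R / ρ⌋, (F j ⋆[ContinuousLinearMap.mul ℂ ℂ] k) x := by
      intro x
      simp only [convolution_def]
      rw [← integral_finset_sum _ fun j _ => (subm_cs hk).convolutionExists_right _
        (hF j).integrable.locallyIntegrable hc x]
      refine integral_congr_ae (ae_of_all _ fun t => ?_)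
      simp only [ContinuousLinearMap.mul_apply', ← Finset.sum_mul, ← h1]
    unfold n2
    rw [← lintegral_finset_sum _ fun j _ => (subm_nice hc hk (hF j)).meas.enorm.pow_const 2,
      ← lintegral_const_mul' _ _ ENNReal.ofNat_ne_top]
    refine lintegral_mono fun x => ?_
    rw [h2]
    refine subm_two _ _ ⌊x / ρ - 1 / 2⌋ fun j hj => ?_
    obtain ⟨t, h3, h4⟩ := subm_supp hk hj
    obtain ⟨h5, h6⟩ := (hs j t h3).2
    obtain ⟨h7, h8⟩ := abs_lt.1 h4
    have h9 : (j : ℝ) - 1 < x / ρ - 1 / 2 := by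
      have : (j : ℝ) - 1 / 2 < x / ρ := (lt_div_iff₀ hρ).2 (by linarith)
      linarith
    have h10 : x / ρ - 1 / 2 < j + 1 := by
      have : x / ρ < (j : ℝ) + 3 / 2 := (div_lt_iff₀ hρ).2 (by linarith)
      linarith
    have h11 : j - 1 ≤ ⌊x / ρ - 1 / 2⌋ := Int.le_floor.2 (by push_cast; exact h9.le)
    have h12 : ⌊x / ρ - 1 / 2⌋ < j + 1 := Int.floor_lt.2 (by push_cast; exact h10)
    omega

end Cv

theorem subm : ∃ C : ℝ, 1 ≤ C ∧ ∀ (X X' Y Y₁ : Set ℝ) (ρ η₁ η₂ : ℝ), 0 < ρ → 0 ≤ η₁ → 0 ≤ η₂ →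
    MeasurableSet Y₁ → (∀ x ∈ X, ∀ x', |x' - x| ≤ ρ / 2 → x' ∈ X') →
    (∀ ξ ∈ Y, ∀ ξ', |ξ' - ξ| ≤ 1 / ρ → ξ' ∈ Y₁) → UP X' Y η₂ →
    (∀ Ψ, Dom Y₁ Ψ → ∀ x₀ f, Nice f → (∀ x, x ∉ X ∩ Icc x₀ (x₀ + ρ) → f x = 0) →
      n2 (fun ξ => Ψ ξ * 𝓕 f ξ) ≤ ENNReal.ofReal η₁ * n2 f) →
    UP X Y (C * η₁ * η₂) := by
  obtain ⟨η, c, H⟩ := exists_fej
  have hc := H.pos
  refine ⟨max 1 (2 / c ^ 2), le_max_left _ _,
    fun X X' Y Y₁ ρ η₁ η₂ hρ h1 h2 hY hX hYY hU hD f hf hfX Ξ => ?_⟩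
  obtain ⟨Ψ, k, hΨ, hl, kc, ks, kF⟩ := subm_ker H hρ hY (Ξ + 1 / ρ)
  obtain ⟨S, F, hF, hs, s1, s2⟩ := subm_cells hρ kc ks hf
  have ki : Integrable k := kc.integrable_of_hasCompactSupport (subm_cs ks)
  have ft : ∀ g, Nice g → 𝓕 (g ⋆[ContinuousLinearMap.mul ℂ ℂ] k) = fun ξ => Ψ ξ * 𝓕 g ξ :=
    fun g hg => funext fun ξ => by
      rw [Real.fourier_mul_convolution_eq hg.integrable ki, kF, mul_comm]
  have a1 := hU _ (subm_nice kc ks hf) (fun x hx => by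
    by_contra h
    obtain ⟨t, h3, h4⟩ := subm_supp ks h
    exact hx (hX t (by_contra fun e => h3 (hfX t e)) x h4.le)) Ξ
  have a2 : ∑ j ∈ S, n2 (F j ⋆[ContinuousLinearMap.mul ℂ ℂ] k) ≤ ENNReal.ofReal η₁ * n2 f := by
    refine le_trans ?_ (mul_le_mul_right s1 _)
    rw [Finset.mul_sum]
    refine Finset.sum_le_sum fun j _ => ?_
    rw [← (subm_nice kc ks (hF j)).plancherel, ft _ (hF j)]
    refine hD Ψ hΨ (j * ρ) _ (hF j) fun x hx => ?_
    by_contra h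
    exact hx ⟨by_contra fun e => (hs j x h).1 (hfX x e), (hs j x h).2⟩
  have a3 : ∫⁻ ξ in Y ∩ Icc (-Ξ) Ξ, ‖𝓕 f ξ‖ₑ ^ 2 ≤ ENNReal.ofReal (1 / c ^ 2) *
      ∫⁻ ξ in Y ∩ Icc (-Ξ) Ξ, ‖𝓕 (f ⋆[ContinuousLinearMap.mul ℂ ℂ] k) ξ‖ₑ ^ 2 := by
    have fc : Continuous (𝓕 f) := continuous_ft hf.integrable
    have hZ : MeasurableSet {ξ | c ≤ Ψ ξ} := measurableSet_le measurable_const hΨ.meas
    have hZ2 : Y ∩ Icc (-Ξ) Ξ ⊆ {ξ | c ≤ Ψ ξ} := fun ξ hξ => hl ξ fun ξ' h =>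
      ⟨hYY ξ hξ.1 ξ' h, by linarith [hξ.2.1, (abs_le.1 h).1],
        by linarith [hξ.2.2, (abs_le.1 h).2]⟩
    rw [← lintegral_const_mul' _ _ ENNReal.ofReal_ne_top, ft f hf]
    refine lintegral_mono_ae ((ae_restrict_of_ae_restrict_of_subset hZ2
      (ae_restrict_mem hZ)).mono fun ξ hξ => ?_)
    rw [enorm_mul, mul_pow, ← mul_assoc]
    refine le_mul_of_one_le_left' ?_
    rw [← ofReal_norm_eq_enorm, Complex.norm_real, Real.norm_of_nonneg (hΨ.nn ξ),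
      ← ENNReal.ofReal_pow (hΨ.nn ξ), ← ENNReal.ofReal_mul (by positivity),
      ENNReal.one_le_ofReal, one_div, inv_mul_eq_div, one_le_div (by positivity)]
    exact pow_le_pow_left₀ hc.le hξ 2
  refine a3.trans ((mul_le_mul_right (a1.trans (mul_le_mul_right
    (s2.trans (mul_le_mul_right a2 _)) _)) _).trans ?_)
  rw [← mul_assoc, ← mul_assoc, ← mul_assoc, ← ENNReal.ofReal_ofNat 2,
    ← ENNReal.ofReal_mul (by positivity), ← ENNReal.ofReal_mul (by positivity),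
    ← ENNReal.ofReal_mul (by positivity)]
  refine mul_le_mul_left (ENNReal.ofReal_le_ofReal ?_) _
  calc _ = 2 / c ^ 2 * η₁ * η₂ := by ring
    _ ≤ _ := by gcongr; exact le_max_right _ _

end Pool.Agent.Lib.MP_a52643_an.NS
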