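import Pool.Agent.Lib.MP_a52643_an.NS.Fou

/-!
High frequencies, formal properties of the uncertainty property, a kernel.
-/

open MeasureTheory Set Filter Topology Metric UpperHalfPlane
open scoped ENNReal MatrixGroups Real FourierTransform ComplexConjugate

noncomputable section

namespace Pool.Agent.Lib.MP_a52643_an.NS

private lemma fou2_ft_shift (f : ℝ → ℂ) (x ξ : ℝ) :
    𝓕 (fun y => f (y - x)) ξ = ee (x * ξ) * 𝓕 f ξ := by
  rw [ft_eq, ft_eq, ← integral_const_mul,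
    ← integral_add_right_eq_self (fun y => ee (y * ξ) * f (y - x)) x]
  congr 1
  ext y
  rw [add_sub_cancel_right, add_mul, ee_add]
  ring

private lemma fou2_int_ee {f : ℝ → ℂ} (hf : Integrable f) (ξ : ℝ) :
    Integrable fun y => ee (y * ξ) * f y :=
  hf.bdd_mul (c := 1) (by fun_prop : Continuous fun y : ℝ => ee (y * ξ)).aestronglyMeasurable
    (Eventually.of_forall fun y => (norm_ee _).le)

private lemma fou2_ft_diff {f : ℝ → ℂ} (hf : Integrable f) (x ξ : ℝ) :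
    𝓕 (fun y => f (y - x) - f y) ξ = (ee (x * ξ) - 1) * 𝓕 f ξ := by
  rw [sub_mul, one_mul, ← fou2_ft_shift, ft_eq, ft_eq, ft_eq,
    ← integral_sub (fou2_int_ee (hf.comp_sub_right x) ξ) (fou2_int_ee hf ξ)]
  congr 1
  ext y
  ring

private lemma fou2_norm_ee_sub (t : ℝ) : ‖ee t - 1‖ ^ 2 = 2 - 2 * Real.cos (2 * π * t) := by
  have h : ee t - 1 = ((Real.cos (2 * π * t) - 1 : ℝ) : ℂ)
      + ((-Real.sin (2 * π * t) : ℝ) : ℂ) * Complex.I := by
    rw [ee, Complex.exp_mul_I, ← Complex.ofReal_cos, ← Complex.ofReal_sin,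
      show -2 * π * t = -(2 * π * t) by ring, Real.cos_neg, Real.sin_neg]
    push_cast
    ring
  rw [h, Complex.sq_norm, Complex.normSq_add_mul_I]
  nlinarith [Real.sin_sq_add_cos_sq (2 * π * t)]

private lemma fou2_avg {h ξ : ℝ} (h0 : 0 < h) (hξ : 1 / h < |ξ|) :
    ENNReal.ofReal h ≤ ∫⁻ x in Ioc 0 h, ‖ee (x * ξ) - 1‖ₑ ^ 2 := by
  have hξ0 : 0 < |ξ| := lt_trans (by positivity) hξ
  have hξ1 : ξ ≠ 0 := abs_pos.1 hξ0
  have hc : Continuous fun x : ℝ => 2 - 2 * Real.cos (2 * π * (x * ξ)) := by fun_prop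
  have hI : ∫ x in (0 : ℝ)..h, (2 - 2 * Real.cos (2 * π * (x * ξ)))
      = (2 * h - Real.sin (2 * π * (h * ξ)) / (π * ξ))
        - (2 * 0 - Real.sin (2 * π * (0 * ξ)) / (π * ξ)) := by
    refine intervalIntegral.integral_eq_sub_of_hasDerivAt
      (f := fun x => 2 * x - Real.sin (2 * π * (x * ξ)) / (π * ξ)) (fun x _ => ?_)
      (hc.intervalIntegrable _ _)
    have h1 : HasDerivAt (fun x : ℝ => 2 * π * (x * ξ)) (2 * π * (1 * ξ)) x :=
      ((hasDerivAt_id x).mul_const ξ).const_mul _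
    have h2 : HasDerivAt (fun x => 2 * x - Real.sin (2 * π * (x * ξ)) / (π * ξ))
        (2 * 1 - Real.cos (2 * π * (x * ξ)) * (2 * π * (1 * ξ)) / (π * ξ)) x :=
      ((hasDerivAt_id x).const_mul 2).sub (h1.sin.div_const (π * ξ))
    refine h2.congr_deriv ?_
    field_simp
  have hs : Real.sin (2 * π * (h * ξ)) / (π * ξ) ≤ h := by
    refine (le_abs_self _).trans ?_
    rw [abs_div, abs_mul, abs_of_pos Real.pi_pos, div_le_iff₀ (by positivity)]
    have h3 : 1 < |ξ| * h := (div_lt_iff₀ h0).1 hξ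
    have h4 := Real.abs_sin_le_one (2 * π * (h * ξ))
    nlinarith [Real.pi_gt_three]
  have hle : h ≤ ∫ x in Ioc 0 h, (2 - 2 * Real.cos (2 * π * (x * ξ))) := by
    rw [← intervalIntegral.integral_of_le h0.le, hI]
    simp only [mul_zero, zero_mul, Real.sin_zero, zero_div, sub_zero]
    linarith
  refine (ENNReal.ofReal_le_ofReal hle).trans (le_of_eq ?_)
  rw [ofReal_integral_eq_lintegral_ofReal (hc.integrableOn_Icc.mono_set Ioc_subset_Icc_self)
    (Eventually.of_forall fun x => by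
      have := Real.cos_le_one (2 * π * (x * ξ))
      simp only [Pi.zero_apply]
      linarith)]
  refine lintegral_congr fun x => ?_
  rw [← fou2_norm_ee_sub, ENNReal.ofReal_pow (norm_nonneg _), ofReal_norm]

theorem Nice.freq {f : ℝ → ℂ} (hf : Nice f) {h : ℝ} (h0 : 0 < h) {M : ℝ≥0∞}
    (hM : ∀ x, |x| ≤ h → n2 (fun y => f (y - x) - f y) ≤ M) :
    ∫⁻ ξ in {ξ | 1 / h < |ξ|}, ‖𝓕 f ξ‖ₑ ^ 2 ≤ M := by
  have hc : Continuous (𝓕 f) := continuous_ft hf.integrable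
  have h1 : ∀ x, |x| ≤ h → ∫⁻ ξ, ‖ee (x * ξ) - 1‖ₑ ^ 2 * ‖𝓕 f ξ‖ₑ ^ 2 ≤ M := fun x hx => by
    have hi : Integrable fun y => f (y - x) - f y :=
      (hf.integrable.comp_sub_right x).sub hf.integrable
    have hm : MemLp (fun y => f (y - x) - f y) 2 :=
      (hf.memLp.comp_measurePreserving (measurePreserving_sub_right volume x)).sub hf.memLp
    refine le_trans (le_of_eq ?_) ((NS.plancherel hi hm).le.trans (hM x hx))
    refine lintegral_congr fun ξ => ?_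
    rw [fou2_ft_diff hf.integrable, enorm_mul, mul_pow]
  have hme : Measurable fun p : ℝ × ℝ => ‖ee (p.1 * p.2) - 1‖ₑ ^ 2 * ‖𝓕 f p.2‖ₑ ^ 2 := by
    have a1 : Measurable fun p : ℝ × ℝ => ee (p.1 * p.2) - 1 :=
      (by fun_prop : Continuous fun p : ℝ × ℝ => ee (p.1 * p.2) - 1).measurable
    have a2 : Measurable fun p : ℝ × ℝ => 𝓕 f p.2 := hc.measurable.comp measurable_snd
    exact (a1.enorm.pow_const 2).mul (a2.enorm.pow_const 2)
  have hS : MeasurableSet {ξ : ℝ | 1 / h < |ξ|} :=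
    (isOpen_lt continuous_const continuous_abs).measurableSet
  have h2 : ENNReal.ofReal h * ∫⁻ ξ in {ξ | 1 / h < |ξ|}, ‖𝓕 f ξ‖ₑ ^ 2
      ≤ ENNReal.ofReal h * M := by
    calc ENNReal.ofReal h * ∫⁻ ξ in {ξ | 1 / h < |ξ|}, ‖𝓕 f ξ‖ₑ ^ 2
        = ∫⁻ ξ in {ξ | 1 / h < |ξ|}, ENNReal.ofReal h * ‖𝓕 f ξ‖ₑ ^ 2 :=
          (lintegral_const_mul' _ _ ENNReal.ofReal_ne_top).symm
      _ ≤ ∫⁻ ξ in {ξ | 1 / h < |ξ|},
            ∫⁻ x in Ioc 0 h, ‖ee (x * ξ) - 1‖ₑ ^ 2 * ‖𝓕 f ξ‖ₑ ^ 2 := by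
          refine setLIntegral_mono' hS fun ξ hξ => ?_
          rw [lintegral_mul_const' _ _ (ENNReal.pow_ne_top enorm_ne_top)]
          exact mul_le_mul_left (fou2_avg h0 hξ) _
      _ ≤ ∫⁻ ξ, ∫⁻ x in Ioc 0 h, ‖ee (x * ξ) - 1‖ₑ ^ 2 * ‖𝓕 f ξ‖ₑ ^ 2 :=
          setLIntegral_le_lintegral _ _
      _ = ∫⁻ x in Ioc 0 h, ∫⁻ ξ, ‖ee (x * ξ) - 1‖ₑ ^ 2 * ‖𝓕 f ξ‖ₑ ^ 2 :=
          (lintegral_lintegral_swap (μ := volume.restrict (Ioc 0 h)) (ν := volume)
            (f := fun x ξ => ‖ee (x * ξ) - 1‖ₑ ^ 2 * ‖𝓕 f ξ‖ₑ ^ 2) hme.aemeasurable).symm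
      _ ≤ ∫⁻ _ in Ioc 0 h, M :=
          setLIntegral_mono' measurableSet_Ioc fun x hx =>
            h1 x (by rw [abs_of_pos hx.1]; exact hx.2)
      _ = ENNReal.ofReal h * M := by
          rw [setLIntegral_const, Real.volume_Ioc, sub_zero, mul_comm]
  exact (ENNReal.mul_le_mul_iff_right (by simpa using h0) ENNReal.ofReal_ne_top).1 h2

theorem UP_one (X Y : Set ℝ) : UP X Y 1 := fun f hf _ Ξ => by
  rw [ENNReal.ofReal_one, one_mul, ← hf.plancherel]
  exact setLIntegral_le_lintegral _ _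

theorem UP_empty_left (Y : Set ℝ) (η : ℝ) : UP ∅ Y η := fun f _ hs Ξ => by
  have h : ∀ ξ, 𝓕 f ξ = 0 := fun ξ => by
    rw [ft_eq]
    simp [hs _ (notMem_empty _)]
  simp [h]

theorem UP_empty_right (X : Set ℝ) (η : ℝ) : UP X ∅ η := fun f _ _ Ξ => by
  simp

theorem UP.biUnion_right {ι : Type} {s : Finset ι} {X : Set ℝ} {Y : ι → Set ℝ} {η : ℝ}
    (h : ∀ i ∈ s, UP X (Y i) η) : UP X (⋃ i ∈ s, Y i) (s.card * η) := by
  classical
  intro f hf hs Ξ
  rw [ENNReal.ofReal_mul (Nat.cast_nonneg _), ENNReal.ofReal_natCast]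
  induction s using Finset.induction_on with
  | empty => simp
  | insert a s ha ih =>
    rw [Finset.set_biUnion_insert, union_inter_distrib_right, Finset.card_insert_of_notMem ha]
    refine (lintegral_union_le _ _ _).trans ?_
    have h1 := h a (Finset.mem_insert_self _ _) f hf hs Ξ
    have h2 := ih fun i hi => h i (Finset.mem_insert_of_mem hi)
    refine (add_le_add h1 h2).trans (le_of_eq ?_)
    push_cast
    ring

theorem UP.symm {X Y : Set ℝ} {η : ℝ} (h : UP X Y η) (hX : MeasurableSet X) : UP Y X η := by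
  intro F hF hs Ξ
  have hc : Continuous (𝓕 F) := continuous_ft hF.integrable
  have hA : MeasurableSet (X ∩ Icc (-Ξ) Ξ) := hX.inter measurableSet_Icc
  set G : ℝ → ℂ := (X ∩ Icc (-Ξ) Ξ).indicator fun ξ => conj (𝓕 F ξ) with hG
  have hGn : Nice G := by
    refine ⟨(Complex.continuous_conj.comp hc).measurable.indicator hA,
      ⟨∫ x, ‖F x‖, fun ξ => ?_⟩, ⟨Ξ, fun ξ hξ => ?_⟩⟩
    · refine (norm_indicator_le_norm_self _ _).trans ?_
      rw [Complex.norm_conj]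
      exact norm_ft_le F ξ
    · exact indicator_of_notMem (fun h' => absurd (abs_le.2 h'.2) (not_le.2 hξ)) _
  have hGs : ∀ x, x ∉ X → G x = 0 := fun x hx => indicator_of_notMem (fun h' => hx h'.1) _
  have hN : n2 G = ∫⁻ ξ in X ∩ Icc (-Ξ) Ξ, ‖𝓕 F ξ‖ₑ ^ 2 := by
    rw [n2, ← lintegral_indicator hA]
    refine lintegral_congr fun ξ => ?_
    by_cases hξ : ξ ∈ X ∩ Icc (-Ξ) Ξ
    · rw [hG, indicator_of_mem hξ, indicator_of_mem hξ, ← ofReal_norm,
        Complex.norm_conj, ofReal_norm]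
    · rw [hG, indicator_of_notMem hξ, indicator_of_notMem hξ]
      simp
  have hprod : ∀ ξ, 𝓕 F ξ * G ξ = ((‖G ξ‖ ^ 2 : ℝ) : ℂ) := fun ξ => by
    by_cases hξ : ξ ∈ X ∩ Icc (-Ξ) Ξ
    · rw [hG, indicator_of_mem hξ, Complex.mul_conj', Complex.norm_conj]
      push_cast
      rfl
    · rw [hG, indicator_of_notMem hξ]
      simp
  have hE : ‖∫ ξ, 𝓕 F ξ * G ξ‖ₑ = n2 G := by
    simp_rw [hprod]
    rw [integral_complex_ofReal, ← ofReal_norm, Complex.norm_real,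
      Real.norm_of_nonneg (integral_nonneg fun ξ => sq_nonneg _),
      ofReal_integral_eq_lintegral_ofReal
        ((memLp_two_iff_integrable_sq_norm hGn.meas.aestronglyMeasurable).1 hGn.memLp)
        (Eventually.of_forall fun ξ => sq_nonneg _), n2]
    refine lintegral_congr fun ξ => ?_
    rw [ENNReal.ofReal_pow (norm_nonneg _), ofReal_norm]
  obtain ⟨R, hR⟩ := hF.supp
  have hT : MeasurableSet {x | F x ≠ 0} := (hF.meas (measurableSet_singleton 0)).compl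
  have hcG : Continuous (𝓕 G) := continuous_ft hGn.integrable
  have h2 : n2 ({x | F x ≠ 0}.indicator (𝓕 G)) ≤ ENNReal.ofReal η * n2 G := by
    refine le_trans ?_ (h G hGn hGs R)
    have : n2 ({x | F x ≠ 0}.indicator (𝓕 G)) = ∫⁻ x in {x | F x ≠ 0}, ‖𝓕 G x‖ₑ ^ 2 := by
      rw [n2, ← lintegral_indicator hT]
      refine lintegral_congr fun x => ?_
      by_cases hx : x ∈ {x | F x ≠ 0}
      · rw [indicator_of_mem hx, indicator_of_mem hx]
      · rw [indicator_of_notMem hx, indicator_of_notMem hx]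
        simp
    rw [this]
    refine lintegral_mono_set fun x hx => ⟨by_contra fun h' => hx (hs x h'), ?_⟩
    exact abs_le.1 (le_of_not_gt fun h' => hx (hR x h'))
  have h3 : n2 G ^ 2 ≤ n2 F * (ENNReal.ofReal η * n2 G) := by
    rw [← hE]
    have e1 : ∫ ξ, 𝓕 F ξ * G ξ = ∫ x, F x * {x | F x ≠ 0}.indicator (𝓕 G) x := by
      rw [ft_swap hF.integrable hGn.integrable]
      congr 1
      ext x
      by_cases hx : x ∈ {x | F x ≠ 0}
      · rw [indicator_of_mem hx]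
      · have : F x = 0 := not_not.1 hx
        rw [this, zero_mul, zero_mul]
    conv_lhs => rw [e1]
    rw [hE]
    exact (enorm_integral_sq_le hF.meas.aemeasurable
      (hcG.measurable.indicator hT).aemeasurable).trans (mul_le_mul_right h2 _)
  rw [← hN]
  by_cases h0 : n2 G = 0
  · rw [h0]; exact zero_le
  · refine (ENNReal.mul_le_mul_iff_left h0 hGn.n2_ne_top).1 ?_
    calc n2 G * n2 G = n2 G ^ 2 := (sq _).symm
      _ ≤ _ := h3
      _ = _ := by ring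

private lemma fou2_fej {φ : ℝ → ℂ} (hc : Continuous φ) (hi : Integrable φ) {B : ℝ}
    (hle : ∀ ξ, ‖φ ξ‖ ≤ B) (h00 : φ 0 ≠ 0)
    (hsupp : ∀ x, 1 ≤ |x| → ∫ ξ, ee (ξ * x) * ((‖φ ξ‖ ^ 2 : ℝ) : ℂ) = 0) : ∃ η c, Fej η c := by
  have hqc : Continuous fun ξ => ‖φ ξ‖ ^ 2 := hc.norm.pow 2
  have hqi : Integrable fun ξ => ‖φ ξ‖ ^ 2 := by
    have := hi.norm.bdd_mul (c := B) hc.norm.aestronglyMeasurable
      (Eventually.of_forall fun ξ => by rw [norm_norm]; exact hle ξ)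
    simpa only [sq] using this
  obtain ⟨J, hJ⟩ : ∃ J, J = ∫ ξ, ‖φ ξ‖ ^ 2 := ⟨_, rfl⟩
  have hJ0 : 0 ≤ J := hJ ▸ integral_nonneg fun ξ => sq_nonneg _
  have hD : 0 < 1 + B ^ 2 + J := by positivity
  have hηc : Continuous fun ξ => (1 + B ^ 2 + J)⁻¹ * ‖φ ξ‖ ^ 2 := continuous_const.mul hqc
  have hnn : ∀ ξ, 0 ≤ (1 + B ^ 2 + J)⁻¹ * ‖φ ξ‖ ^ 2 := fun ξ => by positivity
  refine ⟨fun ξ => (1 + B ^ 2 + J)⁻¹ * ‖φ ξ‖ ^ 2, _, hηc, hnn,
    fun ξ => ?_, hqi.const_mul _, ?_, ?_, le_rfl, fun x hx => ?_⟩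
  · rw [inv_mul_le_iff₀ hD]
    have := pow_le_pow_left₀ (norm_nonneg _) (hle ξ) 2
    linarith
  · rw [integral_const_mul, inv_mul_le_iff₀ hD, ← hJ]
    nlinarith [sq_nonneg B]
  · rw [setIntegral_pos_iff_support_of_nonneg_ae (Eventually.of_forall hnn)
      (hqi.const_mul _).integrableOn]
    have ho : IsOpen (Function.support (fun ξ => (1 + B ^ 2 + J)⁻¹ * ‖φ ξ‖ ^ 2)
        ∩ Ioo (-(1 / 2) : ℝ) (1 / 2)) := hηc.isOpen_support.inter isOpen_Ioo
    refine lt_of_lt_of_le (ho.measure_pos volume ⟨0, ?_, by norm_num, by norm_num⟩)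
      (measure_mono (inter_subset_inter_right _ Ioo_subset_Icc_self))
    have := norm_pos_iff.2 h00
    exact ne_of_gt (by positivity)
  · rw [ft_eq]
    have e3 : ∀ ξ, ee (ξ * x) * (((1 + B ^ 2 + J)⁻¹ * ‖φ ξ‖ ^ 2 : ℝ) : ℂ)
        = (((1 + B ^ 2 + J)⁻¹ : ℝ) : ℂ) * (ee (ξ * x) * ((‖φ ξ‖ ^ 2 : ℝ) : ℂ)) := fun ξ => by
      rw [Complex.ofReal_mul]
      ring
    simp_rw [e3]
    rw [integral_const_mul, hsupp x hx, mul_zero]

theorem exists_fej : ∃ η c, Fej η c := by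
  let b : ContDiffBump (0 : ℝ) := ⟨1 / 4, 1 / 2, by norm_num, by norm_num⟩
  obtain ⟨β, hβ⟩ : ∃ β : ℝ → ℂ, β = fun y => (b y : ℂ) := ⟨_, rfl⟩
  have hβs : HasCompactSupport β :=
    hβ ▸ b.hasCompactSupport.comp_left (g := fun r : ℝ => (r : ℂ)) rfl
  have hβd : ContDiff ℝ (⊤ : ℕ∞) β := hβ ▸ Complex.ofRealCLM.contDiff.comp b.contDiff
  have hβc : Continuous β := hβd.continuous
  have hβi : Integrable β := hβc.integrable_of_hasCompactSupport hβs
  have hFi : Integrable (𝓕 β) := (𝓕 (hβs.toSchwartzMap hβd)).integrable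
  have hconj : ∀ ξ, conj (𝓕 β ξ) = 𝓕⁻ β ξ := fun ξ => by
    rw [Real.fourierInv_eq_fourier_neg, ft_eq, ft_eq, ← integral_conj]
    congr 1
    ext y
    simp only [hβ, map_mul, Complex.conj_ofReal, ee]
    rw [← Complex.exp_conj, map_mul, Complex.conj_ofReal, Complex.conj_I]
    congr 2
    push_cast
    ring
  have hGi : Integrable (𝓕⁻ β) := by
    have : 𝓕⁻ β = fun ξ => 𝓕 β (-ξ) := funext fun ξ => Real.fourierInv_eq_fourier_neg _ _
    rw [this]
    exact hFi.comp_neg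
  refine fou2_fej (continuous_ft hβi) hFi (norm_ft_le β) ?_ fun x hx => ?_
  · rw [ft_eq]
    simp only [mul_zero, ee, Complex.ofReal_zero, zero_mul, Complex.exp_zero, one_mul, hβ]
    rw [integral_complex_ofReal]
    exact Complex.ofReal_ne_zero.2 b.integral_pos.ne'
  · have e1 : ∀ ξ, ee (ξ * x) * ((‖𝓕 β ξ‖ ^ 2 : ℝ) : ℂ)
        = 𝓕 (fun y => β (y - x)) ξ * 𝓕⁻ β ξ := fun ξ => by
      rw [fou2_ft_shift, ← hconj, mul_assoc, Complex.mul_conj', mul_comm x ξ]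
      push_cast
      rfl
    simp_rw [e1]
    rw [ft_swap (hβi.comp_sub_right x) hGi, hβc.fourier_fourierInv_eq hβi hFi]
    have e2 : ∀ y, β (y - x) * β y = 0 := fun y => by
      by_cases hy : 1 / 2 ≤ |y|
      · have : b y = 0 := b.zero_of_le_dist (by rwa [Real.dist_eq, sub_zero])
        simp only [hβ, this, Complex.ofReal_zero, mul_zero]
      · have : b (y - x) = 0 := b.zero_of_le_dist (by
          rw [Real.dist_eq, sub_zero]
          have := abs_sub_abs_le_abs_sub x y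
          rw [abs_sub_comm] at this
          change 1 / 2 ≤ _
          linarith [not_le.1 hy])
        simp only [hβ, this, Complex.ofReal_zero, zero_mul]
    simp [e2]

end Pool.Agent.Lib.MP_a52643_an.NS
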