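import Pool.Agent.Lib.MP_a52643_an.NS.Iso

/-!
The isometry for the states.
-/

open MeasureTheory Set Filter Topology Metric UpperHalfPlane
open scoped ENNReal MatrixGroups Real FourierTransform ComplexConjugate

noncomputable section

namespace Pool.Agent.Lib.MP_a52643_an.NS

variable {Λ : Set SL2} {ν : Measure SL2} {φ : ℍ → ℝ} {r : ℝ}

private lemma iso2_mlog : Measurable fun v : ℝ => aG (Real.log v / 2) :=
  measurable_aG.comp (Real.measurable_log.div_const 2)

private lemma iso2_wt (r σ : ℝ) : ∀ᵐ v ∂(volume.restrict (Ioc 1 (1 + σ))), ‖wt r v‖ ≤ 1 :=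
  (ae_restrict_mem measurableSet_Ioc).mono fun _ hv => norm_wt_le r hv.1.le

lemma Rep.measurable_kF (R : Rep Λ ν φ r) (σ : ℝ) : Measurable (kF φ r σ) := by
  have h : Measurable fun p : SL2 × ℝ =>
      wt r p.2 * (φ (bp (p.1 * aG (Real.log p.2 / 2))) : ℂ) :=
    ((measurable_wt r).comp measurable_snd).mul (Complex.measurable_ofReal.comp
      (R.cont.measurable.comp (measurable_bp.comp
        (measurable_fst.mul (iso2_mlog.comp measurable_snd)))))
  exact (h.stronglyMeasurable.integral_prod_right'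
    (ν := volume.restrict (Ioc 1 (1 + σ)))).measurable

lemma Rep.kF_bdd (R : Rep Λ ν φ r) (σ : ℝ) : ∃ B : ℝ, ∀ g, ‖kF φ r σ g‖ ≤ B := by
  obtain ⟨B, hB⟩ := R.bdd
  refine ⟨B * (volume.restrict (Ioc 1 (1 + σ))).real univ, fun g => ?_⟩
  refine norm_integral_le_of_norm_le_const ((iso2_wt r σ).mono fun v hv => ?_)
  rw [norm_mul, Complex.norm_real, Real.norm_eq_abs]
  exact (mul_le_of_le_one_left (abs_nonneg _) hv).trans (hB _)

lemma Rep.kF_inv (R : Rep Λ ν φ r) (σ : ℝ) {γ : SL2} (hγ : γ ∈ Λ) (g : SL2) :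
    kF φ r σ (γ * g) = kF φ r σ g := by
  simp only [kF, mul_assoc γ, bp_mul γ, R.inv γ hγ]

lemma Rep.Zm_ne_top (R : Rep Λ ν φ r) (σ : ℝ) : Zm ν φ r σ ≠ ⊤ := by
  obtain ⟨B, hB⟩ := R.kF_bdd σ
  have := R.fin
  have h : Zm ν φ r σ ≤ ∫⁻ _, ENNReal.ofReal B ^ 2 ∂ν := by
    refine lintegral_mono fun g => ?_
    have : ‖kF φ r σ g‖ₑ ≤ ENNReal.ofReal B := by
      rw [← ofReal_norm]; exact ENNReal.ofReal_le_ofReal (hB g)
    exact pow_le_pow_left' this 2
  rw [lintegral_const] at h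
  exact ne_top_of_le_ne_top
    (ENNReal.mul_ne_top (ENNReal.pow_ne_top ENNReal.ofReal_ne_top) (measure_ne_top _ _)) h

theorem Rep.Zm_eq (R : Rep Λ ν φ r) (σ : ℝ) (h : SL2) :
    Zm ν φ r σ = ENNReal.ofReal π⁻¹ * n2 (kE r σ h) := by
  have h1 := R.right (fun g => ‖kF φ r σ g‖ₑ ^ 2) ((R.measurable_kF σ).enorm.pow_const 2)
    (fun γ hγ g => by simp only [R.kF_inv σ hγ]) h
  have h2 := R.iso1 (volume.restrict (Ioc 1 (1 + σ))) (w := wt r)
    (h := fun v => h * aG (Real.log v / 2)) (measurable_wt r) (iso2_mlog.const_mul h)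
    (iso2_wt r σ)
  rw [Zm, ← h1]
  simp only [kF, mul_assoc]
  exact h2

private lemma iso2_ne (R : Rep Λ ν φ r) {σ : ℝ} (h : n2 (kE r σ 1) ≠ 0) : Zm ν φ r σ ≠ 0 := by
  rw [R.Zm_eq σ 1]
  exact mul_ne_zero (ENNReal.ofReal_pos.2 (inv_pos.2 Real.pi_pos)).ne' h

lemma Rep.prob (R : Rep Λ ν φ r) {σ : ℝ} (h : n2 (kE r σ 1) ≠ 0) :
    IsProbabilityMeasure (Pm ν φ r σ) := by
  constructor
  rw [Pm, Measure.smul_apply, withDensity_apply _ MeasurableSet.univ, Measure.restrict_univ,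
    smul_eq_mul]
  exact ENNReal.inv_mul_cancel (iso2_ne R h) (R.Zm_ne_top σ)

lemma Rep.Pm_apply (R : Rep Λ ν φ r) {σ : ℝ} (h : n2 (kE r σ 1) ≠ 0) {A : Set SL2}
    (hA : MeasurableSet A) :
    ∫⁻ g in A, ‖kF φ r σ g‖ₑ ^ 2 ∂ν = Zm ν φ r σ * Pm ν φ r σ A := by
  rw [Pm, Measure.smul_apply, withDensity_apply _ hA, smul_eq_mul, ← mul_assoc,
    ENNReal.mul_inv_cancel (iso2_ne R h) (R.Zm_ne_top σ), one_mul]

/-- an iterated integral against a bounded function of bounded support -/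
private lemma iso2_fub {u : ℝ → ℂ} {S B C : ℝ} (mu : Measurable u) (bu : ∀ x, ‖u x‖ ≤ B)
    (su : ∀ x, S < |x| → u x = 0) {K : ℝ × ℝ → ℂ} (mK : Measurable K)
    (bK : ∀ x v, 1 ≤ v → ‖K (x, v)‖ ≤ C) :
    ∫ x, u x * ∫ v in Ioc (1 : ℝ) (1 + 1), K (x, v)
      = ∫ p, u p.1 * K p
        ∂((volume.restrict (Icc (-S) S)).prod (volume.restrict (Ioc (1 : ℝ) (1 + 1)))) := by
  have hi : Integrable (fun p : ℝ × ℝ => u p.1 * K p)
      ((volume.restrict (Icc (-S) S)).prod (volume.restrict (Ioc (1 : ℝ) (1 + 1)))) := by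
    refine Integrable.of_bound ((mu.comp measurable_fst).mul mK).aestronglyMeasurable (B * C) ?_
    rw [Measure.prod_restrict]
    refine (ae_restrict_mem (measurableSet_Icc.prod measurableSet_Ioc)).mono fun p hp => ?_
    rw [norm_mul]
    exact mul_le_mul (bu _) (bK p.1 p.2 hp.2.1.le) (norm_nonneg _) ((norm_nonneg _).trans (bu 0))
  rw [integral_prod _ hi, ← setIntegral_eq_integral_of_forall_compl_eq_zero (s := Icc (-S) S)]
  · simp only [integral_const_mul]
  · intro x hx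
    rw [su x (not_le.1 fun h => hx (abs_le.1 h)), zero_mul]

private lemma iso2_bd (r T x y : ℝ) {v : ℝ} (hv : 1 ≤ v) :
    ‖wt r v * ev r (bp (uG x * aG T * aG (Real.log v / 2))) y‖ ≤ Real.exp (T / 2) := by
  rw [wt_ev r (by linarith), Complex.norm_exp, Real.exp_le_exp]
  have ha : ea (uG x * aG T) = Real.exp (-T / 2) := by simp [uG, aG]
  have hc : ec (uG x * aG T) = 0 := by simp [uG, aG]
  rw [ha, hc, zero_mul, sub_zero]
  have h1 : Real.exp (-T / 2) ^ 2 = Real.exp (-T) := by rw [sq, exp_half (-T)]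
  have h2 : -T ≤ Real.log (Real.exp (-T / 2) ^ 2
      + v * (ed (uG x * aG T) * y - eb (uG x * aG T)) ^ 2) := by
    rw [Real.le_log_iff_exp_le (by positivity), h1]
    exact le_add_of_nonneg_right (by positivity)
  generalize Real.log _ = L at h2 ⊢
  have h3 : (-(1 / 2 + r * Complex.I) * (L : ℂ)).re = -L / 2 := by
    simp; ring
  rw [h3]; linarith

theorem Rep.iso_ki (R : Rep Λ ν φ r) {u : ℝ → ℂ} (hu : Nice u) (c : ℂ) (σ T s : ℝ) :
    ∫⁻ g, ‖(∫ x, u x * kF φ r 1 (g * uG x * aG T)) - c * kF φ r σ (g * vG s)‖ₑ ^ 2 ∂ν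
      = ENNReal.ofReal π⁻¹ * n2 fun y =>
        (∫ x, u x * kE r 1 (aG T) (y - x)) - c * kE r σ (vG s) y := by
  obtain ⟨B, bu⟩ := hu.bdd
  obtain ⟨S, su⟩ := hu.supp
  obtain ⟨Bφ, bφ⟩ := R.bdd
  have mw : Measurable fun p : ℝ × ℝ => wt r p.2 := (measurable_wt r).comp measurable_snd
  have mh : Measurable fun p : ℝ × ℝ => uG p.1 * aG T * aG (Real.log p.2 / 2) :=
    ((measurable_uG.comp measurable_fst).mul_const _).mul (iso2_mlog.comp measurable_snd)
  have key := R.iso2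
    ((volume.restrict (Icc (-S) S)).prod (volume.restrict (Ioc (1 : ℝ) (1 + 1))))
    (volume.restrict (Ioc 1 (1 + σ))) (w := fun p => u p.1 * wt r p.2)
    (h := fun p => uG p.1 * aG T * aG (Real.log p.2 / 2)) (w' := fun v => c * wt r v)
    (h' := fun v => vG s * aG (Real.log v / 2)) ((hu.meas.comp measurable_fst).mul mw) mh
    ((measurable_wt r).const_mul c) (iso2_mlog.const_mul _) (B := max B ‖c‖)
    (by
      rw [Measure.prod_restrict]
      refine (ae_restrict_mem (measurableSet_Icc.prod measurableSet_Ioc)).mono fun p hp => ?_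
      rw [norm_mul]
      exact ((mul_le_of_le_one_right (norm_nonneg _) (norm_wt_le r hp.2.1.le)).trans (bu _)).trans
        (le_max_left _ _))
    ((iso2_wt r σ).mono fun v hv => by
      rw [norm_mul]
      exact (mul_le_of_le_one_right (norm_nonneg _) hv).trans (le_max_right _ _))
  have e1 : ∀ g : SL2, ∫ x, u x * kF φ r 1 (g * uG x * aG T)
      = ∫ p, u p.1 * wt r p.2 * φ (bp (g * (uG p.1 * aG T * aG (Real.log p.2 / 2))))
        ∂((volume.restrict (Icc (-S) S)).prod (volume.restrict (Ioc (1 : ℝ) (1 + 1)))) := by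
    intro g
    have := iso2_fub hu.meas bu su (C := Bφ)
      (K := fun p => wt r p.2 * φ (bp (g * (uG p.1 * aG T * aG (Real.log p.2 / 2)))))
      (mw.mul (Complex.measurable_ofReal.comp (R.cont.measurable.comp
        (measurable_bp.comp (mh.const_mul g))))) (fun x v hv => by
        rw [norm_mul, Complex.norm_real, Real.norm_eq_abs]
        exact (mul_le_of_le_one_left (abs_nonneg _) (norm_wt_le r hv)).trans (bφ _))
    simpa only [kF, mul_assoc] using this
  have e2 : ∀ g : SL2, c * kF φ r σ (g * vG s)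
      = ∫ v in Ioc 1 (1 + σ), c * wt r v * φ (bp (g * (vG s * aG (Real.log v / 2)))) := by
    intro g
    simp only [kF, mul_assoc, integral_const_mul]
  have e3 : ∀ y : ℝ, ∫ x, u x * kE r 1 (aG T) (y - x)
      = ∫ p, u p.1 * wt r p.2 * ev r (bp (uG p.1 * aG T * aG (Real.log p.2 / 2))) y
        ∂((volume.restrict (Icc (-S) S)).prod (volume.restrict (Ioc (1 : ℝ) (1 + 1)))) := by
    intro y
    have := iso2_fub hu.meas bu su (C := Real.exp (T / 2))
      (K := fun p => wt r p.2 * ev r (bp (uG p.1 * aG T * aG (Real.log p.2 / 2))) y)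
      (mw.mul ((measurable_ev r).comp ((measurable_bp.comp mh).prodMk measurable_const)))
      (fun x v hv => iso2_bd r T x y hv)
    simp only [← kE_uG]
    simpa only [kE, mul_assoc] using this
  have e4 : ∀ y : ℝ, c * kE r σ (vG s) y
      = ∫ v in Ioc 1 (1 + σ), c * wt r v * ev r (bp (vG s * aG (Real.log v / 2))) y := by
    intro y
    simp only [kE, mul_assoc, integral_const_mul]
  simp only [e1, e2, e3, e4]
  exact key

end Pool.Agent.Lib.MP_a52643_an.NS
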