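import Pool.Agent.Lib.MP_a52643_an.NS.State0

/-!
Size, tail and modulus of continuity of the state.
-/

open MeasureTheory Set Filter Topology Metric UpperHalfPlane
open scoped ENNReal MatrixGroups Real FourierTransform ComplexConjugate

noncomputable section

namespace Pool.Agent.Lib.MP_a52643_an.NS

private lemma state1_exp_lip {a b : ℂ} (ha : a.re ≤ 0) (hb : b.re ≤ 0) :
    ‖Complex.exp a - Complex.exp b‖ ≤ ‖a - b‖ := by
  have h := (convex_halfSpace_re_le 0).norm_image_sub_le_of_norm_hasDerivWithin_le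
    (f := Complex.exp) (f' := Complex.exp) (C := 1) (x := b) (y := a)
    (fun z _ => (Complex.hasDerivAt_exp z).hasDerivWithinAt)
    (fun z hz => by rw [Complex.norm_exp]; exact Real.exp_le_one_iff.2 hz) hb ha
  simpa using h

private lemma state1_log_le {p q : ℝ} (hp : 1 ≤ p) (hq : 1 ≤ q) :
    Real.log p - Real.log q ≤ |p - q| := by
  have hq0 : 0 < q := by linarith
  rw [← Real.log_div (by linarith) hq0.ne']
  refine (Real.log_le_sub_one_of_pos (by positivity)).trans ?_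
  rw [div_sub_one hq0.ne', div_le_iff₀ hq0]
  nlinarith [le_abs_self (p - q), abs_nonneg (p - q)]

private lemma state1_log_lip {p q : ℝ} (hp : 1 ≤ p) (hq : 1 ≤ q) :
    |Real.log p - Real.log q| ≤ |p - q| := by
  refine abs_le.2 ⟨?_, state1_log_le hp hq⟩
  have := state1_log_le hq hp
  rw [abs_sub_comm] at this
  linarith

private lemma state1_cont (c : ℂ) {A B σ : ℝ} (hB : 0 ≤ B) (hAB : 0 < A + B) :
    ContinuousOn (fun v : ℝ => Complex.exp (c * Real.log (A + v * B))) (Icc 1 (1 + σ)) := by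
  refine Complex.continuous_exp.comp_continuousOn (continuousOn_const.mul
    (Complex.continuous_ofReal.comp_continuousOn (ContinuousOn.log (by fun_prop) ?_)))
  intro v hv
  have : A + B ≤ A + v * B := by nlinarith [hv.1]
  linarith

private lemma state1_int (c : ℂ) {A B σ : ℝ} (hB : 0 ≤ B) (hAB : 0 < A + B) :
    IntegrableOn (fun v : ℝ => Complex.exp (c * Real.log (A + v * B))) (Ioc 1 (1 + σ)) :=
  ((state1_cont c hB hAB).integrableOn_Icc).mono_set Ioc_subset_Icc_self

private lemma state1_one (r σ y : ℝ) : kE r σ 1 y = ∫ v in Ioc 1 (1 + σ),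
    Complex.exp (-(1 / 2 + r * Complex.I) * Real.log (1 + v * y ^ 2)) := by
  rw [kE_eq]; simp

private lemma state1_re (r : ℝ) {p : ℝ} (hp : 1 ≤ p) :
    (-(1 / 2 + r * Complex.I) * (Real.log p : ℂ)).re ≤ 0 := by
  have := Real.log_nonneg hp
  simp only [neg_mul, Complex.neg_re, Complex.mul_re, Complex.add_re, Complex.ofReal_re,
    Complex.ofReal_im, Complex.I_re, Complex.I_im, mul_zero, sub_zero, mul_one]
  norm_num
  linarith

private lemma state1_vol {σ : ℝ} (h0 : 0 ≤ σ) : (volume : Measure ℝ).real (Ioc 1 (1 + σ)) = σ := by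
  rw [Real.volume_real_Ioc_of_le (by linarith)]; ring

private lemma state1_low {r σ y : ℝ} (h0 : 0 < σ) (h1 : σ ≤ 1) (hr : 1 ≤ r * σ)
    (hy : r * σ * y ^ 2 ≤ 1 / 16) : σ / 2 ≤ ‖kE r σ 1 y‖ := by
  have hy2 : 0 ≤ y ^ 2 := sq_nonneg y
  have hr0 : 0 < r := by nlinarith
  have hy1 : y ^ 2 ≤ 1 / 16 := by nlinarith
  set c : ℂ := Complex.exp (-(r * Real.log (1 + y ^ 2) : ℝ) * Complex.I) with hc
  have hc1 : ‖c‖ = 1 := by rw [hc, ← Complex.ofReal_neg]; exact Complex.norm_exp_ofReal_mul_I _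
  have hI := state1_int (-(1 / 2 + r * Complex.I)) (A := 1) (σ := σ) hy2 (by positivity)
  have hsub : kE r σ 1 y - σ * c = ∫ v in Ioc 1 (1 + σ),
      (Complex.exp (-(1 / 2 + r * Complex.I) * Real.log (1 + v * y ^ 2)) - c) := by
    rw [integral_sub hI (integrableOn_const (by simp)), state1_one, setIntegral_const,
      state1_vol h0.le, Complex.real_smul]
  have hb : ‖kE r σ 1 y - σ * c‖ ≤ 1 / 8 * σ := by
    rw [hsub, ← state1_vol h0.le]
    conv_lhs => rw [state1_vol h0.le]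
    refine norm_setIntegral_le_of_norm_le_const (by simp) ?_
    intro v hv
    have hv1 : 1 ≤ 1 + v * y ^ 2 := by nlinarith [hv.1]
    refine (state1_exp_lip (state1_re r hv1) (by simp)).trans ?_
    have e : -(1 / 2 + r * Complex.I) * (Real.log (1 + v * y ^ 2) : ℂ)
        - -((r * Real.log (1 + y ^ 2) : ℝ) : ℂ) * Complex.I
        = (-(Real.log (1 + v * y ^ 2) / 2) : ℝ)
          + (-(r * (Real.log (1 + v * y ^ 2) - Real.log (1 + y ^ 2))) : ℝ) * Complex.I := by
      push_cast; ring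
    rw [e]
    refine (norm_add_le _ _).trans ?_
    rw [norm_mul, Complex.norm_I, mul_one, Complex.norm_real, Complex.norm_real, Real.norm_eq_abs,
      Real.norm_eq_abs, abs_neg, abs_neg, abs_mul, abs_of_pos hr0,
      abs_of_nonneg (div_nonneg (Real.log_nonneg hv1) two_pos.le)]
    have l1 := Real.log_le_sub_one_of_pos (show 0 < 1 + v * y ^ 2 by linarith)
    have l2 := state1_log_lip hv1 (show 1 ≤ 1 + y ^ 2 by linarith)
    rw [show 1 + v * y ^ 2 - (1 + y ^ 2) = (v - 1) * y ^ 2 by ring,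
      abs_of_nonneg (mul_nonneg (by linarith [hv.1]) hy2)] at l2
    have l3 : (v - 1) * y ^ 2 ≤ σ * y ^ 2 := by nlinarith [hv.2]
    have l4 : v * y ^ 2 ≤ 2 * y ^ 2 := by nlinarith [hv.2]
    have l5 := mul_le_mul_of_nonneg_left (l2.trans l3) hr0.le
    nlinarith
  have h2 : ‖(σ : ℂ) * c‖ = σ := by
    rw [norm_mul, hc1, mul_one, Complex.norm_real, Real.norm_eq_abs, abs_of_pos h0]
  have h3 := norm_sub_norm_le ((σ : ℂ) * c) (kE r σ 1 y)
  rw [norm_sub_rev, h2] at h3
  linarith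

theorem kE_low {r σ : ℝ} (h0 : 0 < σ) (h1 : σ ≤ 1) (hr : 1 ≤ r * σ) :
    ENNReal.ofReal (σ ^ 2 / (8 * √(r * σ))) ≤ n2 (kE r σ 1) := by
  have hs : 0 < √(r * σ) := Real.sqrt_pos.2 (by linarith)
  have hs2 : √(r * σ) ^ 2 = r * σ := Real.sq_sqrt (by linarith)
  set δ : ℝ := 1 / (4 * √(r * σ)) with hδ
  have hδ0 : 0 < δ := by positivity
  calc ENNReal.ofReal (σ ^ 2 / (8 * √(r * σ)))
      = ∫⁻ _ in Icc (-δ) δ, ENNReal.ofReal ((σ / 2) ^ 2) := by
        rw [setLIntegral_const, Real.volume_Icc, ← ENNReal.ofReal_mul (by positivity)]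
        congr 1
        rw [hδ]; field_simp; ring
    _ ≤ ∫⁻ y in Icc (-δ) δ, ‖kE r σ 1 y‖ₑ ^ 2 := by
        refine setLIntegral_mono' measurableSet_Icc fun y hy => ?_
        have hy2 : y ^ 2 ≤ δ ^ 2 := sq_le_sq' hy.1 hy.2
        have e : r * σ * δ ^ 2 = 1 / 16 := by rw [← hs2, hδ]; field_simp; norm_num
        have := state1_low h0 h1 hr (y := y) (by nlinarith)
        rw [← ofReal_norm, ← ENNReal.ofReal_pow (norm_nonneg _)]
        exact ENNReal.ofReal_le_ofReal (pow_le_pow_left₀ (by positivity) this 2)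
    _ ≤ n2 (kE r σ 1) := setLIntegral_le_lintegral _ _

private lemma state1_ftc (r : ℝ) {A B σ : ℝ} (h0 : 0 ≤ σ) (hA : 0 ≤ A) (hB : 0 < B) :
    (1 / 2 - r * Complex.I) * B * ∫ v in Ioc 1 (1 + σ),
      Complex.exp (-(1 / 2 + r * Complex.I) * Real.log (A + v * B))
    = Complex.exp ((1 / 2 - r * Complex.I) * Real.log (A + (1 + σ) * B))
      - Complex.exp ((1 / 2 - r * Complex.I) * Real.log (A + 1 * B)) := by
  have hle : (1 : ℝ) ≤ 1 + σ := by linarith
  rw [← intervalIntegral.integral_of_le hle, ← intervalIntegral.integral_const_mul]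
  refine intervalIntegral.integral_eq_sub_of_hasDerivAt
    (f := fun v : ℝ => Complex.exp ((1 / 2 - r * Complex.I) * Real.log (A + v * B))) ?_ ?_
  · intro v hv
    rw [uIcc_of_le hle] at hv
    have hQ : 0 < A + v * B := by nlinarith [hv.1]
    have d1 : HasDerivAt (fun v : ℝ => A + v * B) B v := by
      simpa using ((hasDerivAt_id v).mul_const B).const_add A
    have d2 := (((d1.log hQ.ne').ofReal_comp).const_mul (1 / 2 - r * Complex.I)).cexp
    refine d2.congr_deriv ?_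
    have e : Complex.exp ((1 / 2 - r * Complex.I) * Real.log (A + v * B))
        = Complex.exp (-(1 / 2 + r * Complex.I) * Real.log (A + v * B)) * (A + v * B : ℝ) := by
      conv_rhs => rw [← Real.exp_log hQ, Real.log_exp, Complex.ofReal_exp, ← Complex.exp_add]
      congr 1; ring
    have hQ' : ((A + v * B : ℝ) : ℂ) ≠ 0 := by exact_mod_cast hQ.ne'
    rw [e, Complex.ofReal_div]
    field_simp
  · refine ContinuousOn.intervalIntegrable ?_
    rw [uIcc_of_le hle]
    exact continuousOn_const.mul (state1_cont _ hB.le (by linarith))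

private lemma state1_sq (r : ℝ) {Q : ℝ} (hQ : 0 < Q) :
    ‖Complex.exp ((1 / 2 - r * Complex.I) * Real.log Q)‖ ^ 2 = Q := by
  rw [Complex.norm_exp, ← Real.exp_nat_mul]
  conv_rhs => rw [← Real.exp_log hQ]
  congr 1
  simp only [Complex.mul_re, Complex.sub_re, Complex.ofReal_re, Complex.ofReal_im, Complex.I_re,
    Complex.I_im, mul_zero, sub_zero, mul_one]
  norm_num
  ring

private lemma state1_tail {r σ s y : ℝ} (h0 : 0 ≤ σ) (h1 : σ ≤ 1) (hy : 0 < y ^ 2) :
    r ^ 2 * (y ^ 2) ^ 2 * ‖kE r σ (vG s) y‖ ^ 2 ≤ 8 + 8 * (s ^ 2 * y ^ 2) + 6 * y ^ 2 := by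
  have hk : kE r σ (vG s) y = ∫ v in Ioc 1 (1 + σ),
      Complex.exp (-(1 / 2 + r * Complex.I) * Real.log ((1 - s * y) ^ 2 + v * y ^ 2)) := by
    rw [kE_eq]; simp [vG]
  have hA := sq_nonneg (1 - s * y)
  have h := state1_ftc r h0 hA hy
  rw [← hk] at h
  have q1 := state1_sq r (Q := (1 - s * y) ^ 2 + (1 + σ) * y ^ 2) (by positivity)
  have q2 := state1_sq r (Q := (1 - s * y) ^ 2 + 1 * y ^ 2) (by positivity)
  have hn := norm_sub_le
    (Complex.exp ((1 / 2 - r * Complex.I) * Real.log ((1 - s * y) ^ 2 + (1 + σ) * y ^ 2)))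
    (Complex.exp ((1 / 2 - r * Complex.I) * Real.log ((1 - s * y) ^ 2 + 1 * y ^ 2)))
  rw [← h, norm_mul, norm_mul, Complex.norm_real, Real.norm_eq_abs, abs_of_pos hy] at hn
  have hr : r ^ 2 ≤ ‖(1 / 2 - r * Complex.I : ℂ)‖ ^ 2 := by
    have := Complex.abs_im_le_norm (1 / 2 - r * Complex.I : ℂ)
    have e : (1 / 2 - r * Complex.I : ℂ).im = -r := by simp
    rw [e, abs_neg] at this
    rw [← sq_abs r]
    exact pow_le_pow_left₀ (abs_nonneg r) this 2
  have h2 := pow_le_pow_left₀ (by positivity) hn 2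
  have h3 : r ^ 2 * (y ^ 2) ^ 2 * ‖kE r σ (vG s) y‖ ^ 2
      ≤ (‖(1 / 2 - r * Complex.I : ℂ)‖ * y ^ 2 * ‖kE r σ (vG s) y‖) ^ 2 := by
    rw [mul_pow, mul_pow]; gcongr
  refine (h3.trans h2).trans ?_
  have h4 : σ * y ^ 2 ≤ y ^ 2 := by nlinarith
  generalize ‖Complex.exp ((1 / 2 - r * Complex.I) *
    Real.log ((1 - s * y) ^ 2 + (1 + σ) * y ^ 2))‖ = a at q1 ⊢
  generalize ‖Complex.exp ((1 / 2 - r * Complex.I) *
    Real.log ((1 - s * y) ^ 2 + 1 * y ^ 2))‖ = b at q2 ⊢
  nlinarith [sq_nonneg (a - b), sq_nonneg (1 + s * y)]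

theorem kE_tail {r σ X s : ℝ} (hr : 0 < r) (h0 : 0 ≤ σ) (h1 : σ ≤ 1) (hX : 0 < X) (hX1 : X ≤ 1)
    (hs : |s| * X ≤ 1 / 10) :
    ∫⁻ y in {y | X < |y|}, ‖kE r σ (vG s) y‖ₑ ^ 2 ≤ ENNReal.ofReal (100 / (r ^ 2 * X ^ 3)) := by
  set z : ℍ := ⟨⟨0, X⟩, hX⟩ with hz
  set C : ℝ := 30 / (r ^ 2 * X ^ 3) with hC
  have hC0 : 0 < C := by positivity
  have hP : ∀ y, Pk z y = X / (y ^ 2 + X ^ 2) := fun y => by
    simp [Pk, hz, UpperHalfPlane.re, UpperHalfPlane.im]
  calc ∫⁻ y in {y | X < |y|}, ‖kE r σ (vG s) y‖ₑ ^ 2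
      ≤ ∫⁻ y in {y | X < |y|}, ENNReal.ofReal (C * Pk z y) := by
        refine setLIntegral_mono' (measurableSet_lt measurable_const measurable_abs)
          fun y hy => ?_
        have hy1 : X ^ 2 ≤ y ^ 2 := by
          rw [← sq_abs y]; exact pow_le_pow_left₀ hX.le (le_of_lt hy) 2
        have hy2 : 0 < y ^ 2 := lt_of_lt_of_le (by positivity) hy1
        have h := state1_tail (r := r) (s := s) h0 h1 hy2
        have hs2 : s ^ 2 * X ^ 2 ≤ 1 / 100 := by
          have := pow_le_pow_left₀ (by positivity) hs 2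
          rw [mul_pow, sq_abs] at this; linarith
        have hX2 : X ^ 2 ≤ 1 := by nlinarith
        rw [← ofReal_norm, ← ENNReal.ofReal_pow (norm_nonneg _)]
        refine ENNReal.ofReal_le_ofReal ?_
        rw [hP, hC, div_mul_div_comm, le_div_iff₀ (by positivity)]
        generalize ‖kE r σ (vG s) y‖ ^ 2 = k at h ⊢
        have a1 : X ^ 2 * (r ^ 2 * (y ^ 2) ^ 2 * k) ≤ 15 * y ^ 2 := by
          have := mul_le_mul_of_nonneg_left h (sq_nonneg X)
          nlinarith [mul_le_mul_of_nonneg_right hs2 hy2.le, mul_le_mul_of_nonneg_right hX2 hy2.le]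
        have a2 : X ^ 2 * r ^ 2 * y ^ 2 * k ≤ 15 := by
          refine le_of_mul_le_mul_right ?_ hy2
          linarith
        rcases le_total 0 k with hk | hk
        · have a3 : X ^ 2 * r ^ 2 * X ^ 2 * k ≤ X ^ 2 * r ^ 2 * y ^ 2 * k := by gcongr
          have : k * (r ^ 2 * X ^ 3 * (y ^ 2 + X ^ 2))
              = X * (X ^ 2 * r ^ 2 * y ^ 2 * k + X ^ 2 * r ^ 2 * X ^ 2 * k) := by ring
          rw [this]; nlinarith
        · exact (mul_nonpos_of_nonpos_of_nonneg hk (by positivity)).trans (by positivity)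
    _ ≤ ∫⁻ y, ENNReal.ofReal (C * Pk z y) := setLIntegral_le_lintegral _ _
    _ = ENNReal.ofReal (C * π) := by
        rw [← ofReal_integral_eq_lintegral_ofReal ((integrable_Pk z).const_mul C)
          (Eventually.of_forall fun y => (mul_pos hC0 (Pk_pos z y)).le), integral_const_mul,
          integral_Pk]
    _ ≤ _ := by
        refine ENNReal.ofReal_le_ofReal ?_
        rw [hC, div_mul_eq_mul_div]
        gcongr
        linarith [Real.pi_lt_d2]

private lemma state1_lip {r σ X y y' : ℝ} (hr : 1 ≤ r) (h0 : 0 ≤ σ) (h1 : σ ≤ 1)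
    (hy : y ∈ Icc (-X) X) (hy' : y' ∈ Icc (-X) X) :
    ‖kE r σ 1 y - kE r σ 1 y'‖ ≤ 6 * r * X * |y - y'| * σ := by
  rw [state1_one, state1_one, ← integral_sub (state1_int _ (sq_nonneg y) (by positivity))
    (state1_int _ (sq_nonneg y') (by positivity)), ← state1_vol h0]
  conv_lhs => rw [state1_vol h0]
  refine norm_setIntegral_le_of_norm_le_const (by simp) ?_
  intro v hv
  have hv0 : 0 ≤ v := by linarith [hv.1]
  have hv1 : 1 ≤ 1 + v * y ^ 2 := le_add_of_nonneg_right (by positivity)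
  have hv2 : 1 ≤ 1 + v * y' ^ 2 := le_add_of_nonneg_right (by positivity)
  refine (state1_exp_lip (state1_re r hv1) (state1_re r hv2)).trans ?_
  rw [← mul_sub, norm_mul, norm_neg, ← Complex.ofReal_sub, Complex.norm_real, Real.norm_eq_abs]
  have n1 : ‖(1 / 2 + r * Complex.I : ℂ)‖ ≤ 3 / 2 * r := by
    refine (norm_add_le _ _).trans ?_
    rw [norm_mul, Complex.norm_I, Complex.norm_real, Real.norm_eq_abs, abs_of_pos (by linarith)]
    norm_num
    linarith
  have n2 := state1_log_lip hv1 hv2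
  rw [show 1 + v * y ^ 2 - (1 + v * y' ^ 2) = v * (y + y') * (y - y') by ring, abs_mul, abs_mul,
    abs_of_nonneg hv0] at n2
  have n3 : |y + y'| ≤ 2 * X := abs_le.2 ⟨by linarith [hy.1, hy'.1], by linarith [hy.2, hy'.2]⟩
  have n4 : v * |y + y'| * |y - y'| ≤ 2 * (2 * X) * |y - y'| := by
    gcongr
    linarith [hv.2]
  calc _ ≤ (3 / 2 * r) * (2 * (2 * X) * |y - y'|) :=
        mul_le_mul n1 (n2.trans n4) (abs_nonneg _) (by positivity)
    _ = _ := by ring

theorem kE_move {r σ X : ℝ} (hr : 1 ≤ r) (h0 : 0 ≤ σ) (h1 : σ ≤ 1) (hX : 0 ≤ X) (x : ℝ) :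
    n2 (fun y => cut X (kE r σ 1) (y - x) - cut X (kE r σ 1) y)
      ≤ ENNReal.ofReal (σ ^ 2 * (72 * r ^ 2 * X ^ 3 * x ^ 2 + 2 * |x|)) := by
  set a : ℝ≥0∞ := ENNReal.ofReal ((6 * r * X * |x| * σ) ^ 2) with ha
  set b : ℝ≥0∞ := ENNReal.ofReal (σ ^ 2) with hb
  have key : ∀ {w : ℂ} {t : ℝ}, ‖w‖ ≤ t → ‖w‖ₑ ^ 2 ≤ ENNReal.ofReal (t ^ 2) := fun {w t} h => by
    rw [← ofReal_norm, ← ENNReal.ofReal_pow (norm_nonneg _)]
    exact ENNReal.ofReal_le_ofReal (pow_le_pow_left₀ (norm_nonneg _) h 2)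
  have hpt : ∀ y, ‖cut X (kE r σ 1) (y - x) - cut X (kE r σ 1) y‖ₑ ^ 2
      ≤ (Icc (-X) X).indicator (fun _ => a) y
        + (uIcc (-X) (-X + x) ∪ uIcc X (X + x)).indicator (fun _ => b) y := by
    intro y
    by_cases hy : y ∈ Icc (-X) X <;> by_cases hx : y - x ∈ Icc (-X) X
    · refine le_add_right ?_
      simp only [cut, indicator_of_mem hy, indicator_of_mem hx]
      refine key ((state1_lip hr h0 h1 hx hy).trans (le_of_eq ?_))
      rw [show y - x - y = -x by ring, abs_neg]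
    · refine le_add_left ?_
      have hm : y ∈ uIcc (-X) (-X + x) ∪ uIcc X (X + x) := by
        rw [mem_Icc, not_and_or, not_le, not_le] at hx
        rcases hx with h | h
        · exact Or.inl (mem_uIcc.2 (Or.inl ⟨hy.1, by linarith⟩))
        · exact Or.inr (mem_uIcc.2 (Or.inr ⟨by linarith, hy.2⟩))
      simp only [cut, indicator_of_mem hy, indicator_of_notMem hx, indicator_of_mem hm, zero_sub,
        enorm_neg]
      exact key (norm_kE_one r h0 y)
    · refine le_add_left ?_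
      have hm : y ∈ uIcc (-X) (-X + x) ∪ uIcc X (X + x) := by
        rw [mem_Icc, not_and_or, not_le, not_le] at hy
        rcases hy with h | h
        · exact Or.inl (mem_uIcc.2 (Or.inr ⟨by linarith [hx.1], h.le⟩))
        · exact Or.inr (mem_uIcc.2 (Or.inl ⟨h.le, by linarith [hx.2]⟩))
      simp only [cut, indicator_of_notMem hy, indicator_of_mem hx, indicator_of_mem hm, sub_zero]
      exact key (norm_kE_one r h0 _)
    · simp [cut, indicator_of_notMem hy, indicator_of_notMem hx]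
  refine (lintegral_mono hpt).trans ?_
  rw [lintegral_add_left (measurable_const.indicator measurableSet_Icc),
    lintegral_indicator_const measurableSet_Icc,
    lintegral_indicator_const (measurableSet_uIcc.union measurableSet_uIcc)]
  have hU : volume (uIcc (-X) (-X + x) ∪ uIcc X (X + x)) ≤ ENNReal.ofReal (2 * |x|) := by
    refine (measure_union_le _ _).trans (le_of_eq ?_)
    rw [Real.volume_interval, Real.volume_interval, ← ENNReal.ofReal_add (abs_nonneg _)
      (abs_nonneg _), show -X + x - -X = x by ring, show X + x - X = x by ring, two_mul]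
  refine (add_le_add le_rfl (mul_le_mul_right hU b)).trans (le_of_eq ?_)
  rw [Real.volume_Icc, ha, hb, ← ENNReal.ofReal_mul (by positivity),
    ← ENNReal.ofReal_mul (by positivity), ← ENNReal.ofReal_add (by
      have : 0 ≤ X - -X := by linarith
      positivity) (by positivity)]
  congr 1
  rw [← sq_abs x]; ring

end Pool.Agent.Lib.MP_a52643_an.NS
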