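import Pool.Agent.Lib.MP_a52643_an.NS.Defs

/-!
Discreteness, and covering numbers for families of geodesics of small entropy.
-/

open MeasureTheory Set Filter Topology Metric UpperHalfPlane
open scoped ENNReal MatrixGroups Real FourierTransform ComplexConjugate

noncomputable section

namespace Pool.Agent.Lib.MP_a52643_an.NS

lemma geo_re (M : SL2) (s : ℝ) : (M • pt 0 s).re
    = (eb M * ed M * Real.exp (-s) + ea M * ec M * Real.exp s) * (M • pt 0 s).im := by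
  have h := re_act M 0 s
  have h1 : Real.exp (-s) * Real.exp s = 1 := by rw [← Real.exp_add]; simp
  simp only [mul_zero, zero_add] at h
  linear_combination Real.exp (-s) * h - ((M • pt 0 s).re
    - ea M * ec M * Real.exp s * (M • pt 0 s).im) * h1

lemma geo_quot {M : SL2} {s t : ℝ} (h : Nr t (M • pt 0 s)) :
    |eb M * ed M * Real.exp (-s) + ea M * ec M * Real.exp s| ≤ Real.sinh t := by
  have h1 := h.re_le
  have h2 := (M • pt 0 s).im_pos
  rw [geo_re, abs_mul, abs_of_pos h2] at h1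
  exact le_of_mul_le_mul_right h1 h2

/-- a geodesic that stays near the axis for a long time is exponentially close in the middle -/
lemma geo_close {M : SL2} {T : ℝ} (hT : 1 ≤ T) (h1 : Nr 3 (M • pt 0 T))
    (h2 : Nr 3 (M • pt 0 (-T))) {s η : ℝ} (hη : 4 * Real.sinh 3 * Real.exp (|s| - T) < η) :
    Nr η (M • pt 0 s) := by
  have q1 := geo_quot h1
  have q2 := geo_quot h2
  rw [neg_neg] at q2
  set P := eb M * ed M
  set Q := ea M * ec M
  have e1 : Real.exp (-T) * Real.exp T = 1 := by rw [← Real.exp_add]; simp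
  have e2 : 2 ≤ Real.exp T := by linarith [Real.add_one_le_exp T]
  have e3 := Real.exp_pos (-T)
  have e4 : Real.exp (-T) ≤ Real.exp T / 2 := by nlinarith
  have a1 : |Q| * Real.exp T ≤ Real.sinh 3 + |P| * Real.exp (-T) := by
    have := abs_sub (P * Real.exp (-T) + Q * Real.exp T) (P * Real.exp (-T))
    rw [add_sub_cancel_left, abs_mul P, abs_mul Q, abs_of_pos e3,
      abs_of_pos (Real.exp_pos T)] at this
    linarith
  have a2 : |P| * Real.exp T ≤ Real.sinh 3 + |Q| * Real.exp (-T) := by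
    have := abs_sub (P * Real.exp T + Q * Real.exp (-T)) (Q * Real.exp (-T))
    rw [add_sub_cancel_right, abs_mul P, abs_mul Q, abs_of_pos e3,
      abs_of_pos (Real.exp_pos T)] at this
    linarith
  have a3 : (|P| + |Q|) * Real.exp T ≤ 4 * Real.sinh 3 := by
    have := mul_le_mul_of_nonneg_left e4 (add_nonneg (abs_nonneg P) (abs_nonneg Q))
    linarith
  have a4 : |P| + |Q| ≤ 4 * Real.sinh 3 * Real.exp (-T) := by
    have := mul_le_mul_of_nonneg_right a3 e3.le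
    rwa [mul_assoc, mul_comm (Real.exp T), e1, mul_one] at this
  have b1 : Real.exp (-s) ≤ Real.exp |s| := Real.exp_le_exp.2 (neg_le_abs s)
  have b2 : Real.exp s ≤ Real.exp |s| := Real.exp_le_exp.2 (le_abs_self s)
  have b3 : |P * Real.exp (-s) + Q * Real.exp s| ≤ (|P| + |Q|) * Real.exp |s| := by
    refine (abs_add_le _ _).trans ?_
    rw [abs_mul P, abs_mul Q, abs_of_pos (Real.exp_pos _), abs_of_pos (Real.exp_pos _), add_mul]
    gcongr
  have b4 : (|P| + |Q|) * Real.exp |s| ≤ 4 * Real.sinh 3 * Real.exp (|s| - T) := by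
    rw [sub_eq_add_neg, Real.exp_add, mul_comm (Real.exp |s|), ← mul_assoc]
    gcongr
  refine Nr.of_re ?_
  have h2 := (M • pt 0 s).im_pos
  rw [geo_re, abs_mul, abs_of_pos h2]
  exact mul_lt_mul_of_pos_right ((b3.trans b4).trans_lt hη) h2

/-- two geodesics with a long common itinerary -/
lemma geo_pair {G G' : SL2} {T R a a' C : ℝ} {w : ℍ} (hT : 1 ≤ T)
    (hw : dist (G • w) (pt 0 a) < R) (hC : 4 * Real.sinh 3 * Real.exp (2 * R) + 1 ≤ C)
    (h : ∀ s ∈ Icc (-T) T, dist (G⁻¹ • pt 0 (a + s)) (G'⁻¹ • pt 0 (a' + s)) ≤ 2)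
    (ρ t : ℝ) (z : ℍ) (ht : t ≤ R) (hz : dist z w ≤ ρ) (hn : Nr t (G • z)) :
    Nr (t + C * Real.exp (ρ - T)) (G' • z) := by
  obtain ⟨τ, hτ⟩ := hn
  have e : ∀ s, (G' * G⁻¹ * aG (-a)) • pt 0 s = G' • G⁻¹ • pt 0 (a + s) := fun s => by
    rw [mul_smul, mul_smul, aG_pt, mul_zero, sub_neg_eq_add, add_comm]
  have k : ∀ s ∈ Icc (-T) T, Nr 3 ((G' * G⁻¹ * aG (-a)) • pt 0 s) := fun s hs => by
    refine ⟨a' + s, ?_⟩
    have := h s hs
    rw [← dist_smul G', smul_inv_smul] at this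
    rw [e]; linarith
  have d : |τ - a| ≤ ρ + 2 * R := by
    rw [← dist_pt_eq 0]
    have h1 := dist_triangle_left (pt 0 τ) (pt 0 a) (G • z)
    have h2 := dist_triangle (G • z) (G • w) (pt 0 a)
    rw [dist_smul] at h2
    linarith
  have hs : 0 ≤ Real.sinh 3 := Real.sinh_nonneg_iff.2 (by norm_num)
  have n := geo_close hT (k T ⟨by linarith, le_rfl⟩) (k (-T) ⟨le_rfl, by linarith⟩)
    (s := τ - a) (η := C * Real.exp (ρ - T)) (by
      have h1 : Real.exp (|τ - a| - T) ≤ Real.exp (2 * R) * Real.exp (ρ - T) := by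
        rw [← Real.exp_add]; exact Real.exp_le_exp.2 (by linarith)
      have h2 := Real.exp_pos (ρ - T)
      have h3 := mul_le_mul_of_nonneg_left h1 (mul_nonneg (by norm_num : (0 : ℝ) ≤ 4) hs)
      have h4 := mul_le_mul_of_nonneg_right hC h2.le
      linarith)
  rw [e, add_sub_cancel] at n
  rw [add_comm]
  refine n.move ?_
  rw [dist_smul, ← dist_smul G, smul_inv_smul]
  exact hτ.le

theorem exists_geo {Γ : Type*} [Group Γ] [Countable Γ] [MulAction Γ ℍ] {l : Γ → SL2} {D : Set ℍ}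
    (h : FD l D) {K : Set ℍ} (hK : IsCompact K) (hc : ∀ z : ℍ, ∃ γ : Γ, γ • z ∈ K)
    {A : Set SL2} {T₀ : ℝ} (hA : ∀ T ≥ T₀, ∃ F : Finset (ℝ → ℍ),
      (F.card : ℝ) ≤ Real.exp (T / 10 ^ 14) ∧ ∀ g ∈ A, ∀ (γ : Γ) (t : ℝ), γ • g • pt 0 t ∈ K →
        ∃ f ∈ F, ∀ s ∈ Icc (-T) T, dist (γ • g • pt 0 (t + s)) (f s) ≤ 1) :
    Geo (range l) {G | ∃ g ∈ A, ∃ γ, G = g⁻¹ * l γ} := by
  classical
  obtain ⟨R₀, hR⟩ := hK.isBounded.subset_closedBall I
  refine ⟨?_, fun R => ?_, fun R => ?_, ⟨R₀, fun z => ?_⟩⟩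
  · rintro _ ⟨γ₀, rfl⟩ _ ⟨g, hg, γ₁, rfl⟩
    refine ⟨⟨_, ⟨g, hg, γ₁ * γ₀, rfl⟩, fun z => ?_⟩, ⟨_, ⟨g, hg, γ₁ * γ₀⁻¹, rfl⟩, fun z => ?_⟩⟩
    · simp only [mul_smul, ← h.act]
    · simp only [mul_smul, ← h.act, inv_smul_smul]
  · set L : Set SL2 := {G | ∃ g ∈ A, ∃ γ, G = g⁻¹ * l γ}
    set Δ := (h.finite (R₀ + R)).toFinset
    refine ⟨max Δ.card (4 * Real.sinh 3 * Real.exp (2 * R) + 1), max T₀ 1, ?_, fun T hT w => ?_⟩
    · refine le_max_of_le_right ?_
      have hs : 0 ≤ Real.sinh 3 := Real.sinh_nonneg_iff.2 (by norm_num)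
      have := Real.exp_pos (2 * R)
      have : 0 ≤ 4 * Real.sinh 3 * Real.exp (2 * R) := by positivity
      linarith
    obtain ⟨γ₀, h₀⟩ := hc w
    obtain ⟨F, hF, hF'⟩ := hA T (le_of_max_le_left hT)
    let Lab : SL2 → Γ × (ℝ → ℍ) → Prop := fun G p => G ∈ L ∧ ∃ a, dist (G • w) (pt 0 a) < R ∧
      ∀ s ∈ Icc (-T) T, dist ((p.1 * γ₀) • G⁻¹ • pt 0 (a + s)) (p.2 s) ≤ 1
    have ch : ∀ p, ∃ G', (∃ G, Lab G p) → Lab G' p := fun p => by
      by_cases hp : ∃ G, Lab G p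
      · exact hp.imp fun G hG _ => hG
      · exact ⟨1, fun h' => absurd h' hp⟩
    choose rep hrep using ch
    refine ⟨((Δ ×ˢ F).filter fun p => rep p ∈ L).image rep, ?_, ?_, ?_⟩
    · intro G hG
      obtain ⟨p, hp, rfl⟩ := Finset.mem_image.1 hG
      exact (Finset.mem_filter.1 hp).2
    · have h1 : (((Δ ×ˢ F).filter fun p => rep p ∈ L).image rep).card ≤ Δ.card * F.card :=
        Finset.card_image_le.trans ((Finset.card_filter_le _ _).trans
          (Finset.card_product _ _).le)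
      refine (Nat.cast_le.2 h1).trans ?_
      push_cast
      exact mul_le_mul (le_max_left _ _) hF (Nat.cast_nonneg _)
        (le_max_of_le_left (Nat.cast_nonneg _))
    · rintro G hG ⟨a, ha⟩
      have hG' := hG
      obtain ⟨g, hg, γ, rfl⟩ := hG'
      obtain ⟨γ₁, h₁⟩ := hc (g • pt 0 a)
      obtain ⟨f, hf, hf'⟩ := hF' g hg γ₁ a h₁
      have e : ∀ z : ℍ, (g⁻¹ * l γ)⁻¹ • z = γ⁻¹ • g • z := fun z => by
        rw [inv_smul_eq_iff, mul_smul, ← h.act, smul_inv_smul, inv_smul_smul]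
      have lab : Lab (g⁻¹ * l γ) (γ₁ * γ * γ₀⁻¹, f) := by
        refine ⟨hG, a, ha, fun s hs => ?_⟩
        rw [e, smul_smul, show γ₁ * γ * γ₀⁻¹ * γ₀ * γ⁻¹ = γ₁ by group]
        exact hf' s hs
      have mem : γ₁ * γ * γ₀⁻¹ ∈ Δ := by
        rw [Finite.mem_toFinset]
        have k0 := mem_closedBall.1 (hR h₀)
        have k1 := mem_closedBall.1 (hR h₁)
        have k2 : dist (γ₁ • γ • w) (γ₁ • g • pt 0 a) < R := by
          rwa [mul_smul, ← h.act, ← dist_smul g, smul_inv_smul, ← h.dist_eq γ₁] at ha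
        refine ⟨γ₀ • w, mem_closedBall.2 ?_, mem_closedBall.2 ?_⟩
        · linarith [dist_nonneg.trans_lt k2]
        · rw [mul_smul, mul_smul, inv_smul_smul]
          linarith [dist_triangle (γ₁ • γ • w) (γ₁ • g • pt 0 a) I]
      obtain ⟨r1, a', -, r2⟩ := hrep _ ⟨_, lab⟩
      refine ⟨_, Finset.mem_image_of_mem rep (Finset.mem_filter.2
        ⟨Finset.mem_product.2 ⟨mem, hf⟩, r1⟩), ?_⟩
      refine geo_pair (a' := a') (le_of_max_le_right hT) ha (le_max_right _ _) fun s hs => ?_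
      have k1 := hf' s hs
      have k2 := r2 s hs
      rw [← h.dist_eq (γ₁ * γ * γ₀⁻¹ * γ₀), e, smul_smul,
        show γ₁ * γ * γ₀⁻¹ * γ₀ * γ⁻¹ = γ₁ by group]
      linarith [dist_triangle_right (γ₁ • g • pt 0 (a + s)) ((γ₁ * γ * γ₀⁻¹ * γ₀) •
        (rep (γ₁ * γ * γ₀⁻¹, f))⁻¹ • pt 0 (a' + s)) (f s)]
  · refine ⟨(h.finite (R₀ + R)).toFinset.card, fun z w S hS hd => ?_⟩
    rcases S.eq_empty_or_nonempty with rfl | ⟨s, hs⟩
    · simp
    obtain ⟨γ₁, rfl⟩ := hS hs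
    obtain ⟨γ₀, h₀⟩ := hc w
    have k : ∀ γ, l γ ∈ S → γ₀ • γ • z ∈ closedBall I (R₀ + R) := fun γ hγ => by
      have k0 := mem_closedBall.1 (hR h₀)
      have k1 := hd _ hγ
      rw [← h.act, ← h.dist_eq γ₀] at k1
      rw [mem_closedBall]
      linarith [dist_triangle (γ₀ • γ • z) (γ₀ • w) I]
    refine (Finset.card_le_card (t := (h.finite (R₀ + R)).toFinset.image
      fun δ => l (γ₀⁻¹ * δ * γ₀ * γ₁)) fun s hs' => ?_).trans Finset.card_image_le
    obtain ⟨γ, rfl⟩ := hS hs'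
    refine Finset.mem_image.2 ⟨γ₀ * γ * γ₁⁻¹ * γ₀⁻¹, ?_, by congr 1; group⟩
    rw [Finite.mem_toFinset]
    refine ⟨_, k γ₁ hs, ?_⟩
    simp only [mul_smul, inv_smul_smul]
    exact k γ hs'
  · obtain ⟨γ, hγ⟩ := hc z
    exact ⟨_, ⟨γ, rfl⟩, by rw [← h.act]; exact mem_closedBall.1 (hR hγ)⟩

end Pool.Agent.Lib.MP_a52643_an.NS
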