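import Pool.Agent.Lib.MP_a52643_an.NS.State2
import Pool.Agent.Lib.MP_a52643_an.NS.Fou2

/-!
The admissible jumps.
-/

open MeasureTheory Set Filter Topology Metric UpperHalfPlane
open scoped ENNReal MatrixGroups Real FourierTransform ComplexConjugate

noncomputable section

namespace Pool.Agent.Lib.MP_a52643_an.NS

private lemma jump_fin {a b e : ℝ} {M N : ℝ≥0∞} (hM : M ≤ ENNReal.ofReal a)
    (hN : ENNReal.ofReal b ≤ N) (he : 0 ≤ e) (h : a ≤ e * b) : M ≤ ENNReal.ofReal e * N :=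
  hM.trans ((ENNReal.ofReal_le_ofReal h).trans (by rw [ENNReal.ofReal_mul he]; gcongr))

private lemma jump_low {r σ v : ℝ} (h0 : 0 < σ) (h1 : σ ≤ 1) (hv : 0 < v) (hv1 : v ≤ 1)
    (hr : r * σ = π / v ^ 2) : ENNReal.ofReal (σ ^ 2 * v / 16) ≤ n2 (kE r σ 1) := by
  have hv2 : v ^ 2 ≤ 1 := pow_le_one₀ hv.le hv1
  have h3 : 1 ≤ r * σ := by
    rw [hr, le_div_iff₀ (by positivity)]; linarith [Real.pi_gt_three]
  refine le_trans (ENNReal.ofReal_le_ofReal ?_) (kE_low h0 h1 h3)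
  have hs : √(r * σ) ≤ 2 / v := by
    refine Real.sqrt_le_iff.2 ⟨by positivity, ?_⟩
    rw [hr, div_pow]
    gcongr
    linarith [Real.pi_le_four]
  have hp : 0 < √(r * σ) := Real.sqrt_pos.2 (by linarith)
  calc σ ^ 2 * v / 16 = σ ^ 2 / (8 * (2 / v)) := by field_simp; ring
    _ ≤ σ ^ 2 / (8 * √(r * σ)) := by gcongr

private lemma jump_ne {b : ℝ} {N : ℝ≥0∞} (hb : 0 < b) (hN : ENNReal.ofReal b ≤ N) : N ≠ 0 :=
  ((ENNReal.ofReal_pos.2 hb).trans_le hN).ne'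

/-- the last step of every estimate -/
private lemma jump_gain {u e c : ℝ} {k m : ℕ} (hu : 0 < u) (hu1 : u ≤ 1 / 10)
    (he : 10 ^ 7 * u ≤ e) (hc : c ≤ 100000) (hk : m + 1 ≤ k) :
    c * u ^ k ≤ e * (u ^ m / 16) := by
  have h1 : u ^ k ≤ u ^ (m + 1) := pow_le_pow_of_le_one hu.le (by linarith) hk
  have h2 : 0 < u ^ m := by positivity
  have h3 : 0 < u ^ k := by positivity
  calc c * u ^ k ≤ 100000 * u ^ (m + 1) := by gcongr
    _ = (1600000 * u) * (u ^ m / 16) := by ring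
    _ ≤ e * (u ^ m / 16) := by gcongr; linarith

private lemma jump_pi : π ^ 2 ≤ 16 := by nlinarith [Real.pi_le_four, Real.pi_pos]

private lemma jump_pi' : 1 ≤ π ^ 2 := by nlinarith [Real.pi_gt_three]

private lemma jump_r {u : ℝ} (hu : 0 < u) (hu1 : u ≤ 1 / 10) : 1 ≤ π / u ^ 100 := by
  rw [le_div_iff₀ (by positivity)]
  have : u ^ 100 ≤ 1 := pow_le_one₀ hu.le (by linarith)
  linarith [Real.pi_gt_three]

private lemma jump_low1 {u : ℝ} (hu : 0 < u) (hu1 : u ≤ 1 / 10) :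
    ENNReal.ofReal (u ^ 50 / 16) ≤ n2 (kE (π / u ^ 100) 1 1) := by
  have := jump_low (r := π / u ^ 100) (σ := 1) (v := u ^ 50) one_pos le_rfl (by positivity)
    (pow_le_one₀ hu.le (by linarith)) (by rw [mul_one, ← pow_mul])
  rwa [one_pow, one_mul] at this

private lemma jump_low2 {u : ℝ} (hu : 0 < u) (hu1 : u ≤ 1 / 10) :
    ENNReal.ofReal (u ^ 104 / 16) ≤ n2 (kE (π / u ^ 100) (u ^ 36) 1) := by
  have := jump_low (r := π / u ^ 100) (σ := u ^ 36) (v := u ^ 32) (by positivity)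
    (pow_le_one₀ hu.le (by linarith)) (by positivity)
    (pow_le_one₀ hu.le (by linarith)) (by field_simp)
  rwa [show (u ^ 36) ^ 2 * u ^ 32 = u ^ 104 by ring] at this

/-- the tail term -/
private lemma jump_tt {u : ℝ} (hu : 0 < u) {a k : ℕ} (hk : k + 3 * a = 200) :
    100 / ((π / u ^ 100) ^ 2 * (u ^ a) ^ 3) ≤ 100 * u ^ k := by
  have e : u ^ 200 = u ^ k * (u ^ a) ^ 3 := by rw [← hk]; ring
  have h1 : 100 / ((π / u ^ 100) ^ 2 * (u ^ a) ^ 3) = 100 * u ^ k / π ^ 2 := by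
    rw [div_pow, ← pow_mul u 100 2, e]; field_simp
  rw [h1]
  exact div_le_self (by positivity) jump_pi'

/-- the shift term -/
private lemma jump_mv {u x : ℝ} (hu : 0 < u) (hu1 : u ≤ 1 / 10) {a b k : ℕ}
    (hk : k + 200 = 3 * a + 2 * b) (hb : k ≤ b) (hx : |x| ≤ u ^ b) :
    72 * (π / u ^ 100) ^ 2 * (u ^ a) ^ 3 * x ^ 2 + 2 * |x| ≤ 1154 * u ^ k := by
  have h1 : x ^ 2 ≤ (u ^ b) ^ 2 := by
    rw [← sq_abs]; exact pow_le_pow_left₀ (abs_nonneg x) hx 2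
  have h2 : u ^ b ≤ u ^ k := pow_le_pow_of_le_one hu.le (by linarith) hb
  have e : (u ^ a) ^ 3 * (u ^ b) ^ 2 = u ^ k * u ^ 200 := by
    rw [← pow_add, hk]; ring
  have h3 : 72 * (π / u ^ 100) ^ 2 * (u ^ a) ^ 3 * (u ^ b) ^ 2 = 72 * π ^ 2 * u ^ k := by
    rw [mul_assoc _ _ ((u ^ b) ^ 2), e, div_pow, ← pow_mul u 100 2]; field_simp
  have h4 : 0 < u ^ k := by positivity
  calc 72 * (π / u ^ 100) ^ 2 * (u ^ a) ^ 3 * x ^ 2 + 2 * |x|
      ≤ 72 * (π / u ^ 100) ^ 2 * (u ^ a) ^ 3 * (u ^ b) ^ 2 + 2 * u ^ k := by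
        gcongr; exact hx.trans h2
    _ ≤ 72 * 16 * u ^ k + 2 * u ^ k := by rw [h3]; gcongr; exact jump_pi
    _ = 1154 * u ^ k := by ring

/-- the phase term -/
private lemma jump_ph {u s : ℝ} (hu : 0 < u) (hu1 : u ≤ 1 / 10) {a b k : ℕ}
    (hk : k + 100 = 2 * a + 2 * b) (hb : b ≤ a) (hk' : k ≤ a + b) (hs : |s| ≤ u ^ b) :
    (π / u ^ 100 * s ^ 2 * (u ^ a) ^ 2 + π / u ^ 100 * |s| * (u ^ a) ^ 3 + |s| * u ^ a) ^ 2
      ≤ 81 * u ^ (2 * k) := by
  have hu' : u ≤ 1 := by linarith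
  have h1 : s ^ 2 ≤ (u ^ b) ^ 2 := by
    rw [← sq_abs]; exact pow_le_pow_left₀ (abs_nonneg s) hs 2
  have e : (u ^ b) ^ 2 * (u ^ a) ^ 2 = u ^ k * u ^ 100 := by
    rw [← pow_add, hk]; ring
  have h2 : π / u ^ 100 * (u ^ b) ^ 2 * (u ^ a) ^ 2 = π * u ^ k := by
    rw [mul_assoc, e]; field_simp
  have h3 : u ^ a ≤ u ^ b := pow_le_pow_of_le_one hu.le hu' hb
  have h4 : 0 < u ^ k := by positivity
  have hp := Real.pi_pos
  have t1 : π / u ^ 100 * s ^ 2 * (u ^ a) ^ 2 ≤ 4 * u ^ k := by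
    calc _ ≤ π / u ^ 100 * (u ^ b) ^ 2 * (u ^ a) ^ 2 := by gcongr
      _ ≤ 4 * u ^ k := by rw [h2]; gcongr; exact Real.pi_le_four
  have t2 : π / u ^ 100 * |s| * (u ^ a) ^ 3 ≤ 4 * u ^ k := by
    calc _ = π / u ^ 100 * (|s| * u ^ a) * (u ^ a) ^ 2 := by ring
      _ ≤ π / u ^ 100 * (u ^ b * u ^ b) * (u ^ a) ^ 2 := by gcongr
      _ ≤ 4 * u ^ k := by rw [← sq, h2]; gcongr; exact Real.pi_le_four
  have t3 : |s| * u ^ a ≤ u ^ k := by
    calc _ ≤ u ^ b * u ^ a := by gcongr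
      _ = u ^ (a + b) := by ring
      _ ≤ u ^ k := pow_le_pow_of_le_one hu.le hu' hk'
  calc _ ≤ (9 * u ^ k) ^ 2 := pow_le_pow_left₀ (by positivity) (by linarith) 2
    _ = 81 * u ^ (2 * k) := by ring

private lemma jump_tail {u e T X' : ℝ} (hu : 0 < u) (hu1 : u ≤ 1 / 10) (he : 10 ^ 7 * u ≤ e)
    (hX : Real.exp T * X' = u ^ 49) :
    n2 (cut X' (kE (π / u ^ 100) 1 (aG T)) - kE (π / u ^ 100) 1 (aG T))
      ≤ ENNReal.ofReal e * n2 (kE (π / u ^ 100) 1 (aG T)) := by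
  rw [tail_scale, n2_scale, hX]
  have := kE_tail (r := π / u ^ 100) (σ := 1) (X := u ^ 49) (s := 0)
    (by linarith [jump_r hu hu1]) zero_le_one le_rfl (by positivity)
    (pow_le_one₀ hu.le (by linarith)) (by simp)
  rw [vG_zero] at this
  exact jump_fin this (jump_low1 hu hu1) (by linarith)
    ((jump_tt hu (k := 53) rfl).trans (jump_gain hu hu1 he (by norm_num) (by norm_num)))

private lemma jump_freq {u e T X' Ξ : ℝ} (hu : 0 < u) (hu1 : u ≤ 1 / 10) (he : 10 ^ 7 * u ≤ e)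
    (hX : Real.exp T * X' = u ^ 49) (h0 : 0 < Ξ) (hΞ : Real.exp T = u ^ 52 * Ξ) :
    ∫⁻ ξ in {ξ | Ξ < |ξ|}, ‖𝓕 (cut X' (kE (π / u ^ 100) 1 (aG T))) ξ‖ₑ ^ 2
      ≤ ENNReal.ofReal e * n2 (kE (π / u ^ 100) 1 (aG T)) := by
  have hn : Nice (cut X' (kE (π / u ^ 100) 1 (aG T))) := by
    refine nice_cut X' (measurable_kE _ _ _)
      (B := ‖Complex.exp ((1 / 2 + ((π / u ^ 100 : ℝ) : ℂ) * Complex.I) * T)‖ * 1) fun y => ?_
    rw [kE_aG, norm_mul]
    gcongr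
    exact norm_kE_one _ zero_le_one _
  have := hn.freq (h := 1 / Ξ) (by positivity)
    (M := ENNReal.ofReal e * n2 (kE (π / u ^ 100) 1 (aG T))) fun x hx => by
      rw [move_scale, n2_scale, hX]
      refine jump_fin (kE_move (jump_r hu hu1) zero_le_one le_rfl (by positivity) _)
        (jump_low1 hu hu1) (by linarith) ?_
      rw [one_pow, one_mul]
      refine (jump_mv hu hu1 (a := 49) (b := 52) (k := 51) rfl (by norm_num) ?_).trans
        (jump_gain hu hu1 he (by norm_num) (by norm_num))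
      rw [abs_mul, abs_of_pos (Real.exp_pos T), hΞ]
      calc u ^ 52 * Ξ * |x| ≤ u ^ 52 * Ξ * (1 / Ξ) := by gcongr
        _ = u ^ 52 := by field_simp
  rwa [one_div_one_div] at this

/-- the modulation estimate for a frequency `ξ` -/
private lemma jump_modu {u σ ξ : ℝ} (hu : 0 < u) (hu1 : u ≤ 1 / 10) (h0 : 0 ≤ σ) (h1 : σ ≤ 1)
    {a b k m : ℕ} (hk : k + 100 = 2 * a + 2 * b) (hb : b ≤ a) (hk' : k ≤ a + b) (ha : 1 ≤ a)
    (hm : m + 3 * a = 200) (hξ : |ξ| * u ^ 100 ≤ u ^ b) :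
    n2 (fun y => kE (π / u ^ 100) σ (vG (-(ξ / (π / u ^ 100 / π)))) y
      - ee (y * ξ) * cut (u ^ a) (kE (π / u ^ 100) σ 1) y)
      ≤ ENNReal.ofReal (64800 * (σ ^ 2 * u ^ (a + 2 * k)) + 100 * u ^ m) := by
  have hu' : u ≤ 1 := by linarith
  have hp := Real.pi_pos
  have hs : |ξ / (π / u ^ 100 / π)| ≤ u ^ b := by
    rw [show ξ / (π / u ^ 100 / π) = ξ * u ^ 100 by field_simp, abs_mul,
      abs_of_pos (a := u ^ 100) (by positivity)]
    exact hξ
  have hsX : |ξ / (π / u ^ 100 / π)| * u ^ a ≤ 1 / 10 := by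
    have h2 : u ^ a ≤ u ^ 1 := pow_le_pow_of_le_one hu.le hu' ha
    calc _ ≤ 1 * u ^ 1 := by gcongr; exact hs.trans (pow_le_one₀ hu.le hu')
      _ ≤ 1 / 10 := by linarith [pow_one u]
  have := kE_modu (r := π / u ^ 100) (X := u ^ a) (s := ξ / (π / u ^ 100 / π)) (by positivity)
    h0 h1 (by positivity) (pow_le_one₀ hu.le hu') hsX
  rw [div_mul_cancel₀ ξ (by positivity)] at this
  refine this.trans (ENNReal.ofReal_le_ofReal (add_le_add ?_ (jump_tt hu hm)))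
  calc _ ≤ 800 * σ ^ 2 * u ^ a * (81 * u ^ (2 * k)) := by
        gcongr; exact jump_ph hu hu1 hk hb hk' hs
    _ = _ := by ring

private lemma jump_exp (h : ℝ) (k : ℕ) : Real.exp (-h) ^ k = Real.exp (-k * h) := by
  rw [← Real.exp_nat_mul]; congr 1; ring

/-- the small parameter -/
private lemma jump_small {e : ℝ} (he : 0 < e) : ∃ h₀ : ℝ, ∀ h ≥ h₀,
    0 ≤ h ∧ Real.exp (-h) ≤ 1 / 10 ∧ 10 ^ 7 * Real.exp (-h) ≤ e := by
  refine ⟨max 10 (10 ^ 7 / e), fun h hh => ?_⟩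
  have h1 : 10 ≤ h := (le_max_left _ _).trans hh
  have h2 : 10 ^ 7 / e ≤ h := (le_max_right _ _).trans hh
  have h3 : h ≤ Real.exp h := by linarith [Real.add_one_le_exp h]
  have h4 := Real.exp_pos h
  rw [div_le_iff₀ he] at h2
  refine ⟨by linarith, ?_, ?_⟩
  · rw [Real.exp_neg, ← one_div]; gcongr; linarith
  · rw [Real.exp_neg, ← div_eq_mul_inv, div_le_iff₀ h4]; nlinarith

private lemma jump_eqs (h T : ℝ) : π * Real.exp (100 * h) = π / Real.exp (-h) ^ 100 ∧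
    Real.exp T * Real.exp (-49 * h - T) = Real.exp (-h) ^ 49 ∧
    Real.exp T = Real.exp (-h) ^ 52 * Real.exp (52 * h + T) := by
  simp only [jump_exp]
  refine ⟨?_, ?_, ?_⟩
  · rw [div_eq_mul_inv, ← Real.exp_neg]; congr 2; push_cast; ring
  · rw [← Real.exp_add]; congr 1; push_cast; ring
  · rw [← Real.exp_add]; congr 1; push_cast; ring

private lemma jump_x {h T x : ℝ} {b : ℕ} (hT : -49 * h - T ≤ -b * h)
    (hx : |x| ≤ Real.exp (-49 * h - T)) : |x| ≤ Real.exp (-h) ^ b := by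
  rw [jump_exp]; exact hx.trans (Real.exp_le_exp.2 hT)

private lemma jump_xi {h T ξ : ℝ} {b : ℕ} (hT : T - 48 * h ≤ -b * h)
    (hx : |ξ| ≤ Real.exp (52 * h + T)) : |ξ| * Real.exp (-h) ^ 100 ≤ Real.exp (-h) ^ b := by
  calc _ ≤ Real.exp (52 * h + T) * Real.exp (-h) ^ 100 := by gcongr
    _ ≤ _ := by
      rw [jump_exp, jump_exp, ← Real.exp_add]
      exact Real.exp_le_exp.2 (by push_cast; linarith)

theorem jump_main {θ : ℝ} (hθ : 0 < θ) : ∃ h₀ : ℝ, ∀ h ≥ h₀, ∀ T, 4 * h ≤ T → T ≤ 46 * h →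
    Jump (π * Real.exp (100 * h)) 1 T (Real.exp (-49 * h)) (Real.exp (-49 * h - T))
      (Real.exp (52 * h + T)) (θ ^ 2) := by
  obtain ⟨h₀, H⟩ := jump_small (e := θ ^ 2) (by positivity)
  refine ⟨h₀, fun h hh T hT1 hT2 => ?_⟩
  obtain ⟨-, hu1, he⟩ := H h hh
  obtain ⟨e1, e2, e3⟩ := jump_eqs h T
  have e4 : Real.exp (-49 * h) = Real.exp (-h) ^ 49 := by rw [jump_exp]; norm_num
  have hx := fun x => @jump_x h T x 53 (by push_cast; linarith)
  have hξ := fun ξ => @jump_xi h T ξ 2 (by push_cast; linarith)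
  have hu := Real.exp_pos (-h)
  rw [e1, e4]
  generalize Real.exp (-h) = u at *
  have hl := jump_low1 hu hu1
  have h0 := jump_ne (by positivity) hl
  refine ⟨one_pos, le_rfl, h0, h0, jump_tail hu hu1 he e2, fun x h1 => ?_,
    jump_freq hu hu1 he e2 (Real.exp_pos _) e3, fun ξ h1 => ?_⟩
  · refine jump_fin (kE_move (jump_r hu hu1) zero_le_one le_rfl (by positivity) _) hl
      (by positivity) ?_
    rw [one_pow, one_mul]
    exact (jump_mv hu hu1 (a := 49) (b := 53) (k := 53) rfl le_rfl (hx x h1)).trans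
      (jump_gain hu hu1 he (by norm_num) (by norm_num))
  · refine jump_fin (jump_modu hu hu1 zero_le_one le_rfl (a := 49) (b := 2) (k := 2) (m := 53) rfl
      (by norm_num) (by norm_num) (by norm_num) rfl (hξ ξ h1)) hl (by positivity) ?_
    refine le_trans (le_of_eq (by ring))
      (jump_gain (c := 64900) (k := 53) hu hu1 he (by norm_num) (by norm_num))

theorem jump_link {θ : ℝ} (hθ : 0 < θ) : ∃ h₀ : ℝ, ∀ h ≥ h₀, ∀ T, 22 * h ≤ T → T ≤ 23 * h →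
    Jump (π * Real.exp (100 * h)) (Real.exp (-36 * h)) T (Real.exp (-31 * h))
      (Real.exp (-49 * h - T)) (Real.exp (52 * h + T)) (θ ^ 2) := by
  obtain ⟨h₀, H⟩ := jump_small (e := θ ^ 2) (by positivity)
  refine ⟨h₀, fun h hh T hT1 hT2 => ?_⟩
  obtain ⟨-, hu1, he⟩ := H h hh
  obtain ⟨e1, e2, e3⟩ := jump_eqs h T
  have e4 : Real.exp (-31 * h) = Real.exp (-h) ^ 31 := by rw [jump_exp]; norm_num
  have e5 : Real.exp (-36 * h) = Real.exp (-h) ^ 36 := by rw [jump_exp]; norm_num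
  have hx := fun x => @jump_x h T x 71 (by push_cast; linarith)
  have hξ := fun ξ => @jump_xi h T ξ 25 (by push_cast; linarith)
  have hu := Real.exp_pos (-h)
  rw [e1, e4, e5]
  generalize Real.exp (-h) = u at *
  have hu' : u ≤ 1 := by linarith
  have hσ : u ^ 36 ≤ 1 := pow_le_one₀ hu.le hu'
  have hl := jump_low2 hu hu1
  refine ⟨by positivity, hσ, jump_ne (by positivity) hl,
    jump_ne (by positivity) (jump_low1 hu hu1), jump_tail hu hu1 he e2, fun x h1 => ?_,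
    jump_freq hu hu1 he e2 (Real.exp_pos _) e3, fun ξ h1 => ?_⟩
  · refine jump_fin (kE_move (jump_r hu hu1) (by positivity) hσ (by positivity) _) hl
      (by positivity) ?_
    have := jump_mv hu hu1 (a := 31) (b := 71) (k := 35) rfl (by norm_num) (hx x h1)
    calc _ ≤ (u ^ 36) ^ 2 * (1154 * u ^ 35) := by gcongr
      _ = 1154 * u ^ 107 := by ring
      _ ≤ _ := jump_gain hu hu1 he (by norm_num) (by norm_num)
  · refine jump_fin (jump_modu hu hu1 (by positivity) hσ (a := 31) (b := 25) (k := 12) (m := 107)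
      rfl (by norm_num) (by norm_num) (by norm_num) rfl (hξ ξ h1)) hl (by positivity) ?_
    have h2 : u ^ 127 ≤ u ^ 107 := pow_le_pow_of_le_one hu.le hu' (by norm_num)
    calc _ = 64800 * u ^ 127 + 100 * u ^ 107 := by ring
      _ ≤ 64900 * u ^ 107 := by linarith
      _ ≤ _ := jump_gain hu hu1 he (by norm_num) (by norm_num)

end Pool.Agent.Lib.MP_a52643_an.NS
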