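import Pool.Agent.Lib.MP_a52643_an.NS.Iso2
import Pool.Agent.Lib.MP_a52643_an.NS.State1

/-!
The short state sees the mass of the eigenfunction.
-/

open MeasureTheory Set Filter Topology Metric UpperHalfPlane
open scoped ENNReal MatrixGroups Real FourierTransform ComplexConjugate

noncomputable section

namespace Pool.Agent.Lib.MP_a52643_an.NS

variable {Λ L : Set SL2} {ν : Measure SL2} {φ : ℍ → ℝ} {r : ℝ}

private def linkZ (v : ℝ) : ℍ := bp (aG (Real.log v / 2))

private lemma link_meas {X : Type} [MeasurableSpace X] {a : ℍ → ℝ} (ca : Continuous a)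
    {f : X → SL2} {u : X → ℝ} (hf : Measurable f) (hu : Measurable u) :
    Measurable fun q => a (f q • linkZ (u q)) := by
  simp only [linkZ, ← bp_mul]
  exact ca.measurable.comp (by fun_prop)

private lemma link_meas1 {a : ℍ → ℝ} (ca : Continuous a) (v : ℝ) :
    Measurable fun g : SL2 => a (g • linkZ v) :=
  link_meas ca (f := fun g => g) (u := fun _ => v) measurable_id measurable_const

private lemma link_int (R : Rep Λ ν φ r) {F : SL2 → ℝ} (mF : Measurable F) (B : ℝ)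
    (hB : ∀ g, |F g| ≤ B) : Integrable F ν :=
  have := R.fin
  Integrable.of_bound mF.aestronglyMeasurable B (.of_forall hB)

private lemma link_bd {a b c A B : ℝ} (ha : |a| ≤ A) (hb : |b| ≤ B) (hc : |c| ≤ B) :
    |a * (b * c)| ≤ A * (B * B) := by
  have := (abs_nonneg _).trans ha
  have := (abs_nonneg _).trans hb
  rw [abs_mul, abs_mul]; gcongr

private lemma link_fub (R : Rep Λ ν φ r) {c : SL2 → ℝ} (mc : Measurable c) {A σ δ : ℝ}
    (bc : ∀ g, |c g| ≤ A) (h0 : 0 ≤ σ)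
    (hδ : ∀ v ∈ Ioc 1 (1 + σ), ∀ v' ∈ Ioc 1 (1 + σ),
      |∫ g, c g * (φ (g • linkZ v) * φ (g • linkZ v')) ∂ν| ≤ δ) :
    |∫ g, c g * ‖kF φ r σ g‖ ^ 2 ∂ν| ≤ δ * σ ^ 2 := by
  have := R.fin
  obtain ⟨B, hB⟩ := R.bdd
  set m : Measure ℝ := volume.restrict (Ioc 1 (1 + σ)) with hm
  have hae : ∀ᵐ p ∂m.prod m, p.1 ∈ Ioc 1 (1 + σ) ∧ p.2 ∈ Ioc 1 (1 + σ) :=
    (Measure.quasiMeasurePreserving_fst.ae (ae_restrict_mem measurableSet_Ioc)).and
      (Measure.quasiMeasurePreserving_snd.ae (ae_restrict_mem measurableSet_Ioc))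
  have hw : ∀ p : ℝ × ℝ, p.1 ∈ Ioc 1 (1 + σ) ∧ p.2 ∈ Ioc 1 (1 + σ) →
      ‖wt r p.1 * conj (wt r p.2)‖ ≤ 1 := fun p hp => by
    rw [norm_mul, Complex.norm_conj]
    exact mul_le_one₀ (norm_wt_le r hp.1.1.le) (norm_nonneg _) (norm_wt_le r hp.2.1.le)
  have e1 : ∀ g, ((c g * ‖kF φ r σ g‖ ^ 2 : ℝ) : ℂ) = ∫ p, wt r p.1 * conj (wt r p.2) *
      ((c g * (φ (g • linkZ p.1) * φ (g • linkZ p.2)) : ℝ) : ℂ) ∂m.prod m := fun g => by
    have h1 : kF φ r σ g = ∫ v, wt r v * φ (g • linkZ v) ∂m := by simp only [kF, bp_mul, linkZ, hm]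
    push_cast
    rw [← Complex.mul_conj', h1, ← integral_conj, ← integral_prod_mul, ← integral_const_mul]
    refine integral_congr_ae (.of_forall fun p => ?_)
    simp only [map_mul, Complex.conj_ofReal]; ring
  have mw := measurable_wt r
  have hI : Integrable (Function.uncurry fun (g : SL2) (p : ℝ × ℝ) => wt r p.1 * conj (wt r p.2) *
      ((c g * (φ (g • linkZ p.1) * φ (g • linkZ p.2)) : ℝ) : ℂ)) (ν.prod (m.prod m)) := by
    refine Integrable.of_bound (Measurable.aestronglyMeasurable ?_) (A * (B * B))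
      ((Measure.quasiMeasurePreserving_snd.ae hae).mono fun q hq => ?_)
    · have k1 := link_meas R.cont (X := SL2 × ℝ × ℝ) measurable_fst measurable_snd.fst
      have k2 := link_meas R.cont (X := SL2 × ℝ × ℝ) measurable_fst measurable_snd.snd
      exact ((mw.comp measurable_snd.fst).fun_mul
        (Complex.continuous_conj.measurable.comp (mw.comp measurable_snd.snd))).fun_mul
        (Complex.measurable_ofReal.comp ((mc.comp measurable_fst).fun_mul (k1.fun_mul k2)))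
    · simp only [Function.uncurry]
      rw [norm_mul, Complex.norm_real, Real.norm_eq_abs]
      exact (mul_le_of_le_one_left (abs_nonneg _) (hw _ hq)).trans (link_bd (bc _) (hB _) (hB _))
  rw [← Real.norm_eq_abs, ← Complex.norm_real, ← integral_complex_ofReal, funext e1,
    integral_integral_swap hI]
  refine (norm_integral_le_of_norm_le_const (C := δ) (hae.mono fun p hp => ?_)).trans (le_of_eq ?_)
  · rw [integral_const_mul, integral_complex_ofReal, norm_mul, Complex.norm_real, Real.norm_eq_abs]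
    exact (mul_le_of_le_one_left (abs_nonneg _) (hw _ hp)).trans (hδ _ hp.1 _ hp.2)
  · rw [Measure.real, ← univ_prod_univ, Measure.prod_prod, hm]
    simp [h0, sq]

private lemma link_sq (R : Rep Λ ν φ r) (v : ℝ) : ∫ g, φ (g • linkZ v) ^ 2 ∂ν = 1 := by
  obtain ⟨B, hB⟩ := R.bdd
  rw [← R.one, ← R.toQuo.integral_right (F := fun g => φ (bp g) ^ 2)
    ((R.cont.measurable.comp measurable_bp).pow_const 2) (B := B ^ 2)
    (fun g => by rw [abs_pow]; exact pow_le_pow_left₀ (abs_nonneg _) (hB _) 2)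
    (fun γ hγ g => by rw [bp_mul, R.inv γ hγ]) (aG (Real.log v / 2))]
  simp only [bp_mul, linkZ]

private lemma link_dist {σ v : ℝ} (hv : v ∈ Ioc 1 (1 + σ)) (g : SL2) :
    dist (bp g) (g • linkZ v) ≤ σ / 2 := by
  have h1 := Real.log_nonneg hv.1.le
  have h2 := Real.log_le_sub_one_of_pos (one_pos.trans hv.1)
  rw [bp, dist_smul, linkZ, bp_aG, ← pt_zero, dist_pt_eq, abs_of_nonneg (by linarith)]
  linarith [hv.2]

private lemma link_pair (R : Rep Λ ν φ r) {a : ℍ → ℝ} (ca : Continuous a) (ba : ∀ z, |a z| ≤ 1)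
    (ia : ∀ γ ∈ Λ, ∀ z : ℍ, a (γ • z) = a z) {δ : ℝ} (v v' : ℝ)
    (hδ : ∀ g, |a (bp g) - a (g • linkZ v')| ≤ δ) :
    |∫ g, (a (bp g) - ∫ g, a (bp g) * φ (bp g) ^ 2 ∂ν) * (φ (g • linkZ v) * φ (g • linkZ v')) ∂ν|
      ≤ δ := by
  obtain ⟨B, hB⟩ := R.bdd
  have h1 := R.gram ca.measurable ba ia (linkZ v) (linkZ v')
  have h2 := R.gram (a := fun _ => 1) measurable_const (by simp) (by simp) (linkZ v) (linkZ v')
  simp only [one_mul, R.one, Complex.ofReal_one, mul_one] at h2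
  set M := ∫ g, a (bp g) * φ (bp g) ^ 2 ∂ν
  rw [← h2, mul_right_comm, mul_left_inj' (by exact_mod_cast Real.pi_ne_zero)] at h1
  have h3 : ∫ g, a (g • linkZ v') * (φ (g • linkZ v) * φ (g • linkZ v')) ∂ν
      = M * ∫ g, φ (g • linkZ v) * φ (g • linkZ v') ∂ν := by
    simp only [← mul_assoc]
    rw [mul_comm]; exact_mod_cast h1
  have mp := (link_meas1 R.cont v).fun_mul (link_meas1 R.cont v')
  have ma := link_meas1 ca v'
  have mb : Measurable fun g : SL2 => a (bp g) := ca.measurable.comp measurable_bp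
  have i1 := link_int R (ma.fun_mul mp) _ fun g => link_bd (ba _) (hB _) (hB _)
  have i2 := link_int R (mb.fun_mul mp) _ fun g => link_bd (ba _) (hB _) (hB _)
  have i3 := link_int R (mp.const_mul M) _ fun g => link_bd le_rfl (hB _) (hB _)
  have isq : ∀ u, Integrable (fun g : SL2 => φ (g • linkZ u) ^ 2) ν := fun u =>
    link_int R ((link_meas1 R.cont u).pow_const 2) (B ^ 2) fun g => by
      rw [abs_pow]; exact pow_le_pow_left₀ (abs_nonneg _) (hB _) 2
  have h4 : ∫ g, (a (bp g) - M) * (φ (g • linkZ v) * φ (g • linkZ v')) ∂ν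
      = ∫ g, (a (bp g) - a (g • linkZ v')) * (φ (g • linkZ v) * φ (g • linkZ v')) ∂ν := by
    simp only [sub_mul]
    rw [integral_sub i2 i3, integral_sub i2 i1, h3, integral_const_mul]
  rw [h4, ← Real.norm_eq_abs]
  refine (norm_integral_le_of_norm_le (((isq v).add (isq v')).const_mul (δ / 2))
    (.of_forall fun g => ?_)).trans (le_of_eq ?_)
  · have h5 := hδ g
    have h6 : |φ (g • linkZ v) * φ (g • linkZ v')|
        ≤ (φ (g • linkZ v) ^ 2 + φ (g • linkZ v') ^ 2) / 2 :=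
      abs_le.2 ⟨by nlinarith [sq_nonneg (φ (g • linkZ v) + φ (g • linkZ v'))],
        by nlinarith [sq_nonneg (φ (g • linkZ v) - φ (g • linkZ v'))]⟩
    rw [Real.norm_eq_abs, abs_mul, Pi.add_apply]
    exact (mul_le_mul h5 h6 (abs_nonneg _) ((abs_nonneg _).trans h5)).trans (le_of_eq (by ring))
  · simp only [Pi.add_apply]
    rw [integral_const_mul, integral_add (isq v) (isq v'), link_sq R, link_sq R]; ring

private lemma link_inf (G : Geo Λ L) {γ : SL2} (hγ : γ ∈ Λ) (ε : ℝ) (z : ℍ) :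
    infDist (γ • z) (tube L ε) = infDist z (tube L ε) := by
  have e : tube L ε = (fun w : ℍ => γ • w) '' tube L ε := by
    ext w
    refine ⟨fun hw => ⟨γ⁻¹ • w, ?_, by simp⟩, ?_⟩
    · rwa [← G.tube_iff hγ, smul_inv_smul]
    · rintro ⟨u, hu, rfl⟩; exact (G.tube_iff hγ ε u).2 hu
  conv_lhs => rw [e]
  exact infDist_image (isometry_smul ℍ γ)

theorem Rep.link {Λ L : Set SL2} {ν : Measure SL2} {φ : ℍ → ℝ} {r : ℝ} (R : Rep Λ ν φ r)
    (G : Geo Λ L) {σ ε : ℝ} (h0 : 0 < σ) (h1 : σ ≤ 1) (hr : 1 ≤ r * σ) (hε : 0 < ε) :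
    ∫ g in {g | bp g ∈ tube L ε}, φ (bp g) ^ 2 ∂ν
      ≤ (Pm ν φ r σ).real {g | bp g ∈ tube L (2 * ε)} + 30 * σ * √(r * σ) / ε := by
  rcases (tube L ε).eq_empty_or_nonempty with he | hne
  · simp only [he, mem_empty_iff_false, ofPred_false, Measure.restrict_empty, integral_zero_measure]
    positivity
  obtain ⟨B, hB⟩ := R.bdd
  obtain ⟨K, hK⟩ := R.kF_bdd σ
  set a : ℍ → ℝ := fun z => max 0 (1 - infDist z (tube L ε) / ε) with ha
  have ca : Continuous a :=
    continuous_const.max (continuous_const.sub ((continuous_infDist_pt _).div_const ε))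
  have a0 : ∀ z, 0 ≤ a z := fun z => le_max_left _ _
  have a1 : ∀ z, a z ≤ 1 := fun z =>
    max_le zero_le_one (sub_le_self _ (div_nonneg infDist_nonneg hε.le))
  have ba : ∀ z, |a z| ≤ 1 := fun z => by rw [abs_of_nonneg (a0 z)]; exact a1 z
  have la : ∀ z z', |a z - a z'| ≤ dist z z' / ε := fun z z' => by
    have h := (lipschitz_infDist_pt (tube L ε)).dist_le_mul z z'
    rw [NNReal.coe_one, one_mul, Real.dist_eq] at h
    simp only [ha, max_comm (0 : ℝ)]
    refine (abs_max_sub_max_le_abs _ _ _).trans ?_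
    rw [sub_sub_sub_cancel_left, ← sub_div, abs_div, abs_of_pos hε, abs_sub_comm]
    gcongr
  have az : ∀ z, z ∉ tube L (2 * ε) → a z = 0 := fun z hz => by
    refine max_eq_left (sub_nonpos.2 ((one_le_div hε).2 (le_of_not_gt fun h => hz ?_)))
    obtain ⟨w, ⟨H, hH, hw⟩, hd⟩ := (infDist_lt_iff hne).1 h
    exact ⟨H, hH, two_mul ε ▸ hw.move (by rw [dist_smul]; exact hd.le)⟩
  have mb : Measurable fun g : SL2 => a (bp g) := ca.measurable.comp measurable_bp
  have mq : Measurable fun g : SL2 => φ (bp g) ^ 2 :=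
    (R.cont.measurable.comp measurable_bp).pow_const 2
  have bq : ∀ g : SL2, |φ (bp g) ^ 2| ≤ B ^ 2 := fun g => by
    rw [abs_pow]; exact pow_le_pow_left₀ (abs_nonneg _) (hB _) 2
  have mk : Measurable fun g => ‖kF φ r σ g‖ ^ 2 := (R.measurable_kF σ).norm.pow_const 2
  have bk : ∀ g, |‖kF φ r σ g‖ ^ 2| ≤ K ^ 2 := fun g => by
    rw [abs_pow, abs_norm]; exact pow_le_pow_left₀ (norm_nonneg _) (hK _) 2
  have bm : ∀ {x y C : ℝ}, |x| ≤ 1 → |y| ≤ C → |x * y| ≤ C := fun hx hy => by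
    rw [abs_mul]; exact (mul_le_of_le_one_left (abs_nonneg _) hx).trans hy
  have ik := link_int R mk _ bk
  have iak := link_int R (mb.fun_mul mk) _ fun g => bm (ba _) (bk g)
  have mt : ∀ t, MeasurableSet {g | bp g ∈ tube L t} := fun t =>
    measurable_bp (isOpen_tube L t).measurableSet
  set M := ∫ g, a (bp g) * φ (bp g) ^ 2 ∂ν with hM
  have s1 : ∫ g in {g | bp g ∈ tube L ε}, φ (bp g) ^ 2 ∂ν ≤ M := by
    rw [← integral_indicator (mt ε)]
    refine integral_mono ((link_int R mq _ bq).indicator (mt ε))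
      (link_int R (mb.fun_mul mq) _ fun g => bm (ba _) (bq g)) fun g => ?_
    by_cases hg : g ∈ {g | bp g ∈ tube L ε}
    · simp [indicator_of_mem hg, ha, infDist_zero_of_mem (show bp g ∈ tube L ε from hg)]
    · rw [indicator_of_notMem hg]; exact mul_nonneg (a0 _) (sq_nonneg _)
  have s2 := link_fub R (c := fun g => a (bp g) - M) (mb.sub_const M) (A := 1 + |M|)
    (δ := σ / 2 / ε) (fun g => (abs_sub _ _).trans (by linarith [ba (bp g)])) h0.le
    fun v _ v' hv' => link_pair R ca ba (fun γ hγ z => by simp only [ha, link_inf G hγ]) v v'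
      fun g => (la _ _).trans (by gcongr; exact link_dist hv' g)
  simp only [sub_mul] at s2
  rw [integral_sub iak (ik.const_mul M), integral_const_mul] at s2
  have conv : ∀ μ : Measure SL2, ∫ g, ‖kF φ r σ g‖ ^ 2 ∂μ = (∫⁻ g, ‖kF φ r σ g‖ₑ ^ 2 ∂μ).toReal :=
    fun μ => by
      rw [integral_eq_lintegral_of_nonneg_ae (.of_forall fun g => sq_nonneg _)
        mk.aestronglyMeasurable]
      simp only [ENNReal.ofReal_pow (norm_nonneg _), ofReal_norm]
  have hs : 0 < √(r * σ) := Real.sqrt_pos.2 (by linarith)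
  have low := kE_low h0 h1 hr
  have hn : n2 (kE r σ 1) ≠ 0 :=
    ((ENNReal.ofReal_pos.2 (by positivity)).trans_le low).ne'
  have s3 : ∫ g, a (bp g) * ‖kF φ r σ g‖ ^ 2 ∂ν
      ≤ (Zm ν φ r σ).toReal * (Pm ν φ r σ).real {g | bp g ∈ tube L (2 * ε)} := by
    rw [Measure.real, ← ENNReal.toReal_mul, ← R.Pm_apply hn (mt _), ← conv,
      ← integral_indicator (mt _)]
    refine integral_mono iak (ik.indicator (mt _)) fun g => ?_
    by_cases hg : g ∈ {g | bp g ∈ tube L (2 * ε)}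
    · rw [indicator_of_mem hg]; exact mul_le_of_le_one_left (sq_nonneg _) (a1 _)
    · simp [indicator_of_notMem hg, az _ hg]
  have s4 : π⁻¹ * (σ ^ 2 / (8 * √(r * σ))) ≤ (Zm ν φ r σ).toReal := by
    rw [← ENNReal.ofReal_le_iff_le_toReal (R.Zm_ne_top σ), R.Zm_eq σ 1,
      ENNReal.ofReal_mul (by positivity)]
    gcongr
  rw [conv, ← Zm] at s2
  set Z := (Zm ν φ r σ).toReal
  have hZ : 0 < Z := lt_of_lt_of_le (by positivity) s4
  have s5 : σ ^ 2 ≤ 32 * √(r * σ) * Z := by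
    rw [inv_mul_le_iff₀ Real.pi_pos, div_le_iff₀ (by positivity)] at s4
    nlinarith [Real.pi_le_four, mul_pos hZ hs]
  have s6 : σ / 2 / ε * σ ^ 2 ≤ Z * (30 * σ * √(r * σ) / ε) := by
    refine (mul_le_mul_of_nonneg_left s5 (by positivity)).trans ?_
    rw [show σ / 2 / ε * (32 * √(r * σ) * Z) = Z * (16 * σ * √(r * σ) / ε) by ring]
    gcongr; norm_num
  refine s1.trans (le_of_mul_le_mul_left ?_ hZ)
  linarith [(abs_le.1 s2).1]

end Pool.Agent.Lib.MP_a52643_an.NS
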