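import Pool.Agent.Lib.MP_a52643_an.NS.Fou

/-!
The key identity in the model.
-/

open MeasureTheory Set Filter Topology Metric UpperHalfPlane
open scoped ENNReal MatrixGroups Real FourierTransform ComplexConjugate

noncomputable section

namespace Pool.Agent.Lib.MP_a52643_an.NS

private lemma ki_meas {F : ℝ → ℝ → ℂ} (hF : Measurable (Function.uncurry F)) :
    Measurable fun q : ℝ × ℝ => ‖𝓕 (F q.2) q.1‖ₑ ^ 2 := by
  have h0 : Measurable fun r : (ℝ × ℝ) × ℝ => F r.1.2 r.2 :=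
    hF.comp ((measurable_snd.comp measurable_fst).prodMk measurable_snd)
  have h1 : Measurable fun r : (ℝ × ℝ) × ℝ => ee (r.2 * r.1.1) :=
    (continuous_ee.comp (by fun_prop)).measurable
  have h2 : StronglyMeasurable fun q : ℝ × ℝ => ∫ x, ee (x * q.1) * F q.2 x :=
    StronglyMeasurable.integral_prod_right' (f := fun r : (ℝ × ℝ) × ℝ =>
      ee (r.2 * r.1.1) * F r.1.2 r.2) (h1.mul h0).stronglyMeasurable
  simp only [ft_eq]
  exact h2.measurable.enorm.pow_const 2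

private lemma ki_meas1 {F : ℝ → ℝ → ℂ} (hF : Measurable (Function.uncurry F)) (ξ : ℝ) :
    Measurable fun y => ‖𝓕 (F y) ξ‖ₑ ^ 2 :=
  Measurable.of_uncurry_left (f := fun ξ y => ‖𝓕 (F y) ξ‖ₑ ^ 2) (ki_meas hF)

private lemma ki_swap {F : ℝ → ℝ → ℂ} (hF : Measurable (Function.uncurry F))
    (hN : ∀ y, Nice (F y)) :
    ∫⁻ ξ, ∫⁻ y, ‖𝓕 (F y) ξ‖ₑ ^ 2 = ∫⁻ x, ∫⁻ y, ‖F y x‖ₑ ^ 2 := by
  rw [lintegral_lintegral_swap (f := fun ξ y => ‖𝓕 (F y) ξ‖ₑ ^ 2) (ki_meas hF).aemeasurable]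
  have h : ∀ y, ∫⁻ ξ, ‖𝓕 (F y) ξ‖ₑ ^ 2 = ∫⁻ x, ‖F y x‖ₑ ^ 2 := fun y => (hN y).plancherel
  simp only [h]
  exact lintegral_lintegral_swap (f := fun y x => ‖F y x‖ₑ ^ 2)
    (hF.enorm.pow_const 2).aemeasurable

private lemma ki_split {ψ κ κ' : ℝ → ℂ} (hκ' : Nice κ') {y : ℝ} (ξ : ℝ) (q : ℂ)
    (n1 : Nice fun x => ψ x * (κ (y - x) - κ' (y - x)))
    (n3 : Nice fun x => ψ x * κ' (y - x))
    (n4 : Nice fun x => κ' x * (ψ (y - x) - ψ y)) :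
    (∫ x, ee (x * ξ) * ψ x * κ (y - x)) - 𝓕 κ' (-ξ) * q
      = 𝓕 (fun x => ψ x * (κ (y - x) - κ' (y - x))) ξ
        + ee (y * ξ) * 𝓕 (fun x => κ' x * (ψ (y - x) - ψ y)) (-ξ)
        + 𝓕 κ' (-ξ) * (ee (y * ξ) * ψ y - q) := by
  have hi : ∀ {f : ℝ → ℂ}, Nice f → ∀ η : ℝ, Integrable fun x => ee (x * η) * f x := by
    intro f hf η
    have := (hf.mul_right (g := fun x => ee (x * η))
      (continuous_ee.comp (by fun_prop)).measurable (B := 1) (fun x => by simp)).integrable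
    simpa only [mul_comm] using this
  have e1 : (∫ x, ee (x * ξ) * ψ x * κ (y - x))
      = 𝓕 (fun x => ψ x * (κ (y - x) - κ' (y - x))) ξ
        + ∫ x, ee (x * ξ) * (ψ x * κ' (y - x)) := by
    rw [ft_eq, ← integral_add (hi n1 ξ) (hi n3 ξ)]
    congr 1; funext x; ring
  have e2 : (∫ x, ee (x * ξ) * (ψ x * κ' (y - x)))
      = ∫ x, ee ((y - x) * ξ) * (ψ (y - x) * κ' x) := by
    rw [← integral_sub_left_eq_self (fun x => ee (x * ξ) * (ψ x * κ' (y - x))) volume y]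
    simp only [sub_sub_cancel]
  have e3 : (∫ x, ee ((y - x) * ξ) * (ψ (y - x) * κ' x))
      = ee (y * ξ) * 𝓕 (fun x => κ' x * (ψ (y - x) - ψ y)) (-ξ)
        + 𝓕 κ' (-ξ) * (ee (y * ξ) * ψ y) := by
    rw [ft_eq, ft_eq, ← integral_const_mul, ← integral_mul_const,
      ← integral_add ((hi n4 (-ξ)).const_mul _) ((hi hκ' (-ξ)).mul_const _)]
    congr 1; funext x
    have : ee ((y - x) * ξ) = ee (y * ξ) * ee (x * -ξ) := by
      rw [← ee_add]; congr 1; ring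
    rw [this]; ring
  rw [e1, e2, e3]; ring

theorem ki {ψ κ κ' : ℝ → ℂ} {p : ℝ → ℝ → ℂ} (hψ : Nice ψ) (hκ' : Nice κ') (mκ : Measurable κ)
    {B : ℝ} (bκ : ∀ y, ‖κ y‖ ≤ B) {X Ξ : ℝ} {M₁ M₂ M₃ : ℝ≥0∞} (hs : ∀ x, X < |x| → κ' x = 0)
    (h1 : n2 (κ' - κ) ≤ M₁) (h2 : ∀ x, |x| ≤ X → n2 (fun y => ψ (y - x) - ψ y) ≤ M₂)
    (h3 : ∀ ξ, |ξ| ≤ Ξ → n2 (fun y => p ξ y - ee (y * ξ) * ψ y) ≤ M₃) :
    ∫⁻ ξ in Icc (-Ξ) Ξ, n2 (fun y => (∫ x, ee (x * ξ) * ψ x * κ (y - x)) - 𝓕 κ' (-ξ) * p ξ y)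
      ≤ 3 * (n2 ψ * M₁ + n2 κ' * M₂ + n2 κ' * M₃) := by
  obtain ⟨B', hB'⟩ := hκ'.bdd
  obtain ⟨Bψ, hBψ⟩ := hψ.bdd
  have mψ := hψ.meas
  have mκ' := hκ'.meas
  set F₁ : ℝ → ℝ → ℂ := fun y x => ψ x * (κ (y - x) - κ' (y - x)) with hF₁
  set F₂ : ℝ → ℝ → ℂ := fun y x => κ' x * (ψ (y - x) - ψ y) with hF₂
  have m1 : Measurable (Function.uncurry F₁) :=
    (mψ.comp measurable_snd).mul ((mκ.comp (measurable_fst.sub measurable_snd)).sub
      (mκ'.comp (measurable_fst.sub measurable_snd)))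
  have m2 : Measurable (Function.uncurry F₂) :=
    (mκ'.comp measurable_snd).mul ((mψ.comp (measurable_fst.sub measurable_snd)).sub
      (mψ.comp measurable_fst))
  have n1 : ∀ y, Nice (F₁ y) := fun y =>
    hψ.mul_right (g := fun x => κ (y - x) - κ' (y - x))
      ((mκ.comp (measurable_const.sub measurable_id)).sub
        (mκ'.comp (measurable_const.sub measurable_id))) (B := B + B')
      fun x => (norm_sub_le _ _).trans (add_le_add (bκ _) (hB' _))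
  have n3 : ∀ y, Nice fun x => ψ x * κ' (y - x) := fun y =>
    hψ.mul_right (g := fun x => κ' (y - x)) (mκ'.comp (measurable_const.sub measurable_id))
      (B := B') fun x => hB' _
  have n4 : ∀ y, Nice (F₂ y) := fun y =>
    hκ'.mul_right (g := fun x => ψ (y - x) - ψ y)
      ((mψ.comp (measurable_const.sub measurable_id)).sub measurable_const) (B := Bψ + Bψ)
      fun x => (norm_sub_le _ _).trans (add_le_add (hBψ _) (hBψ _))
  set a : ℝ → ℝ≥0∞ := fun ξ => ∫⁻ y, ‖𝓕 (F₁ y) ξ‖ₑ ^ 2 with ha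
  set b : ℝ → ℝ≥0∞ := fun ξ => ∫⁻ y, ‖𝓕 (F₂ y) ξ‖ₑ ^ 2 with hb
  set c : ℝ → ℝ≥0∞ := fun ξ => ‖𝓕 κ' ξ‖ₑ ^ 2 with hc
  have ma : Measurable a := (ki_meas m1).lintegral_prod_right'
  have mb : Measurable b := (ki_meas m2).lintegral_prod_right'
  have mc : Measurable c := (continuous_ft hκ'.integrable).measurable.enorm.pow_const 2
  have hee : ∀ t, ‖ee t‖ₑ = 1 := fun t => by rw [← ofReal_norm, norm_ee]; simp
  -- the bound for one frequency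
  have key : ∀ ξ ∈ Icc (-Ξ) Ξ,
      n2 (fun y => (∫ x, ee (x * ξ) * ψ x * κ (y - x)) - 𝓕 κ' (-ξ) * p ξ y)
        ≤ 3 * (a ξ + b (-ξ) + c (-ξ) * M₃) := by
    intro ξ hξ
    have k1 := ki_meas1 m1 ξ
    have k2 := ki_meas1 m2 (-ξ)
    have k3 : c (-ξ) ≠ ⊤ := ENNReal.pow_ne_top enorm_ne_top
    calc n2 (fun y => (∫ x, ee (x * ξ) * ψ x * κ (y - x)) - 𝓕 κ' (-ξ) * p ξ y)
        ≤ ∫⁻ y, 3 * (‖𝓕 (F₁ y) ξ‖ₑ ^ 2 + ‖𝓕 (F₂ y) (-ξ)‖ₑ ^ 2
            + c (-ξ) * ‖p ξ y - ee (y * ξ) * ψ y‖ₑ ^ 2) := by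
          refine lintegral_mono fun y => ?_
          show ‖(∫ x, ee (x * ξ) * ψ x * κ (y - x)) - 𝓕 κ' (-ξ) * p ξ y‖ₑ ^ 2 ≤ _
          rw [ki_split hκ' ξ (p ξ y) (n1 y) (n3 y) (n4 y)]
          refine (enorm_sq_add3 _ _ _).trans (le_of_eq ?_)
          rw [enorm_mul, enorm_mul, hee, one_mul, mul_pow, enorm_sub_rev]
      _ = 3 * (a ξ + b (-ξ) + c (-ξ) * n2 (fun y => p ξ y - ee (y * ξ) * ψ y)) := by
          rw [lintegral_const_mul' _ _ (by norm_num), lintegral_add_left (k1.fun_add k2),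
            lintegral_add_left k1, lintegral_const_mul' _ _ k3]
          rfl
      _ ≤ _ := by
          have := h3 ξ (abs_le.2 hξ)
          gcongr
  have ia : ∫⁻ ξ, a ξ ≤ n2 ψ * M₁ := by
    rw [ha, ki_swap m1 n1]
    have : ∀ x, ∫⁻ y, ‖F₁ y x‖ₑ ^ 2 = ‖ψ x‖ₑ ^ 2 * n2 (κ' - κ) := by
      intro x
      simp only [hF₁, enorm_mul, mul_pow]
      rw [lintegral_const_mul' _ _ (ENNReal.pow_ne_top enorm_ne_top),
        lintegral_sub_right_eq_self (fun y => ‖κ y - κ' y‖ₑ ^ 2) x]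
      simp only [n2, Pi.sub_apply, enorm_sub_rev (κ' _)]
    simp only [this]
    rw [lintegral_mul_const _ (mψ.enorm.pow_const 2)]
    exact mul_le_mul_right h1 _
  have ib : ∫⁻ ξ, b (-ξ) ≤ n2 κ' * M₂ := by
    rw [lintegral_neg_eq_self b, hb, ki_swap m2 n4, n2,
      ← lintegral_mul_const _ (mκ'.enorm.pow_const 2)]
    refine lintegral_mono fun x => ?_
    simp only [hF₂, enorm_mul, mul_pow]
    rw [lintegral_const_mul' _ _ (ENNReal.pow_ne_top enorm_ne_top)]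
    rcases le_or_gt |x| X with hx | hx
    · exact mul_le_mul_right (h2 x hx) _
    · simp [hs x hx]
  have ic : ∫⁻ ξ, c (-ξ) * M₃ = n2 κ' * M₃ := by
    have mc' : Measurable fun ξ => c (-ξ) := mc.comp measurable_neg
    rw [lintegral_mul_const _ mc', lintegral_neg_eq_self c, ← hκ'.plancherel]
    rfl
  calc _ ≤ ∫⁻ ξ in Icc (-Ξ) Ξ, 3 * (a ξ + b (-ξ) + c (-ξ) * M₃) :=
        setLIntegral_mono' measurableSet_Icc key
    _ ≤ ∫⁻ ξ, 3 * (a ξ + b (-ξ) + c (-ξ) * M₃) := setLIntegral_le_lintegral _ _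
    _ = 3 * ((∫⁻ ξ, a ξ) + (∫⁻ ξ, b (-ξ)) + ∫⁻ ξ, c (-ξ) * M₃) := by
        have mb' : Measurable fun ξ => b (-ξ) := mb.comp measurable_neg
        rw [lintegral_const_mul' _ _ (by norm_num), lintegral_add_left (ma.fun_add mb'),
          lintegral_add_left ma]
    _ ≤ _ := by rw [ic]; gcongr

end Pool.Agent.Lib.MP_a52643_an.NS
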