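import Pool.Agent.Lib.MP_a52643_an.NS.Iso2
import Pool.Agent.Lib.MP_a52643_an.NS.KI

/-!
The transfer inequality.
-/

open MeasureTheory Set Filter Topology Metric UpperHalfPlane
open scoped ENNReal MatrixGroups Real FourierTransform ComplexConjugate

noncomputable section

namespace Pool.Agent.Lib.MP_a52643_an.NS

variable {Λ : Set SL2} {ν : Measure SL2} {φ : ℍ → ℝ} {r : ℝ}

lemma master_ind (s : Set ℝ) (f : ℝ → ℂ) : n2 (s.indicator f) ≤ n2 f := by
  refine lintegral_mono fun x => ?_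
  by_cases h : x ∈ s <;> simp [h]

lemma master_ee {f : ℝ → ℂ} (hf : Nice f) (ξ : ℝ) : Nice fun x => ee (x * ξ) * f x := by
  have h := hf.mul_right (g := fun x => ee (x * ξ)) (by fun_prop) (B := 1) fun x => (norm_ee _).le
  simpa only [mul_comm] using h

lemma master_one {κ : ℝ → ℂ} {X : ℝ} (h : Nice (cut X κ)) (Ξ : ℝ) :
    n2 κ ≤ (∫⁻ ξ in Icc (-Ξ) Ξ, ‖𝓕 (cut X κ) (-ξ)‖ₑ ^ 2) +
      ((∫⁻ ξ in {ξ | Ξ < |ξ|}, ‖𝓕 (cut X κ) ξ‖ₑ ^ 2) + n2 (cut X κ - κ)) := by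
  have h1 : n2 κ ≤ n2 (cut X κ) + n2 (cut X κ - κ) := by
    rw [n2, n2, n2, ← lintegral_add_left (h.meas.enorm.pow_const 2)]
    refine lintegral_mono fun x => ?_
    by_cases hx : x ∈ Icc (-X) X <;> simp [cut, hx]
  have h2 : (Icc (-Ξ) Ξ)ᶜ = {ξ | Ξ < |ξ|} := by
    ext ξ
    rw [mem_compl_iff, mem_Icc, ← abs_le, not_le]
    rfl
  have h3 : ∫⁻ ξ in Icc (-Ξ) Ξ, ‖𝓕 (cut X κ) (-ξ)‖ₑ ^ 2
      = ∫⁻ ξ in Icc (-Ξ) Ξ, ‖𝓕 (cut X κ) ξ‖ₑ ^ 2 := by
    rw [← lintegral_indicator measurableSet_Icc, ← lintegral_indicator measurableSet_Icc,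
      ← lintegral_neg_eq_self]
    refine lintegral_congr fun ξ => ?_
    by_cases hx : ξ ∈ Icc (-Ξ) Ξ
    · have hx' : -ξ ∈ Icc (-Ξ) Ξ := ⟨by linarith [hx.2], by linarith [hx.1]⟩
      simp only [indicator_of_mem hx, indicator_of_mem hx', neg_neg]
    · have hx' : -ξ ∉ Icc (-Ξ) Ξ := fun h' => hx ⟨by linarith [h'.2], by linarith [h'.1]⟩
      simp only [indicator_of_notMem hx, indicator_of_notMem hx']
  rw [h3, ← add_assoc, ← h2, lintegral_add_compl _ measurableSet_Icc]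
  exact h1.trans (by rw [← h.plancherel]; rfl)

lemma master_shift (R : Rep Λ ν φ r) (σ : ℝ) {B : Set SL2} (mB : MeasurableSet B) (lB : LI Λ B)
    (h : SL2) : ∫⁻ g, B.indicator (fun g => ‖kF φ r σ g‖ₑ ^ 2) (g * h) ∂ν
      = ∫⁻ g in B, ‖kF φ r σ g‖ₑ ^ 2 ∂ν := by
  rw [R.right _ (((R.measurable_kF σ).enorm.pow_const 2).indicator mB) (fun γ hγ g => ?_) h,
    lintegral_indicator mB]
  by_cases hg : g ∈ B
  · rw [indicator_of_mem hg, indicator_of_mem ((lB γ hγ g).2 hg), R.kF_inv σ hγ]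
  · rw [indicator_of_notMem hg, indicator_of_notMem fun h' => hg ((lB γ hγ g).1 h')]

lemma master_tm (p : ℝ) {B : Set SL2} (mB : MeasurableSet B) : MeasurableSet (tm p B) :=
  measurable_mul_const (aG p) mB

lemma master_five (R : Rep Λ ν φ r) (T : ℝ) {ψ : ℝ → ℂ} (mψ : Measurable ψ) {B : Set SL2}
    (mB : MeasurableSet B) (lB : LI Λ B) :
    (Measurable fun g => n2 ({x | g * uG x ∈ B}.indicator
      fun x => ψ x * kF φ r 1 (g * uG x * aG T))) ∧
    ∫⁻ g, n2 ({x | g * uG x ∈ B}.indicator fun x => ψ x * kF φ r 1 (g * uG x * aG T)) ∂ν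
      = n2 ψ * ∫⁻ g in tm (-T) B, ‖kF φ r 1 g‖ₑ ^ 2 ∂ν := by
  have := R.fin
  have mG := ((R.measurable_kF 1).enorm.pow_const 2).indicator (master_tm (-T) mB)
  have lT : LI Λ (tm (-T) B) := fun γ hγ g => by
    change γ * g * aG (-T) ∈ B ↔ g * aG (-T) ∈ B
    rw [mul_assoc, lB γ hγ]
  have e : ∀ g, n2 ({x | g * uG x ∈ B}.indicator fun x => ψ x * kF φ r 1 (g * uG x * aG T))
      = ∫⁻ x, ‖ψ x‖ₑ ^ 2 * (tm (-T) B).indicator (fun g => ‖kF φ r 1 g‖ₑ ^ 2)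
        (g * (uG x * aG T)) := by
    intro g
    refine lintegral_congr fun x => ?_
    have h1 : g * (uG x * aG T) ∈ tm (-T) B ↔ g * uG x ∈ B := by
      change g * (uG x * aG T) * aG (-T) ∈ B ↔ _
      rw [aG_neg, ← mul_assoc, mul_inv_cancel_right]
    by_cases hx : g * uG x ∈ B
    · rw [indicator_of_mem (h1.2 hx), indicator_of_mem (show x ∈ {x | g * uG x ∈ B} from hx),
        enorm_mul, mul_pow, mul_assoc]
    · rw [indicator_of_notMem fun h' => hx (h1.1 h'),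
        indicator_of_notMem (show x ∉ {x | g * uG x ∈ B} from hx)]
      simp
  have mH : Measurable (Function.uncurry fun (g : SL2) (x : ℝ) => ‖ψ x‖ₑ ^ 2 *
      (tm (-T) B).indicator (fun g => ‖kF φ r 1 g‖ₑ ^ 2) (g * (uG x * aG T))) :=
    ((mψ.comp measurable_snd).enorm.pow_const 2).mul
      (mG.comp (measurable_fst.mul ((measurable_uG.comp measurable_snd).mul_const _)))
  simp only [e]
  refine ⟨mH.lintegral_prod_right, ?_⟩
  rw [lintegral_lintegral_swap mH.aemeasurable, n2,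
    ← lintegral_mul_const _ (mψ.enorm.pow_const 2)]
  refine lintegral_congr fun x => ?_
  rw [← master_shift R 1 (master_tm (-T) mB) lT (uG x * aG T)]
  exact lintegral_const_mul _ (mG.comp (measurable_mul_const _))

lemma master_four {f : ℝ → ℂ} (hf : Nice f) {S Z Y : Set ℝ} (mS : MeasurableSet S) {θ : ℝ}
    (hθ : 0 < θ) (hU : UP Z Y (θ ^ 2)) (hZ : ∀ x, x ∉ Z → x ∉ S → f x = 0) (Ξ : ℝ) :
    ∫⁻ ξ in Y ∩ Icc (-Ξ) Ξ, ‖𝓕 f ξ‖ₑ ^ 2 ≤ ENNReal.ofReal (1 + θ) * n2 (S.indicator f) +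
      ENNReal.ofReal (1 + θ⁻¹) * (ENNReal.ofReal (θ ^ 2) * n2 f) := by
  have h2 := hf.indicator mS
  have h1 := hf.indicator mS.compl
  have e : ∀ ξ, 𝓕 f ξ - 𝓕 (S.indicator f) ξ = 𝓕 (Sᶜ.indicator f) ξ := by
    intro ξ
    rw [ft_eq, ft_eq, ft_eq, ← integral_sub (master_ee hf ξ).integrable
      (master_ee h2 ξ).integrable]
    refine integral_congr_ae (Eventually.of_forall fun x => ?_)
    by_cases hx : x ∈ S <;> simp [hx]
  refine (lintegral_mono fun ξ => enorm_sq_le (𝓕 f ξ) (𝓕 (S.indicator f) ξ) hθ).trans ?_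
  simp only [e]
  rw [lintegral_add_left (((continuous_ft h2.integrable).measurable.enorm.pow_const 2).const_mul _),
    lintegral_const_mul' _ _ ENNReal.ofReal_ne_top, lintegral_const_mul' _ _ ENNReal.ofReal_ne_top]
  gcongr
  · rw [← h2.plancherel]
    exact setLIntegral_le_lintegral _ _
  · refine (hU _ h1 (fun x hx => ?_) Ξ).trans (by gcongr; exact master_ind _ _)
    by_cases hs : x ∈ S
    · exact indicator_of_notMem (show x ∉ Sᶜ from fun h => h hs) _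
    · rw [indicator_of_mem (show x ∈ Sᶜ from hs), hZ x hx hs]

lemma master_num {θ : ℝ} (hθ : 0 < θ) (h1 : θ ≤ 1) {a b : ℝ≥0∞} (hb : b ≤ 1)
    (h : a ≤ ENNReal.ofReal (1 + θ) * (ENNReal.ofReal (1 + θ) * b +
      ENNReal.ofReal (1 + θ⁻¹) * ENNReal.ofReal (θ ^ 2)) +
      ENNReal.ofReal (1 + θ⁻¹) * (9 * ENNReal.ofReal (θ ^ 2)) + 2 * ENNReal.ofReal (θ ^ 2)) :
    a.toReal ≤ b.toReal + 30 * θ := by
  have hb0 : 0 ≤ b.toReal := ENNReal.toReal_nonneg
  have hb1 : b.toReal ≤ 1 := ENNReal.toReal_le_of_le_ofReal zero_le_one (by simpa using hb)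
  refine ENNReal.toReal_le_of_le_ofReal (by positivity) (h.trans ?_)
  rw [← ENNReal.ofReal_toReal (ne_top_of_le_ne_top ENNReal.one_ne_top hb), ENNReal.toReal_ofReal hb0,
    ← ENNReal.ofReal_ofNat 9, ← ENNReal.ofReal_ofNat 2]
  generalize b.toReal = y at *
  rw [← ENNReal.ofReal_mul (by positivity), ← ENNReal.ofReal_mul (by positivity),
    ← ENNReal.ofReal_mul (by positivity), ← ENNReal.ofReal_mul (by positivity),
    ← ENNReal.ofReal_mul (by positivity), ← ENNReal.ofReal_add (by positivity) (by positivity),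
    ← ENNReal.ofReal_mul (by positivity), ← ENNReal.ofReal_add (by positivity) (by positivity),
    ← ENNReal.ofReal_add (by positivity) (by positivity)]
  refine ENNReal.ofReal_le_ofReal ?_
  have e : (1 + θ⁻¹) * θ ^ 2 = θ ^ 2 + θ := by field_simp
  have e' : (1 + θ⁻¹) * (9 * θ ^ 2) = 9 * (θ ^ 2 + θ) := by rw [← e]; ring
  rw [e, e']
  have h2 : θ ^ 2 ≤ θ := by nlinarith
  have h3 : θ * θ ^ 2 ≤ θ := by nlinarith
  have h4 : θ * y ≤ θ := by nlinarith
  have h5 : θ ^ 2 * y ≤ θ := by nlinarith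
  nlinarith

theorem Rep.master {Λ : Set SL2} {ν : Measure SL2} {φ : ℍ → ℝ} {r : ℝ} (R : Rep Λ ν φ r)
    {σ T X X' Ξ θ : ℝ} (hθ : 0 < θ) (J : Jump r σ T X X' Ξ (θ ^ 2)) :
    Tr Λ (Pm ν φ r σ) (Pm ν φ r 1) (r / π) X Ξ T θ := by
  intro A A' mA mA' lA lA' hUP
  have := R.fin
  have := R.prob J.pos
  have := R.prob J.pos1
  by_cases h1 : 1 < θ
  · have h2 : (Pm ν φ r σ).real A ≤ 1 := measureReal_le_one
    have h3 : 0 ≤ (Pm ν φ r 1).real (tm (-T) A') := measureReal_nonneg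
    linarith
  have bκ : ∀ y, ‖kE r 1 (aG T) y‖ ≤ ‖Complex.exp ((1 / 2 + r * Complex.I) * T)‖ := fun y => by
    rw [kE_aG, norm_mul]
    exact mul_le_of_le_one_right (norm_nonneg _) (norm_kE_one r zero_le_one _)
  have nψ : Nice (cut X (kE r σ 1)) := nice_cut X (measurable_kE r σ 1) (norm_kE_one r J.σ0.le)
  have nκ : Nice (cut X' (kE r 1 (aG T))) := nice_cut X' (measurable_kE r 1 _) bκ
  obtain ⟨B, hB⟩ := R.kF_bdd 1
  have mF := R.measurable_kF 1
  have Zσ := R.Zm_eq σ 1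
  have Z1 := R.Zm_eq 1 (aG T)
  have Z10 : Zm ν φ r 1 ≠ 0 := by
    rw [R.Zm_eq 1 1]
    exact mul_ne_zero (by simp [Real.pi_pos]) J.pos1
  have hψ : n2 (cut X (kE r σ 1)) ≤ n2 (kE r σ 1) := master_ind _ _
  have hκ : n2 (cut X' (kE r 1 (aG T))) ≤ n2 (kE r 1 (aG T)) := master_ind _ _
  have hone := (master_one nκ Ξ).trans (add_le_add le_rfl (add_le_add J.freq J.tail))
  have hki := ki (p := fun ξ => kE r σ (vG (-(ξ / (r / π))))) nψ nκ (measurable_kE r 1 _) bκ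
    (X := X') (fun x hx => indicator_of_notMem (s := Icc (-X') X')
      (fun h => absurd (abs_le.2 h) (not_le.2 hx)) _)
    J.tail J.move J.modu
  have hiso := fun ξ => R.iso_ki (master_ee nψ ξ) (𝓕 (cut X' (kE r 1 (aG T))) (-ξ)) σ T
    (-(ξ / (r / π)))
  obtain ⟨m2, i2⟩ := master_five R T nψ.meas mA' lA'
  obtain ⟨-, i1⟩ := master_five R T nψ.meas MeasurableSet.univ fun _ _ _ => Iff.rfl
  rw [R.Pm_apply J.pos1 (master_tm _ mA')] at i2
  rw [R.Pm_apply J.pos1 (master_tm _ MeasurableSet.univ), show tm (-T) univ = univ from rfl,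
    measure_univ, mul_one] at i1
  simp only [mem_univ, ofPred_true, indicator_univ] at i1
  have hψs : ∀ x, ¬|x| ≤ X → cut X (kE r σ 1) x = 0 := fun x hx =>
    indicator_of_notMem (s := Icc (-X) X) (fun h => hx (abs_le.2 h)) _
  have mc : Measurable fun ξ => ‖𝓕 (cut X' (kE r 1 (aG T))) (-ξ)‖ₑ ^ 2 :=
    ((continuous_ft nκ.integrable).measurable.comp measurable_neg).enorm.pow_const 2
  have Nψ0 := J.pos
  generalize cut X (kE r σ 1) = ψ at *
  generalize cut X' (kE r 1 (aG T)) = κ' at *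
  let u : SL2 → ℝ → ℂ := fun g x => ψ x * kF φ r 1 (g * uG x * aG T)
  have nu : ∀ g, Nice (u g) := fun g =>
    nψ.mul_right (mF.comp ((measurable_uG.const_mul g).mul_const _)) fun x => hB _
  have mS : MeasurableSet {x : SL2 × ℝ | x.1 * vG (-(x.2 / (r / π))) ∈ A} :=
    (measurable_fst.mul (measurable_vG.comp (measurable_snd.div_const _).neg)) mA
  let H : SL2 × ℝ → ℝ≥0∞ := {x : SL2 × ℝ | x.1 * vG (-(x.2 / (r / π))) ∈ A}.indicator
    fun x => ‖𝓕 (u x.1) x.2‖ₑ ^ 2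
  have mH : Measurable H := by
    refine (Measurable.enorm ?_).pow_const 2 |>.indicator mS
    simp only [ft_eq]
    refine (StronglyMeasurable.integral_prod_right (f := fun (x : SL2 × ℝ) (y : ℝ) =>
      ee (y * x.2) * u x.1 y) (Measurable.stronglyMeasurable ?_)).measurable
    exact (continuous_ee.measurable.comp (measurable_snd.mul measurable_fst.snd)).mul
      ((nψ.meas.comp measurable_snd).mul (mF.comp
        ((measurable_fst.fst.mul (measurable_uG.comp measurable_snd)).mul_const _)))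
  have s3 : ∀ ξ, ‖𝓕 κ' (-ξ)‖ₑ ^ 2 * (Zm ν φ r σ * Pm ν φ r σ A) ≤
      ENNReal.ofReal (1 + θ) * ∫⁻ g, H (g, ξ) ∂ν + ENNReal.ofReal (1 + θ⁻¹) *
        (ENNReal.ofReal π⁻¹ * n2 fun y => (∫ x, ee (x * ξ) * ψ x * kE r 1 (aG T) (y - x)) -
          𝓕 κ' (-ξ) * kE r σ (vG (-(ξ / (r / π)))) y) := by
    intro ξ
    rw [← hiso ξ, ← R.Pm_apply J.pos mA, ← master_shift R σ mA lA (vG (-(ξ / (r / π)))),
      ← lintegral_const_mul' _ _ (ENNReal.pow_ne_top enorm_ne_top),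
      ← lintegral_const_mul' _ _ ENNReal.ofReal_ne_top,
      ← lintegral_const_mul' _ _ ENNReal.ofReal_ne_top,
      ← lintegral_add_left (Measurable.const_mul (f := fun g => H (g, ξ))
        (mH.comp measurable_prodMk_right) _)]
    refine lintegral_mono fun g => ?_
    by_cases hg : g * vG (-(ξ / (r / π))) ∈ A
    · have e1 : H (g, ξ) = ‖𝓕 (u g) ξ‖ₑ ^ 2 := indicator_of_mem (a := (g, ξ))
        (s := {x : SL2 × ℝ | x.1 * vG (-(x.2 / (r / π))) ∈ A}) hg _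
      have e2 : 𝓕 (u g) ξ = ∫ x, ee (x * ξ) * ψ x * kF φ r 1 (g * uG x * aG T) := by
        rw [ft_eq]
        simp only [u, mul_assoc]
      rw [indicator_of_mem hg, ← mul_pow, ← enorm_mul, e1, ← e2, enorm_sub_rev]
      exact enorm_sq_le _ _ hθ
    · rw [indicator_of_notMem hg, mul_zero]
      exact zero_le
  have s4 : ∀ g, ∫⁻ ξ in Icc (-Ξ) Ξ, H (g, ξ) ≤ ENNReal.ofReal (1 + θ) *
      n2 ({x | g * uG x ∈ A'}.indicator (u g)) +
      ENNReal.ofReal (1 + θ⁻¹) * (ENNReal.ofReal (θ ^ 2) * n2 (u g)) := by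
    intro g
    refine le_trans ?_ (master_four (nu g) (S := {x | g * uG x ∈ A'})
      (measurable_uG.const_mul g mA') hθ (hUP g) (fun x h2 h3 => ?_) Ξ)
    · have e : ∀ ξ, H (g, ξ) = {ξ | g * vG (-(ξ / (r / π))) ∈ A}.indicator
          (fun ξ => ‖𝓕 (u g) ξ‖ₑ ^ 2) ξ := fun ξ => rfl
      simp only [e]
      rw [setLIntegral_indicator (s := {ξ | g * vG (-(ξ / (r / π))) ∈ A})
        (measurable_prodMk_left mS)]
      exact lintegral_mono_set fun ξ hξ => ⟨⟨abs_le.2 hξ.2, hξ.1⟩, hξ.2⟩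
    · simp only [u]
      rw [hψs x fun h => h2 ⟨h, h3⟩, zero_mul]
  have s5 : ∫⁻ ξ in Icc (-Ξ) Ξ, ∫⁻ g, H (g, ξ) ∂ν ≤ ENNReal.ofReal (1 + θ) *
      (n2 ψ * (Zm ν φ r 1 * Pm ν φ r 1 (tm (-T) A'))) +
      ENNReal.ofReal (1 + θ⁻¹) * (ENNReal.ofReal (θ ^ 2) * (n2 ψ * Zm ν φ r 1)) := by
    rw [← lintegral_lintegral_swap (f := fun g ξ => H (g, ξ)) mH.aemeasurable, ← i1, ← i2,
      ← lintegral_const_mul' _ _ ENNReal.ofReal_ne_top,
      ← lintegral_const_mul' _ _ ENNReal.ofReal_ne_top,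
      ← lintegral_const_mul' _ _ ENNReal.ofReal_ne_top, ← lintegral_add_left (m2.const_mul _)]
    exact lintegral_mono s4
  have s6 := lintegral_mono (μ := volume.restrict (Icc (-Ξ) Ξ)) s3
  rw [lintegral_mul_const _ mc, lintegral_add_left (mH.lintegral_prod_left'.const_mul _),
    lintegral_const_mul' _ _ ENNReal.ofReal_ne_top, lintegral_const_mul' _ _ ENNReal.ofReal_ne_top,
    lintegral_const_mul' _ _ ENNReal.ofReal_ne_top] at s6
  have ha : Pm ν φ r σ A ≤ 1 := prob_le_one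
  have hb : Pm ν φ r 1 (tm (-T) A') ≤ 1 := prob_le_one
  refine master_num hθ (not_lt.1 h1) hb ?_
  have Nt : n2 (kE r σ 1) ≠ ⊤ := by
    intro h
    apply R.Zm_ne_top σ
    rw [Zσ, h, ENNReal.mul_top (by simp [Real.pi_pos])]
  refine (ENNReal.mul_le_mul_iff_right (mul_ne_zero Nψ0 Z10)
    (ENNReal.mul_ne_top Nt (R.Zm_ne_top 1))).1 ?_
  rw [Zσ] at s6
  rw [Z1] at s5 ⊢
  generalize Pm ν φ r σ A = a at *
  generalize Pm ν φ r 1 (tm (-T) A') = b at *
  generalize n2 (kE r σ 1) = Nψ at *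
  generalize n2 (kE r 1 (aG T)) = Nκ at *
  generalize ENNReal.ofReal π⁻¹ = w at *
  generalize ENNReal.ofReal (θ ^ 2) = e at *
  generalize ENNReal.ofReal (1 + θ) = p at *
  generalize ENNReal.ofReal (1 + θ⁻¹) = q at *
  calc Nψ * (w * Nκ) * a = Nκ * (w * Nψ * a) := by ring
    _ ≤ _ * (w * Nψ * a) := mul_le_mul_left hone _
    _ ≤ p * (p * (Nψ * (w * Nκ * b)) + q * (e * (Nψ * (w * Nκ)))) +
        q * (w * (3 * (Nψ * (e * Nκ) + Nκ * (e * Nψ) + Nκ * (e * Nψ)))) +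
        (e * Nκ + e * Nκ) * (w * Nψ * 1) := by
        rw [add_mul]
        refine add_le_add (s6.trans ?_) (by gcongr)
        gcongr
        · exact s5.trans (by gcongr)
        · exact hki.trans (by gcongr)
    _ = _ := by ring

end Pool.Agent.Lib.MP_a52643_an.NS
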