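import Pool.Agent.Lib.MP_a52643_an.NS.Mv1

/-!
The mean value property of eigenfunctions.
-/

open MeasureTheory Set Filter Topology Metric UpperHalfPlane
open scoped ENNReal MatrixGroups Real FourierTransform ComplexConjugate

noncomputable section

namespace Pool.Agent.Lib.MP_a52643_an.NS

/-- the point of the cone model given by the rows of a matrix -/
def mv2V (g : SL2) : V := (eb g + ea g * Complex.I, ed g + ec g * Complex.I)

lemma mv2_mem (g : SL2) : mv2V g ∈ Om := by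
  have h : dt (mv2V g) = 1 := by
    rw [dt_eq]; simp [mv2V]; linear_combination det_eq g
  show 0 < dt (mv2V g)
  rw [h]; exact one_pos

lemma mv2_pr (g : SL2) : pr (mv2V g) = (bp g : ℂ) := by
  rw [bp, coe_act]; simp [pr, mv2V, add_comm]

lemma mv2_mul (g h : SL2) : mv2V (g * h)
    = (⟨(ed h + ea h) / 2, (ec h - eb h) / 2⟩ : ℂ) • mv2V g
      + (⟨(ed h - ea h) / 2, (ec h + eb h) / 2⟩ : ℂ) • cj (mv2V g) := by
  ext : 1 <;> apply Complex.ext <;> simp [mv2V] <;> ring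

lemma mv2_kG (g : SL2) (θ : ℝ) :
    mv2V (g * kG θ) = Complex.exp ((θ - π / 2 : ℝ) * Complex.I) • mv2V g := by
  have h : Complex.exp ((θ - π / 2 : ℝ) * Complex.I) = ⟨Real.sin θ, -Real.cos θ⟩ := by
    apply Complex.ext
    · rw [Complex.exp_ofReal_mul_I_re, Real.cos_sub_pi_div_two]
    · rw [Complex.exp_ofReal_mul_I_im, Real.sin_sub_pi_div_two]
  rw [h]
  ext : 1 <;> apply Complex.ext <;>
    simp [mv2V, kG, -Complex.ofReal_cos, -Complex.ofReal_sin] <;> ring

lemma mv2_cj_smul (c : ℂ) (v : V) : cj (c • v) = conj c • cj v := by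
  ext : 1 <;> simp

lemma mv2_polar (h : SL2) : ∃ t a b : ℝ, 0 ≤ t ∧ ∀ g : SL2, mv2V (g * h)
    = Complex.exp (a * Complex.I) • flo t (Complex.exp (b * Complex.I) • mv2V g) := by
  set m1 : ℂ := ⟨(ed h + ea h) / 2, (ec h - eb h) / 2⟩ with hm1
  set m2 : ℂ := ⟨(ed h - ea h) / 2, (ec h + eb h) / 2⟩ with hm2
  have hn : ‖m1‖ ^ 2 = 1 + ‖m2‖ ^ 2 := by
    rw [Complex.sq_norm, Complex.sq_norm, Complex.normSq_mk, Complex.normSq_mk]
    linear_combination det_eq h
  have hs : Real.sinh (Real.arsinh ‖m2‖) = ‖m2‖ := Real.sinh_arsinh _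
  have hc : Real.cosh (Real.arsinh ‖m2‖) = ‖m1‖ := by
    rw [Real.cosh_arsinh, ← hn, Real.sqrt_sq (norm_nonneg _)]
  refine ⟨Real.arsinh ‖m2‖, (m1.arg + m2.arg) / 2, (m1.arg - m2.arg) / 2,
    Real.arsinh_nonneg_iff.2 (norm_nonneg _), fun g => ?_⟩
  have e1 : Complex.exp (((m1.arg + m2.arg) / 2 : ℝ) * Complex.I)
      * ((‖m1‖ : ℂ) * Complex.exp (((m1.arg - m2.arg) / 2 : ℝ) * Complex.I)) = m1 := by
    conv_rhs => rw [← Complex.norm_mul_exp_arg_mul_I m1]
    rw [mul_left_comm, ← Complex.exp_add]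
    congr 2; push_cast; ring
  have e2 : Complex.exp (((m1.arg + m2.arg) / 2 : ℝ) * Complex.I)
      * ((‖m2‖ : ℂ) * conj (Complex.exp (((m1.arg - m2.arg) / 2 : ℝ) * Complex.I))) = m2 := by
    conv_rhs => rw [← Complex.norm_mul_exp_arg_mul_I m2]
    rw [mul_left_comm, ← Complex.exp_conj, ← Complex.exp_add]
    congr 2
    rw [map_mul, Complex.conj_ofReal, Complex.conj_I]
    push_cast; ring
  rw [mv2_mul, flo, hs, hc, mv2_cj_smul, smul_add, smul_smul, smul_smul, smul_smul, smul_smul,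
    mul_assoc, mul_assoc, e1, e2]

lemma mv2_flo_neg (t : ℝ) (v : V) : flo t ((-1 : ℂ) • v) = (-1 : ℂ) • flo t v := by
  simp [flo]

lemma mv2_flo_mem (t : ℝ) {v : V} (hv : v ∈ Om) : flo t v ∈ Om := by
  have h : dt (flo t v) = dt v := by
    rw [dt_eq, dt_eq]
    simp [flo, -Complex.ofReal_cosh, -Complex.ofReal_sinh]
    linear_combination (v.1.im * v.2.re - v.1.re * v.2.im) * Real.cosh_sq t
  show 0 < dt (flo t v)
  rw [h]; exact hv

lemma mv2_avg (h : SL2) : ∃ t : ℝ, 0 ≤ t ∧ ∀ (f : ℂ → ℂ) (g : SL2),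
    ∫ θ in Ioo (-(π / 2)) (π / 2), f (bp (g * kG θ * h))
      = ∫ θ in (0 : ℝ)..π, f (pr (flo t (Complex.exp (θ * Complex.I) • mv2V g))) := by
  obtain ⟨t, a, b, ht, e⟩ := mv2_polar h
  refine ⟨t, ht, fun f g => ?_⟩
  set F : ℝ → ℂ := fun θ => f (pr (flo t (Complex.exp (θ * Complex.I) • mv2V g))) with hF
  have hp : Function.Periodic F π := fun θ => by
    simp only [hF]
    rw [Complex.ofReal_add, add_mul, Complex.exp_add, Complex.exp_pi_mul_I, mul_comm, mul_smul,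
      mv2_flo_neg, pr_smul (by simp)]
  have h1 : ∀ θ, f (bp (g * kG θ * h)) = F (θ + (b - π / 2)) := fun θ => by
    simp only [hF]
    rw [← mv2_pr, e, pr_smul (Complex.exp_ne_zero _), mv2_kG, smul_smul, ← Complex.exp_add]
    congr 5; push_cast; ring
  have h2 : -(π / 2) ≤ π / 2 := by linarith [Real.pi_pos]
  simp only [h1]
  rw [← integral_Ioc_eq_integral_Ioo, ← intervalIntegral.integral_of_le h2,
    intervalIntegral.integral_comp_add_right F,
    show π / 2 + (b - π / 2) = -(π / 2) + (b - π / 2) + π by ring,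
    hp.intervalIntegral_add_eq _ 0, zero_add]

lemma mv2_hd (s : ℂ) {y : ℝ} (hy : 0 < y) :
    HasDerivAt (fun y : ℝ => Complex.exp (s * Real.log y))
      (s * Complex.exp ((s - 1) * Real.log y)) y := by
  have h := (((Real.hasDerivAt_log hy.ne').ofReal_comp).const_mul s).cexp
  convert h using 1
  rw [sub_mul, one_mul, Complex.exp_sub, ← Complex.ofReal_exp, Real.exp_log hy]
  push_cast; ring

open scoped Laplacian in
lemma mv2_lap {ψ ψ1 ψ2 : ℝ → ℝ} (h1 : ∀ y, 0 < y → HasDerivAt ψ (ψ1 y) y)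
    (h2 : ∀ y, 0 < y → HasDerivAt ψ1 (ψ2 y) y) {z : ℂ} (hz : z ∈ UH) :
    Δ (fun w : ℂ => ψ w.im) z = ψ2 z.im := by
  have e1 : fderiv ℝ (fun w : ℂ => ψ w.im) =ᶠ[𝓝 z] fun w => ψ1 w.im • Complex.imCLM := by
    filter_upwards [isOpen_UH.mem_nhds hz] with w hw
    exact ((h1 _ hw).comp_hasFDerivAt w Complex.imCLM.hasFDerivAt).fderiv
  have e2 : HasFDerivAt (fun w : ℂ => ψ1 w.im) (ψ2 z.im • Complex.imCLM) z :=
    (h2 _ hz).comp_hasFDerivAt z Complex.imCLM.hasFDerivAt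
  have e3 := (e2.smul_const Complex.imCLM).fderiv
  rw [InnerProductSpace.laplacian_eq_iteratedFDeriv_complexPlane]
  simp only [iteratedFDeriv_two_apply]
  rw [e1.fderiv_eq, e3]
  simp

lemma mv2_ladder (r : ℝ) (l : ℂ →L[ℝ] ℝ) : ∃ U : ℤ → V → ℂ, Ladder (1 / 4 + r ^ 2) U ∧
    ∀ v, U 0 v = l (Complex.exp ((1 / 2 + r * Complex.I) * Real.log (pr v).im)) := by
  set s : ℂ := 1 / 2 + r * Complex.I with hs
  have hss : s * (s - 1) = (-(1 / 4 + r ^ 2) : ℝ) := by
    rw [hs]; push_cast; linear_combination (r : ℂ) ^ 2 * Complex.I_mul_I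
  refine (exists_ladder (lam := 1 / 4 + r ^ 2) (by positivity)
    (φ := fun z => l (Complex.exp (s * Real.log z.im))) ?_ ?_).imp fun U h => ⟨h.1, h.2.1⟩
  · refine l.contDiff.comp_contDiffOn (ContDiffOn.cexp (contDiffOn_const.mul ?_))
    exact Complex.ofRealCLM.contDiff.comp_contDiffOn
      (Complex.imCLM.contDiff.contDiffOn.log fun z hz => ne_of_gt hz)
  · intro z hz
    have hy : 0 < z.im := hz
    rw [mv2_lap (ψ := fun y => l (Complex.exp (s * Real.log y)))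
      (ψ1 := fun y => l (s * Complex.exp ((s - 1) * Real.log y)))
      (ψ2 := fun y => l (s * ((s - 1) * Complex.exp ((s - 1 - 1) * Real.log y))))
      (fun y hy => l.hasFDerivAt.comp_hasDerivAt y (mv2_hd s hy))
      (fun y hy => l.hasFDerivAt.comp_hasDerivAt y ((mv2_hd (s - 1) hy).const_mul s)) hz]
    rw [← smul_eq_mul, ← smul_eq_mul (-(1 / 4 + r ^ 2)), ← map_smul, ← map_smul]
    congr 1
    have h0 : (z.im : ℂ) ≠ 0 := by exact_mod_cast hy.ne'
    rw [← mul_assoc, hss, sub_mul, sub_mul, one_mul, Complex.exp_sub, Complex.exp_sub,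
      ← Complex.ofReal_exp, Real.exp_log hy, Complex.real_smul, Complex.real_smul]
    push_cast
    field_simp

open scoped ContDiff Laplacian in
theorem mean_value {φ : ℍ → ℝ} {r : ℝ}
    (hs : ContDiffOn ℝ ∞ (fun w : ℂ => φ (ofComplex w)) {w | 0 < w.im})
    (he : ∀ z : ℂ, 0 < z.im → z.im ^ 2 * Δ (fun w : ℂ => φ (ofComplex w)) z
      = -(1 / 4 + r ^ 2) * φ (ofComplex z)) (g h : SL2) :
    ((∫ θ in Ioo (-(π / 2)) (π / 2), φ (bp (g * kG θ * h)) : ℝ) : ℂ)
      = (∫ θ in Ioo (-(π / 2)) (π / 2),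
          Complex.exp ((1 / 2 + r * Complex.I) * Real.log (bp (kG θ * h)).im)) * φ (bp g) := by
  have hl : 0 < 1 / 4 + r ^ 2 := by positivity
  obtain ⟨Φ, hΦ, eΦ, -⟩ := exists_ladder hl (φ := fun w : ℂ => φ (ofComplex w)) hs he
  obtain ⟨U, hU, eU⟩ := mv2_ladder r Complex.reCLM
  obtain ⟨W, hW, eW⟩ := mv2_ladder r Complex.imCLM
  obtain ⟨t, ht, av⟩ := mv2_avg h
  have hU1 : U 0 (mv2V 1) = 1 := by rw [eU, mv2_pr, bp_one]; simp
  have hW1 : W 0 (mv2V 1) = 0 := by rw [eW, mv2_pr, bp_one]; simp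
  have k1 := ladder_mean hl hΦ hU (mv2_mem g) (mv2_mem 1) ht
  have k2 := ladder_mean hl hW hU (mv2_mem 1) (mv2_mem 1) ht
  rw [hU1, mul_one] at k1
  rw [hU1, hW1, mul_one, mul_zero] at k2
  have hc : Continuous fun θ : ℝ => flo t (Complex.exp (θ * Complex.I) • mv2V 1) := by
    unfold flo; fun_prop
  have hm : ∀ θ : ℝ, flo t (Complex.exp (θ * Complex.I) • mv2V 1) ∈ Om := fun θ =>
    mv2_flo_mem t (smul_mem_Om (Complex.exp_ne_zero _) (mv2_mem 1))
  have cU : Continuous fun θ : ℝ => U 0 (flo t (Complex.exp (θ * Complex.I) • mv2V 1)) :=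
    (hU.smooth 0).continuousOn.comp_continuous hc hm
  have cW : Continuous fun θ : ℝ =>
      W 0 (flo t (Complex.exp (θ * Complex.I) • mv2V 1)) * Complex.I :=
    ((hW.smooth 0).continuousOn.comp_continuous hc hm).mul continuous_const
  have a1 := av (fun w => (φ (ofComplex w) : ℂ)) g
  have a2 := av (fun w => Complex.exp ((1 / 2 + r * Complex.I) * Real.log w.im)) 1
  simp only [ofComplex_apply, ← eΦ] at a1
  simp only [one_mul, coe_im] at a2
  have a3 : ∀ v, Complex.exp ((1 / 2 + r * Complex.I) * Real.log (pr v).im)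
      = U 0 v + W 0 v * Complex.I := fun v => by
    rw [eU, eW]; exact (Complex.re_add_im _).symm
  rw [← integral_complex_ofReal, a1, k1, a2, eΦ, mv2_pr, ofComplex_apply]
  simp only [a3]
  rw [intervalIntegral.integral_add (cU.intervalIntegrable _ _)
    (cW.intervalIntegrable _ _), intervalIntegral.integral_mul_const, k2,
    zero_mul, add_zero]

end Pool.Agent.Lib.MP_a52643_an.NS
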