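import Pool.Agent.Lib.MP_a52643_an.NS.End3
import Pool.Agent.Lib.MP_a52643_an.NS.Master
import Pool.Agent.Lib.MP_a52643_an.NS.Link
import Pool.Agent.Lib.MP_a52643_an.NS.Jump
import Pool.Agent.Lib.MP_a52643_an.NS.Geo
import Pool.Agent.Lib.MP_a52643_an.NS.Mv2

/-!
The bound on the mass near a family of geodesics of small entropy.
-/

open MeasureTheory Set Filter Topology Metric UpperHalfPlane
open scoped ENNReal MatrixGroups Real FourierTransform ComplexConjugate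

noncomputable section

namespace Pool.Agent.Lib.MP_a52643_an.NS

lemma main_num {h ε : ℝ} (hε : 0 < ε) (a3 : 1 ≤ h) (a4 : 10 ^ 16 / ε ≤ h) :
    1 ≤ π * Real.exp (100 * h) * Real.exp (-36 * h) ∧
      30 * Real.exp (-36 * h) * √(π * Real.exp (100 * h) * Real.exp (-36 * h)) / ε
        ≤ 1 / 10 ^ 14 := by
  have e2 : π * Real.exp (100 * h) * Real.exp (-36 * h) = π * Real.exp (32 * h) ^ 2 := by
    rw [mul_assoc, ← Real.exp_add, sq, ← Real.exp_add]; ring_nf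
  have h4 : Real.exp (-36 * h) * Real.exp (32 * h) * Real.exp (4 * h) = 1 := by
    rw [← Real.exp_add, ← Real.exp_add, show -36 * h + 32 * h + 4 * h = 0 by ring, Real.exp_zero]
  have h5 := Real.add_one_le_exp (4 * h)
  have h2 := Real.one_le_exp (show 0 ≤ 32 * h by linarith)
  have h1 := Real.exp_pos (-36 * h)
  rw [e2]
  generalize Real.exp (-36 * h) = a at *
  generalize Real.exp (32 * h) = b at *
  generalize Real.exp (4 * h) = c at *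
  refine ⟨by nlinarith [Real.pi_gt_three], ?_⟩
  have h3 : √(π * b ^ 2) ≤ 2 * b := by
    rw [Real.sqrt_le_left (by positivity)]
    nlinarith [Real.pi_le_four, sq_nonneg b]
  rw [div_le_iff₀ hε] at a4 ⊢
  have h7 : 0 < a * b := by positivity
  have h8 : a * b * h ≤ 1 := by nlinarith
  have h9 : a * b * 10 ^ 16 ≤ ε := by nlinarith
  nlinarith

theorem Geo.rep_bound {Λ L : Set SL2} (G : Geo Λ L) : ∃ ε > 0, ∃ r₀ : ℝ, ∀ r ≥ r₀,
    ∀ (ν : Measure SL2) (φ : ℍ → ℝ), Rep Λ ν φ r →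
    ∫ g in {g | bp g ∈ tube L ε}, φ (bp g) ^ 2 ∂ν ≤ 1 / 2 - 1 / 10 ^ 14 := by
  obtain ⟨ε, hε, h₀, H⟩ := G.endgame
  obtain ⟨h₁, J₁⟩ := jump_main (θ := 1 / 10 ^ 16) (by norm_num)
  obtain ⟨h₂, J₂⟩ := jump_link (θ := 1 / 10 ^ 16) (by norm_num)
  refine ⟨ε, hε, π * Real.exp (100 * max (max h₀ h₁) (max h₂ (max 1 (10 ^ 16 / ε)))),
    fun r hr ν φ R => ?_⟩
  have hπ := Real.pi_pos
  have r0 : 0 < r := lt_of_lt_of_le (by positivity) hr
  obtain ⟨h, rfl⟩ : ∃ h, r = π * Real.exp (100 * h) := ⟨Real.log (r / π) / 100, by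
    rw [mul_div_cancel₀ _ (by norm_num), Real.exp_log (by positivity)]; field_simp⟩
  have hh := le_of_mul_le_mul_left (Real.exp_le_exp.1 (le_of_mul_le_mul_left hr hπ))
    (by norm_num)
  simp only [max_le_iff] at hh
  obtain ⟨⟨a0, a1⟩, a2, a3, a4⟩ := hh
  have e : π * Real.exp (100 * h) / π = Real.exp (100 * h) := by field_simp
  have h1 := H h a0 _ _ (R.prob (J₁ h a1 (4 * h) le_rfl (by linarith)).pos)
    (fun T b c => by simpa only [e] using R.master (by norm_num) (J₁ h a1 T b c))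
    (fun T b c => by simpa only [e] using R.master (by norm_num) (J₂ h a2 T b c))
  obtain ⟨h3, h4⟩ := main_num hε a3 a4
  have h2 := R.link G (Real.exp_pos _) (Real.exp_le_one_iff.2 (by linarith)) h3 hε
  linarith

open scoped ContDiff Laplacian in
theorem no_half_scar {Γ : Type*} [Group Γ] [Countable Γ] [MulAction Γ ℍ] {l : Γ → SL2} {D : Set ℍ}
    (h : FD l D) {K : Set ℍ} (hK : IsCompact K) (hc : ∀ z : ℍ, ∃ γ : Γ, γ • z ∈ K)
    {A : Set SL2} {T₀ : ℝ} (hA : ∀ T ≥ T₀, ∃ F : Finset (ℝ → ℍ),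
      (F.card : ℝ) ≤ Real.exp (T / 10 ^ 14) ∧ ∀ g ∈ A, ∀ (γ : Γ) (t : ℝ), γ • g • pt 0 t ∈ K →
        ∃ f ∈ F, ∀ s ∈ Icc (-T) T, dist (γ • g • pt 0 (t + s)) (f s) ≤ 1) :
    ∃ ε > 0, ∃ L : ℝ, ∀ (φ : ℍ → ℝ) (lam : ℝ), (∀ (γ : Γ) (z : ℍ), φ (γ • z) = φ z) →
      ContDiffOn ℝ ∞ (fun w : ℂ => φ (ofComplex w)) {w | 0 < w.im} →
      (∀ z : ℂ, 0 < z.im →
        z.im ^ 2 * Δ (fun w : ℂ => φ (ofComplex w)) z = -lam * φ (ofComplex z)) →
      ∫ z in D, φ z ^ 2 = 1 → L ≤ lam →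
      ∫ z in D ∩ {z | ∃ g ∈ A, ∃ (γ : Γ) (t : ℝ), dist (γ • z) (g • pt 0 t) < ε}, φ z ^ 2
        ≤ 1 / 2 - 1 / 10 ^ 14 := by
  have G := exists_geo h hK hc hA
  obtain ⟨ε, hε, r₀, H⟩ := G.rep_bound
  obtain ⟨ν, Q, mp⟩ := exists_quo h
  refine ⟨ε, hε, 1 / 4 + r₀ ^ 2, fun φ lam h1 h2 h3 h4 h5 => ?_⟩
  obtain ⟨r, hr, rfl⟩ : ∃ r, r₀ ≤ r ∧ lam = 1 / 4 + r ^ 2 :=
    ⟨√(lam - 1 / 4), Real.le_sqrt_of_sq_le (by linarith),
      by rw [Real.sq_sqrt (by nlinarith [sq_nonneg r₀])]; ring⟩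
  have hφ : Continuous φ := by
    have := h2.continuousOn.comp_continuous continuous_coe fun z => z.im_pos
    simpa [Function.comp_def] using this
  have m2 : Measurable fun z => φ z ^ 2 := (hφ.pow 2).measurable
  have R : Rep (range l) ν φ r := by
    refine ⟨Q, hφ, ?_, ?_, ?_, fun g h' => ?_⟩
    · obtain ⟨B, hB⟩ := hK.exists_bound_of_continuousOn hφ.continuousOn
      refine ⟨B, fun z => ?_⟩
      obtain ⟨γ, hγ⟩ := hc z
      rw [← h1 γ]; exact hB _ hγ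
    · rintro _ ⟨γ, rfl⟩ z
      rw [← h.act, h1]
    · rw [← h4, ← mp.map_eq, integral_map mp.measurable.aemeasurable m2.aestronglyMeasurable]
    · rw [mean_value h2 h3, om_eq]
  have e : {z : ℍ | ∃ g ∈ A, ∃ (γ : Γ) (t : ℝ), dist (γ • z) (g • pt 0 t) < ε}
      = tube {G | ∃ g ∈ A, ∃ γ, G = g⁻¹ * l γ} ε := by
    have k : ∀ (g : SL2) (γ : Γ) (z : ℍ) (t : ℝ),
        dist ((g⁻¹ * l γ) • z) (pt 0 t) = dist (γ • z) (g • pt 0 t) := fun g γ z t => by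
      rw [← dist_smul g, mul_smul, smul_inv_smul, h.act]
    ext z
    constructor
    · rintro ⟨g, hg, γ, t, ht⟩
      exact ⟨_, ⟨g, hg, γ, rfl⟩, t, by rwa [k]⟩
    · rintro ⟨_, ⟨g, hg, γ, rfl⟩, t, ht⟩
      exact ⟨g, hg, γ, t, by rwa [k] at ht⟩
  have mt := (isOpen_tube {G | ∃ g ∈ A, ∃ γ, G = g⁻¹ * l γ} ε).measurableSet
  refine le_of_eq_of_le ?_ (H r hr ν φ R)
  rw [e, inter_comm, ← Measure.restrict_restrict mt, ← mp.map_eq,
    setIntegral_map mt m2.aestronglyMeasurable mp.measurable.aemeasurable]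
  rfl

end Pool.Agent.Lib.MP_a52643_an.NS
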