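import Pool.Agent.Lib.MP_a52643_an.NS.Defs

/-!
An oscillatory integral with a difference of two fractional linear phases.
-/

open MeasureTheory Set Filter Topology Metric UpperHalfPlane
open scoped ENNReal MatrixGroups Real FourierTransform ComplexConjugate

noncomputable section

namespace Pool.Agent.Lib.MP_a52643_an.NS

lemma osc_ee {φ : ℝ → ℝ} {d z : ℝ} (h : HasDerivAt φ d z) :
    HasDerivAt (fun x => ee (φ x)) (ee (φ z) * (((-2 * π * d : ℝ) : ℂ) * Complex.I)) z :=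
  ((h.const_mul (-2 * π)).ofReal_comp.mul_const Complex.I).cexp

/-- no stationary point -/
lemma osc_ns {φ φ₁ φ₂ : ℝ → ℝ} {α β lam M : ℝ} (hab : α ≤ β) (hl : 0 < lam)
    (h1 : ∀ z ∈ Icc α β, HasDerivAt φ (φ₁ z) z) (h2 : ∀ z ∈ Icc α β, HasDerivAt φ₁ (φ₂ z) z)
    (hc : ContinuousOn φ₂ (Icc α β)) (lo : ∀ z ∈ Icc α β, lam ≤ |φ₁ z|)
    (hi : ∀ z ∈ Icc α β, |φ₂ z| ≤ M) :
    ‖∫ z in α..β, ee (φ z)‖ ≤ 2 / lam + M / lam ^ 2 * (β - α) := by
  set k : ℂ := (((-2 * π : ℝ) : ℂ) * Complex.I)⁻¹ with hk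
  have hπ : (π : ℂ) ≠ 0 := by exact_mod_cast Real.pi_ne_zero
  have nk : ‖k‖ ≤ 1 := by
    rw [hk, norm_inv, norm_mul, Complex.norm_I, Complex.norm_real, mul_one, Real.norm_eq_abs,
      abs_of_neg (by linarith [Real.pi_pos])]
    exact inv_le_one_of_one_le₀ (by linarith [Real.pi_gt_three])
  have ne : ∀ z ∈ Icc α β, φ₁ z ≠ 0 := fun z hz => abs_pos.1 (hl.trans_le (lo z hz))
  have c0 : ContinuousOn (fun z => ee (φ z)) (Icc α β) := fun z hz =>
    (osc_ee (h1 z hz)).continuousAt.continuousWithinAt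
  have c1 : ContinuousOn φ₁ (Icc α β) := fun z hz => (h2 z hz).continuousAt.continuousWithinAt
  have c2 : ContinuousOn (fun z => k * ee (φ z) * ((-φ₂ z / φ₁ z ^ 2 : ℝ) : ℂ)) (Icc α β) :=
    (continuousOn_const.mul c0).mul (Complex.continuous_ofReal.comp_continuousOn
      (hc.neg.div (c1.pow 2) fun z hz => pow_ne_zero 2 (ne z hz)))
  have i0 := c0.intervalIntegrable_of_Icc (μ := volume) hab
  have i2 := c2.intervalIntegrable_of_Icc (μ := volume) hab
  have d : ∀ z ∈ uIcc α β, HasDerivAt (fun x => k * ee (φ x) * (((φ₁ x)⁻¹ : ℝ) : ℂ))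
      (ee (φ z) + k * ee (φ z) * ((-φ₂ z / φ₁ z ^ 2 : ℝ) : ℂ)) z := fun z hz => by
    rw [uIcc_of_le hab] at hz
    have h0 : (φ₁ z : ℂ) ≠ 0 := by exact_mod_cast ne z hz
    refine (((osc_ee (h1 z hz)).const_mul k).mul
      ((h2 z hz).inv (ne z hz)).ofReal_comp).congr_deriv ?_
    congr 1
    simp only [hk, Pi.inv_apply]; push_cast; field_simp
  have e := intervalIntegral.integral_eq_sub_of_hasDerivAt d (i0.add i2)
  rw [intervalIntegral.integral_add i0 i2, ← eq_sub_iff_add_eq] at e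
  have b1 : ∀ z ∈ Icc α β, ‖k * ee (φ z) * (((φ₁ z)⁻¹ : ℝ) : ℂ)‖ ≤ 1 / lam := fun z hz => by
    rw [norm_mul, norm_mul, norm_ee, mul_one, Complex.norm_real, Real.norm_eq_abs, abs_inv,
      div_eq_mul_inv]
    exact mul_le_mul nk (inv_anti₀ hl (lo z hz)) (by positivity) one_pos.le
  have b2 : ‖∫ z in α..β, k * ee (φ z) * ((-φ₂ z / φ₁ z ^ 2 : ℝ) : ℂ)‖
      ≤ M / lam ^ 2 * |β - α| := by
    refine intervalIntegral.norm_integral_le_of_norm_le_const fun z hz => ?_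
    rw [uIoc_of_le hab] at hz
    have hz' := Ioc_subset_Icc_self hz
    rw [norm_mul, norm_mul, norm_ee, mul_one, Complex.norm_real, Real.norm_eq_abs, abs_div,
      abs_neg, abs_pow, ← one_mul (M / lam ^ 2)]
    refine mul_le_mul nk ?_ (by positivity) one_pos.le
    have := lo z hz'
    have := hi z hz'
    have := (abs_nonneg _).trans (hi z hz')
    gcongr
  rw [abs_of_nonneg (sub_nonneg.2 hab)] at b2
  rw [e]
  refine (norm_sub_le _ _).trans (add_le_add ((norm_sub_le _ _).trans ?_) b2)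
  have := add_le_add (b1 β (right_mem_Icc.2 hab)) (b1 α (left_mem_Icc.2 hab))
  exact this.trans (le_of_eq (by ring))

lemma osc_den {h : SL2} (hh : Cl h) {z : ℝ} (hz : z ∈ Icc (-1 : ℝ) 2) :
    97 / 100 ≤ ea h - ec h * z ∧ ea h - ec h * z ≤ 103 / 100 := by
  obtain ⟨a1, a2⟩ := abs_le.1 hh.1
  have : |ec h * z| ≤ 1 / 100 * 2 := by
    rw [abs_mul]
    exact mul_le_mul hh.2.2.1 (abs_le.2 ⟨by linarith [hz.1], hz.2⟩) (abs_nonneg _) (by norm_num)
  obtain ⟨b1, b2⟩ := abs_le.1 this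
  constructor <;> linarith

lemma osc_d0 (h : SL2) (z : ℝ) : HasDerivAt (fun x => ea h - ec h * x) (-ec h) z := by
  simpa using ((hasDerivAt_id z).const_mul (ec h)).const_sub (ea h)

lemma osc_d1 {h : SL2} {z : ℝ} (h0 : ea h - ec h * z ≠ 0) :
    HasDerivAt (mob h⁻¹) (((ea h - ec h * z) ^ 2)⁻¹) z := by
  have e : mob h⁻¹ = fun x => (ed h * x - eb h) / (ea h - ec h * x) := by
    ext x; simp only [mob, ea_inv, eb_inv, ec_inv, ed_inv]; congr 1 <;> ring
  have n : HasDerivAt (fun x => ed h * x - eb h) (ed h) z := by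
    simpa using ((hasDerivAt_id z).const_mul (ed h)).sub_const (eb h)
  rw [e]
  refine (n.div (osc_d0 h z) h0).congr_deriv ?_
  rw [← one_div]
  congr 1
  linear_combination det_eq h

lemma osc_d2 {h : SL2} {z : ℝ} (h0 : ea h - ec h * z ≠ 0) :
    HasDerivAt (fun x => ((ea h - ec h * x) ^ 2)⁻¹) (2 * ec h / (ea h - ec h * z) ^ 3) z := by
  refine (((osc_d0 h z).pow 2).inv (pow_ne_zero 2 h0)).congr_deriv ?_
  simp only [Pi.pow_apply]
  field_simp
  ring

lemma osc_lo {u v : ℝ} (hu : 97 / 100 ≤ u ∧ u ≤ 103 / 100) (hv : 97 / 100 ≤ v ∧ v ≤ 103 / 100) :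
    |v - u| ≤ |(u ^ 2)⁻¹ - (v ^ 2)⁻¹| := by
  have u0 : 0 < u := by linarith [hu.1]
  have v0 : 0 < v := by linarith [hv.1]
  have e : (u ^ 2)⁻¹ - (v ^ 2)⁻¹ = (v - u) * ((u + v) / (u * v) ^ 2) := by field_simp; ring
  rw [e, abs_mul]
  refine le_mul_of_one_le_right (abs_nonneg _) (le_trans ?_ (le_abs_self _))
  rw [one_le_div (by positivity)]
  have h1 : u * v ≤ 11 / 10 := by nlinarith [hu.2, hv.2]
  have h2 : 0 < u * v := by positivity
  nlinarith [hu.1, hv.1]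

lemma osc_hi {u v c c' Λ : ℝ} (hu : 97 / 100 ≤ u ∧ u ≤ 103 / 100)
    (hv : 97 / 100 ≤ v ∧ v ≤ 103 / 100) (hc : |c'| ≤ 1 / 100) (h1 : |c' - c| ≤ Λ)
    (h2 : |v - u| ≤ 3 * Λ) : |2 * c / u ^ 3 - 2 * c' / v ^ 3| ≤ 3 * Λ := by
  have u0 : 0 < u := by linarith [hu.1]
  have v0 : 0 < v := by linarith [hv.1]
  have L0 : 0 ≤ Λ := (abs_nonneg _).trans h1
  have e : 2 * c / u ^ 3 - 2 * c' / v ^ 3 = 2 * (c' * (v - u) * ((u ^ 2 + u * v + v ^ 2)
      / (u ^ 3 * v ^ 3)) - (c' - c) * (u ^ 3)⁻¹) := by field_simp; ring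
  have u3 : 9 / 10 ≤ u ^ 3 := le_trans (by norm_num) (pow_le_pow_left₀ (by norm_num) hu.1 3)
  have v3 : 9 / 10 ≤ v ^ 3 := le_trans (by norm_num) (pow_le_pow_left₀ (by norm_num) hv.1 3)
  have a1 : (u ^ 2 + u * v + v ^ 2) / (u ^ 3 * v ^ 3) ≤ 5 := by
    rw [div_le_iff₀ (by positivity)]
    have : 9 / 10 * (9 / 10) ≤ u ^ 3 * v ^ 3 := mul_le_mul u3 v3 (by norm_num) (by positivity)
    nlinarith [hu.2, hv.2]
  have a2 : (u ^ 3)⁻¹ ≤ 10 / 9 := by
    rw [inv_le_comm₀ (by positivity) (by norm_num)]; linarith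
  have b1 : |c' * (v - u) * ((u ^ 2 + u * v + v ^ 2) / (u ^ 3 * v ^ 3))|
      ≤ 1 / 100 * (3 * Λ) * 5 := by
    rw [abs_mul, abs_mul, abs_of_nonneg (a := _ / _) (by positivity)]
    gcongr
  have b2 : |(c' - c) * (u ^ 3)⁻¹| ≤ Λ * (10 / 9) := by
    rw [abs_mul, abs_of_nonneg (a := _⁻¹) (by positivity)]
    gcongr
  rw [e, abs_mul, abs_two]
  linarith [abs_sub (c' * (v - u) * ((u ^ 2 + u * v + v ^ 2) / (u ^ 3 * v ^ 3)))
    ((c' - c) * (u ^ 3)⁻¹)]

lemma osc_piece {h h' : SL2} (hh : Cl h) (hh' : Cl h') {Ω Λ δ α β : ℝ} (d0 : 0 < δ) (d1 : δ ≤ 1)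
    (hN : |Ω| * Λ * δ ^ 3 = 1) (hp : |ea h' - ea h| ≤ Λ) (hq : |ec h' - ec h| ≤ Λ) (ha : -1 ≤ α)
    (hab : α ≤ β) (hb : β ≤ 2) (H : α = β ∨ ∀ z ∈ Icc α β,
      δ * Λ ≤ |ea h' - ea h - (ec h' - ec h) * z|) :
    ‖∫ z in α..β, ee (Ω * (mob h⁻¹ z - mob h'⁻¹ z))‖ ≤ 11 * δ := by
  rcases H with rfl | H
  · simp [d0.le]
  have sub : ∀ z ∈ Icc α β, z ∈ Icc (-1 : ℝ) 2 := fun z hz => ⟨ha.trans hz.1, hz.2.trans hb⟩
  have n : ∀ {g : SL2}, Cl g → ∀ z ∈ Icc α β, ea g - ec g * z ≠ 0 := fun hg z hz => by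
    linarith [(osc_den hg (sub z hz)).1]
  have N0 : 0 < |Ω| * Λ := by
    by_contra hc
    have := mul_nonpos_of_nonpos_of_nonneg (not_lt.1 hc) (pow_pos d0 3).le
    linarith
  have := osc_ns (φ := fun z => Ω * (mob h⁻¹ z - mob h'⁻¹ z))
    (φ₁ := fun z => Ω * (((ea h - ec h * z) ^ 2)⁻¹ - ((ea h' - ec h' * z) ^ 2)⁻¹))
    (φ₂ := fun z => Ω * (2 * ec h / (ea h - ec h * z) ^ 3 - 2 * ec h' / (ea h' - ec h' * z) ^ 3))
    (lam := |Ω| * Λ * δ) (M := |Ω| * Λ * 3) hab (by positivity)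
    (fun z hz => ((osc_d1 (n hh z hz)).sub (osc_d1 (n hh' z hz))).const_mul Ω)
    (fun z hz => ((osc_d2 (n hh z hz)).sub (osc_d2 (n hh' z hz))).const_mul Ω)
    (continuousOn_const.mul
      ((continuousOn_const.div (by fun_prop) fun z hz => pow_ne_zero 3 (n hh z hz)).sub
        (continuousOn_const.div (by fun_prop) fun z hz => pow_ne_zero 3 (n hh' z hz))))
    (fun z hz => by
      rw [abs_mul, mul_assoc, mul_comm Λ]
      refine mul_le_mul_of_nonneg_left ((H z hz).trans (le_trans (le_of_eq ?_)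
        (osc_lo (osc_den hh (sub z hz)) (osc_den hh' (sub z hz))))) (abs_nonneg _)
      congr 1; ring)
    (fun z hz => by
      rw [abs_mul, mul_assoc, mul_comm Λ]
      refine mul_le_mul_of_nonneg_left (osc_hi (osc_den hh (sub z hz)) (osc_den hh' (sub z hz))
        hh'.2.2.1 hq ?_) (abs_nonneg _)
      have e : ea h' - ec h' * z - (ea h - ec h * z) = ea h' - ea h - (ec h' - ec h) * z := by ring
      have b : |(ec h' - ec h) * z| ≤ Λ * 2 := by
        rw [abs_mul]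
        exact mul_le_mul hq (abs_le.2 ⟨by linarith [(sub z hz).1], (sub z hz).2⟩) (abs_nonneg _)
          ((abs_nonneg _).trans hq)
      rw [e]
      linarith [abs_sub (ea h' - ea h) ((ec h' - ec h) * z)])
  refine this.trans ?_
  have e : |Ω| * Λ = (δ ^ 3)⁻¹ := eq_inv_of_mul_eq_one_left hN
  have e1 : 2 / ((δ ^ 3)⁻¹ * δ) = 2 * δ * δ := by field_simp
  have e2 : (δ ^ 3)⁻¹ * 3 / ((δ ^ 3)⁻¹ * δ) ^ 2 = 3 * δ := by field_simp
  rw [e, e1, e2]
  nlinarith

theorem osc : ∃ C : ℝ, 0 ≤ C ∧ ∀ h h' : SL2, Cl h → Cl h' → ∀ Ω ρ α β : ℝ, 0 < ρ → Ω ≠ 0 →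
    (ρ < |ea h' - ea h| ∨ ρ < |ec h' - ec h|) → -1 ≤ α → α ≤ β → β ≤ 2 →
    ‖∫ z in α..β, ee (Ω * (mob h⁻¹ z - mob h'⁻¹ z))‖ ≤ C * (|Ω| * ρ) ^ (-(1 / 3) : ℝ) := by
  refine ⟨30, by norm_num, fun h h' hh hh' Ω ρ α β hρ hΩ hL ha hab hb => ?_⟩
  set p := ea h' - ea h
  set q := ec h' - ec h
  set Λ := max |p| |q| with hΛ
  have hρΛ : ρ < Λ := lt_max_iff.2 hL
  have L0 : 0 < Λ := hρ.trans hρΛ
  have O0 : 0 < |Ω| := abs_pos.2 hΩ
  set δ := (|Ω| * Λ) ^ (-(1 / 3) : ℝ) with hδ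
  have d0 : 0 < δ := by positivity
  have hN : |Ω| * Λ * δ ^ 3 = 1 := by
    rw [hδ, ← Real.rpow_natCast, ← Real.rpow_mul (by positivity)]
    norm_num
    rw [Real.rpow_neg_one, mul_inv_cancel₀ (by positivity)]
  refine le_trans ?_ (mul_le_mul_of_nonneg_left (Real.rpow_le_rpow_of_nonpos (by positivity)
    (mul_le_mul_of_nonneg_left hρΛ.le O0.le) (by norm_num)) (by norm_num))
  rw [← hδ]
  have triv : ∀ s t : ℝ, ‖∫ z in s..t, ee (Ω * (mob h⁻¹ z - mob h'⁻¹ z))‖ ≤ |t - s| := fun s t => by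
    simpa using intervalIntegral.norm_integral_le_of_norm_le_const (a := s) (b := t) (C := 1)
      (f := fun z => ee (Ω * (mob h⁻¹ z - mob h'⁻¹ z))) fun z _ => (norm_ee _).le
  rcases le_total (1 / 2) δ with d1 | d1
  · refine (triv α β).trans ?_
    rw [abs_of_nonneg (sub_nonneg.2 hab)]; linarith
  have pc := fun s t => osc_piece (α := s) (β := t) hh hh' d0 (by linarith) hN (le_max_left _ _)
    (le_max_right _ _)
  rcases lt_or_ge |q| (Λ / 4) with hq | hq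
  · refine (pc α β ha hab hb (Or.inr fun z hz => ?_)).trans (by linarith)
    have e : Λ = |p| := by
      rcases max_choice |p| |q| with e | e
      · exact e
      · linarith
    have b : |q * z| ≤ Λ / 4 * 2 := by
      rw [abs_mul]
      exact mul_le_mul hq.le (abs_le.2 ⟨by linarith [hz.1], hz.2.trans hb⟩) (abs_nonneg _)
        (by positivity)
    have := abs_sub_abs_le_abs_sub p (q * z)
    nlinarith
  have q0 : q ≠ 0 := abs_pos.1 (lt_of_lt_of_le (by positivity) hq)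
  have far : ∀ z, 4 * δ ≤ |p / q - z| → δ * Λ ≤ |p - q * z| := fun z hz => by
    rw [show p - q * z = q * (p / q - z) by field_simp, abs_mul]
    exact le_trans (le_of_eq (by ring)) (mul_le_mul hq hz (by positivity) (abs_nonneg _))
  set s := max α (min β (p / q - 4 * δ)) with hs
  set t := max α (min β (p / q + 4 * δ)) with ht
  have s1 : α ≤ s := le_max_left _ _
  have s2 : s ≤ t := max_le_max le_rfl (min_le_min le_rfl (by linarith))
  have s3 : t ≤ β := max_le hab (min_le_left _ _)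
  have s4 : t - s ≤ 8 * δ := by
    simp only [hs, ht, max_def, min_def]; split_ifs <;> linarith
  have ii : ∀ x y, α ≤ x → x ≤ y → y ≤ β → IntervalIntegrable
      (fun z => ee (Ω * (mob h⁻¹ z - mob h'⁻¹ z))) volume x y := fun x y h1 h2 h3 => by
    refine ContinuousOn.intervalIntegrable_of_Icc h2 fun z hz => ?_
    have m : z ∈ Icc (-1 : ℝ) 2 := ⟨by linarith [hz.1], by linarith [hz.2]⟩
    exact (osc_ee (((osc_d1 (by linarith [(osc_den hh m).1])).sub
      (osc_d1 (by linarith [(osc_den hh' m).1]))).const_mul Ω)).continuousAt.continuousWithinAt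
  have p1 := pc α s ha s1 (by linarith) (by
    rcases max_choice α (min β (p / q - 4 * δ)) with e | e
    · exact Or.inl e.symm
    · refine Or.inr fun z hz => far z (le_trans ?_ (le_abs_self _))
      linarith [hz.2, min_le_right β (p / q - 4 * δ)])
  have p3 := pc t β (by linarith) s3 hb (by
    rcases min_choice β (p / q + 4 * δ) with e | e
    · exact Or.inl (by rw [ht, e, max_eq_right hab])
    · refine Or.inr fun z hz => far z (le_trans ?_ (neg_le_abs _))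
      linarith [hz.1, le_max_right α (min β (p / q + 4 * δ))])
  have p2 := triv s t
  rw [abs_of_nonneg (sub_nonneg.2 s2)] at p2
  rw [← intervalIntegral.integral_add_adjacent_intervals (ii α t le_rfl (s1.trans s2) s3)
    (ii t β (s1.trans s2) s3 le_rfl), ← intervalIntegral.integral_add_adjacent_intervals
    (ii α s le_rfl s1 (s2.trans s3)) (ii s t s1 s2 s3)]
  refine (norm_add₃_le).trans ?_
  linarith

end Pool.Agent.Lib.MP_a52643_an.NS
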