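import Pool.Agent.Lib.MP_a52643_an.NS.Defs

/-!
Finite families of closed geodesics have spanning sets of bounded size.
-/

open MeasureTheory Set Filter Topology Metric UpperHalfPlane
open scoped ENNReal MatrixGroups Real

noncomputable section

namespace Pool.Agent.Lib.MP_a52643_an.NS

theorem closed_span {Γ : Type*} [Group Γ] [Countable Γ] [MulAction Γ ℍ] {l : Γ → SL2} {D : Set ℍ}
    (h : FD l D) {K : Set ℍ} (hK : IsCompact K) {S : Set (ℝ → ℍ)} (hS : S.Finite)
    (hg : ∀ c ∈ S, ∃ g : SL2, ∀ t, c t = g • pt 0 t)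
    (hT : ∀ c ∈ S, ∃ (γ : Γ) (T : ℝ), 0 < T ∧ ∀ t, γ • c t = c (t + T)) :
    ∀ᶠ T : ℝ in atTop, ∃ F : Finset (ℝ → ℍ), (F.card : ℝ) ≤ Real.exp (T / 10 ^ 14) ∧
      ∀ c ∈ S, ∀ (γ : Γ) (t : ℝ), γ • c t ∈ K →
        ∃ f ∈ F, ∀ s ∈ Icc (-T) T, dist (γ • c (t + s)) (f s) ≤ 1 := by
  have key : ∀ c ∈ S, ∃ F : Set (ℝ → ℍ), F.Finite ∧ ∀ (γ : Γ) (t : ℝ), γ • c t ∈ K →
      ∃ f ∈ F, ∀ s, dist (γ • c (t + s)) (f s) ≤ 1 := fun c hc => by
    obtain ⟨g, hg⟩ := hg c hc
    obtain ⟨δ, T, T0, hδ⟩ := hT c hc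
    have hd : ∀ s t, dist (c s) (c t) = |s - t| := fun s t => by
      rw [hg, hg, dist_smul, dist_pt_eq]
    have hz : ∀ (k : ℤ) t, δ ^ k • c t = c (t + k * T) := fun k => by
      induction k with
      | zero => simp
      | succ k ih => intro t; rw [zpow_add_one, mul_smul, hδ, ih]; congr 1; push_cast; ring
      | pred k ih =>
        intro t
        rw [zpow_sub_one, mul_smul, show δ⁻¹ • c t = c (t - T) by
          rw [inv_smul_eq_iff, hδ, sub_add_cancel], ih]
        congr 1; push_cast; ring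
    obtain ⟨R, hR⟩ := hK.isBounded.subset_closedBall I
    refine ⟨(fun p : Γ × ℕ => fun s => p.1 • c (p.2 + s)) ''
      ({γ : Γ | ∃ z ∈ closedBall I (max R (T + dist (c 0) I)),
        γ • z ∈ closedBall I (max R (T + dist (c 0) I))} ×ˢ Iic ⌈T⌉₊),
      ((h.finite _).prod (finite_Iic _)).image _, fun γ t ht => ?_⟩
    set k := ⌊t / T⌋
    have k1 : k * T ≤ t := by rw [← le_div_iff₀ T0]; exact Int.floor_le _
    have k2 : t < (k + 1) * T := by rw [← div_lt_iff₀ T0]; exact Int.lt_floor_add_one _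
    have e : ∀ s, (γ * δ ^ k) • c (t - k * T + s) = γ • c (t + s) := fun s => by
      rw [mul_smul, hz]; congr 2; ring
    refine ⟨_, ⟨(γ * δ ^ k, ⌊t - k * T⌋₊), ⟨⟨c (t - k * T + 0), ?_, ?_⟩, ?_⟩, rfl⟩, fun s => ?_⟩
    · have := dist_triangle (c (t - k * T + 0)) (c 0) I
      rw [hd, abs_of_nonneg (by linarith)] at this
      exact mem_closedBall.2 (le_max_of_le_right (by linarith))
    · rw [e, add_zero]; exact closedBall_subset_closedBall (le_max_left _ _) (hR ht)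
    · exact (Nat.floor_le_floor (by linarith)).trans (Nat.floor_le_ceil T)
    · have h1 := Nat.floor_le (show 0 ≤ t - k * T by linarith)
      have h2 := Nat.lt_floor_add_one (t - k * T)
      rw [← e, h.dist_eq, hd, abs_le]
      constructor <;> linarith
  choose! F hF using key
  have fin : (⋃ c ∈ S, F c).Finite := hS.biUnion fun c hc => (hF c hc).1
  have lim : Tendsto (fun T : ℝ => Real.exp (T / 10 ^ 14)) atTop atTop :=
    Real.tendsto_exp_atTop.comp (tendsto_id.atTop_div_const (by norm_num))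
  filter_upwards [lim.eventually_ge_atTop fin.toFinset.card] with T hT
  refine ⟨fin.toFinset, hT, fun c hc γ t ht => ?_⟩
  obtain ⟨f, hf, h'⟩ := (hF c hc).2 γ t ht
  exact ⟨f, fin.mem_toFinset.2 (mem_biUnion hc hf), fun s _ => h' s⟩

end Pool.Agent.Lib.MP_a52643_an.NS
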