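import Pool.Agent.Lib.MP_a52643_an.NS.Stat

/-!
Transversal crossings of a thin tube are short.
-/

open MeasureTheory Set Filter Topology Metric UpperHalfPlane
open scoped ENNReal MatrixGroups Real FourierTransform ComplexConjugate

noncomputable section

namespace Pool.Agent.Lib.MP_a52643_an.NS

private lemma cross_u (M : SL2) (τ : ℝ) : |(M • pt 0 (-τ)).re| * Real.exp τ
    = |eb M * ed M * Real.exp (2 * τ) + ea M * ec M| * (M • pt 0 (-τ)).im := by
  have h := re_act M 0 (-τ)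
  have e1 : Real.exp (-τ) * Real.exp τ = 1 := by rw [← Real.exp_add]; simp
  have e2 : Real.exp (2 * τ) = Real.exp τ * Real.exp τ := by rw [← Real.exp_add]; ring_nf
  have h2 : (M • pt 0 (-τ)).re * Real.exp τ
      = (eb M * ed M * Real.exp (2 * τ) + ea M * ec M) * (M • pt 0 (-τ)).im := by
    rw [e2]
    linear_combination (Real.exp τ * Real.exp τ) * h
      - ((M • pt 0 (-τ)).re * Real.exp τ
        - ea M * ec M * (M • pt 0 (-τ)).im * (Real.exp (-τ) * Real.exp τ + 1)) * e1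
  have h3 := congrArg abs h2
  rwa [abs_mul, abs_mul, abs_of_pos (Real.exp_pos τ), abs_of_pos (M • pt 0 (-τ)).im_pos] at h3

private lemma cross_sinh {x : ℝ} (h0 : 0 ≤ x) (h1 : x ≤ 1) : Real.sinh x ≤ 2 * x := by
  have a := abs_le.1 (Real.abs_exp_sub_one_sub_id_le (x := x) (by rwa [abs_of_nonneg h0]))
  have b := Real.add_one_le_exp (-x)
  rw [Real.sinh_eq]
  nlinarith [a.2]

private lemma cross_up {M : SL2} {t τ : ℝ} (h0 : 0 ≤ t) (h1 : t ≤ 1) (hτ : τ ≤ 1)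
    (h : Nr t (M • pt 0 (-τ))) : |eb M * ed M * Real.exp (2 * τ) + ea M * ec M| ≤ 6 * t := by
  have hi := (M • pt 0 (-τ)).im_pos
  have h3 : Real.exp τ ≤ 3 := (Real.exp_le_exp.2 hτ).trans (by linarith [Real.exp_one_lt_d9])
  have h4 : |(M • pt 0 (-τ)).re| ≤ 2 * t * (M • pt 0 (-τ)).im :=
    h.re_le.trans (mul_le_mul_of_nonneg_right (cross_sinh h0 h1) hi.le)
  refine le_of_mul_le_mul_right ?_ hi
  rw [← cross_u]
  calc _ ≤ 2 * t * (M • pt 0 (-τ)).im * 3 := by gcongr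
    _ = _ := by ring

private lemma cross_low {M : SL2} {τ : ℝ} (hτ : 0 ≤ τ) (h : ¬ Nr 1 (M • pt 0 (-τ))) :
    1 ≤ |eb M * ed M * Real.exp (2 * τ) + ea M * ec M| := by
  have hi := (M • pt 0 (-τ)).im_pos
  have h1 : 1 * (M • pt 0 (-τ)).im ≤ |(M • pt 0 (-τ)).re| := not_lt.1 fun k => h (Nr.of_re k)
  refine le_of_mul_le_mul_right ?_ hi
  rw [← cross_u]
  exact h1.trans (le_mul_of_one_le_right (abs_nonneg _) (Real.one_le_exp hτ))

private lemma cross_exp {x y : ℝ} (hx : 0 ≤ x) (hy : 0 ≤ y) :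
    |x - y| ≤ |Real.exp x - Real.exp y| := by
  wlog h : y ≤ x generalizing x y
  · rw [abs_sub_comm, abs_sub_comm (Real.exp x)]
    exact this hy hx (not_le.1 h).le
  have h1 := Real.add_one_le_exp (x - y)
  have h2 : Real.exp x = Real.exp y * Real.exp (x - y) := by rw [← Real.exp_add]; ring_nf
  have h3 := Real.one_le_exp hy
  rw [abs_of_nonneg (by linarith), abs_of_nonneg (by linarith [Real.exp_le_exp.2 h])]
  nlinarith [mul_le_mul_of_nonneg_left h1 (Real.exp_pos y).le]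

/-- one geodesic -/
private lemma cross_one {M : SL2} {t W σ : ℝ} (h0 : 0 ≤ t) (h1 : t ≤ 1 / 12) (hW : 1 ≤ W)
    (hσ : σ ∈ Icc 0 W) (h : ¬ Nr 1 (M • pt 0 (-σ))) :
    volume {τ ∈ Icc (0 : ℝ) 1 | Nr t (M • pt 0 (-τ))}
      ≤ ENNReal.ofReal (24 * Real.exp (2 * W) * t) := by
  rcases eq_empty_or_nonempty {τ ∈ Icc (0 : ℝ) 1 | Nr t (M • pt 0 (-τ))} with he | ⟨a, ha, ha'⟩
  · rw [he, measure_empty]
    exact zero_le
  have ua := cross_up h0 (by linarith) ha.2 ha'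
  have us := cross_low hσ.1 h
  set P := eb M * ed M
  set Q := ea M * ec M
  have hE := Real.exp_pos (2 * W)
  have hP : 1 / 2 ≤ |P| * Real.exp (2 * W) := by
    have k1 : |Real.exp (2 * σ) - Real.exp (2 * a)| ≤ Real.exp (2 * W) := by
      have b1 := Real.exp_le_exp.2 (show 2 * σ ≤ 2 * W by linarith [hσ.2])
      have b2 := Real.exp_le_exp.2 (show 2 * a ≤ 2 * W by linarith [ha.2])
      rw [abs_le]
      constructor <;> linarith [Real.exp_pos (2 * σ), Real.exp_pos (2 * a)]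
    have k2 := abs_sub_abs_le_abs_sub (P * Real.exp (2 * σ) + Q) (P * Real.exp (2 * a) + Q)
    rw [show P * Real.exp (2 * σ) + Q - (P * Real.exp (2 * a) + Q)
      = P * (Real.exp (2 * σ) - Real.exp (2 * a)) by ring, abs_mul] at k2
    linarith [mul_le_mul_of_nonneg_left k1 (abs_nonneg P)]
  have hsub : {τ ∈ Icc (0 : ℝ) 1 | Nr t (M • pt 0 (-τ))}
      ⊆ Icc (a - 12 * Real.exp (2 * W) * t) (a + 12 * Real.exp (2 * W) * t) := by
    rintro b ⟨hb, hb'⟩
    have ub := cross_up h0 (by linarith) hb.2 hb'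
    have k1 := cross_exp (show 0 ≤ 2 * b by linarith [hb.1]) (show 0 ≤ 2 * a by linarith [ha.1])
    have k2 := abs_sub (P * Real.exp (2 * b) + Q) (P * Real.exp (2 * a) + Q)
    rw [show P * Real.exp (2 * b) + Q - (P * Real.exp (2 * a) + Q)
      = P * (Real.exp (2 * b) - Real.exp (2 * a)) by ring, abs_mul] at k2
    rw [← mul_sub, abs_mul, abs_two] at k1
    have k3 : |P| * (2 * |b - a|) ≤ 12 * t := by
      linarith [mul_le_mul_of_nonneg_left k1 (abs_nonneg P)]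
    have k4 : |b - a| ≤ 12 * Real.exp (2 * W) * t := by
      nlinarith [mul_le_mul_of_nonneg_left k3 hE.le,
        mul_le_mul_of_nonneg_right hP (abs_nonneg (b - a))]
    have k5 := abs_le.1 k4
    exact ⟨by linarith [k5.1], by linarith [k5.2]⟩
  refine (measure_mono hsub).trans (le_of_eq ?_)
  rw [Real.volume_Icc]
  congr 1
  ring

private lemma cross_bp (g : SL2) (τ : ℝ) : bp (g * aG τ) = g • pt 0 (-τ) := by
  rw [bp_mul, bp_aG]

theorem Geo.cross {Λ L : Set SL2} (G : Geo Λ L) (w : ℝ) {e : ℝ} (he : 0 < e) :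
    ∃ ε > 0, ∀ ℓ, 0 < ℓ → 2000 * ℓ ≤ w → ∀ g, ¬ mb L 1 ℓ g →
      volume {τ ∈ Icc (0 : ℝ) 1 | bp (g * aG τ) ∈ tube L (3 * ε)} ≤ ENNReal.ofReal e := by
  obtain ⟨C, T₀, hC, hloc⟩ := G.loc 2
  obtain ⟨W, hW, hw⟩ : ∃ W : ℝ, 1 ≤ W ∧ w ≤ W := ⟨max 1 w, le_max_left _ _, le_max_right _ _⟩
  obtain ⟨D, hD⟩ : ∃ D : ℝ, D = 3 + C * Real.exp 1 := ⟨_, rfl⟩
  have D3 : 3 ≤ D := by rw [hD]; linarith [mul_pos (zero_lt_one.trans_le hC) (Real.exp_pos 1)]
  have hE := Real.exp_pos (2 * W)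
  have hη : 0 < min (e / (C * (24 * Real.exp (2 * W) * D))) (1 / (12 * D)) := by positivity
  have lim : Tendsto (fun T : ℝ => Real.exp (-(T / 2))) atTop (𝓝 0) :=
    Real.tendsto_exp_neg_atTop_nhds_zero.comp (tendsto_id.atTop_div_const two_pos)
  obtain ⟨T, hT, T1, T2⟩ := ((lim.eventually (gt_mem_nhds hη)).and
    ((eventually_ge_atTop T₀).and (eventually_ge_atTop 0))).exists
  have x1 := (lt_min_iff.1 hT).1.le
  have x2 := (lt_min_iff.1 hT).2.le
  rw [le_div_iff₀ (by positivity)] at x1 x2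
  have x3 : Real.exp (-T) ≤ Real.exp (-(T / 2)) := Real.exp_le_exp.2 (by linarith)
  have x4 : Real.exp (T / 10 ^ 14) * Real.exp (-T) ≤ Real.exp (-(T / 2)) := by
    rw [← Real.exp_add]
    exact Real.exp_le_exp.2 (by linarith)
  have ε0 := Real.exp_pos (-T)
  have t1 : D * Real.exp (-T) ≤ 1 / 12 := by nlinarith
  refine ⟨Real.exp (-T), ε0, fun ℓ hℓ hℓw g hg => ?_⟩
  obtain ⟨F, hF, hcard, hcov⟩ := hloc T T1 (g • pt 0 (-0))
  simp only [mb, not_forall] at hg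
  obtain ⟨i, hi, hs⟩ := hg
  have i0 : (0 : ℝ) ≤ i := Nat.cast_nonneg i
  have i1 : (i : ℝ) + 1 ≤ 2000 := by exact_mod_cast hi
  have one : ∀ G' ∈ F, volume {τ ∈ Icc (0 : ℝ) 1 | Nr (D * Real.exp (-T)) ((G' * g) • pt 0 (-τ))}
      ≤ ENNReal.ofReal (24 * Real.exp (2 * W) * (D * Real.exp (-T))) := by
    intro G' hG'
    by_cases k : Nr 1 ((G' * g) • pt 0 (-(i * ℓ)))
    · refine cross_one (σ := i * ℓ + ℓ) (by positivity) t1 hW ⟨by positivity, by nlinarith⟩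
        fun k' => hs ⟨G', hF hG', ?_, ?_⟩
      · rwa [cross_bp, ← mul_smul]
      · rwa [mul_assoc, ← aG_add, cross_bp, ← mul_smul]
    · exact cross_one (σ := i * ℓ) (by positivity) t1 hW ⟨by positivity, by nlinarith⟩ k
  have hsub : {τ ∈ Icc (0 : ℝ) 1 | bp (g * aG τ) ∈ tube L (3 * Real.exp (-T))} ⊆
      ⋃ G' ∈ F, {τ ∈ Icc (0 : ℝ) 1 | Nr (D * Real.exp (-T)) ((G' * g) • pt 0 (-τ))} := by
    rintro τ ⟨hτ, H, hH, hN⟩
    rw [cross_bp] at hN
    have d1 : dist (g • pt 0 (-τ)) (g • pt 0 (-0)) ≤ 1 := by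
      rw [dist_smul, dist_pt_eq, abs_le]
      constructor <;> linarith [hτ.1, hτ.2]
    have s1 : 3 * Real.exp (-T) ≤ 1 := by nlinarith
    obtain ⟨G', hG', k⟩ := hcov H hH ((hN.move (ρ := 1) (by
      rwa [dist_smul, dist_comm])).mono (by linarith))
    refine mem_iUnion₂.2 ⟨G', hG', hτ, ?_⟩
    have k1 := k 1 _ _ (by linarith) d1 hN
    rw [← mul_smul, sub_eq_add_neg, Real.exp_add] at k1
    exact k1.mono (le_of_eq (by rw [hD]; ring))
  refine (measure_mono hsub).trans ((measure_biUnion_finset_le _ _).trans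
    ((Finset.sum_le_sum one).trans ?_))
  rw [Finset.sum_const, nsmul_eq_mul, ← ENNReal.ofReal_natCast,
    ← ENNReal.ofReal_mul (Nat.cast_nonneg _)]
  refine ENNReal.ofReal_le_ofReal ?_
  calc (F.card : ℝ) * (24 * Real.exp (2 * W) * (D * Real.exp (-T)))
      ≤ C * Real.exp (T / 10 ^ 14) * (24 * Real.exp (2 * W) * (D * Real.exp (-T))) := by gcongr
    _ = Real.exp (T / 10 ^ 14) * Real.exp (-T) * (C * (24 * Real.exp (2 * W) * D)) := by ring
    _ ≤ Real.exp (-(T / 2)) * (C * (24 * Real.exp (2 * W) * D)) := by gcongr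
    _ ≤ e := x1

theorem bit_low {L : Set SL2} {P : Measure SL2} [IsProbabilityMeasure P] {ε ℓ e m p : ℝ}
    (he : 0 ≤ e) (hc : ∀ g, ¬ mb L 1 ℓ g →
      volume {τ ∈ Icc (0 : ℝ) 1 | bp (g * aG τ) ∈ tube L (3 * ε)} ≤ ENNReal.ofReal e)
    (hm : ∀ τ ∈ Icc (0 : ℝ) 1, m ≤ P.real (tm (p + τ) {g | bp g ∈ tube L (3 * ε)})) :
    m - e ≤ P.real (tm p {g | mb L 1 ℓ g}) := by
  have mB := measurableSet_tm p (measurableSet_mb L 1 ℓ)
  have mS : MeasurableSet {q : ℝ × SL2 | bp (q.2 * aG (p + q.1)) ∈ tube L (3 * ε)} :=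
    (measurableSet_tube L (3 * ε)).preimage (f := fun q : ℝ × SL2 => q.2 * aG (p + q.1))
      (by fun_prop)
  have e1 := Measure.prod_apply (μ := volume.restrict (Icc (0 : ℝ) 1)) (ν := P) mS
  have e2 := Measure.prod_apply_symm (μ := volume.restrict (Icc (0 : ℝ) 1)) (ν := P) mS
  have h1 : ENNReal.ofReal m ≤ ∫⁻ τ in Icc (0 : ℝ) 1,
      P (Prod.mk τ ⁻¹' {q : ℝ × SL2 | bp (q.2 * aG (p + q.1)) ∈ tube L (3 * ε)}) := by
    refine le_trans (le_of_eq ?_) (setLIntegral_mono' (f := fun _ => ENNReal.ofReal m)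
      measurableSet_Icc fun τ hτ => ?_)
    · simp
    · exact ENNReal.ofReal_le_of_le_toReal (hm τ hτ)
  have h2 : ∀ g : SL2, (volume.restrict (Icc (0 : ℝ) 1))
      ((fun τ => (τ, g)) ⁻¹' {q : ℝ × SL2 | bp (q.2 * aG (p + q.1)) ∈ tube L (3 * ε)})
      ≤ (tm p {g | mb L 1 ℓ g}).indicator 1 g + ENNReal.ofReal e := by
    intro g
    by_cases k : g ∈ tm p {g | mb L 1 ℓ g}
    · rw [indicator_of_mem k]
      refine (measure_mono (subset_univ _)).trans (le_add_right (le_of_eq ?_))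
      simp
    · rw [indicator_of_notMem k, zero_add, Measure.restrict_apply' measurableSet_Icc]
      refine le_trans (measure_mono ?_) (hc (g * aG p) k)
      rintro τ ⟨h, hτ⟩
      exact ⟨hτ, by rwa [mul_assoc, ← aG_add]⟩
  have h3 := (h1.trans (e1.symm.trans e2).le).trans (lintegral_mono h2)
  rw [lintegral_add_right _ measurable_const, lintegral_indicator_one mB, lintegral_const,
    measure_univ, mul_one, ← ofReal_measureReal, ← ENNReal.ofReal_add measureReal_nonneg he,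
    ENNReal.ofReal_le_ofReal_iff (add_nonneg measureReal_nonneg he)] at h3
  linarith

end Pool.Agent.Lib.MP_a52643_an.NS
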