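import Pool.Agent.Lib.MP_a52643_an.Fund

/-!
Definitions and elementary facts for the bound on the mass near geodesics of small entropy.
-/

open MeasureTheory Set Filter Topology Metric UpperHalfPlane
open scoped ENNReal MatrixGroups Real FourierTransform ComplexConjugate

noncomputable section

namespace Pool.Agent.Lib.MP_a52643_an.NS

/-! ### one-parameter subgroups -/

/-- geodesic flow, `aG t • z = exp (-t) * z` -/
def aG (t : ℝ) : SL2 := mkG (Real.exp (-t / 2)) 0 0 (Real.exp (t / 2)) (by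
  rw [← Real.exp_add, show -t / 2 + t / 2 = 0 by ring]; simp)

/-- unstable horocycle flow, `uG x • z = z + x` -/
def uG (x : ℝ) : SL2 := mkG 1 x 0 1 (by simp)

/-- stable horocycle flow, `vG s • z = z / (1 + s z)` -/
def vG (s : ℝ) : SL2 := mkG 1 0 s 1 (by simp)

def wG : SL2 := mkG 0 (-1) 1 0 (by simp)

/-- rotations about `I` -/
def kG (θ : ℝ) : SL2 := mkG (Real.sin θ) (Real.cos θ) (-Real.cos θ) (Real.sin θ) (by
  nlinarith [Real.sin_sq_add_cos_sq θ])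

/-- the point `x + i exp τ` -/
def pt (x τ : ℝ) : ℍ := ⟨⟨x, Real.exp τ⟩, Real.exp_pos τ⟩

@[simp] lemma pt_re (x τ : ℝ) : (pt x τ).re = x := rfl
@[simp] lemma pt_im (x τ : ℝ) : (pt x τ).im = Real.exp τ := rfl
lemma coe_pt (x τ : ℝ) : ((pt x τ : ℍ) : ℂ) = x + Real.exp τ * Complex.I := by
  apply Complex.ext <;> simp [pt, -Complex.ofReal_exp]

lemma exp_half (t : ℝ) : Real.exp (t / 2) * Real.exp (t / 2) = Real.exp t := by
  rw [← Real.exp_add]; ring_nf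

lemma exp_half' (t : ℝ) : Real.exp (-t / 2) * Real.exp (t / 2) = 1 := by
  rw [← Real.exp_add, show -t / 2 + t / 2 = 0 by ring]; simp

lemma aG_zero : aG 0 = 1 := by apply SL2_ext <;> simp [aG]

lemma aG_add (s t : ℝ) : aG (s + t) = aG s * aG t := by
  apply SL2_ext <;> simp [aG, ← Real.exp_add] <;> ring_nf

lemma aG_neg (t : ℝ) : aG (-t) = (aG t)⁻¹ := by
  apply SL2_ext <;> simp [aG]

lemma uG_zero : uG 0 = 1 := by apply SL2_ext <;> simp [uG]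

lemma uG_add (x y : ℝ) : uG (x + y) = uG x * uG y := by
  apply SL2_ext <;> simp [uG, add_comm]

lemma vG_zero : vG 0 = 1 := by apply SL2_ext <;> simp [vG]

lemma vG_add (x y : ℝ) : vG (x + y) = vG x * vG y := by
  apply SL2_ext <;> simp [vG]

lemma uG_aG (x t : ℝ) : uG x * aG t = aG t * uG (Real.exp t * x) := by
  apply SL2_ext <;> simp [uG, aG]
  rw [← exp_half t]; linear_combination (-(x * Real.exp (t / 2))) * exp_half' t

lemma vG_aG (s t : ℝ) : vG s * aG t = aG t * vG (Real.exp (-t) * s) := by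
  apply SL2_ext <;> simp [vG, aG]
  rw [← exp_half (-t)]; linear_combination (-(s * Real.exp (-t / 2))) * exp_half' t

lemma vG_neg (s : ℝ) : vG (-s) = wG * uG s * wG⁻¹ := by
  apply SL2_ext <;> simp [vG, wG, uG]

lemma wG_aG (t : ℝ) : wG⁻¹ * aG t = aG (-t) * wG⁻¹ := by
  apply SL2_ext <;> simp [wG, aG]

@[fun_prop] lemma measurable_aG : Measurable aG :=
  measurable_SL2 (by simp only [aG, ea_mkG]; fun_prop) (by simp [aG]) (by simp [aG])
    (by simp only [aG, ed_mkG]; fun_prop)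

@[fun_prop] lemma measurable_uG : Measurable uG :=
  measurable_SL2 (by simp [uG]) (by simp only [uG, eb_mkG]; fun_prop) (by simp [uG])
    (by simp [uG])

@[fun_prop] lemma measurable_vG : Measurable vG :=
  measurable_SL2 (by simp [vG]) (by simp [vG]) (by simp only [vG, ec_mkG]; fun_prop)
    (by simp [vG])

@[fun_prop] lemma measurable_kG : Measurable kG :=
  measurable_SL2 (by simp only [kG, ea_mkG]; fun_prop) (by simp only [kG, eb_mkG]; fun_prop)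
    (by simp only [kG, ec_mkG]; fun_prop) (by simp only [kG, ed_mkG]; fun_prop)

lemma pt_zero : pt 0 0 = I := by
  apply UpperHalfPlane.ext; rw [coe_pt]; simp

lemma uG_pt (y x τ : ℝ) : uG y • pt x τ = pt (x + y) τ := by
  apply UpperHalfPlane.ext; rw [coe_act, coe_pt, coe_pt]; simp [uG]; ring

lemma aG_pt (t x τ : ℝ) : aG t • pt x τ = pt (Real.exp (-t) * x) (τ - t) := by
  apply UpperHalfPlane.ext
  have h0 : (Real.exp (t / 2) : ℂ) ≠ 0 := by exact_mod_cast (Real.exp_pos _).ne'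
  have h1 : Real.exp (-t) * Real.exp (t / 2) = Real.exp (-t / 2) := by
    rw [← Real.exp_add]; ring_nf
  have h2 : Real.exp (τ - t) = Real.exp (-t) * Real.exp τ := by rw [← Real.exp_add]; ring_nf
  rw [coe_act, coe_pt, coe_pt, h2]
  simp only [aG, ea_mkG, eb_mkG, ec_mkG, ed_mkG, ← h1]
  push_cast [-Complex.ofReal_exp]
  field_simp
  ring

lemma bp_one : bp 1 = I := one_smul _ _

lemma bp_aG (t : ℝ) : bp (aG t) = pt 0 (-t) := by
  rw [bp, ← pt_zero, aG_pt]; simp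

lemma bp_wG : bp wG⁻¹ = I := by
  apply UpperHalfPlane.ext; rw [bp, coe_act]; simp [wG]

lemma bp_kG (θ : ℝ) : bp (kG θ) = I := by
  apply UpperHalfPlane.ext
  rw [bp, coe_act]
  simp only [kG, ea_mkG, eb_mkG, ec_mkG, ed_mkG, coe_I]
  have h : ((-Real.cos θ : ℝ) : ℂ) * Complex.I + (Real.sin θ : ℝ) ≠ 0 := by
    intro h
    have h1 := congrArg Complex.re h
    have h2 := congrArg Complex.im h
    simp [-Complex.ofReal_cos, -Complex.ofReal_sin] at h1 h2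
    have := Real.sin_sq_add_cos_sq θ
    rw [h1, h2] at this; simp at this
  rw [div_eq_iff h]
  push_cast [-Complex.ofReal_cos, -Complex.ofReal_sin]
  linear_combination (Real.cos θ : ℂ) * Complex.I_mul_I

lemma bp_uG_aG (g : SL2) (x t : ℝ) : bp (g * uG x * aG t) = g • pt x (-t) := by
  rw [mul_assoc, bp_mul, bp_mul, bp_aG, uG_pt, zero_add]

lemma bp_vG_aG (g : SL2) (s t : ℝ) : bp (g * vG (-s) * aG t) = (g * wG) • pt s t := by
  rw [vG_neg, show g * (wG * uG s * wG⁻¹) * aG t = g * wG * uG s * (wG⁻¹ * aG t) by group, wG_aG,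
    ← mul_assoc, bp_mul, bp_wG, ← bp, bp_uG_aG, neg_neg]

lemma dist_pt_le (x x' τ : ℝ) : dist (pt x τ) (pt x' τ) ≤ |x - x'| * Real.exp (-τ) := by
  refine (dist_le_dist_coe_div_sqrt _ _).trans (le_of_eq ?_)
  rw [pt_im, pt_im, Real.sqrt_mul_self (Real.exp_pos τ).le, coe_pt, coe_pt, Complex.dist_eq,
    add_sub_add_right_eq_sub, ← Complex.ofReal_sub, Complex.norm_real, Real.exp_neg]
  rfl

lemma dist_pt_eq (x τ τ' : ℝ) : dist (pt x τ) (pt x τ') = |τ - τ'| := by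
  rw [UpperHalfPlane.dist_of_re_eq (z := pt x τ) (w := pt x τ') rfl, pt_im, pt_im, Real.log_exp,
    Real.log_exp, Real.dist_eq]

@[fun_prop] lemma continuous_pt : Continuous fun p : ℝ × ℝ => pt p.1 p.2 := by
  refine isEmbedding_coe.continuous_iff.2 ?_
  have : UpperHalfPlane.coe ∘ (fun p : ℝ × ℝ => pt p.1 p.2)
      = fun p => p.1 + Real.exp p.2 * Complex.I := by ext p; exact coe_pt _ _
  rw [this]; fun_prop

/-! ### neighbourhoods of geodesics -/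

/-- `w` is within `t` of the imaginary axis -/
def Nr (t : ℝ) (w : ℍ) : Prop := ∃ τ : ℝ, dist w (pt 0 τ) < t

/-- both points are within `t` of one geodesic of the family -/
def near (L : Set SL2) (t : ℝ) (z z' : ℍ) : Prop := ∃ G ∈ L, Nr t (G • z) ∧ Nr t (G • z')

def tube (L : Set SL2) (ε : ℝ) : Set ℍ := {z | ∃ G ∈ L, Nr ε (G • z)}

lemma Nr.move {t ρ : ℝ} {w w' : ℍ} (h : Nr t w) (hd : dist w' w ≤ ρ) : Nr (t + ρ) w' := by
  obtain ⟨τ, hτ⟩ := h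
  exact ⟨τ, by linarith [dist_triangle w' w (pt 0 τ)]⟩

lemma Nr.mono {t t' : ℝ} {w : ℍ} (h : Nr t w) (ht : t ≤ t') : Nr t' w := by
  obtain ⟨τ, hτ⟩ := h
  exact ⟨τ, hτ.trans_le ht⟩

lemma Nr.re_le {t : ℝ} {w : ℍ} (h : Nr t w) : |w.re| ≤ Real.sinh t * w.im := by
  obtain ⟨τ, hτ⟩ := h
  have h0 : 0 ≤ dist w (pt 0 τ) := dist_nonneg
  have h1 : Real.cosh (dist w (pt 0 τ)) ≤ Real.cosh t :=
    Real.cosh_le_cosh.2 (by rw [abs_of_nonneg h0, abs_of_nonneg (by linarith)]; exact hτ.le)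
  have hv := w.im_pos
  have hy := Real.exp_pos τ
  rw [cosh_dist', pt_re, pt_im, sub_zero, div_le_iff₀ (by positivity)] at h1
  have h2 : 0 ≤ Real.sinh t := Real.sinh_nonneg_iff.2 (by linarith)
  refine abs_le_of_sq_le_sq' ?_ (by positivity) |> abs_le.2
  rw [mul_pow, Real.sinh_sq]
  nlinarith [sq_nonneg (Real.exp τ - Real.cosh t * w.im)]

lemma Nr.of_re {t : ℝ} {w : ℍ} (h : |w.re| < t * w.im) : Nr t w := by
  refine ⟨Real.log w.im, ?_⟩
  have e : w = pt w.re (Real.log w.im) := by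
    apply UpperHalfPlane.ext; rw [coe_pt, Real.exp_log w.im_pos]; exact (re_add_im w).symm
  have := dist_pt_le w.re 0 (Real.log w.im)
  rw [← e, sub_zero, Real.exp_neg, Real.exp_log w.im_pos] at this
  exact this.trans_lt (by rwa [← div_eq_mul_inv, div_lt_iff₀ w.im_pos])

/-- the quotient of real and imaginary part along a vertical line -/
lemma re_act (G : SL2) (x τ : ℝ) : (G • pt x τ).re * Real.exp τ
    = ((ea G * x + eb G) * (ec G * x + ed G) + ea G * ec G * Real.exp τ ^ 2) * (G • pt x τ).im := by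
  have hd := det_eq G
  rw [← coe_re, ← coe_im, coe_act, coe_pt]
  simp only [Complex.div_re, Complex.div_im, Complex.add_re, Complex.add_im, Complex.mul_re,
    Complex.mul_im, Complex.ofReal_re, Complex.ofReal_im, Complex.I_re, Complex.I_im]
  set n := Complex.normSq _
  simp only [div_eq_mul_inv]
  linear_combination (-((ea G * x + eb G) * (ec G * x + ed G) + ea G * ec G * Real.exp τ ^ 2)
    * Real.exp τ * n⁻¹) * hd

lemma near.move {L : Set SL2} {t ρ : ℝ} {z z' w w' : ℍ} (h : near L t z z') (h1 : dist w z ≤ ρ)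
    (h2 : dist w' z' ≤ ρ) : near L (t + ρ) w w' := by
  obtain ⟨G, hG, a, b⟩ := h
  exact ⟨G, hG, a.move (by rwa [dist_smul]), b.move (by rwa [dist_smul])⟩

lemma near.mono {L : Set SL2} {t t' : ℝ} {z z' : ℍ} (h : near L t z z') (ht : t ≤ t') :
    near L t' z z' := by
  obtain ⟨G, hG, a, b⟩ := h
  exact ⟨G, hG, a.mono ht, b.mono ht⟩

lemma near.symm {L : Set SL2} {t : ℝ} {z z' : ℍ} (h : near L t z z') : near L t z' z := by
  obtain ⟨G, hG, a, b⟩ := h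
  exact ⟨G, hG, b, a⟩

lemma isOpen_Nr (t : ℝ) : IsOpen {w : ℍ | Nr t w} := by
  have : {w : ℍ | Nr t w} = ⋃ τ, ball (pt 0 τ) t := by ext w; simp [Nr]
  rw [this]; exact isOpen_iUnion fun _ => isOpen_ball

lemma isOpen_near (L : Set SL2) (t : ℝ) : IsOpen {p : ℍ × ℍ | near L t p.1 p.2} := by
  have : {p : ℍ × ℍ | near L t p.1 p.2} = ⋃ G ∈ L, (fun p : ℍ × ℍ => G • p.1) ⁻¹' {w | Nr t w}
      ∩ (fun p : ℍ × ℍ => G • p.2) ⁻¹' {w | Nr t w} := by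
    ext p; simp only [near, mem_iUnion, mem_inter_iff, mem_preimage, mem_ofPred_eq, exists_prop]
  rw [this]
  exact isOpen_biUnion fun G _ => ((isOpen_Nr t).preimage (by fun_prop)).inter
    ((isOpen_Nr t).preimage (by fun_prop))

lemma isOpen_tube (L : Set SL2) (t : ℝ) : IsOpen (tube L t) := by
  have : tube L t = ⋃ G ∈ L, (fun z : ℍ => G • z) ⁻¹' {w | Nr t w} := by ext p; simp [tube]
  rw [this]
  exact isOpen_biUnion fun G _ => (isOpen_Nr t).preimage (by fun_prop)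

/-- `Λ` acts discretely and cocompactly, `L` is an invariant family of geodesics of small entropy
(the element `G` stands for the geodesic which it maps to the imaginary axis) -/
structure Geo (Λ L : Set SL2) : Prop where
  inv : ∀ γ ∈ Λ, ∀ G ∈ L, (∃ G' ∈ L, ∀ z : ℍ, G' • z = G • γ • z) ∧
    ∃ G' ∈ L, ∀ z : ℍ, G' • γ • z = G • z
  loc : ∀ R : ℝ, ∃ C T₀ : ℝ, 1 ≤ C ∧ ∀ T ≥ T₀, ∀ w : ℍ, ∃ F : Finset SL2, ↑F ⊆ L ∧
    (F.card : ℝ) ≤ C * Real.exp (T / 10 ^ 14) ∧ ∀ G ∈ L, Nr R (G • w) → ∃ G' ∈ F,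
      ∀ (ρ t : ℝ) (z : ℍ), t ≤ R → dist z w ≤ ρ → Nr t (G • z) →
        Nr (t + C * Real.exp (ρ - T)) (G' • z)
  orb : ∀ R : ℝ, ∃ N : ℕ, ∀ (z w : ℍ) (S : Finset SL2), ↑S ⊆ Λ →
    (∀ γ ∈ S, dist (γ • z) w ≤ R) → S.card ≤ N
  coc : ∃ R : ℝ, ∀ z : ℍ, ∃ γ ∈ Λ, dist (γ • z) I ≤ R

lemma Geo.near_iff {Λ L : Set SL2} (H : Geo Λ L) {γ : SL2} (hγ : γ ∈ Λ) (t : ℝ) (z z' : ℍ) :
    near L t (γ • z) (γ • z') ↔ near L t z z' := by
  constructor
  · rintro ⟨G, hG, a, b⟩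
    obtain ⟨G', hG', e⟩ := (H.inv γ hγ G hG).1
    exact ⟨G', hG', by rwa [e], by rwa [e]⟩
  · rintro ⟨G, hG, a, b⟩
    obtain ⟨G', hG', e⟩ := (H.inv γ hγ G hG).2
    exact ⟨G', hG', by rwa [e], by rwa [e]⟩

lemma mem_tube {L : Set SL2} {t : ℝ} {z : ℍ} : z ∈ tube L t ↔ near L t z z := by
  simp [tube, near]

lemma Geo.tube_iff {Λ L : Set SL2} (H : Geo Λ L) {γ : SL2} (hγ : γ ∈ Λ) (t : ℝ) (z : ℍ) :
    γ • z ∈ tube L t ↔ z ∈ tube L t := by
  rw [mem_tube, mem_tube, H.near_iff hγ]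

/-- left invariant sets -/
def LI (Λ A : Set SL2) : Prop := ∀ γ ∈ Λ, ∀ g, γ * g ∈ A ↔ g ∈ A

/-! ### the uncertainty property -/

def ee (t : ℝ) : ℂ := Complex.exp ((-2 * π * t : ℝ) * Complex.I)

@[simp] lemma norm_ee (t : ℝ) : ‖ee t‖ = 1 := Complex.norm_exp_ofReal_mul_I _

lemma ee_add (s t : ℝ) : ee (s + t) = ee s * ee t := by
  rw [ee, ee, ee, ← Complex.exp_add]; congr 1; push_cast; ring

@[fun_prop] lemma continuous_ee : Continuous ee := by unfold ee; fun_prop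

lemma ft_eq (f : ℝ → ℂ) (ξ : ℝ) : 𝓕 f ξ = ∫ x, ee (x * ξ) * f x := by
  rw [Real.fourier_real_eq_integral_exp_smul]
  simp only [ee, smul_eq_mul, mul_assoc]

/-- squared norm -/
def n2 (f : ℝ → ℂ) : ℝ≥0∞ := ∫⁻ x, ‖f x‖ₑ ^ 2

structure Nice (f : ℝ → ℂ) : Prop where
  meas : Measurable f
  bdd : ∃ B : ℝ, ∀ x, ‖f x‖ ≤ B
  supp : ∃ R : ℝ, ∀ x, R < |x| → f x = 0

/-- functions carried by `X` have at most the part `η` of their energy at frequencies in `Y` -/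
def UP (X Y : Set ℝ) (η : ℝ) : Prop :=
  ∀ f : ℝ → ℂ, Nice f → (∀ x, x ∉ X → f x = 0) → ∀ Ξ : ℝ,
    ∫⁻ ξ in Y ∩ Icc (-Ξ) Ξ, ‖𝓕 f ξ‖ₑ ^ 2 ≤ ENNReal.ofReal η * n2 f

lemma UP.mono {X X' Y Y' : Set ℝ} {η η' : ℝ} (h : UP X Y η) (hX : X' ⊆ X) (hY : Y' ⊆ Y)
    (hη : η ≤ η') : UP X' Y' η' := fun f hf hs Ξ =>
  (lintegral_mono_set (inter_subset_inter_left _ hY)).trans
    ((h f hf (fun x hx => hs x fun h' => hx (hX h')) Ξ).trans (by gcongr))

def nb (X : Set ℝ) (ρ : ℝ) : Set ℝ := {x | ∃ x' ∈ X, |x - x'| ≤ ρ}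

structure Fej (η : ℝ → ℝ) (c : ℝ) : Prop where
  cont : Continuous η
  nn : ∀ x, 0 ≤ η x
  le1 : ∀ x, η x ≤ 1
  int : Integrable η
  le : ∫ x, η x ≤ 1
  pos : 0 < c
  low : c ≤ ∫ x in Icc (-(1 / 2) : ℝ) (1 / 2), η x
  supp : ∀ x, 1 ≤ |x| → 𝓕 (fun y => (η y : ℂ)) x = 0

/-- weights whose mass on intervals is controlled by the measure of `Y` -/
structure Dom (Y : Set ℝ) (Ψ : ℝ → ℝ) : Prop where
  meas : Measurable Ψ
  nn : ∀ ξ, 0 ≤ Ψ ξ
  le1 : ∀ ξ, Ψ ξ ≤ 1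
  int : Integrable Ψ
  vol : ∀ R v : ℝ, 0 ≤ v → (∀ ζ, volume (Y ∩ Icc ζ (ζ + R)) ≤ ENNReal.ofReal v) →
    ∀ ζ, ∫ ξ in Icc ζ (ζ + R), Ψ ξ ≤ v

/-! ### porous sets and patterns -/

def nr (L : Set SL2) (t ℓ : ℝ) (g : SL2) (τ x : ℝ) : Prop :=
  near L t (g • pt x τ) (g • pt x (τ + ℓ))

def Zt (L : Set SL2) (t ℓ : ℝ) (g : SL2) (τ : ℝ) (a : Finset ℕ) : Set ℝ :=
  {x | ∀ j ∈ a, nr L t ℓ g (τ + j * ℓ) x}

def Zs (L : Set SL2) (t ℓ : ℝ) (g : SL2) (τ : ℝ) (b : Finset ℕ) : Set ℝ :=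
  {x | ∀ j ∈ b, nr L t ℓ g (-τ - (j + 1) * ℓ) x}

lemma isOpen_nr (L : Set SL2) (t ℓ : ℝ) (g : SL2) (τ : ℝ) : IsOpen {x | nr L t ℓ g τ x} :=
  (isOpen_near L t).preimage (f := fun x => (g • pt x τ, g • pt x (τ + ℓ))) (by
    have h : ∀ s, Continuous fun x => pt x s := fun s =>
      continuous_pt.comp (continuous_id.prodMk continuous_const)
    exact ((h _).const_smul g).prodMk ((h _).const_smul g))

lemma isOpen_Zt (L : Set SL2) (t ℓ : ℝ) (g : SL2) (τ : ℝ) (a : Finset ℕ) :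
    IsOpen (Zt L t ℓ g τ a) := by
  have : Zt L t ℓ g τ a = ⋂ j ∈ a, {x | nr L t ℓ g (τ + j * ℓ) x} := by ext x; simp [Zt]
  rw [this]; exact isOpen_biInter_finset fun _ _ => isOpen_nr _ _ _ _ _

lemma isOpen_Zs (L : Set SL2) (t ℓ : ℝ) (g : SL2) (τ : ℝ) (a : Finset ℕ) :
    IsOpen (Zs L t ℓ g τ a) := by
  have : Zs L t ℓ g τ a = ⋂ j ∈ a, {x | nr L t ℓ g (-τ - (j + 1) * ℓ) x} := by ext x; simp [Zs]
  rw [this]; exact isOpen_biInter_finset fun _ _ => isOpen_nr _ _ _ _ _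

lemma nr.move {L : Set SL2} {t ℓ τ x x' : ℝ} {g : SL2} (h : nr L t ℓ g τ x) (hℓ : 0 ≤ ℓ)
    (hx : |x' - x| ≤ Real.exp τ) : nr L (t + 1) ℓ g τ x' := by
  have k : ∀ s, τ ≤ s → dist (g • pt x' s) (g • pt x s) ≤ 1 := fun s hs => by
    rw [dist_smul]
    refine (dist_pt_le _ _ _).trans ?_
    rw [Real.exp_neg, ← div_eq_mul_inv, div_le_one (Real.exp_pos s)]
    exact hx.trans (Real.exp_le_exp.2 hs)
  exact near.move h (k _ le_rfl) (k _ (by linarith))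

/-- number of marked blocks in a window -/
def cd (a : Finset ℕ) (m k : ℕ) : ℝ := ((a ∩ Finset.Ico m k).card : ℝ)

/-- close to the identity -/
def Cl (h : SL2) : Prop :=
  |ea h - 1| ≤ 1 / 100 ∧ |eb h| ≤ 1 / 100 ∧ |ec h| ≤ 1 / 100 ∧ |ed h - 1| ≤ 1 / 100

def mob (h : SL2) (z : ℝ) : ℝ := (ea h * z + eb h) / (ec h * z + ed h)

/-- the small blocks of a set of large blocks -/
def up (a : Finset ℕ) : Finset ℕ := a.biUnion fun j => Finset.Ico (2000 * j) (2000 * (j + 1))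

lemma mem_up {a : Finset ℕ} {i : ℕ} : i ∈ up a ↔ i / 2000 ∈ a := by
  simp only [up, Finset.mem_biUnion, Finset.mem_Ico]
  constructor
  · rintro ⟨j, hj, h1, h2⟩
    rwa [show i / 2000 = j by omega]
  · exact fun h => ⟨_, h, by omega, by omega⟩

/-- some mass in the first window, a deficit in the last one -/
def Bad (n : ℕ) (a a' : Finset ℕ) : Prop :=
  n < 20 * (a ∩ Finset.range n).card ∧ 40 * (a' ∩ Finset.Ico (25 * n) (26 * n)).card < 39 * n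

/-- forbidden pairs of patterns -/
def Forb (c : ℝ) (n N : ℕ) (a b : Finset ℕ) : Prop :=
  c * n ≤ (a ∩ b).card ∨
    (N = 26 * n ∧ Bad n a a ∧ 960000000 * (Finset.range N \ (a ∪ b)).card ≤ n)

def sb (L : Set SL2) (t ℓ : ℝ) (g : SL2) : Prop := near L t (bp g) (bp (g * aG ℓ))

def mb (L : Set SL2) (t ℓ : ℝ) (g : SL2) : Prop := ∀ i < 2000, sb L t ℓ (g * aG ((i : ℕ) * ℓ))

open Classical in
def pat (L : Set SL2) (t ℓ : ℝ) (n : ℕ) (g : SL2) : Finset ℕ :=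
  (Finset.range n).filter fun j => mb L t ℓ (g * aG (j * (2000 * ℓ)))

def Cls (ρ w : ℝ) (g g' : SL2) : Prop :=
  ∀ τ ∈ Icc 0 w, dist (bp (g' * aG τ)) (bp (g * aG τ)) ≤ ρ

def Stp (ρ w : ℝ) (S S' : Set SL2) : Prop := ∀ g ∈ S, ∀ g', Cls ρ w g g' → g' ∈ S'

/-- the event `S` read at time `p` -/
def tm (p : ℝ) (S : Set SL2) : Set SL2 := {g | g * aG p ∈ S}

/-- the transfer inequality -/
def Tr (Λ : Set SL2) (P₀ P : Measure SL2) (R X Ξ T θ : ℝ) : Prop :=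
  ∀ A A' : Set SL2, MeasurableSet A → MeasurableSet A' → LI Λ A → LI Λ A' →
    (∀ g, UP {x | |x| ≤ X ∧ g * uG x ∉ A'} {ξ | |ξ| ≤ Ξ ∧ g * vG (-(ξ / R)) ∈ A} (θ ^ 2)) →
    P₀.real A ≤ P.real (tm (-T) A') + 30 * θ

/-! ### the principal series model -/

def Pk (z : ℍ) (y : ℝ) : ℝ := z.im / ((y - z.re) ^ 2 + z.im ^ 2)

def ev (r : ℝ) (z : ℍ) (y : ℝ) : ℂ :=
  Complex.exp ((1 / 2 + r * Complex.I) * Real.log (Pk z y))

def om (r : ℝ) (h : SL2) : ℂ := ∫ y, ev r (bp h) y * conj (ev r I y)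

def wt (r v : ℝ) : ℂ := Complex.exp (-(1 / 2 + r * Complex.I) * (Real.log v / 2 : ℝ))

/-- the state in the model, moved by `h` -/
def kE (r σ : ℝ) (h : SL2) (y : ℝ) : ℂ :=
  ∫ v in Ioc 1 (1 + σ), wt r v * ev r (bp (h * aG (Real.log v / 2))) y

/-- the state on the group -/
def kF (φ : ℍ → ℝ) (r σ : ℝ) (g : SL2) : ℂ :=
  ∫ v in Ioc 1 (1 + σ), wt r v * φ (bp (g * aG (Real.log v / 2)))

def cut (X : ℝ) (f : ℝ → ℂ) : ℝ → ℂ := (Icc (-X) X).indicator f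

/-- invariant measure on the quotient of the group -/
structure Quo (Λ : Set SL2) (ν : Measure SL2) : Prop where
  fin : IsFiniteMeasure ν
  right : ∀ F : SL2 → ℝ≥0∞, Measurable F → (∀ γ ∈ Λ, ∀ g, F (γ * g) = F g) →
    ∀ h, ∫⁻ g, F (g * h) ∂ν = ∫⁻ g, F g ∂ν

/-- a normalised eigenfunction with spectral parameter `r` -/
structure Rep (Λ : Set SL2) (ν : Measure SL2) (φ : ℍ → ℝ) (r : ℝ) : Prop extends Quo Λ ν where
  cont : Continuous φ
  bdd : ∃ B : ℝ, ∀ z, |φ z| ≤ B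
  inv : ∀ γ ∈ Λ, ∀ z : ℍ, φ (γ • z) = φ z
  one : ∫ g, φ (bp g) ^ 2 ∂ν = 1
  mv : ∀ g h : SL2, ((∫ θ in Ioo (-(π / 2)) (π / 2), φ (bp (g * kG θ * h)) : ℝ) : ℂ)
    = om r h * φ (bp g)

def Zm (ν : Measure SL2) (φ : ℍ → ℝ) (r σ : ℝ) : ℝ≥0∞ := ∫⁻ g, ‖kF φ r σ g‖ₑ ^ 2 ∂ν

def Pm (ν : Measure SL2) (φ : ℍ → ℝ) (r σ : ℝ) : Measure SL2 :=
  (Zm ν φ r σ)⁻¹ • ν.withDensity fun g => ‖kF φ r σ g‖ₑ ^ 2

/-- the estimates on two states which give the transfer inequality -/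
structure Jump (r σ T X X' Ξ e : ℝ) : Prop where
  σ0 : 0 < σ
  σ1 : σ ≤ 1
  pos : n2 (kE r σ 1) ≠ 0
  pos1 : n2 (kE r 1 1) ≠ 0
  tail : n2 (cut X' (kE r 1 (aG T)) - kE r 1 (aG T)) ≤ ENNReal.ofReal e * n2 (kE r 1 (aG T))
  move : ∀ x, |x| ≤ X' → n2 (fun y => cut X (kE r σ 1) (y - x) - cut X (kE r σ 1) y)
    ≤ ENNReal.ofReal e * n2 (kE r σ 1)
  freq : ∫⁻ ξ in {ξ | Ξ < |ξ|}, ‖𝓕 (cut X' (kE r 1 (aG T))) ξ‖ₑ ^ 2
    ≤ ENNReal.ofReal e * n2 (kE r 1 (aG T))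
  modu : ∀ ξ, |ξ| ≤ Ξ → n2 (fun y => kE r σ (vG (-(ξ / (r / π)))) y
    - ee (y * ξ) * cut X (kE r σ 1) y) ≤ ENNReal.ofReal e * n2 (kE r σ 1)

end Pool.Agent.Lib.MP_a52643_an.NS
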