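import Pool.Agent.Lib.MP_a52643_an.NS.Stat
import Pool.Agent.Lib.MP_a52643_an.NS.Layer

/-!
Exits from the tube are rare.
-/

open MeasureTheory Set Filter Topology Metric UpperHalfPlane
open scoped ENNReal MatrixGroups Real FourierTransform ComplexConjugate

noncomputable section

namespace Pool.Agent.Lib.MP_a52643_an.NS

structure Ctx (Λ L : Set SL2) (P : Measure SL2) (h ℓ θ m : ℝ) (n : ℕ) : Prop where
  geo : Geo Λ L
  prob : IsProbabilityMeasure P
  h1 : 1 ≤ h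
  l0 : 0 < ℓ
  hn : h = n * (2000 * ℓ)
  n1 : 384000000000 ≤ n
  t0 : 0 < θ
  t1 : θ ≤ 1 / 10 ^ 15
  m1 : 1 / 2 - 1 / 10 ^ 13 ≤ m
  tr : ∀ T, 4 * h ≤ T → T ≤ 46 * h →
    Tr Λ P P (Real.exp (100 * h)) (Real.exp (-49 * h)) (Real.exp (52 * h + T)) T θ
  bit : ∀ p, -46 * h ≤ p → p + 2000 * ℓ ≤ 46 * h → m ≤ P.real (tm p {g | mb L 3 ℓ g})
  fup : ∀ N ≤ 26 * n, ∀ (Φ Φ' : Finset ℕ → Prop) (t₁ t₂ : ℝ), t₁ ≤ 20 → t₂ ≤ 20 →
    (∀ a b, a ⊆ Finset.range N → b ⊆ Finset.range N → Φ a → Φ' b →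
      Forb (1 / 384000000000) n N a b) → ∀ (g : SL2) (p : ℝ),
    UP {x | Φ' (pat L t₂ ℓ N (g * uG x * aG (p + 100 * h)))}
      {ξ | Φ (pat L t₁ ℓ N (g * vG (-(ξ / Real.exp (100 * h))) * aG p))} (θ ^ 2)

variable {Λ L : Set SL2} {P : Measure SL2} {h ℓ θ m : ℝ} {n : ℕ}

private lemma end1_bit (C : Ctx Λ L P h ℓ θ m n) {t p : ℝ} (t0 : 3 ≤ t) (p0 : -46 * h ≤ p)
    (p1 : p ≤ 20 * h) {j : ℕ} (hj : j < 26 * n) :
    m ≤ P.real {g | j ∈ pat L t ℓ (26 * n) (g * aG p)} := by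
  have := C.prob
  have hl := C.l0
  have hj0 : (0 : ℝ) ≤ j := Nat.cast_nonneg j
  have hj1 : (j : ℝ) + 1 ≤ 26 * n := by exact_mod_cast hj
  have hb : (j : ℝ) * (2000 * ℓ) + 2000 * ℓ ≤ 26 * h := by
    rw [C.hn]; nlinarith
  have h0 : 0 ≤ (j : ℝ) * (2000 * ℓ) := by positivity
  refine (C.bit (p + j * (2000 * ℓ)) (by linarith) (by linarith)).trans
    (measureReal_mono (fun g hg => ?_) (measure_ne_top _ _))
  have hg' : mb L 3 ℓ (g * aG (p + j * (2000 * ℓ))) := hg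
  show j ∈ pat L t ℓ (26 * n) (g * aG p)
  rw [mem_pat, mul_assoc, ← aG_add]
  exact ⟨hj, hg'.mono t0⟩

open Classical in
private lemma end1_forb {n j H : ℕ} (hH : (1 / 384000000000 : ℝ) * n ≤ H) {a b : Finset ℕ}
    (ha : a ⊆ Finset.range (26 * n)) (hb : b ⊆ Finset.range (26 * n))
    (h1 : j ≤ a.card + if Bad n a a then n / 960000000 else 0)
    (h2 : ¬ j + b.card ≤ 26 * n + H) : Forb (1 / 384000000000) n (26 * n) a b := by
  by_cases hc : (1 / 384000000000 : ℝ) * n ≤ (a ∩ b).card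
  · exact Or.inl hc
  have hc' : (a ∩ b).card < H := by exact_mod_cast (not_le.1 hc).trans_le hH
  have hu : a ∪ b ⊆ Finset.range (26 * n) := Finset.union_subset ha hb
  have e1 := Finset.card_union_add_card_inter a b
  have e2 := Finset.card_sdiff_add_card_eq_card hu
  rw [Finset.card_range] at e2
  by_cases hB : Bad n a a
  · rw [if_pos hB] at h1
    exact Or.inr ⟨rfl, hB, by omega⟩
  · rw [if_neg hB] at h1
    omega

private lemma end1_li (G : Geo Λ L) (t ℓ : ℝ) (N : ℕ) (Φ : Finset ℕ → Prop) :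
    LI Λ {g | Φ (pat L t ℓ N g)} := fun γ hγ g => by
  simp only [mem_ofPred_eq, G.pat_inv t ℓ N hγ g]

private lemma end1_jump (C : Ctx Λ L P h ℓ θ m n) {t : ℝ} (t1 : t ≤ 20)
    (Φ Ψ : Finset ℕ → Prop)
    (hF : ∀ a b, a ⊆ Finset.range (26 * n) → b ⊆ Finset.range (26 * n) → Φ a → ¬ Ψ b →
      Forb (1 / 384000000000) n (26 * n) a b) :
    P.real {g | Φ (pat L t ℓ (26 * n) (g * aG (-46 * h)))}
      ≤ P.real {g | Ψ (pat L 3 ℓ (26 * n) (g * aG (20 * h)))} + 30 * θ := by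
  have h1 := C.h1
  have key := C.tr (34 * h) (by linarith) (by linarith)
    (tm (-46 * h) {g | Φ (pat L t ℓ (26 * n) g)}) (tm (54 * h) {g | Ψ (pat L 3 ℓ (26 * n) g)})
    (measurableSet_tm _ (measurableSet_pat L t ℓ _ Φ))
    (measurableSet_tm _ (measurableSet_pat L 3 ℓ _ Ψ))
    ((end1_li C.geo t ℓ _ Φ).tm _) ((end1_li C.geo 3 ℓ _ Ψ).tm _) (fun g => by
      have u := C.fup (26 * n) le_rfl Φ (fun b => ¬ Ψ b) t 3 t1 (by norm_num) hF g (-46 * h)
      rw [show -46 * h + 100 * h = 54 * h by ring] at u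
      exact u.mono (fun x hx => hx.2) (fun ξ hξ => hξ.2) le_rfl)
  rw [tm_tm, show -(34 * h) + 54 * h = 20 * h by ring] at key
  exact key

theorem Ctx.bad0 (C : Ctx Λ L P h ℓ θ m n) {t : ℝ} (t0 : 3 ≤ t) (t1 : t ≤ 20) :
    P.real (tm (-46 * h) {g | Bad n (pat L t ℓ (26 * n) g) (pat L t ℓ (26 * n) g)}) ≤ 1 / 20 := by
  classical
  have := C.prob
  have h1 := C.h1
  have hn : (384000000000 : ℝ) ≤ n := by exact_mod_cast C.n1
  set H : ℕ := n / 384000000000 + 1 with hHd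
  set K : ℕ := n / 960000000 with hKd
  have hH1 : (1 / 384000000000 : ℝ) * n ≤ H := by
    have : n ≤ 384000000000 * H := by omega
    have h' : (n : ℝ) ≤ 384000000000 * H := by exact_mod_cast this
    linarith
  have hH2 : (384000000000 : ℝ) * H ≤ n + 384000000000 := by
    have : 384000000000 * H ≤ n + 384000000000 := by omega
    exact_mod_cast this
  have hK1 : (n : ℝ) ≤ 960000000 * K + 960000000 := by
    have : n ≤ 960000000 * K + 960000000 := by omega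
    exact_mod_cast this
  have hK2 : (K : ℝ) ≤ n := by
    have : K ≤ n := by omega
    exact_mod_cast this
  have main := layer (P := P) (N := 26 * n) (K := K) (H := H)
    (a := fun g => pat L t ℓ (26 * n) (g * aG (-46 * h)))
    (b := fun g => pat L 3 ℓ (26 * n) (g * aG (20 * h)))
    (fun g => pat_subset _ _ _ _ _) (fun g => pat_subset _ _ _ _ _)
    (fun Φ => measurableSet_tm _ (measurableSet_pat L t ℓ _ Φ))
    (fun Φ => measurableSet_tm _ (measurableSet_pat L 3 ℓ _ Φ)) (fun a => Bad n a a)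
    (m := m) (e := 30 * θ)
    (fun j hj => end1_bit C t0 le_rfl (by linarith) hj)
    (fun j hj => end1_bit C le_rfl (by linarith) le_rfl hj)
    (fun j => end1_jump C t1 (fun a => j ≤ a.card + if Bad n a a then K else 0)
      (fun b => j + b.card ≤ 26 * n + H) fun a b ha hb u v => end1_forb hH1 ha hb (by convert u) v)
  change K * P.real (tm (-46 * h)
    {g | Bad n (pat L t ℓ (26 * n) g) (pat L t ℓ (26 * n) g)}) ≤ _ at main
  push_cast at main
  have hm := C.m1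
  have ht0 := C.t0
  have ht1 := C.t1
  have b1 : (26 * n : ℝ) * (1 - 2 * m) ≤ 26 * n * (2 / 10 ^ 13) :=
    mul_le_mul_of_nonneg_left (by linarith) (by positivity)
  have b2 : (26 * n + K : ℝ) * (30 * θ) ≤ 27 * n * (30 / 10 ^ 15) :=
    mul_le_mul (by linarith) (by linarith) (by positivity) (by positivity)
  by_contra hc
  have hK0 : (0 : ℝ) ≤ K := Nat.cast_nonneg K
  have b3 := mul_le_mul_of_nonneg_left (not_le.1 hc).le hK0
  linarith

private lemma end1_meas (L : Set SL2) (t t' ℓ : ℝ) (n : ℕ) :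
    MeasurableSet {g | Bad n (pat L t ℓ (26 * n) g) (pat L t' ℓ (26 * n) g)} :=
  (measurableSet_pat L t ℓ (26 * n) fun a => n < 20 * (a ∩ Finset.range n).card).inter
    (measurableSet_pat L t' ℓ (26 * n)
      fun a => 40 * (a ∩ Finset.Ico (25 * n) (26 * n)).card < 39 * n)

private lemma end1_li2 (G : Geo Λ L) (t t' ℓ : ℝ) (n : ℕ) :
    LI Λ {g | Bad n (pat L t ℓ (26 * n) g) (pat L t' ℓ (26 * n) g)} := fun γ hγ g => by
  simp only [mem_ofPred_eq, G.pat_inv _ ℓ _ hγ g]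

private lemma end1_stp (C : Ctx Λ L P h ℓ θ m n) {s s' t t' : ℝ} (hs : s' = s + 1)
    (ht : t = t' + 1) :
    Stp 1 (26 * h) {g | Bad n (pat L s ℓ (26 * n) g) (pat L t ℓ (26 * n) g)}
      {g | Bad n (pat L s' ℓ (26 * n) g) (pat L t' ℓ (26 * n) g)} := by
  subst hs ht
  intro g hg g' hc
  have e : 26 * h = ((26 * n : ℕ) : ℝ) * (2000 * ℓ) := by rw [C.hn]; push_cast; ring
  rw [e] at hc
  have a1 := Finset.card_le_card (Finset.inter_subset_inter_right (u := Finset.range n)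
    (pat_move (L := L) (t := s) C.l0.le hc))
  have a2 := Finset.card_le_card
    (Finset.inter_subset_inter_right (u := Finset.Ico (25 * n) (26 * n))
      (pat_move (L := L) (t := t') C.l0.le hc.symm))
  obtain ⟨b1, b2⟩ := hg
  exact ⟨by omega, by omega⟩

theorem Ctx.bad (C : Ctx Λ L P h ℓ θ m n) {t p : ℝ} (t0 : 1 ≤ t) (t1 : t ≤ 18)
    (p0 : -46 * h ≤ p) (p1 : p ≤ 20 * h) :
    P.real (tm p {g | Bad n (pat L t ℓ (26 * n) g) (pat L (t + 4) ℓ (26 * n) g)})
      ≤ 1 / 20 + 60 * θ := by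
  have := C.prob
  have h1 := C.h1
  have a := transport (Λ := Λ) (w := 26 * h) (p := p) (q := -46 * h) h1 C.tr
    (end1_meas L t (t + 4) ℓ n) (end1_meas L (t + 1) (t + 3) ℓ n) (end1_meas L (t + 2) (t + 2) ℓ n)
    (end1_li2 C.geo _ _ ℓ n) (end1_li2 C.geo _ _ ℓ n) (end1_li2 C.geo _ _ ℓ n)
    (end1_stp C rfl (by ring)) (end1_stp C (by ring) (by ring))
    (by linarith) le_rfl p0 (by linarith) le_rfl (by linarith)
  have b := C.bad0 (t := t + 2) (by linarith) (by linarith)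
  linarith

end Pool.Agent.Lib.MP_a52643_an.NS
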