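import Pool.Agent.Lib.MP_a52643_an.NS.End2
import Pool.Agent.Lib.MP_a52643_an.NS.Fup
import Pool.Agent.Lib.MP_a52643_an.NS.Cross

/-!
The bound on the mass of the tube for measures with transfer inequalities.
-/

open MeasureTheory Set Filter Topology Metric UpperHalfPlane
open scoped ENNReal MatrixGroups Real FourierTransform ComplexConjugate

noncomputable section

namespace Pool.Agent.Lib.MP_a52643_an.NS

theorem Geo.endgame {Λ L : Set SL2} (G : Geo Λ L) : ∃ ε > 0, ∃ h₀ : ℝ, ∀ h ≥ h₀,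
    ∀ P₀ P : Measure SL2, IsProbabilityMeasure P →
    (∀ T, 4 * h ≤ T → T ≤ 46 * h → Tr Λ P P (Real.exp (100 * h)) (Real.exp (-49 * h))
      (Real.exp (52 * h + T)) T (1 / 10 ^ 16)) →
    (∀ T, 22 * h ≤ T → T ≤ 23 * h → Tr Λ P₀ P (Real.exp (100 * h)) (Real.exp (-31 * h))
      (Real.exp (52 * h + T)) T (1 / 10 ^ 16)) →
    P₀.real {g | bp g ∈ tube L (2 * ε)} ≤ 1 / 2 - 2 / 10 ^ 14 := by
  obtain ⟨ℓ₁, l1, hf⟩ := G.fupu (t := 20) (c := 1 / 384000000000) (by norm_num) le_rfl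
  obtain ⟨ε, hε, hc⟩ := G.cross (4000 * ℓ₁) (e := 1 / 10 ^ 14) (by norm_num)
  refine ⟨ε, hε, max (2000 * ℓ₁ * 384000000000) (2 / ε), fun h hh P₀ P hP tr tr₀ => ?_⟩
  have hh1 : 2000 * ℓ₁ * 384000000000 ≤ h := (le_max_left _ _).trans hh
  have hh2 : 2 / ε ≤ h := (le_max_right _ _).trans hh
  have h1 : 1 ≤ h := by linarith
  set n := ⌊h / (2000 * ℓ₁)⌋₊ with hn
  have n1 : 384000000000 ≤ n := Nat.le_floor (by
    rw [le_div_iff₀ (by linarith)]; push_cast; linarith)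
  have n1' : (384000000000 : ℝ) ≤ n := by exact_mod_cast n1
  have n2 : (n : ℝ) * (2000 * ℓ₁) ≤ h := by
    rw [← le_div_iff₀ (by linarith)]; exact Nat.floor_le (by positivity)
  have n3 : h < (n + 1) * (2000 * ℓ₁) := by
    rw [← div_lt_iff₀ (by linarith)]; exact Nat.lt_floor_add_one _
  set ℓ := h / (2000 * n) with hℓ
  have e1 : h = n * (2000 * ℓ) := by rw [hℓ]; field_simp
  have l2 : ℓ₁ ≤ ℓ := by rw [hℓ, le_div_iff₀ (by linarith)]; linarith
  have l3 : 2000 * ℓ ≤ 4000 * ℓ₁ := by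
    have : ℓ ≤ 2 * ℓ₁ := by rw [hℓ, div_le_iff₀ (by linarith)]; nlinarith
    linarith
  have l0 : 0 < ℓ := by linarith
  have l4 : 2000 * ℓ ≤ h := by rw [e1]; nlinarith
  by_contra hm
  push Not at hm
  have ex : ∀ x, x ≤ -h → Real.exp x ≤ ε / 2 := fun x hx => by
    have h2 : Real.exp x ≤ Real.exp (-h) := Real.exp_le_exp.2 hx
    have h3 := Real.add_one_le_exp h
    rw [div_le_iff₀ hε] at hh2
    rw [Real.exp_neg, ← one_div] at h2
    refine h2.trans ?_
    rw [div_le_iff₀ (Real.exp_pos h)]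
    nlinarith
  have s1 : ∀ τ ∈ Icc (0 : ℝ) 1, 1 / 2 - 2 / 10 ^ 14 - 30 * (1 / 10 ^ 16)
      ≤ P.real (tm (-22 * h - 1 + τ) {g | bp g ∈ tube L (3 * ε)}) := fun τ hτ => by
    have := (tr₀ (22 * h + 1 - τ) (by linarith [hτ.2]) (by linarith [hτ.1])).stat (p := 0) (w := 0)
      (ρ := ε) (Real.exp_pos _) (measurableSet_tube L (2 * ε)) (measurableSet_tube L _)
      (G.LI_tube _) (G.LI_tube (3 * ε)) (fun g hg g' hg' => by
        have h2 := hg' 0 ⟨le_rfl, le_rfl⟩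
        rw [aG_zero, mul_one, mul_one] at h2
        rw [mem_ofPred_eq, mem_tube] at hg ⊢
        exact (hg.move h2 h2).mono (by linarith)) (by
        rw [← Real.exp_sub, ← Real.exp_add, ← Real.exp_add]
        exact (add_le_add (ex _ (by linarith [hτ.1])) (ex _ (by linarith))).trans
          (by linarith))
    rw [show tm 0 {g | bp g ∈ tube L (2 * ε)} = {g | bp g ∈ tube L (2 * ε)} by
      ext g; simp [tm, aG_zero], show 0 - (22 * h + 1 - τ) = -22 * h - 1 + τ by ring] at this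
    linarith
  have s2 := bit_low (by norm_num) (hc ℓ l0 l3) s1
  refine Ctx.elim (m := 1 / 2 - 1 / 10 ^ 13) (n := n) ⟨G, hP, h1, l0, e1, n1, by norm_num,
    by norm_num, le_rfl, tr, fun p p0 p1 => ?_, fun N hN Φ Φ' t₁ t₂ a b c g p => ?_⟩
  · have := transport h1 tr (w := 2000 * ℓ) (p := -22 * h - 1) (q := p) (measurableSet_mb L 1 ℓ)
      (measurableSet_mb L (1 + 1) ℓ) (measurableSet_mb L (1 + 1 + 1) ℓ) (G.LI_mb _ _) (G.LI_mb _ _)
      (G.LI_mb _ _) (fun g hg g' h' => mb.move hg l0.le h') (fun g hg g' h' => mb.move hg l0.le h')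
      (by linarith) (by linarith) (by linarith) (by linarith) p0 p1
    rw [show (1 : ℝ) + 1 + 1 = 3 by norm_num] at this
    linarith
  · refine (hf ℓ l2 n N hN Φ Φ' t₁ t₂ a b c g p (100 * h)).mono subset_rfl subset_rfl ?_
    have h2 : (n : ℝ) ^ 3 / (Nat.factorial 3 : ℕ) ≤ Real.exp n :=
      Real.pow_div_factorial_le_exp _ (by linarith) 3
    have h3 : (384000000000 : ℝ) ^ 3 ≤ (n : ℝ) ^ 3 := by gcongr
    rw [Real.exp_neg, inv_le_comm₀ (Real.exp_pos _) (by norm_num)]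
    norm_num [Nat.factorial] at h2 h3 ⊢
    linarith

end Pool.Agent.Lib.MP_a52643_an.NS
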