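import Pool.Agent.Lib.MP_a52643_an.NS.Defs

/-!
Elementary facts on the model vectors.
-/

open MeasureTheory Set Filter Topology Metric UpperHalfPlane
open scoped ENNReal MatrixGroups Real FourierTransform ComplexConjugate

noncomputable section

namespace Pool.Agent.Lib.MP_a52643_an.NS

lemma Pk_pos (z : ℍ) (y : ℝ) : 0 < Pk z y := by
  have := z.im_pos
  unfold Pk; positivity

lemma norm_exp_s0 (r x : ℝ) :
    ‖Complex.exp ((1 / 2 + r * Complex.I) * x)‖ = Real.exp (x / 2) := by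
  rw [Complex.norm_exp]; congr 1; simp; ring

lemma norm_exp_neg_s0 (r x : ℝ) :
    ‖Complex.exp (-(1 / 2 + r * Complex.I) * x)‖ = Real.exp (-x / 2) := by
  rw [← norm_exp_s0 r (-x)]; congr 2; push_cast; ring

lemma norm_ev_sq (r : ℝ) (z : ℍ) (y : ℝ) : ‖ev r z y‖ ^ 2 = Pk z y := by
  rw [ev, norm_exp_s0, sq, exp_half, Real.exp_log (Pk_pos z y)]

lemma Pk_eq (z : ℍ) : Pk z = fun y => z.im⁻¹ * (1 + (z.im⁻¹ * (y - z.re)) ^ 2)⁻¹ := by
  have := z.im_pos
  ext y; unfold Pk; field_simp; ring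

lemma integrable_Pk (z : ℍ) : Integrable (Pk z) := by
  rw [Pk_eq]
  exact ((integrable_inv_one_add_sq.comp_mul_left' (inv_ne_zero z.im_pos.ne')).comp_sub_right
    z.re).const_mul _

lemma integral_Pk (z : ℍ) : ∫ y, Pk z y = π := by
  have := z.im_pos
  rw [Pk_eq, integral_const_mul,
    integral_sub_right_eq_self (fun y : ℝ => (1 + (z.im⁻¹ * y) ^ 2)⁻¹) z.re,
    Measure.integral_comp_mul_left (fun y : ℝ => (1 + y ^ 2)⁻¹), integral_univ_inv_one_add_sq,
    inv_inv, abs_of_pos this, smul_eq_mul]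
  field_simp

lemma measurable_ev (r : ℝ) : Measurable fun p : ℍ × ℝ => ev r p.1 p.2 := by
  have h1 : Measurable fun p : ℍ × ℝ => p.1.im := continuous_im.measurable.comp measurable_fst
  have h2 : Measurable fun p : ℍ × ℝ => p.1.re := continuous_re.measurable.comp measurable_fst
  unfold ev Pk
  fun_prop

lemma measurable_wt (r : ℝ) : Measurable (wt r) := by
  unfold wt; fun_prop

lemma norm_wt_le (r : ℝ) {v : ℝ} (hv : 1 ≤ v) : ‖wt r v‖ ≤ 1 := by
  rw [wt, norm_exp_neg_s0, Real.exp_le_one_iff]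
  linarith [Real.log_nonneg hv]

lemma Q_pos {v : ℝ} (hv : 0 < v) (h : SL2) (y : ℝ) :
    0 < (ea h - ec h * y) ^ 2 + v * (ed h * y - eb h) ^ 2 := by
  have hd := det_eq h
  by_contra hn
  have h0 : 0 ≤ v * (ed h * y - eb h) ^ 2 := by positivity
  have h1 : ea h - ec h * y = 0 := by nlinarith [sq_nonneg (ea h - ec h * y)]
  have h2 : v * (ed h * y - eb h) ^ 2 = 0 := by nlinarith [sq_nonneg (ea h - ec h * y)]
  have h3 : ed h * y - eb h = 0 := by simpa [hv.ne'] using h2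
  have : (1 : ℝ) = 0 := by linear_combination ed h * h1 + ec h * h3 - hd
  simp at this

lemma Pk_act (h : SL2) (τ y : ℝ) : Pk (h • pt 0 τ) y
    = Real.exp τ / ((ea h - ec h * y) ^ 2 * Real.exp τ ^ 2 + (ed h * y - eb h) ^ 2) := by
  have hd := det_eq h
  have he := Real.exp_pos τ
  have hn : 0 < ed h ^ 2 + ec h ^ 2 * Real.exp τ ^ 2 := by
    by_contra hn
    have h1 : ed h = 0 := by nlinarith [sq_nonneg (ed h), sq_nonneg (ec h * Real.exp τ)]
    have h2 : ec h * Real.exp τ = 0 := by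
      nlinarith [sq_nonneg (ed h), sq_nonneg (ec h * Real.exp τ)]
    have h3 : ec h = 0 := by simpa [he.ne'] using h2
    simp [h1, h3] at hd
  have e1 : (h • pt 0 τ).re = (eb h * ed h + ea h * ec h * Real.exp τ ^ 2)
      / (ed h ^ 2 + ec h ^ 2 * Real.exp τ ^ 2) := by
    rw [← coe_re, coe_act, coe_pt]
    simp [Complex.div_re, Complex.normSq_apply, -Complex.ofReal_exp]
    rw [← add_div]; congr 1 <;> ring
  have e2 : (h • pt 0 τ).im = Real.exp τ / (ed h ^ 2 + ec h ^ 2 * Real.exp τ ^ 2) := by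
    rw [← coe_im, coe_act, coe_pt]
    simp [Complex.div_im, Complex.normSq_apply, -Complex.ofReal_exp]
    rw [← sub_div]; congr 1
    · linear_combination Real.exp τ * hd
    · ring
  have key : (y - (h • pt 0 τ).re) ^ 2 + (h • pt 0 τ).im ^ 2
      = ((ea h - ec h * y) ^ 2 * Real.exp τ ^ 2 + (ed h * y - eb h) ^ 2)
        / (ed h ^ 2 + ec h ^ 2 * Real.exp τ ^ 2) := by
    rw [e1, e2]; field_simp
    linear_combination (-(ea h * ed h - eb h * ec h + 1) * Real.exp τ ^ 2) * hd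
  rw [Pk, key, e2, div_div_div_cancel_right₀ hn.ne']

lemma wt_ev (r : ℝ) {v : ℝ} (hv : 0 < v) (h : SL2) (y : ℝ) :
    wt r v * ev r (bp (h * aG (Real.log v / 2))) y = Complex.exp (-(1 / 2 + r * Complex.I) *
      Real.log ((ea h - ec h * y) ^ 2 + v * (ed h * y - eb h) ^ 2)) := by
  have hQ := Q_pos hv h y
  have h1 : Real.exp (-(Real.log v / 2)) ^ 2 * v = 1 := by
    rw [sq, ← neg_div, exp_half, Real.exp_neg, Real.exp_log hv, inv_mul_cancel₀ hv.ne']
  have h2 : Pk (bp (h * aG (Real.log v / 2))) y = Real.exp (Real.log v / 2)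
      / ((ea h - ec h * y) ^ 2 + v * (ed h * y - eb h) ^ 2) := by
    have h3 : Real.exp (Real.log v / 2) = Real.exp (-(Real.log v / 2)) * v := by
      nth_rw 3 [← Real.exp_log hv]
      rw [← Real.exp_add]; congr 1; ring
    rw [bp_mul, bp_aG, Pk_act, h3, ← mul_div_mul_right _ _ hv.ne']
    congr 1
    linear_combination (ea h - ec h * y) ^ 2 * h1
  rw [wt, ev, h2, Real.log_div (Real.exp_pos _).ne' hQ.ne', Real.log_exp, ← Complex.exp_add]
  congr 1; push_cast; ring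

lemma kE_eq (r σ : ℝ) (h : SL2) (y : ℝ) : kE r σ h y = ∫ v in Ioc 1 (1 + σ),
    Complex.exp (-(1 / 2 + r * Complex.I) *
      Real.log ((ea h - ec h * y) ^ 2 + v * (ed h * y - eb h) ^ 2)) :=
  setIntegral_congr_fun measurableSet_Ioc fun _ hv => wt_ev r (one_pos.trans hv.1) h y

lemma measurable_kE (r σ : ℝ) (h : SL2) : Measurable (kE r σ h) := by
  have : kE r σ h = _ := funext (kE_eq r σ h)
  rw [this]
  refine (StronglyMeasurable.integral_prod_right (f := fun (y v : ℝ) =>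
    Complex.exp (-(1 / 2 + r * Complex.I) *
      Real.log ((ea h - ec h * y) ^ 2 + v * (ed h * y - eb h) ^ 2))) ?_).measurable
  refine Measurable.stronglyMeasurable ?_
  unfold Function.uncurry
  fun_prop

lemma kE_uG (r σ x y : ℝ) (h : SL2) : kE r σ (uG x * h) y = kE r σ h (y - x) := by
  rw [kE_eq, kE_eq]
  congr 1; ext v; congr 4
  simp [uG]; ring

lemma kE_aG (r σ T y : ℝ) : kE r σ (aG T) y
    = Complex.exp ((1 / 2 + r * Complex.I) * T) * kE r σ 1 (Real.exp T * y) := by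
  rw [kE_eq, kE_eq, ← integral_const_mul]
  refine setIntegral_congr_fun measurableSet_Ioc fun v hv => ?_
  have hQ := Q_pos (one_pos.trans hv.1) 1 (Real.exp T * y)
  have e : (ea (aG T) - ec (aG T) * y) ^ 2 + v * (ed (aG T) * y - eb (aG T)) ^ 2
      = Real.exp (-T) * ((ea 1 - ec 1 * (Real.exp T * y)) ^ 2
        + v * (ed 1 * (Real.exp T * y) - eb 1) ^ 2) := by
    have h1 : Real.exp (-T) * Real.exp T = 1 := by rw [← Real.exp_add]; simp
    simp only [aG, ea_mkG, eb_mkG, ec_mkG, ed_mkG, ea_one, eb_one, ec_one, ed_one]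
    linear_combination exp_half (-T) + v * y ^ 2 * exp_half T - v * y ^ 2 * Real.exp T * h1
  rw [e, Real.log_mul (Real.exp_pos _).ne' hQ.ne', Real.log_exp, ← Complex.exp_add]
  congr 1; push_cast; ring

lemma norm_kE_one (r : ℝ) {σ : ℝ} (hσ : 0 ≤ σ) (y : ℝ) : ‖kE r σ 1 y‖ ≤ σ := by
  rw [kE_eq]
  refine (norm_setIntegral_le_of_norm_le_const (C := 1) (by simp) fun v hv => ?_).trans
    (by simp [hσ])
  rw [norm_exp_neg_s0, Real.exp_le_one_iff]
  have : 0 ≤ v * y ^ 2 := by have := hv.1; positivity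
  have := Real.log_nonneg (x := (ea 1 - ec 1 * y) ^ 2 + v * (ed 1 * y - eb 1) ^ 2) (by simpa)
  linarith

lemma norm_kE_aG (r : ℝ) {σ : ℝ} (hσ : 0 ≤ σ) (T y : ℝ) :
    ‖kE r σ (aG T) y‖ ≤ Real.exp (T / 2) * σ := by
  rw [kE_aG, norm_mul, norm_exp_s0]
  gcongr
  exact norm_kE_one r hσ _

lemma nice_cut (X : ℝ) {f : ℝ → ℂ} (hf : Measurable f) {B : ℝ} (hB : ∀ y, ‖f y‖ ≤ B) :
    Nice (cut X f) :=
  ⟨hf.indicator measurableSet_Icc, ⟨B, fun y => (norm_indicator_le_norm_self _ _).trans (hB y)⟩,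
    X, fun x hx => indicator_of_notMem (fun h : x ∈ Icc (-X) X => hx.not_ge (abs_le.2 h)) _⟩

end Pool.Agent.Lib.MP_a52643_an.NS
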