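import Pool.Agent.Lib.MP_a52643_an.NS.Quot
import Pool.Agent.Lib.MP_a52643_an.NS.State0

/-!
The Gram identity between an eigenfunction and the principal series.
-/

open MeasureTheory Set Filter Topology Metric UpperHalfPlane
open scoped ENNReal MatrixGroups Real FourierTransform ComplexConjugate

noncomputable section

namespace Pool.Agent.Lib.MP_a52643_an.NS

private lemma gram_im (g : SL2) (z : ℍ) :
    (g • z).im = z.im / ((ec g * z.re + ed g) ^ 2 + (ec g * z.im) ^ 2) := by
  have hd := det_eq g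
  rw [← coe_im, coe_act]
  simp only [Complex.div_im, Complex.add_re, Complex.add_im, Complex.mul_re,
    Complex.mul_im, Complex.ofReal_re, Complex.ofReal_im, Complex.normSq_apply, coe_re, coe_im]
  rw [← sub_div]
  congr 1
  · linear_combination z.im * hd
  · ring

private lemma gram_PI (y : ℝ) : Pk I y = 1 / (1 + y ^ 2) := by
  simp [Pk, add_comm]

private lemma gram_k (y : ℝ) (w : ℍ) : (kG (Real.arctan y) • w).im = Pk w y / Pk I y := by
  have hc := Real.cos_arctan_pos y
  have h1 : Real.sin (Real.arctan y) = y * Real.cos (Real.arctan y) := by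
    rw [← Real.tan_mul_cos hc.ne', Real.tan_arctan]
  have h2 := Real.cos_sq_arctan y
  rw [gram_im, gram_PI, ← h2, Pk, div_div]
  simp only [kG, ec_mkG, ed_mkG, h1]
  congr 1
  ring

private lemma gram_conj (r : ℝ) (z : ℍ) (y : ℝ) :
    conj (ev r z y) = Complex.exp ((1 / 2 - r * Complex.I) * Real.log (Pk z y)) := by
  rw [ev, ← Complex.exp_conj]
  congr 1
  simp only [map_mul, map_add, Complex.conj_ofReal, Complex.conj_I, map_div₀, map_one,
    map_ofNat]
  ring

private lemma gram_exp {x : ℝ} (hx : 0 < x) : Complex.exp (Real.log x) = x := by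
  rw [← Complex.ofReal_exp, Real.exp_log hx]

theorem om_eq (r : ℝ) (h : SL2) : om r h = ∫ θ in Ioo (-(π / 2)) (π / 2),
    Complex.exp ((1 / 2 + r * Complex.I) * Real.log (bp (kG θ * h)).im) := by
  rw [← Real.range_arctan, ← image_univ, integral_image_eq_integral_abs_deriv_smul
    MeasurableSet.univ (fun x _ => (Real.hasDerivAt_arctan x).hasDerivWithinAt)
    Real.arctan_injective.injOn, Measure.restrict_univ, om]
  refine integral_congr_ae (Eventually.of_forall fun y => ?_)
  have h1 := Pk_pos I y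
  have h2 := Pk_pos (bp h) y
  show ev r (bp h) y * conj (ev r I y) =
    _ • Complex.exp (_ * Real.log (bp (kG (Real.arctan y) * h)).im)
  rw [bp_mul, gram_k, ← gram_PI, abs_of_pos h1, Real.log_div h2.ne' h1.ne', gram_conj, ev,
    Complex.real_smul, ← gram_exp h1, ← Complex.exp_add, ← Complex.exp_add]
  congr 1
  push_cast
  ring

private lemma gram_pt (z : ℍ) : pt z.re (Real.log z.im) = z := by
  apply UpperHalfPlane.ext
  rw [coe_pt, Real.exp_log z.im_pos]
  exact re_add_im z

private def gramAf (z : ℍ) : SL2 := uG z.re * aG (-Real.log z.im)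

private lemma gram_af (z w : ℍ) : gramAf z • w =
    pt (z.im * w.re + z.re) (Real.log w.im + Real.log z.im) := by
  conv_lhs => rw [← gram_pt w]
  rw [gramAf, mul_smul, aG_pt, uG_pt, neg_neg, Real.exp_log z.im_pos, sub_neg_eq_add]

private lemma gram_bp (z : ℍ) : bp (gramAf z) = z := by
  rw [bp, gram_af]
  simpa using gram_pt z

private lemma gram_P (z w : ℍ) (y : ℝ) :
    Pk (gramAf z • w) (z.im * y + z.re) = Pk w y / z.im := by
  have h1 := z.im_pos
  have h2 := w.im_pos
  rw [gram_af, Pk, Pk, pt_re, pt_im, Real.exp_add, Real.exp_log h1, Real.exp_log h2]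
  have h3 : 0 < (y - w.re) ^ 2 + w.im ^ 2 := by positivity
  rw [show (z.im * y + z.re - (z.im * w.re + z.re)) ^ 2 + (w.im * z.im) ^ 2 =
    z.im ^ 2 * ((y - w.re) ^ 2 + w.im ^ 2) by ring]
  field_simp

private lemma gram_model (r : ℝ) (z z' : ℍ) :
    ∫ y, ev r z y * conj (ev r z' y) = om r ((gramAf z')⁻¹ * gramAf z) := by
  have hv := z'.im_pos
  set w := bp ((gramAf z')⁻¹ * gramAf z) with hw
  have e1 : gramAf z' • w = z := by rw [hw, bp_mul, smul_inv_smul, gram_bp]
  have e2 : gramAf z' • I = z' := gram_bp z'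
  let f : ℝ → ℂ := fun y => ev r z y * conj (ev r z' y)
  have h1 : ∀ y, ev r w y * conj (ev r I y) = z'.im • f (z'.im * y + z'.re) := by
    intro y
    have p1 := gram_P z' w y
    have p2 := gram_P z' I y
    rw [e1] at p1
    rw [e2] at p2
    show _ = z'.im • (ev r z _ * conj (ev r z' _))
    rw [gram_conj, gram_conj, ev, ev, p1, p2, Real.log_div (Pk_pos w y).ne' hv.ne',
      Real.log_div (Pk_pos I y).ne' hv.ne', Complex.real_smul, ← gram_exp hv,
      ← Complex.exp_add, ← Complex.exp_add, ← Complex.exp_add]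
    congr 1
    push_cast
    ring
  rw [om, ← hw]
  simp only [h1]
  rw [integral_smul, Measure.integral_comp_mul_left (fun y => f (y + z'.re)),
    integral_add_right_eq_self f, smul_smul, abs_of_pos (inv_pos.2 hv), mul_inv_cancel₀ hv.ne',
    one_smul]

theorem Rep.gram {Λ : Set SL2} {ν : Measure SL2} {φ : ℍ → ℝ} {r : ℝ} (R : Rep Λ ν φ r)
    {a : ℍ → ℝ} (ma : Measurable a) (ba : ∀ z, |a z| ≤ 1)
    (ia : ∀ γ ∈ Λ, ∀ z : ℍ, a (γ • z) = a z) (z z' : ℍ) :
    ((∫ g, a (g • z') * φ (g • z) * φ (g • z') ∂ν : ℝ) : ℂ) * π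
      = (∫ y, ev r z y * conj (ev r z' y)) * (∫ g, a (bp g) * φ (bp g) ^ 2 ∂ν : ℝ) := by
  obtain ⟨B, hB⟩ := R.bdd
  have hB0 : 0 ≤ B := (abs_nonneg _).trans (hB I)
  have hfin := R.fin
  have mφ : Measurable φ := R.cont.measurable
  set h0 := (gramAf z')⁻¹ * gramAf z with hh0
  let F : SL2 → ℝ := fun g => a (bp g) * φ (bp (g * h0)) * φ (bp g)
  have mF : Measurable F :=
    ((ma.comp measurable_bp).mul (mφ.comp (measurable_bp.comp (measurable_mul_const h0)))).mul
      (mφ.comp measurable_bp)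
  have bF : ∀ g, |F g| ≤ 1 * B * B := fun g => by
    rw [abs_mul, abs_mul]
    gcongr
    exacts [ba _, hB _, hB _]
  have iF : ∀ γ ∈ Λ, ∀ g, F (γ * g) = F g := fun γ hγ g => by
    show a (bp (γ * g)) * φ (bp (γ * g * h0)) * φ (bp (γ * g)) = _
    rw [mul_assoc γ, bp_mul γ, bp_mul γ, ia γ hγ, R.inv γ hγ, R.inv γ hγ]
  have e1 : ∫ g, a (g • z') * φ (g • z) * φ (g • z') ∂ν = ∫ g, F g ∂ν := by
    rw [← R.toQuo.integral_right mF bF iF (gramAf z')]
    refine integral_congr_ae (Eventually.of_forall fun g => ?_)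
    show _ = a (bp (g * gramAf z')) * φ (bp (g * gramAf z' * h0)) * φ (bp (g * gramAf z'))
    rw [hh0, mul_assoc g, mul_inv_cancel_left, bp_mul, bp_mul, gram_bp, gram_bp]
  have e2 : (∫ g, F g ∂ν) * π = ∫ θ in Ioo (-(π / 2)) (π / 2), ∫ g, F (g * kG θ) ∂ν := by
    simp only [R.toQuo.integral_right mF bF iF]
    rw [setIntegral_const, Real.volume_real_Ioo_of_le (by linarith [Real.pi_pos]), smul_eq_mul]
    ring
  have hint : Integrable (Function.uncurry fun (θ : ℝ) (g : SL2) => F (g * kG θ))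
      ((volume.restrict (Ioo (-(π / 2)) (π / 2))).prod ν) := by
    refine Integrable.of_bound (C := 1 * B * B) ?_ (Eventually.of_forall fun p => bF _)
    exact (mF.comp (measurable_snd.mul (measurable_kG.comp measurable_fst))).aestronglyMeasurable
  have e3 : ∀ g, ((∫ θ in Ioo (-(π / 2)) (π / 2), F (g * kG θ) : ℝ) : ℂ) =
      om r h0 * (a (bp g) * φ (bp g) ^ 2 : ℝ) := by
    intro g
    have h1 : ∀ θ, F (g * kG θ) = a (bp g) * φ (bp g) * φ (bp (g * kG θ * h0)) := fun θ => by
      show a (bp (g * kG θ)) * φ (bp (g * kG θ * h0)) * φ (bp (g * kG θ)) = _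
      rw [bp_mul g (kG θ), bp_kG, ← bp]
      ring
    simp only [h1]
    rw [integral_const_mul, Complex.ofReal_mul, R.mv]
    push_cast
    ring
  rw [e1, ← Complex.ofReal_mul, e2, integral_integral_swap hint, gram_model, ← hh0,
    ← integral_complex_ofReal, ← integral_complex_ofReal, ← integral_const_mul]
  exact integral_congr_ae (Eventually.of_forall e3)

end Pool.Agent.Lib.MP_a52643_an.NS
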