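import Pool.Agent.Lib.MP_a52643_an.NS.Gram

/-!
The isometry between superpositions of model vectors and of translates.
-/

open MeasureTheory Set Filter Topology Metric UpperHalfPlane
open scoped ENNReal MatrixGroups Real FourierTransform ComplexConjugate

noncomputable section

namespace Pool.Agent.Lib.MP_a52643_an.NS

variable {Λ : Set SL2} {ν : Measure SL2} {φ : ℍ → ℝ} {r : ℝ}

private lemma iso_sq {X P : Type} [MeasurableSpace X] [MeasurableSpace P] (μ : Measure X)
    [SFinite μ] (m : Measure P) [SFinite m] (f : X → P → ℂ)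
    (hi : Integrable (fun z : X × (P × P) => f z.1 z.2.1 * conj (f z.1 z.2.2))
      (μ.prod (m.prod m))) :
    ∫⁻ x, ‖∫ p, f x p ∂m‖ₑ ^ 2 ∂μ
      = ENNReal.ofReal (∫ q, ∫ x, f x q.1 * conj (f x q.2) ∂μ ∂(m.prod m)).re := by
  have e : ∀ x, ∫ q, f x q.1 * conj (f x q.2) ∂(m.prod m)
      = ((‖∫ p, f x p ∂m‖ ^ 2 : ℝ) : ℂ) := fun x => by
    rw [integral_prod_mul (fun p => f x p) (fun p => conj (f x p)), integral_conj,
      Complex.mul_conj, Complex.normSq_eq_norm_sq]
  have h1 : Integrable (fun x => ((‖∫ p, f x p ∂m‖ ^ 2 : ℝ) : ℂ)) μ := by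
    have := hi.integral_prod_left
    simpa only [e] using this
  have h2 : Integrable (fun x => ‖∫ p, f x p ∂m‖ ^ 2) μ := by
    have := h1.re
    simpa only [RCLike.re_to_complex, Complex.ofReal_re] using this
  have h3 := integral_integral_swap
    (f := fun (x : X) (q : P × P) => f x q.1 * conj (f x q.2)) hi
  rw [← h3]
  simp only [e]
  rw [integral_complex_ofReal, Complex.ofReal_re,
    ofReal_integral_eq_lintegral_ofReal h2 (ae_of_all _ fun x => by positivity)]
  refine lintegral_congr fun x => ?_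
  rw [ENNReal.ofReal_pow (norm_nonneg _), ofReal_norm]

private lemma iso_mev {P : Type} [MeasurableSpace P] (r : ℝ) {k : P → ℍ} (mk : Measurable k) :
    Measurable fun z : ℝ × P => ev r (k z.2) z.1 :=
  (measurable_ev r).comp ((mk.comp measurable_snd).prodMk measurable_fst)

private lemma iso_intP {P : Type} [MeasurableSpace P] (m : Measure P) [IsFiniteMeasure m]
    {k : P → ℍ} (mk : Measurable k) :
    Integrable (fun z : ℝ × P => Pk (k z.2) z.1) ((volume : Measure ℝ).prod m) := by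
  have mP : Measurable fun z : ℝ × P => Pk (k z.2) z.1 := by
    have := (iso_mev 0 mk).norm.pow_const 2
    simpa only [norm_ev_sq] using this
  rw [integrable_prod_iff' mP.aestronglyMeasurable]
  refine ⟨ae_of_all _ fun p => integrable_Pk (k p), ?_⟩
  have : (fun p => ∫ y, ‖Pk (k p) y‖) = fun _ => π := by
    funext p
    rw [← integral_Pk (k p)]
    exact integral_congr_ae (ae_of_all _ fun y => Real.norm_of_nonneg (Pk_pos _ _).le)
  simp only [this]
  exact integrable_const _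

private lemma iso_mphi (R : Rep Λ ν φ r) {X : Type} [MeasurableSpace X] {a b : X → SL2}
    (ma : Measurable a) (mb : Measurable b) :
    Measurable fun x => ((φ (bp (a x * b x)) : ℝ) : ℂ) :=
  Complex.measurable_ofReal.comp (R.cont.measurable.comp (measurable_bp.comp (ma.mul mb)))

private lemma iso_gram (R : Rep Λ ν φ r) (h h' : SL2) :
    ∫ g, ((φ (bp (g * h)) : ℝ) : ℂ) * ((φ (bp (g * h')) : ℝ) : ℂ) ∂ν
      = ((π⁻¹ : ℝ) : ℂ) * ∫ y, ev r (bp h) y * conj (ev r (bp h') y) := by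
  have G := R.gram (a := fun _ => 1) measurable_const (fun _ => by simp) (fun _ _ _ => rfl)
    (bp h) (bp h')
  simp only [one_mul, R.one, Complex.ofReal_one, mul_one] at G
  have hπ : (π : ℂ) ≠ 0 := by exact_mod_cast Real.pi_ne_zero
  rw [← G, Complex.ofReal_inv, mul_comm, mul_assoc, mul_inv_cancel₀ hπ, mul_one,
    ← integral_complex_ofReal]
  simp only [bp_mul]
  refine integral_congr_ae (ae_of_all _ fun g => ?_)
  simp

private lemma iso_inl {P Q : Type} [MeasurableSpace P] [MeasurableSpace Q] :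
    MeasurableEmbedding (Sum.inl : P → P ⊕ Q) :=
  ⟨Sum.inl_injective, measurable_inl, fun _ hs => hs.inl_image⟩

private lemma iso_inr {P Q : Type} [MeasurableSpace P] [MeasurableSpace Q] :
    MeasurableEmbedding (Sum.inr : Q → P ⊕ Q) :=
  ⟨Sum.inr_injective, measurable_inr, fun _ hs => hs.inr_image⟩

private lemma iso_sum {P Q : Type} [MeasurableSpace P] [MeasurableSpace Q] (m : Measure P)
    (n : Measure Q) (F : P ⊕ Q → ℂ) (h1 : Integrable (fun p => F (Sum.inl p)) m)
    (h2 : Integrable (fun q => F (Sum.inr q)) n) :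
    ∫ s, F s ∂(m.map Sum.inl + n.map Sum.inr)
      = (∫ p, F (Sum.inl p) ∂m) + ∫ q, F (Sum.inr q) ∂n := by
  rw [integral_add_measure (iso_inl.integrable_map_iff.2 h1)
    (iso_inr.integrable_map_iff.2 h2), iso_inl.integral_map,
    iso_inr.integral_map]

private lemma iso_int1 (R : Rep Λ ν φ r) {P : Type} [MeasurableSpace P] (m : Measure P)
    [IsFiniteMeasure m] {w : P → ℂ} {h : P → SL2} (mw : Measurable w) (mh : Measurable h) {B : ℝ}
    (bw : ∀ᵐ p ∂m, ‖w p‖ ≤ B) (g : SL2) :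
    Integrable (fun p => w p * φ (bp (g * h p))) m := by
  obtain ⟨C, hC⟩ := R.bdd
  refine Integrable.of_bound (mw.mul (iso_mphi R measurable_const mh)).aestronglyMeasurable
    (B * C) ?_
  filter_upwards [bw] with p hp
  rw [norm_mul, Complex.norm_real, Real.norm_eq_abs]
  exact mul_le_mul hp (hC _) (abs_nonneg _) ((norm_nonneg _).trans hp)

private lemma iso_int2 (r : ℝ) {P : Type} [MeasurableSpace P] (m : Measure P)
    [IsFiniteMeasure m] {w : P → ℂ} {h : P → SL2} (mw : Measurable w) (mh : Measurable h) {B : ℝ}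
    (bw : ∀ᵐ p ∂m, ‖w p‖ ≤ B) :
    ∀ᵐ y : ℝ, Integrable (fun p => w p * ev r (bp (h p)) y) m := by
  have mk : Measurable fun p => bp (h p) := measurable_bp.comp mh
  filter_upwards [(iso_intP m mk).prod_right_ae] with y hy
  have me : Measurable fun p => ev r (bp (h p)) y :=
    (measurable_ev r).comp (mk.prodMk measurable_const)
  refine Integrable.mono' (((integrable_const (1 : ℝ)).add hy).const_mul B)
    (mw.mul me).aestronglyMeasurable ?_
  filter_upwards [bw] with p hp
  rw [norm_mul]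
  refine mul_le_mul hp ?_ (norm_nonneg _) ((norm_nonneg _).trans hp)
  simp only [Pi.add_apply]
  rw [← norm_ev_sq r]
  nlinarith [sq_nonneg (‖ev r (bp (h p)) y‖ - 1), norm_nonneg (ev r (bp (h p)) y)]

theorem Rep.iso1 (R : Rep Λ ν φ r) {P : Type} [MeasurableSpace P] (m : Measure P)
    [IsFiniteMeasure m] {w : P → ℂ} {h : P → SL2} (mw : Measurable w) (mh : Measurable h) {B : ℝ}
    (bw : ∀ᵐ p ∂m, ‖w p‖ ≤ B) :
    ∫⁻ g, ‖∫ p, w p * φ (bp (g * h p)) ∂m‖ₑ ^ 2 ∂ν
      = ENNReal.ofReal π⁻¹ * n2 fun y => ∫ p, w p * ev r (bp (h p)) y ∂m := by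
  have := R.fin
  obtain ⟨C, hC⟩ := R.bdd
  have mk : Measurable fun p => bp (h p) := measurable_bp.comp mh
  have b1 : ∀ᵐ q ∂(m.prod m), ‖w q.1‖ ≤ B := Measure.quasiMeasurePreserving_fst.ae bw
  have b2 : ∀ᵐ q ∂(m.prod m), ‖w q.2‖ ≤ B := Measure.quasiMeasurePreserving_snd.ae bw
  have i1 : Integrable (fun z : SL2 × (P × P) => (w z.2.1 * φ (bp (z.1 * h z.2.1)))
      * conj (w z.2.2 * φ (bp (z.1 * h z.2.2)))) (ν.prod (m.prod m)) := by
    have m1 : Measurable fun z : SL2 × (P × P) => w z.2.1 * φ (bp (z.1 * h z.2.1)) :=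
      (mw.comp measurable_snd.fst).mul (iso_mphi R measurable_fst (mh.comp measurable_snd.fst))
    have m2 : Measurable fun z : SL2 × (P × P) => w z.2.2 * φ (bp (z.1 * h z.2.2)) :=
      (mw.comp measurable_snd.snd).mul (iso_mphi R measurable_fst (mh.comp measurable_snd.snd))
    refine Integrable.of_bound (m1.mul (Complex.continuous_conj.measurable.comp m2)
      ).aestronglyMeasurable ((B * C) * (B * C)) ?_
    filter_upwards [Measure.quasiMeasurePreserving_snd.ae b1,
      Measure.quasiMeasurePreserving_snd.ae b2] with z h1 h2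
    have k : ∀ (c : ℂ) (u : ℍ), ‖c‖ ≤ B → ‖c * φ u‖ ≤ B * C := fun c u hc => by
      rw [norm_mul, Complex.norm_real, Real.norm_eq_abs]
      exact mul_le_mul hc (hC _) (abs_nonneg _) ((norm_nonneg _).trans hc)
    rw [norm_mul, Complex.norm_conj]
    exact mul_le_mul (k _ _ h1) (k _ _ h2) (norm_nonneg _) ((norm_nonneg _).trans (k _ I h1))
  have i2 : Integrable (fun z : ℝ × (P × P) => (w z.2.1 * ev r (bp (h z.2.1)) z.1)
      * conj (w z.2.2 * ev r (bp (h z.2.2)) z.1)) ((volume : Measure ℝ).prod (m.prod m)) := by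
    have k1 : Measurable fun q : P × P => bp (h q.1) := mk.comp measurable_fst
    have k2 : Measurable fun q : P × P => bp (h q.2) := mk.comp measurable_snd
    have m1 : Measurable fun z : ℝ × (P × P) => w z.2.1 * ev r (bp (h z.2.1)) z.1 :=
      (mw.comp measurable_snd.fst).mul (iso_mev r k1)
    have m2 : Measurable fun z : ℝ × (P × P) => w z.2.2 * ev r (bp (h z.2.2)) z.1 :=
      (mw.comp measurable_snd.snd).mul (iso_mev r k2)
    refine Integrable.mono' (((iso_intP (m.prod m) k1).add (iso_intP (m.prod m) k2)).const_mul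
      (B * B)) (m1.mul (Complex.continuous_conj.measurable.comp m2)).aestronglyMeasurable ?_
    filter_upwards [Measure.quasiMeasurePreserving_snd.ae b1,
      Measure.quasiMeasurePreserving_snd.ae b2] with z h1 h2
    rw [norm_mul, Complex.norm_conj, norm_mul, norm_mul, mul_mul_mul_comm]
    have hB : 0 ≤ B := (norm_nonneg _).trans h1
    refine mul_le_mul (mul_le_mul h1 h2 (norm_nonneg _) hB) ?_ (by positivity) (by positivity)
    simp only [Pi.add_apply]
    rw [← norm_ev_sq r, ← norm_ev_sq r]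
    nlinarith [sq_nonneg (‖ev r (bp (h z.2.1)) z.1‖ - ‖ev r (bp (h z.2.2)) z.1‖),
      norm_nonneg (ev r (bp (h z.2.1)) z.1), norm_nonneg (ev r (bp (h z.2.2)) z.1)]
  rw [n2, iso_sq ν m (fun g p => w p * φ (bp (g * h p))) i1,
    iso_sq volume m (fun y p => w p * ev r (bp (h p)) y) i2,
    ← ENNReal.ofReal_mul (inv_nonneg.2 Real.pi_pos.le), ← Complex.re_ofReal_mul,
    ← integral_const_mul]
  congr 2
  refine integral_congr_ae (ae_of_all _ fun q => ?_)
  have e1 : ∀ g, w q.1 * φ (bp (g * h q.1)) * conj (w q.2 * φ (bp (g * h q.2)))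
      = (w q.1 * conj (w q.2))
        * (((φ (bp (g * h q.1)) : ℝ) : ℂ) * ((φ (bp (g * h q.2)) : ℝ) : ℂ)) := fun g => by
    rw [map_mul, Complex.conj_ofReal]; ring
  have e2 : ∀ y, w q.1 * ev r (bp (h q.1)) y * conj (w q.2 * ev r (bp (h q.2)) y)
      = (w q.1 * conj (w q.2)) * (ev r (bp (h q.1)) y * conj (ev r (bp (h q.2)) y)) := fun y => by
    rw [map_mul]; ring
  simp only [e1, e2, integral_const_mul, iso_gram R]
  ring

theorem Rep.iso2 (R : Rep Λ ν φ r) {P Q : Type} [MeasurableSpace P] [MeasurableSpace Q]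
    (m : Measure P) (n : Measure Q) [IsFiniteMeasure m] [IsFiniteMeasure n] {w : P → ℂ}
    {h : P → SL2} {w' : Q → ℂ} {h' : Q → SL2} (mw : Measurable w) (mh : Measurable h)
    (mw' : Measurable w') (mh' : Measurable h') {B : ℝ} (bw : ∀ᵐ p ∂m, ‖w p‖ ≤ B)
    (bw' : ∀ᵐ q ∂n, ‖w' q‖ ≤ B) :
    ∫⁻ g, ‖(∫ p, w p * φ (bp (g * h p)) ∂m) - ∫ q, w' q * φ (bp (g * h' q)) ∂n‖ₑ ^ 2 ∂ν
      = ENNReal.ofReal π⁻¹ * n2 fun y =>
        (∫ p, w p * ev r (bp (h p)) y ∂m) - ∫ q, w' q * ev r (bp (h' q)) y ∂n := by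
  have mW : Measurable (Sum.elim w (fun q => -w' q)) := mw.sumElim mw'.neg
  have mH : Measurable (Sum.elim h h') := mh.sumElim mh'
  have bW : ∀ᵐ s ∂(m.map Sum.inl + n.map Sum.inr), ‖Sum.elim w (fun q => -w' q) s‖ ≤ B := by
    rw [ae_add_measure_iff, iso_inl.ae_map_iff, iso_inr.ae_map_iff]
    exact ⟨bw, by simpa using bw'⟩
  have bn : ∀ᵐ q ∂n, ‖-w' q‖ ≤ B := by simpa using bw'
  have H := R.iso1 (m.map Sum.inl + n.map Sum.inr) mW mH bW
  have e1 : ∀ g, ∫ s, Sum.elim w (fun q => -w' q) s * φ (bp (g * Sum.elim h h' s))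
      ∂(m.map Sum.inl + n.map Sum.inr)
      = (∫ p, w p * φ (bp (g * h p)) ∂m) - ∫ q, w' q * φ (bp (g * h' q)) ∂n := fun g => by
    rw [iso_sum m n _ (iso_int1 R m mw mh bw g) (iso_int1 R n mw'.neg mh' bn g)]
    simp only [Sum.elim_inl, Sum.elim_inr, neg_mul, integral_neg, sub_eq_add_neg]
  simp only [e1] at H
  rw [H, n2, n2]
  congr 1
  refine lintegral_congr_ae ?_
  filter_upwards [iso_int2 r m mw mh bw, iso_int2 r n mw'.neg mh' bn] with y h1 h2
  rw [iso_sum m n _ h1 h2]
  simp only [Sum.elim_inl, Sum.elim_inr, neg_mul, integral_neg, sub_eq_add_neg]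

end Pool.Agent.Lib.MP_a52643_an.NS
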