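import Pool.Agent.Lib.MP_a52643_an.NS.Defs

/-!
Circle averages of ladders are determined by the value at the centre.
-/

open MeasureTheory Set Filter Topology Metric UpperHalfPlane
open scoped ENNReal MatrixGroups Real FourierTransform ComplexConjugate

noncomputable section

namespace Pool.Agent.Lib.MP_a52643_an.NS

/-- geodesic flow on the cone model -/
def flo (t : ℝ) (v : V) : V := (Real.cosh t : ℂ) • v + (Real.sinh t : ℂ) • cj v

theorem mv1_deriv {G G' : ℝ → ℝ → ℂ} (hG : Continuous fun p : ℝ × ℝ => G p.1 p.2)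
    (hG' : Continuous fun p : ℝ × ℝ => G' p.1 p.2)
    (h : ∀ t θ, HasDerivAt (fun s => G s θ) (G' t θ) t) (t : ℝ) :
    HasDerivAt (fun s => ∫ θ in (0 : ℝ)..π, G s θ) (∫ θ in (0 : ℝ)..π, G' t θ) t := by
  have c1 : ∀ s, Continuous (G s) := fun s => hG.comp (Continuous.prodMk_right s)
  have c2 : ∀ s, Continuous (G' s) := fun s => hG'.comp (Continuous.prodMk_right s)
  obtain ⟨C, hC⟩ := ((isCompact_closedBall t 1).prod
    (isCompact_uIcc (a := (0 : ℝ)) (b := π))).exists_bound_of_continuousOn hG'.continuousOn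
  exact (intervalIntegral.hasDerivAt_integral_of_dominated_loc_of_deriv_le (bound := fun _ => C)
    (closedBall_mem_nhds t one_pos) (Eventually.of_forall fun s => (c1 s).aestronglyMeasurable)
    ((c1 t).intervalIntegrable _ _) (c2 t).aestronglyMeasurable
    (Eventually.of_forall fun θ hθ s hs => hC (s, θ) ⟨hs, uIoc_subset_uIcc hθ⟩)
    intervalIntegrable_const (Eventually.of_forall fun θ _ s _ => h s θ)).2

theorem mv1_ode {a : ℝ} {A B : ℝ → ℂ} {k : ℝ → ℝ}
    (hA : ∀ t, 0 < t → HasDerivAt A (-2 * Complex.I * a * B t) t)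
    (hB : ∀ t, 0 < t → HasDerivAt B (-2 * Complex.I * a * A t - k t * B t) t)
    (hk : ∀ t, 0 < t → 0 ≤ k t) (cA : Continuous A) (cB : Continuous B) (A0 : A 0 = 0)
    (B0 : B 0 = 0) {t : ℝ} (ht : 0 ≤ t) : A t = 0 := by
  have hE : ∀ s, 0 < s →
      HasDerivAt (fun s => ‖A s‖ ^ 2 + ‖B s‖ ^ 2) (-2 * k s * ‖B s‖ ^ 2) s := by
    intro s hs
    refine ((hA s hs).norm_sq.add (hB s hs).norm_sq).congr_deriv ?_
    rw [Complex.inner, Complex.inner, Complex.sq_norm, Complex.normSq_apply]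
    simp
    ring
  have h1 : AntitoneOn (fun s => ‖A s‖ ^ 2 + ‖B s‖ ^ 2) (Ici 0) := by
    refine antitoneOn_of_deriv_nonpos (convex_Ici 0) (by fun_prop) ?_ ?_
    · rw [interior_Ici]
      exact fun s hs => (hE s hs).differentiableAt.differentiableWithinAt
    · rw [interior_Ici]
      intro s hs
      rw [(hE s hs).deriv]
      have := hk s hs
      have := mul_nonneg this (sq_nonneg ‖B s‖)
      linarith
  have h2 := h1 (mem_Ici.2 le_rfl) (mem_Ici.2 ht) ht
  simp only [A0, B0, norm_zero] at h2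
  have h3 : ‖A t‖ ^ 2 = 0 := by nlinarith [sq_nonneg ‖A t‖, sq_nonneg ‖B t‖]
  simpa using h3

theorem mv1_mem {v : V} (hv : v ∈ Om) (t : ℝ) : flo t v ∈ Om := by
  have h : dt (flo t v) = dt v := by
    simp only [flo, dt_eq, Prod.fst_add, Prod.snd_add, Prod.smul_fst, Prod.smul_snd, cj_apply,
      smul_eq_mul, Complex.add_im, Complex.add_re, Complex.mul_im, Complex.mul_re,
      Complex.ofReal_re, Complex.ofReal_im, Complex.conj_re, Complex.conj_im]
    linear_combination (v.1.im * v.2.re - v.1.re * v.2.im) * Real.cosh_sq t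
  simpa [Om, h] using hv

/-- polar coordinates around `v` -/
def mv1X (v : V) (t θ : ℝ) : V := flo t (Complex.exp (θ * Complex.I) • v)

theorem mv1X_mem {v : V} (hv : v ∈ Om) (t θ : ℝ) : mv1X v t θ ∈ Om :=
  mv1_mem (smul_mem_Om (Complex.exp_ne_zero _) hv) t

theorem mv1X_cont (v : V) : Continuous fun p : ℝ × ℝ => mv1X v p.1 p.2 := by
  unfold mv1X flo
  fun_prop

theorem mv1_cont {F : V → ℂ} (hF : ContinuousOn F Om) {v : V} (hv : v ∈ Om) :
    Continuous fun p : ℝ × ℝ => F (mv1X v p.1 p.2) :=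
  hF.comp_continuous (mv1X_cont v) fun p => mv1X_mem hv p.1 p.2

theorem mv1_flo_t (u : V) (t : ℝ) : HasDerivAt (fun s => flo s u) (cj (flo t u)) t := by
  have h := ((Real.hasDerivAt_cosh t).ofReal_comp.smul_const u).add
    ((Real.hasDerivAt_sinh t).ofReal_comp.smul_const (cj u))
  refine h.congr_deriv ?_
  ext <;> simp [flo, -Complex.ofReal_cosh, -Complex.ofReal_sinh, add_comm]

theorem mv1X_th (v : V) (t θ : ℝ) : HasDerivAt (fun s => mv1X v t s)
    (Real.cosh (2 * t) • (Complex.I • mv1X v t θ) -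
      Real.sinh (2 * t) • (Complex.I • cj (mv1X v t θ))) θ := by
  have h0 : HasDerivAt (fun s : ℝ => Complex.exp (s * Complex.I))
      (Complex.exp (θ * Complex.I) * Complex.I) θ := by
    simpa using ((hasDerivAt_id θ).ofReal_comp.mul_const Complex.I).cexp
  have h1 := h0.smul_const v
  have h2 := (h1.const_smul (Real.cosh t : ℂ)).add
    ((cj.hasFDerivAt.comp_hasDerivAt θ h1).const_smul (Real.sinh t : ℂ))
  refine h2.congr_deriv (Eq.symm ?_)
  have e : (Real.cosh t : ℂ) ^ 2 = (Real.sinh t : ℂ) ^ 2 + 1 := by exact_mod_cast Real.cosh_sq t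
  rw [Real.cosh_two_mul, Real.sinh_two_mul]
  ext
  · simp [mv1X, flo, -Complex.ofReal_cosh, -Complex.ofReal_sinh]
    linear_combination (Complex.I * (Real.cosh t * Complex.exp (θ * Complex.I) * v.1 -
      Real.sinh t * conj (Complex.exp (θ * Complex.I)) * conj v.1)) * e
  · simp [mv1X, flo, -Complex.ofReal_cosh, -Complex.ofReal_sinh]
    linear_combination (Complex.I * (Real.cosh t * Complex.exp (θ * Complex.I) * v.2 -
      Real.sinh t * conj (Complex.exp (θ * Complex.I)) * conj v.2)) * e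

/-- circle average -/
def mv1m (F : V → ℂ) (v : V) (t : ℝ) : ℂ := ∫ θ in (0 : ℝ)..π, F (mv1X v t θ)

theorem mv1_int {F : V → ℂ} (hF : ContinuousOn F Om) {v : V} (hv : v ∈ Om) (t : ℝ) :
    IntervalIntegrable (fun θ => F (mv1X v t θ)) volume 0 π :=
  ((mv1_cont hF hv).comp (Continuous.prodMk_right t)).intervalIntegrable _ _

theorem mv1m_t {F : V → ℂ} (hF : ContDiffOn ℝ 1 F Om) {v : V} (hv : v ∈ Om) (t : ℝ) :
    HasDerivAt (mv1m F v) (-(mv1m (Ep F) v t + mv1m (Em F) v t)) t := by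
  have h := mv1_deriv (G := fun t θ => F (mv1X v t θ))
    (G' := fun t θ => -(Ep F (mv1X v t θ) + Em F (mv1X v t θ))) (mv1_cont hF.continuousOn hv)
    ((mv1_cont (continuousOn_Ep hF) hv).add (mv1_cont (continuousOn_Em hF) hv)).neg
    (fun t θ => by
      rw [Ep_add_Em, neg_neg]
      exact (diffAt_of_Om hF one_ne_zero (mv1X_mem hv t θ)).hasFDerivAt.comp_hasDerivAt t
        (mv1_flo_t _ t)) t
  rwa [intervalIntegral.integral_neg, intervalIntegral.integral_add
    (mv1_int (continuousOn_Ep hF) hv t) (mv1_int (continuousOn_Em hF) hv t)] at h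

theorem mv1m_th {F : V → ℂ} {n : ℤ} (hF : ContDiffOn ℝ 1 F Om) (hn : Hom n F) {v : V}
    (hv : v ∈ Om) (t : ℝ) :
    Real.sinh (2 * t) * (mv1m (Ep F) v t - mv1m (Em F) v t)
      = 2 * n * Real.cosh (2 * t) * mv1m F v t := by
  have i0 := mv1_int hF.continuousOn hv t
  have i1 := mv1_int (continuousOn_Ep hF) hv t
  have i2 := mv1_int (continuousOn_Em hF) hv t
  have h := intervalIntegral.integral_eq_sub_of_hasDerivAt (a := 0) (b := π)
    (f := fun θ => F (mv1X v t θ))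
    (f' := fun θ => Complex.I * Real.sinh (2 * t) * (Ep F (mv1X v t θ) - Em F (mv1X v t θ)) -
      2 * Complex.I * n * Real.cosh (2 * t) * F (mv1X v t θ))
    (fun θ _ => by
      have d := diffAt_of_Om hF one_ne_zero (mv1X_mem hv t θ)
      refine (d.hasFDerivAt.comp_hasDerivAt θ (mv1X_th v t θ)).congr_deriv (Eq.symm ?_)
      rw [map_sub, map_smul _ (Real.cosh (2 * t)), map_smul _ (Real.sinh (2 * t)),
        hn.fderiv_I (mv1X_mem hv t θ) d]
      simp only [Ep, Em, wp, wm, Complex.real_smul]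
      linear_combination (Real.sinh (2 * t) *
        fderiv ℝ F (mv1X v t θ) (Complex.I • cj (mv1X v t θ))) * Complex.I_mul_I)
    (((i1.sub i2).const_mul _).sub (i0.const_mul _))
  have e : mv1X v t π = (-1 : ℂ) • mv1X v t 0 := by
    ext <;> simp [mv1X, flo]
  rw [intervalIntegral.integral_sub ((i1.sub i2).const_mul _) (i0.const_mul _),
    intervalIntegral.integral_const_mul, intervalIntegral.integral_const_mul,
    intervalIntegral.integral_sub i1 i2, e, hn _ (by simp) _ (mv1X_mem hv t 0)] at h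
  simp only [map_neg, map_one, ne_eq, neg_eq_zero, one_ne_zero, not_false_eq_true, div_self,
    one_zpow, one_mul, sub_self] at h
  apply mul_left_cancel₀ Complex.I_ne_zero
  unfold mv1m
  linear_combination h

theorem mv1m_mul {F G : V → ℂ} {c : ℂ} (h : ∀ x ∈ Om, F x = c * G x) {v : V} (hv : v ∈ Om)
    (t : ℝ) : mv1m F v t = c * mv1m G v t := by
  unfold mv1m
  rw [← intervalIntegral.integral_const_mul]
  exact intervalIntegral.integral_congr fun θ _ => h _ (mv1X_mem hv t θ)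

theorem mv1_sys {lam : ℝ} {Φ : ℤ → V → ℂ} (hΦ : Ladder lam Φ) {v : V} (hv : v ∈ Om) {t : ℝ}
    (ht : 0 < t) :
    HasDerivAt (mv1m (Φ 0) v) (-2 * Complex.I * al lam 0 * mv1m (Φ 1) v t) t ∧
    HasDerivAt (mv1m (Φ 1) v) (-2 * Complex.I * al lam 0 * mv1m (Φ 0) v t -
      (2 * Real.cosh (2 * t) / Real.sinh (2 * t) : ℝ) * mv1m (Φ 1) v t) t := by
  have hs : ((Real.sinh (2 * t) : ℝ) : ℂ) ≠ 0 := by
    exact_mod_cast (Real.sinh_pos_iff.2 (by linarith)).ne'
  have u0 := mv1m_mul (hΦ.up 0) hv t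
  have d0 := mv1m_mul (hΦ.down 0) hv t
  have a0 := mv1m_th (hΦ.smooth 0) (hΦ.hom 0) hv t
  have a1 := mv1m_th (hΦ.smooth 1) (hΦ.hom 1) hv t
  rw [zero_add] at u0 d0
  constructor
  · convert mv1m_t (hΦ.smooth 0) hv t using 1
    apply mul_left_cancel₀ hs
    rw [Int.cast_zero] at a0
    linear_combination (-1 : ℂ) * a0 + 2 * (Real.sinh (2 * t) : ℂ) * u0
  · convert mv1m_t (hΦ.smooth 1) hv t using 1
    apply mul_left_cancel₀ hs
    rw [Int.cast_one] at a1
    rw [Complex.ofReal_div, mul_sub, ← mul_assoc _ (_ / _), mul_div_cancel₀ _ hs,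
      Complex.ofReal_mul, Complex.ofReal_ofNat]
    linear_combination a1 + 2 * (Real.sinh (2 * t) : ℂ) * d0

theorem mv1m_cont {F : V → ℂ} (hF : ContDiffOn ℝ 1 F Om) {v : V} (hv : v ∈ Om) :
    Continuous (mv1m F v) :=
  continuous_iff_continuousAt.2 fun t => (mv1m_t hF hv t).continuousAt

theorem mv1m_zero {lam : ℝ} {Φ : ℤ → V → ℂ} (hΦ : Ladder lam Φ) {v : V} (hv : v ∈ Om) :
    mv1m (Φ 0) v 0 = π * Φ 0 v ∧ mv1m (Φ 1) v 0 = 0 := by
  constructor
  · have : ∀ θ : ℝ, Φ 0 (mv1X v 0 θ) = Φ 0 v := fun θ => by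
      have := hΦ.hom 0 _ (Complex.exp_ne_zero (θ * Complex.I)) v hv
      simpa [mv1X, flo] using this
    simp [mv1m, this]
  · have := mv1m_th (hΦ.smooth 1) (hΦ.hom 1) hv 0
    simpa using this

theorem ladder_mean {lam : ℝ} (hl : 0 < lam) {Φ Ψ : ℤ → V → ℂ} (hΦ : Ladder lam Φ)
    (hΨ : Ladder lam Ψ) {v w : V} (hv : v ∈ Om) (hw : w ∈ Om) {t : ℝ} (ht : 0 ≤ t) :
    (∫ θ in (0 : ℝ)..π, Φ 0 (flo t (Complex.exp (θ * Complex.I) • v))) * Ψ 0 w
      = (∫ θ in (0 : ℝ)..π, Ψ 0 (flo t (Complex.exp (θ * Complex.I) • w))) * Φ 0 v := by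
  have _ := hl
  have h := mv1_ode (a := al lam 0)
    (A := fun t => mv1m (Φ 0) v t * Ψ 0 w - mv1m (Ψ 0) w t * Φ 0 v)
    (B := fun t => mv1m (Φ 1) v t * Ψ 0 w - mv1m (Ψ 1) w t * Φ 0 v)
    (k := fun t => 2 * Real.cosh (2 * t) / Real.sinh (2 * t))
    (fun s hs => by
      refine (((mv1_sys hΦ hv hs).1.mul_const (Ψ 0 w)).sub
        ((mv1_sys hΨ hw hs).1.mul_const (Φ 0 v))).congr_deriv ?_
      ring)
    (fun s hs => by
      refine (((mv1_sys hΦ hv hs).2.mul_const (Ψ 0 w)).sub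
        ((mv1_sys hΨ hw hs).2.mul_const (Φ 0 v))).congr_deriv ?_
      ring)
    (fun s hs => div_nonneg (mul_nonneg zero_le_two (Real.cosh_pos _).le)
      (Real.sinh_nonneg_iff.2 (by linarith)))
    (((mv1m_cont (hΦ.smooth 0) hv).mul continuous_const).sub
      ((mv1m_cont (hΨ.smooth 0) hw).mul continuous_const))
    (((mv1m_cont (hΦ.smooth 1) hv).mul continuous_const).sub
      ((mv1m_cont (hΨ.smooth 1) hw).mul continuous_const))
    (by simp only [(mv1m_zero hΦ hv).1, (mv1m_zero hΨ hw).1]; ring)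
    (by simp only [(mv1m_zero hΦ hv).2, (mv1m_zero hΨ hw).2]; ring) ht
  exact sub_eq_zero.1 h

end Pool.Agent.Lib.MP_a52643_an.NS
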