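import Pool.Agent.Lib.MP_a52643_an.NS.Defs

/-!
The invariant measure on the quotient of the group.
-/

open MeasureTheory Set Filter Topology Metric UpperHalfPlane
open scoped ENNReal MatrixGroups Real FourierTransform ComplexConjugate

noncomputable section

namespace Pool.Agent.Lib.MP_a52643_an.NS

open Classical in
/-- normalisation of a frame in the cone to a matrix of determinant one -/
private def quotN (v : V) : SL2 :=
  if h : v ∈ Om then mkG (v.1.im / √(dt v)) (v.1.re / √(dt v)) (v.2.im / √(dt v))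
    (v.2.re / √(dt v)) (by
      have h0 : 0 < dt v := h
      have h1 := Real.sqrt_pos.2 h0
      field_simp
      rw [Real.sq_sqrt h0.le, dt_eq])
  else 1

private lemma quotN_ent {v : V} (hv : v ∈ Om) : ea (quotN v) = v.1.im / √(dt v) ∧
    eb (quotN v) = v.1.re / √(dt v) ∧ ec (quotN v) = v.2.im / √(dt v) ∧
    ed (quotN v) = v.2.re / √(dt v) := by
  simp [quotN, hv]

open Classical in
private lemma quot_measurable : Measurable quotN := by
  have m := isOpen_Om.measurableSet
  refine measurable_SL2 ?_ ?_ ?_ ?_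
  · have : (fun v => ea (quotN v)) = fun v => if v ∈ Om then v.1.im / √(dt v) else 1 := by
      ext v; unfold quotN; split_ifs <;> rfl
    rw [this]; exact Measurable.ite m (by fun_prop) measurable_const
  · have : (fun v => eb (quotN v)) = fun v => if v ∈ Om then v.1.re / √(dt v) else 0 := by
      ext v; unfold quotN; split_ifs <;> rfl
    rw [this]; exact Measurable.ite m (by fun_prop) measurable_const
  · have : (fun v => ec (quotN v)) = fun v => if v ∈ Om then v.2.im / √(dt v) else 0 := by
      ext v; unfold quotN; split_ifs <;> rfl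
    rw [this]; exact Measurable.ite m (by fun_prop) measurable_const
  · have : (fun v => ed (quotN v)) = fun v => if v ∈ Om then v.2.re / √(dt v) else 1 := by
      ext v; unfold quotN; split_ifs <;> rfl
    rw [this]; exact Measurable.ite m (by fun_prop) measurable_const

private lemma quot_coe_bp {v : V} (hv : v ∈ Om) : (bp (quotN v) : ℂ) = pr v := by
  obtain ⟨f1, f2, f3, f4⟩ := quotN_ent hv
  have h1 : ((√(dt v) : ℝ) : ℂ) ≠ 0 := by exact_mod_cast (Real.sqrt_pos.2 hv).ne'
  rw [bp, coe_act, f1, f2, f3, f4, pr, coe_I]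
  push_cast
  rw [div_mul_eq_mul_div, div_mul_eq_mul_div, ← add_div, ← add_div, div_div_div_cancel_right₀ h1,
    add_comm, Complex.re_add_im, add_comm, Complex.re_add_im]

private lemma quot_Lg (g : SL2) {v : V} (hv : v ∈ Om) :
    quotN (Lg (ea g) (eb g) (ec g) (ed g) v) = g * quotN v := by
  obtain ⟨f1, f2, f3, f4⟩ := quotN_ent hv
  obtain ⟨g1, g2, g3, g4⟩ := quotN_ent (Lg_mem (det_eq g) hv)
  rw [dt_Lg, det_eq, one_mul] at g1 g2 g3 g4
  apply SL2_ext
  · rw [g1, ea_mul, f1, f3]; simp; ring
  · rw [g2, eb_mul, f2, f4]; simp; ring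
  · rw [g3, ec_mul, f1, f3]; simp; ring
  · rw [g4, ed_mul, f2, f4]; simp; ring

/-- right multiplication of a row -/
private def quotT (h : SL2) (z : ℂ) : ℂ :=
  ⟨ed h * z.re + eb h * z.im, ec h * z.re + ea h * z.im⟩

private lemma quotT_mp (h : SL2) : MeasurePreserving (quotT h) volume volume := by
  obtain ⟨T, hT⟩ : ∃ T : ℂ →ₗ[ℝ] ℂ, T = Matrix.toLin Complex.basisOneI Complex.basisOneI
      !![ed h, eb h; ec h, ea h] := ⟨_, rfl⟩
  have hd : LinearMap.det T = 1 := by
    rw [hT, LinearMap.det_toLin, Matrix.det_fin_two_of, ← det_eq h]; ring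
  have h1 : MeasurePreserving T volume volume := ⟨T.continuous_of_finiteDimensional.measurable, by
    rw [Measure.map_linearMap_addHaar_eq_smul_addHaar _ (by rw [hd]; simp), hd]; simp⟩
  have h2 : quotT h = T := by
    ext1 z
    rw [hT, Matrix.toLin_apply]
    apply Complex.ext <;> simp [quotT, Matrix.mulVec, dotProduct, Fin.sum_univ_two]
  rwa [h2]

private lemma quot_dt (h : SL2) (v : V) : dt (Prod.map (quotT h) (quotT h) v) = dt v := by
  simp only [dt_eq, Prod.map_fst, Prod.map_snd, quotT]
  linear_combination (v.1.im * v.2.re - v.1.re * v.2.im) * det_eq h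

private lemma quot_T (h : SL2) {v : V} (hv : v ∈ Om) :
    quotN (Prod.map (quotT h) (quotT h) v) = quotN v * h := by
  obtain ⟨f1, f2, f3, f4⟩ := quotN_ent hv
  obtain ⟨g1, g2, g3, g4⟩ := quotN_ent (v := Prod.map (quotT h) (quotT h) v)
    (show 0 < dt _ by rw [quot_dt]; exact hv)
  rw [quot_dt] at g1 g2 g3 g4
  apply SL2_ext
  · rw [g1, ea_mul, f1, f2]; simp only [Prod.map_fst, quotT]; ring
  · rw [g2, eb_mul, f1, f2]; simp only [Prod.map_fst, quotT]; ring
  · rw [g3, ec_mul, f3, f4]; simp only [Prod.map_snd, quotT]; ring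
  · rw [g4, ed_mul, f3, f4]; simp only [Prod.map_snd, quotT]; ring

/-- the invariant measure of the group -/
private def quotM : Measure SL2 := mV.map quotN

private lemma quot_mp {L : V → V} (hL : MeasurePreserving L mV mV) {f : SL2 → SL2}
    (hf : Measurable f) (e : ∀ v ∈ Om, quotN (L v) = f (quotN v)) :
    MeasurePreserving f quotM quotM := by
  refine ⟨hf, ?_⟩
  rw [quotM, Measure.map_map hf quot_measurable]
  conv_rhs => rw [← hL.map_eq, Measure.map_map quot_measurable hL.measurable]
  exact Measure.map_congr (ae_Om.mono fun v hv => (e v hv).symm)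

private lemma quot_left (g : SL2) : MeasurePreserving (fun x => g * x) quotM quotM :=
  quot_mp (measurePreserving_Lg_mV (det_eq g)) (measurable_const_mul g) fun _ hv => quot_Lg g hv

private lemma quot_right (h : SL2) : MeasurePreserving (fun x => x * h) quotM quotM :=
  quot_mp (measurePreserving_mV ((quotT_mp h).prod (quotT_mp h)) (quot_dt h))
    (measurable_mul_const h) fun _ hv => quot_T h hv

private lemma quot_bp : MeasurePreserving bp quotM volume := by
  refine ⟨measurable_bp, ?_⟩
  have e : (quotM.map bp).map UpperHalfPlane.coe = (volume : Measure ℍ).map UpperHalfPlane.coe := by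
    rw [measurePreserving_coe.map_eq, ← measurePreserving_pr.map_eq, quotM,
      Measure.map_map measurable_bp quot_measurable,
      Measure.map_map measurable_coe (measurable_bp.comp quot_measurable)]
    exact Measure.map_congr (ae_Om.mono fun v hv => quot_coe_bp hv)
  rw [← measurableEmbedding_coe.comap_map (quotM.map bp), e, measurableEmbedding_coe.comap_map]

theorem exists_quo {Γ : Type*} [Group Γ] [Countable Γ] [MulAction Γ ℍ] {l : Γ → SL2} {D : Set ℍ}
    (h : FD l D) :
    ∃ ν : Measure SL2, Quo (range l) ν ∧ MeasurePreserving bp ν (volume.restrict D) := by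
  have mp : MeasurePreserving bp (quotM.restrict (bp ⁻¹' D)) (volume.restrict D) :=
    quot_bp.restrict_preimage h.meas
  have ev : ∀ k : SL2, Eqv quotM (fun (γ : Γ) (g : SL2) => l γ * g) fun g => bp (g * k) :=
    fun k => ⟨fun γ => quot_left _, (quot_bp.comp (quot_right k)).quasiMeasurePreserving,
      fun γ g => by rw [mul_assoc, bp_mul, h.act]⟩
  refine ⟨quotM.restrict (bp ⁻¹' D), ⟨⟨?_⟩, fun F mF hi k => ?_⟩, mp⟩
  · rw [Measure.restrict_apply_univ, quot_bp.measure_preimage h.meas.nullMeasurableSet]
    exact h.fin.lt_top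
  · have e1 := Eqv.transport h (ev 1) (ev k⁻¹) mF fun γ g => hi _ ⟨γ, rfl⟩ g
    have e2 := (quot_right k).setLIntegral_comp_preimage
      ((ev k⁻¹).qmp.measurable h.meas) mF
    have e3 : (fun x => x * k) ⁻¹' ((fun g => bp (g * k⁻¹)) ⁻¹' D) = bp ⁻¹' D := by
      ext g; simp
    simp only [mul_one] at e1
    rw [e3] at e2
    exact e2.trans e1.symm

theorem Quo.integral_right {Λ : Set SL2} {ν : Measure SL2} (Q : Quo Λ ν) {F : SL2 → ℝ}
    (mF : Measurable F) {B : ℝ} (hB : ∀ g, |F g| ≤ B) (hi : ∀ γ ∈ Λ, ∀ g, F (γ * g) = F g)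
    (h : SL2) : ∫ g, F (g * h) ∂ν = ∫ g, F g ∂ν := by
  have := Q.fin
  have i1 : Integrable F ν :=
    Integrable.of_bound mF.aestronglyMeasurable B (Eventually.of_forall hB)
  have i2 : Integrable (fun g => F (g * h)) ν :=
    Integrable.of_bound (mF.comp (measurable_mul_const h)).aestronglyMeasurable B
      (Eventually.of_forall fun g => hB _)
  rw [integral_eq_lintegral_pos_part_sub_lintegral_neg_part i1,
    integral_eq_lintegral_pos_part_sub_lintegral_neg_part i2,
    Q.right (fun g => ENNReal.ofReal (F g)) mF.ennreal_ofReal (fun γ hγ g => by rw [hi γ hγ]) h,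
    Q.right (fun g => ENNReal.ofReal (-F g)) mF.neg.ennreal_ofReal
      (fun γ hγ g => by rw [hi γ hγ]) h]

end Pool.Agent.Lib.MP_a52643_an.NS
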