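import Pool.Agent.Lib.MP_a52643_an.NS.State1

/-!
The stable flow acts on the state nearly as a modulation; scaling.
-/

open MeasureTheory Set Filter Topology Metric UpperHalfPlane
open scoped ENNReal MatrixGroups Real FourierTransform ComplexConjugate

noncomputable section

namespace Pool.Agent.Lib.MP_a52643_an.NS

/-- second order bound for the logarithm -/
private lemma state2_log {u : ℝ} (hu : |u| ≤ 1 / 2) : |Real.log (1 + u) - u| ≤ 2 * u ^ 2 := by
  obtain ⟨h1, h2⟩ := abs_le.1 hu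
  have hp : 0 < 1 + u := by linarith
  have a := Real.log_le_sub_one_of_pos hp
  have b := Real.one_sub_inv_le_log_of_pos hp
  have c : (1 + u)⁻¹ ≤ 1 - u + 2 * u ^ 2 := by
    rw [inv_le_iff_one_le_mul₀ hp]
    nlinarith [mul_nonneg (sq_nonneg u) (show 0 ≤ 1 + 2 * u by linarith)]
  rw [abs_le]; constructor <;> nlinarith [sq_nonneg u]

/-- the quotient of the two quadratic forms -/
private lemma state2_quot {t w : ℝ} (ht : |t| ≤ 1 / 10) (hw : 0 ≤ w) :
    |Real.log ((1 + t) ^ 2 + w) - Real.log (1 + w) - 2 * t| ≤ 10 * t ^ 2 + 2 * |t| * w ∧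
      |Real.log ((1 + t) ^ 2 + w) - Real.log (1 + w)| ≤ 4 * |t| := by
  have hA : 0 < 1 + w := by linarith
  have ht0 := abs_nonneg t
  have hsq : t ^ 2 = |t| ^ 2 := (sq_abs t).symm
  set u := (2 * t + t ^ 2) / (1 + w) with hu
  have hn : |2 * t + t ^ 2| ≤ 21 / 10 * |t| := by
    refine (abs_add_le _ _).trans ?_
    rw [abs_mul, abs_two, abs_of_nonneg (sq_nonneg t), hsq]
    nlinarith
  have hu1 : |u| ≤ 21 / 10 * |t| := by
    rw [hu, abs_div, abs_of_pos hA]
    exact (div_le_self (abs_nonneg _) (by linarith)).trans hn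
  have hu2 : |u| ≤ 1 / 2 := by linarith
  have hp : 0 < 1 + u := by linarith [(abs_le.1 hu2).1]
  have e : (1 + t) ^ 2 + w = (1 + w) * (1 + u) := by rw [hu]; field_simp; ring
  have e2 : Real.log ((1 + t) ^ 2 + w) - Real.log (1 + w) = Real.log (1 + u) := by
    rw [e, Real.log_mul hA.ne' hp.ne']; ring
  have hl := state2_log hu2
  have hu3 : u ^ 2 ≤ (21 / 10 * |t|) ^ 2 := by
    rw [← sq_abs u]; exact pow_le_pow_left₀ (abs_nonneg _) hu1 2
  have hd : |u - 2 * t| ≤ t ^ 2 + 2 * |t| * w := by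
    have : u - 2 * t = (t ^ 2 - 2 * t * w) / (1 + w) := by rw [hu]; field_simp; ring
    rw [this, abs_div, abs_of_pos hA]
    refine (div_le_self (abs_nonneg _) (by linarith)).trans ((abs_sub _ _).trans ?_)
    rw [abs_of_nonneg (sq_nonneg t), abs_mul, abs_mul, abs_two, abs_of_nonneg hw]
  rw [e2]
  constructor
  · have := abs_sub_le (Real.log (1 + u)) u (2 * t)
    nlinarith
  · have := abs_sub_abs_le_abs_sub (Real.log (1 + u)) u
    nlinarith

/-- comparison of a power with a pure phase -/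
private lemma state2_exp (r L θ : ℝ) (hr : 0 ≤ r) (hL : |L| ≤ 2) :
    ‖Complex.exp (-(1 / 2 + r * Complex.I) * L) - Complex.exp ((-(r * θ) : ℝ) * Complex.I)‖
      ≤ |L| + r * |L - θ| := by
  have e : Complex.exp (-(1 / 2 + r * Complex.I) * L) - Complex.exp ((-(r * θ) : ℝ) * Complex.I)
      = (Complex.exp ((-L / 2 : ℝ) : ℂ) - 1) * Complex.exp ((-(r * L) : ℝ) * Complex.I)
        + Complex.exp ((-(r * θ) : ℝ) * Complex.I)
          * (Complex.exp (Complex.I * (-(r * (L - θ)) : ℝ)) - 1) := by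
    rw [sub_mul, mul_sub, ← Complex.exp_add, ← Complex.exp_add]
    have h1 : ((-L / 2 : ℝ) : ℂ) + (-(r * L) : ℝ) * Complex.I = -(1 / 2 + r * Complex.I) * L := by
      push_cast; ring
    have h2 : ((-(r * θ) : ℝ) : ℂ) * Complex.I + Complex.I * (-(r * (L - θ)) : ℝ)
        = (-(r * L) : ℝ) * Complex.I := by push_cast; ring
    rw [h1, h2]; ring
  rw [e]
  refine (norm_add_le _ _).trans (add_le_add ?_ ?_)
  · rw [norm_mul, Complex.norm_exp_ofReal_mul_I, mul_one]
    have hn : ‖((-L / 2 : ℝ) : ℂ)‖ = |L| / 2 := by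
      rw [Complex.norm_real, Real.norm_eq_abs, abs_div, abs_neg, abs_two]
    have := Complex.norm_exp_sub_one_le (x := ((-L / 2 : ℝ) : ℂ)) (by rw [hn]; linarith)
    rw [hn] at this; linarith
  · rw [norm_mul, Complex.norm_exp_ofReal_mul_I, one_mul]
    refine (Real.norm_exp_I_mul_ofReal_sub_one_le).trans ?_
    rw [Real.norm_eq_abs, abs_neg, abs_mul, abs_of_nonneg hr]

private lemma state2_point {r t w : ℝ} (hr : 0 ≤ r) (ht : |t| ≤ 1 / 10) (hw : 0 ≤ w) :
    ‖Complex.exp (-(1 / 2 + r * Complex.I) * Real.log ((1 + t) ^ 2 + w))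
      - Complex.exp ((-(r * (2 * t)) : ℝ) * Complex.I)
        * Complex.exp (-(1 / 2 + r * Complex.I) * Real.log (1 + w))‖
      ≤ 4 * |t| + r * (10 * t ^ 2 + 2 * |t| * w) := by
  obtain ⟨h1, h2⟩ := state2_quot ht hw
  set L := Real.log ((1 + t) ^ 2 + w) - Real.log (1 + w) with hL
  have e : Complex.exp (-(1 / 2 + r * Complex.I) * Real.log ((1 + t) ^ 2 + w))
      = Complex.exp (-(1 / 2 + r * Complex.I) * L)
        * Complex.exp (-(1 / 2 + r * Complex.I) * Real.log (1 + w)) := by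
    rw [← Complex.exp_add, hL]; congr 1; push_cast; ring
  have hn : ‖Complex.exp (-(1 / 2 + r * Complex.I) * Real.log (1 + w))‖ ≤ 1 := by
    rw [Complex.norm_exp, Real.exp_le_one_iff]
    have := Real.log_nonneg (show 1 ≤ 1 + w by linarith)
    simp only [neg_mul, Complex.neg_re, Complex.mul_re, Complex.add_re, Complex.ofReal_re,
      Complex.I_re, Complex.ofReal_im, Complex.I_im, mul_zero, sub_zero]
    norm_num
    positivity
  rw [e, ← sub_mul, norm_mul]
  refine (mul_le_of_le_one_right (norm_nonneg _) hn).trans ?_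
  refine (state2_exp r L (2 * t) hr (by linarith)).trans (add_le_add h2 ?_)
  exact mul_le_mul_of_nonneg_left h1 hr

private lemma state2_int (r σ a y : ℝ) (ha : 0 < a) : IntegrableOn
    (fun v : ℝ => Complex.exp (-(1 / 2 + r * Complex.I) * Real.log (a + v * y ^ 2)))
    (Ioc 1 (1 + σ)) := by
  refine (ContinuousOn.integrableOn_Icc (a := 1) (b := 1 + σ) ?_).mono_set Ioc_subset_Icc_self
  refine Complex.continuous_exp.comp_continuousOn (continuousOn_const.mul
    (Complex.continuous_ofReal.comp_continuousOn (ContinuousOn.log (by fun_prop) ?_)))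
  intro v hv
  have : 0 ≤ v * y ^ 2 := mul_nonneg (by linarith [hv.1]) (sq_nonneg y)
  linarith

private lemma state2_inside {r σ X s y : ℝ} (hr : 0 < r) (h0 : 0 ≤ σ) (h1 : σ ≤ 1)
    (hs : |s| * X ≤ 1 / 10) (hy : |y| ≤ X) :
    ‖kE r σ (vG (-s)) y - ee (y * (s * (r / π))) * kE r σ 1 y‖
      ≤ 20 * σ * (r * s ^ 2 * X ^ 2 + r * |s| * X ^ 3 + |s| * X) := by
  have hy0 := abs_nonneg y
  have hs0 := abs_nonneg s
  have hX : 0 ≤ X := hy0.trans hy
  have ht1 : |s * y| ≤ |s| * X := by rw [abs_mul]; exact mul_le_mul_of_nonneg_left hy hs0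
  have ht : |s * y| ≤ 1 / 10 := ht1.trans hs
  have hp : 0 < (1 + s * y) ^ 2 := by
    have := (abs_le.1 ht).1
    exact pow_pos (by linarith) 2
  have e1 : kE r σ (vG (-s)) y = ∫ v in Ioc 1 (1 + σ),
      Complex.exp (-(1 / 2 + r * Complex.I) * Real.log ((1 + s * y) ^ 2 + v * y ^ 2)) := by
    rw [kE_eq]; simp [vG]
  have e2 : kE r σ 1 y = ∫ v in Ioc 1 (1 + σ),
      Complex.exp (-(1 / 2 + r * Complex.I) * Real.log (1 + v * y ^ 2)) := by
    rw [kE_eq]; simp
  have e3 : ee (y * (s * (r / π))) = Complex.exp ((-(r * (2 * (s * y))) : ℝ) * Complex.I) := by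
    rw [ee, show -2 * π * (y * (s * (r / π))) = -(r * (2 * (s * y))) by field_simp]
  rw [e1, e2, e3, ← integral_const_mul, ← integral_sub (state2_int r σ _ y hp)
    ((state2_int r σ 1 y one_pos).const_mul _)]
  have hy2 : y ^ 2 ≤ X ^ 2 := by rw [← sq_abs y]; exact pow_le_pow_left₀ hy0 hy 2
  have ht2 : (s * y) ^ 2 ≤ s ^ 2 * X ^ 2 := by
    rw [mul_pow]; exact mul_le_mul_of_nonneg_left hy2 (sq_nonneg s)
  refine (norm_setIntegral_le_of_norm_le_const
    (C := 20 * (r * s ^ 2 * X ^ 2 + r * |s| * X ^ 3 + |s| * X)) measure_Ioc_lt_top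
    fun v hv => ?_).trans (le_of_eq ?_)
  · have hv0 : 0 ≤ v := by linarith [hv.1]
    have hw : v * y ^ 2 ≤ 2 * X ^ 2 :=
      mul_le_mul (by linarith [hv.2]) hy2 (sq_nonneg y) (by norm_num)
    refine (state2_point hr.le ht (mul_nonneg hv0 (sq_nonneg y))).trans ?_
    have a1 : |s * y| * (v * y ^ 2) ≤ (|s| * X) * (2 * X ^ 2) :=
      mul_le_mul ht1 hw (mul_nonneg hv0 (sq_nonneg y)) (by positivity)
    have a2 : r * (10 * (s * y) ^ 2 + 2 * |s * y| * (v * y ^ 2))
        ≤ r * (10 * (s ^ 2 * X ^ 2) + 4 * (|s| * X ^ 3)) :=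
      mul_le_mul_of_nonneg_left (by nlinarith) hr.le
    have b1 : 0 ≤ r * s ^ 2 * X ^ 2 := by positivity
    have b2 : 0 ≤ r * |s| * X ^ 3 := by positivity
    have b3 : 0 ≤ |s| * X := by positivity
    nlinarith
  · rw [Real.volume_real_Ioc_of_le (by linarith)]; ring

private lemma state2_compl (X : ℝ) : (Icc (-X) X)ᶜ = {y : ℝ | X < |y|} := by
  ext y; simp only [mem_compl_iff, mem_Icc, ← abs_le, not_le, mem_ofPred_eq]

theorem kE_modu {r σ X s : ℝ} (hr : 0 < r) (h0 : 0 ≤ σ) (h1 : σ ≤ 1) (hX : 0 < X) (hX1 : X ≤ 1)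
    (hs : |s| * X ≤ 1 / 10) :
    n2 (fun y => kE r σ (vG (-s)) y - ee (y * (s * (r / π))) * cut X (kE r σ 1) y)
      ≤ ENNReal.ofReal (800 * σ ^ 2 * X * (r * s ^ 2 * X ^ 2 + r * |s| * X ^ 3 + |s| * X) ^ 2
        + 100 / (r ^ 2 * X ^ 3)) := by
  set ζ := r * s ^ 2 * X ^ 2 + r * |s| * X ^ 3 + |s| * X with hζ
  have hζ0 : 0 ≤ ζ := by positivity
  rw [n2, ← lintegral_add_compl _ (measurableSet_Icc (a := -X) (b := X)),
    ENNReal.ofReal_add (by positivity) (by positivity)]
  refine add_le_add ?_ ?_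
  · calc _ ≤ ∫⁻ _ in Icc (-X) X, ENNReal.ofReal ((20 * σ * ζ) ^ 2) := by
          refine setLIntegral_mono' measurableSet_Icc fun y hy => ?_
          rw [cut, indicator_of_mem hy, ← ofReal_norm,
            ← ENNReal.ofReal_pow (norm_nonneg _)]
          exact ENNReal.ofReal_le_ofReal (pow_le_pow_left₀ (norm_nonneg _)
            (state2_inside hr h0 h1 hs (abs_le.2 hy)) 2)
      _ = _ := by
          rw [setLIntegral_const, Real.volume_Icc, ← ENNReal.ofReal_mul (by positivity)]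
          congr 1; ring
  · refine le_trans (le_of_eq ?_) (kE_tail (s := -s) hr h0 h1 hX hX1 (by rwa [abs_neg]))
    rw [← state2_compl]
    refine setLIntegral_congr_fun measurableSet_Icc.compl fun y hy => ?_
    simp only [cut, indicator_of_notMem hy, mul_zero, sub_zero]

private lemma state2_scale (r T : ℝ) (F : ℝ → ℂ) :
    n2 (fun y => Complex.exp ((1 / 2 + r * Complex.I) * T) * F (Real.exp T * y)) = n2 F := by
  have hT := Real.exp_pos T
  have hc : ‖Complex.exp ((1 / 2 + r * Complex.I) * T)‖ₑ ^ 2 = ENNReal.ofReal (Real.exp T) := by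
    rw [← ofReal_norm, ← ENNReal.ofReal_pow (norm_nonneg _), Complex.norm_exp,
      ← Real.exp_nat_mul]
    congr 2
    simp
  have hm := (measurableEmbedding_mulLeft₀ hT.ne').lintegral_map (μ := volume)
    fun y => ‖F y‖ₑ ^ 2
  rw [Real.map_volume_mul_left hT.ne', lintegral_smul_measure] at hm
  simp only [n2, enorm_mul, mul_pow, hc]
  rw [lintegral_const_mul' _ _ ENNReal.ofReal_ne_top, ← hm, smul_eq_mul, ← mul_assoc,
    ← ENNReal.ofReal_mul hT.le, abs_of_pos (inv_pos.2 hT), mul_inv_cancel₀ hT.ne',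
    ENNReal.ofReal_one, one_mul]

private lemma state2_cut (r σ T X y : ℝ) : cut X (kE r σ (aG T)) y
    = Complex.exp ((1 / 2 + r * Complex.I) * T)
      * cut (Real.exp T * X) (kE r σ 1) (Real.exp T * y) := by
  have hT := Real.exp_pos T
  have h : Real.exp T * y ∈ Icc (-(Real.exp T * X)) (Real.exp T * X) ↔ y ∈ Icc (-X) X := by
    rw [mem_Icc, mem_Icc, ← mul_neg, mul_le_mul_iff_right₀ hT, mul_le_mul_iff_right₀ hT]
  by_cases hy : y ∈ Icc (-X) X
  · rw [cut, cut, indicator_of_mem hy, indicator_of_mem (h.2 hy), kE_aG]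
  · rw [cut, cut, indicator_of_notMem hy, indicator_of_notMem (mt h.1 hy), mul_zero]

theorem n2_scale (r σ T : ℝ) : n2 (kE r σ (aG T)) = n2 (kE r σ 1) := by
  rw [← state2_scale r T (kE r σ 1)]
  congr 1
  ext y
  exact kE_aG r σ T y

theorem tail_scale (r σ T X : ℝ) : n2 (cut X (kE r σ (aG T)) - kE r σ (aG T))
    = ∫⁻ y in {y | Real.exp T * X < |y|}, ‖kE r σ 1 y‖ₑ ^ 2 := by
  have e : cut X (kE r σ (aG T)) - kE r σ (aG T) = fun y =>
      Complex.exp ((1 / 2 + r * Complex.I) * T)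
        * (cut (Real.exp T * X) (kE r σ 1) - kE r σ 1) (Real.exp T * y) := by
    ext y
    rw [Pi.sub_apply, Pi.sub_apply, state2_cut, kE_aG, mul_sub]
  rw [e, state2_scale, n2, ← state2_compl, ← lintegral_indicator measurableSet_Icc.compl]
  refine lintegral_congr fun y => ?_
  by_cases hy : y ∈ Icc (-(Real.exp T * X)) (Real.exp T * X)
  · rw [indicator_of_notMem (by simpa using hy), Pi.sub_apply, cut, indicator_of_mem hy]
    simp
  · rw [indicator_of_mem (by simpa using hy), Pi.sub_apply, cut, indicator_of_notMem hy]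
    simp

theorem move_scale (r σ T X x : ℝ) :
    n2 (fun y => cut X (kE r σ (aG T)) (y - x) - cut X (kE r σ (aG T)) y)
      = n2 fun y => cut (Real.exp T * X) (kE r σ 1) (y - Real.exp T * x)
        - cut (Real.exp T * X) (kE r σ 1) y := by
  rw [← state2_scale r T fun y => cut (Real.exp T * X) (kE r σ 1) (y - Real.exp T * x)
    - cut (Real.exp T * X) (kE r σ 1) y]
  congr 1
  ext y
  rw [state2_cut, state2_cut, mul_sub (Real.exp T), ← mul_sub]

end Pool.Agent.Lib.MP_a52643_an.NS
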