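import Pool.Agent.Lib.MP_a52643_an.NS.Defs

/-!
The measure of the porous sets.
-/

open MeasureTheory Set Filter Topology Metric UpperHalfPlane
open scoped ENNReal MatrixGroups Real FourierTransform ComplexConjugate

noncomputable section

namespace Pool.Agent.Lib.MP_a52643_an.NS

private lemma vol_grid (p : ℝ) {y : ℝ} (hy : 0 < y) (u : ℝ) : ∃ s : Finset ℝ,
    s.card ≤ ⌊u⌋₊ + 1 ∧ ∀ x ∈ Icc p (p + u * y), ∃ z ∈ s, x ∈ Icc z (z + y) := by
  refine ⟨(Finset.range (⌊u⌋₊ + 1)).image fun i : ℕ => p + i * y,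
    Finset.card_image_le.trans (Finset.card_range _).le, fun x hx => ?_⟩
  have h0 : 0 ≤ (x - p) / y := div_nonneg (sub_nonneg.2 hx.1) hy.le
  have h1 : (x - p) / y ≤ u := by rw [div_le_iff₀ hy]; linarith [hx.2]
  have h2 := Nat.floor_le h0
  have h3 := Nat.lt_floor_add_one ((x - p) / y)
  rw [le_div_iff₀ hy] at h2
  rw [div_lt_iff₀ hy] at h3
  exact ⟨_, Finset.mem_image.2 ⟨⌊(x - p) / y⌋₊,
    Finset.mem_range.2 (Nat.lt_succ_of_le (Nat.floor_le_floor h1)), rfl⟩, by linarith, by linarith⟩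

private lemma vol_diam (A : Set ℝ) {y : ℝ} (hy : 0 < y) (D : ℝ)
    (h : ∀ x ∈ A, ∀ x' ∈ A, |x - x'| ≤ D * y) : ∃ s : Finset ℝ,
    s.card ≤ ⌊2 * D⌋₊ + 1 ∧ ∀ x ∈ A, ∃ z ∈ s, x ∈ Icc z (z + y) := by
  rcases A.eq_empty_or_nonempty with rfl | ⟨x₁, h₁⟩
  · exact ⟨∅, by simp, by simp⟩
  · obtain ⟨s, h1, h2⟩ := vol_grid (x₁ - D * y) hy (2 * D)
    refine ⟨s, h1, fun x hx => h2 x ?_⟩
    have := abs_le.1 (h x hx x₁ h₁)
    constructor <;> linarith [this.1, this.2]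

private lemma vol_Q {t : ℝ} {M : SL2} {x τ : ℝ} (h : Nr t (M • pt x τ)) :
    |(ea M * x + eb M) * (ec M * x + ed M) + ea M * ec M * Real.exp τ ^ 2|
      ≤ Real.sinh t * Real.exp τ := by
  have h1 := h.re_le
  have h2 := congrArg abs (re_act M x τ)
  have h3 := (M • pt x τ).im_pos
  have h4 := Real.exp_pos τ
  rw [abs_mul, abs_mul, abs_of_pos h3, abs_of_pos h4] at h2
  refine le_of_mul_le_mul_right ?_ h3
  nlinarith

private lemma vol_alg {S y E k Q : ℝ} (hS : 1 ≤ S) (hy : 0 < y) (hE : 32 * S ^ 2 ≤ E)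
    (h1 : |Q + k * y ^ 2| ≤ S * y) (h2 : |Q + k * (y * E) ^ 2| ≤ S * (y * E)) :
    |Q| ≤ 3 * S * y ∧ |k * Q| ≤ 3 / 16 := by
  have E2 : 2 ≤ E := by nlinarith
  have k0 := abs_nonneg k
  have h3 : |k * (y ^ 2 * ((E - 1) * (E + 1)))| ≤ S * (y * E) + S * y := by
    rw [show k * (y ^ 2 * ((E - 1) * (E + 1))) = Q + k * (y * E) ^ 2 - (Q + k * y ^ 2) by ring]
    exact (abs_sub _ _).trans (add_le_add h2 h1)
  rw [abs_mul, abs_of_pos (a := y ^ 2 * _) (by have : 0 < E - 1 := by linarith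
                                               positivity)] at h3
  have h4 : |k| * y * (E - 1) ≤ S :=
    le_of_mul_le_mul_right (a := y * (E + 1)) (by nlinarith) (by positivity)
  have h5 : |k| * y * E ≤ 2 * S := by nlinarith [mul_nonneg k0 hy.le]
  have h6 : |k| * y ≤ S := by nlinarith [mul_nonneg k0 hy.le]
  have h7 : |Q| ≤ 3 * S * y := by
    have := abs_sub (Q + k * y ^ 2) (k * y ^ 2)
    rw [add_sub_cancel_right, abs_mul, abs_of_pos (a := y ^ 2) (by positivity)] at this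
    nlinarith
  refine ⟨h7, ?_⟩
  rw [abs_mul]
  refine le_of_mul_le_mul_right (a := E) ?_ (by linarith)
  nlinarith [mul_le_mul_of_nonneg_left h7 (mul_nonneg k0 (by linarith : 0 ≤ E))]

private lemma vol_class {t ℓ : ℝ} (hS : 1 ≤ Real.sinh t) (hE : 32 * Real.sinh t ^ 2 ≤ Real.exp ℓ)
    (M : SL2) (τ : ℝ) : ∃ s : Finset ℝ, s.card ≤ 2 * (⌊24 * Real.sinh t⌋₊ + 1) ∧
      ∀ x, Nr t (M • pt x τ) → Nr t (M • pt x (τ + ℓ)) → ∃ z ∈ s, x ∈ Icc z (z + Real.exp τ) := by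
  have hd := det_eq M
  have key : ∀ x, Nr t (M • pt x τ) → Nr t (M • pt x (τ + ℓ)) →
      |(ea M * x + eb M) * (ec M * x + ed M)| ≤ 3 * Real.sinh t * Real.exp τ ∧
        1 / 2 ≤ |2 * ea M * ec M * x + ea M * ed M + eb M * ec M| := fun x h1 h2 => by
    have h3 := vol_Q h2
    rw [Real.exp_add] at h3
    obtain ⟨h4, h5⟩ := vol_alg hS (Real.exp_pos τ) hE (vol_Q h1) h3
    refine ⟨h4, le_of_sq_le_sq ?_ (abs_nonneg _)⟩
    rw [sq_abs]
    have h6 : (2 * ea M * ec M * x + ea M * ed M + eb M * ec M) ^ 2 =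
        1 + 4 * (ea M * ec M * ((ea M * x + eb M) * (ec M * x + ed M))) := by
      linear_combination (ea M * ed M - eb M * ec M + 1) * hd
    linarith [(abs_le.1 h5).1]
  have cl : ∀ e : ℝ, |e| = 1 → ∃ s : Finset ℝ, s.card ≤ ⌊24 * Real.sinh t⌋₊ + 1 ∧
      ∀ x ∈ {x | Nr t (M • pt x τ) ∧ Nr t (M • pt x (τ + ℓ)) ∧
        1 / 2 ≤ e * (2 * ea M * ec M * x + ea M * ed M + eb M * ec M)},
      ∃ z ∈ s, x ∈ Icc z (z + Real.exp τ) := fun e he => by
    rw [show 24 * Real.sinh t = 2 * (12 * Real.sinh t) by ring]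
    refine vol_diam _ (Real.exp_pos τ) _ fun x hx x' hx' => ?_
    have h1 := (abs_sub _ _).trans (add_le_add (key x hx.1 hx.2.1).1 (key x' hx'.1 hx'.2.1).1)
    have h2 := (add_le_add hx.2.2 hx'.2.2).trans (le_abs_self _)
    rw [← mul_add, abs_mul, he, one_mul] at h2
    rw [show (ea M * x + eb M) * (ec M * x + ed M) - (ea M * x' + eb M) * (ec M * x' + ed M) =
      (x - x') * (2 * ea M * ec M * x + ea M * ed M + eb M * ec M +
        (2 * ea M * ec M * x' + ea M * ed M + eb M * ec M)) / 2 by ring, abs_div, abs_mul,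
      abs_two] at h1
    nlinarith [abs_nonneg (x - x')]
  obtain ⟨s1, a1, a2⟩ := cl 1 abs_one
  obtain ⟨s2, b1, b2⟩ := cl (-1) (by simp)
  refine ⟨s1 ∪ s2, (Finset.card_union_le _ _).trans (by omega), fun x h1 h2 => ?_⟩
  rcases le_abs.1 (key x h1 h2).2 with h | h
  · obtain ⟨z, hz, h⟩ := a2 x ⟨h1, h2, by linarith⟩
    exact ⟨z, Finset.mem_union_left _ hz, h⟩
  · obtain ⟨z, hz, h⟩ := b2 x ⟨h1, h2, by linarith⟩
    exact ⟨z, Finset.mem_union_right _ hz, h⟩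

private lemma vol_step {A B : Set ℝ} {y v K : ℝ} (hv : 0 ≤ v)
    (h : ∀ z, volume (A ∩ Icc z (z + y)) ≤ ENNReal.ofReal v) (s : Finset ℝ) (hs : (s.card : ℝ) ≤ K)
    (hc : ∀ x ∈ A ∩ B, ∃ z ∈ s, x ∈ Icc z (z + y)) : volume (A ∩ B) ≤ ENNReal.ofReal (K * v) :=
  calc volume (A ∩ B) ≤ volume (⋃ z ∈ s, A ∩ Icc z (z + y)) := measure_mono fun x hx => by
        obtain ⟨z, hz, h⟩ := hc x hx
        exact mem_biUnion hz ⟨hx.1, h⟩
    _ ≤ ∑ z ∈ s, volume (A ∩ Icc z (z + y)) := measure_biUnion_finset_le _ _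
    _ ≤ s.card • ENNReal.ofReal v := Finset.sum_le_card_nsmul _ _ _ fun z _ => h z
    _ ≤ ENNReal.ofReal (K * v) := by
        rw [nsmul_eq_mul, ← ENNReal.ofReal_natCast, ← ENNReal.ofReal_mul (Nat.cast_nonneg _)]
        exact ENNReal.ofReal_le_ofReal (mul_le_mul_of_nonneg_right hs hv)

private lemma vol_cd_top (a : Finset ℕ) {m k : ℕ} (h : m ≤ k) :
    cd a m (k + 1) = cd a m k + if k ∈ a then 1 else 0 := by
  unfold cd
  rw [← Finset.insert_Ico_right_eq_Ico_add_one h]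
  split_ifs with hk
  · rw [Finset.inter_insert_of_mem hk, Finset.card_insert_of_notMem (by simp)]
    push_cast; rfl
  · rw [Finset.inter_insert_of_notMem hk, add_zero]

private lemma vol_cd_bot (a : Finset ℕ) {m k : ℕ} (h : m < k) :
    cd a m k = cd a (m + 1) k + if m ∈ a then 1 else 0 := by
  unfold cd
  rw [← Finset.insert_Ico_add_one_left_eq_Ico h]
  split_ifs with hk
  · rw [Finset.inter_insert_of_mem hk, Finset.card_insert_of_notMem (by simp)]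
    push_cast; rfl
  · rw [Finset.inter_insert_of_notMem hk, add_zero]

theorem Geo.cover {Λ L : Set SL2} (G : Geo Λ L) {t : ℝ} (ht : 1 ≤ t) :
    ∃ C ℓ₁ : ℝ, ∀ ℓ ≥ ℓ₁, ∀ (g : SL2) (τ x₀ : ℝ), ∃ s : Finset ℝ,
      (s.card : ℝ) ≤ C * Real.exp (ℓ / 10 ^ 14) ∧ ∀ x ∈ Icc x₀ (x₀ + Real.exp (τ + ℓ)), nr L t ℓ g τ x →
        ∃ y ∈ s, x ∈ Icc y (y + Real.exp τ) := by
  obtain ⟨C, T₀, hC, H⟩ := G.loc (t + 1)
  have hS : 1 ≤ Real.sinh (t + 1) :=
    (by linarith : 1 ≤ t + 1).trans (Real.self_le_sinh_iff.2 (by linarith))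
  have hl := Real.log_nonneg hC
  refine ⟨C * Real.exp ((1 + Real.log C) / 10 ^ 14) * (2 * (⌊24 * Real.sinh (t + 1)⌋₊ + 1) : ℕ),
    max (max T₀ 0) (32 * Real.sinh (t + 1) ^ 2), fun ℓ hℓ g τ x₀ => ?_⟩
  have l1 : T₀ ≤ ℓ := ((le_max_left _ _).trans (le_max_left _ _)).trans hℓ
  have l2 : 0 ≤ ℓ := ((le_max_right _ _).trans (le_max_left _ _)).trans hℓ
  have l3 : 32 * Real.sinh (t + 1) ^ 2 ≤ Real.exp ℓ :=
    ((le_max_right _ _).trans hℓ).trans (by linarith [Real.add_one_le_exp ℓ])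
  obtain ⟨F, -, F2, F3⟩ := H (ℓ + 1 + Real.log C) (by linarith) (g • pt x₀ (τ + ℓ))
  choose s s1 s2 using fun M : SL2 => vol_class hS l3 M τ
  refine ⟨F.biUnion fun G' => s (G' * g), ?_, fun x hx ⟨G₀, h0, h1, h2⟩ => ?_⟩
  · have h1 : (F.biUnion fun G' => s (G' * g)).card ≤
        F.card * (2 * (⌊24 * Real.sinh (t + 1)⌋₊ + 1)) :=
      Finset.card_biUnion_le_card_mul _ _ _ fun G' _ => s1 _
    refine (Nat.cast_le.2 h1).trans ?_
    rw [Nat.cast_mul]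
    refine (mul_le_mul_of_nonneg_right F2 (Nat.cast_nonneg _)).trans (le_of_eq ?_)
    rw [add_assoc, add_div, Real.exp_add]
    ring
  · have d1 : dist (pt x (τ + ℓ)) (pt x₀ (τ + ℓ)) ≤ 1 := by
      refine (dist_pt_le _ _ _).trans ?_
      rw [Real.exp_neg, ← div_eq_mul_inv, div_le_one (Real.exp_pos _),
        abs_of_nonneg (sub_nonneg.2 hx.1)]
      linarith [hx.2]
    have d2 : dist (pt x τ) (pt x₀ (τ + ℓ)) ≤ ℓ + 1 := by
      have := dist_triangle (pt x τ) (pt x (τ + ℓ)) (pt x₀ (τ + ℓ))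
      rw [dist_pt_eq, show τ - (τ + ℓ) = -ℓ by ring, abs_neg, abs_of_nonneg l2] at this
      linarith
    obtain ⟨G', g1, g2⟩ := F3 G₀ h0 (h2.move (by rwa [dist_smul, dist_smul, dist_comm]))
    have e : t + C * Real.exp (ℓ + 1 - (ℓ + 1 + Real.log C)) = t + 1 := by
      rw [show ℓ + 1 - (ℓ + 1 + Real.log C) = -Real.log C by ring, Real.exp_neg,
        Real.exp_log (by linarith), mul_inv_cancel₀ (by linarith)]
    have a1 := g2 (ℓ + 1) t _ (by linarith) (by rwa [dist_smul]) h1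
    have a2 := g2 (ℓ + 1) t _ (by linarith) (by rw [dist_smul]; linarith) h2
    rw [e, ← mul_smul] at a1 a2
    obtain ⟨z, hz, h⟩ := s2 (G' * g) x a1 a2
    exact ⟨z, Finset.mem_biUnion.2 ⟨G', g1, hz⟩, h⟩

theorem Geo.vol {Λ L : Set SL2} (G : Geo Λ L) {t : ℝ} (ht : 1 ≤ t) :
    ∃ C ℓ₁ : ℝ, 1 ≤ C ∧ 1 ≤ ℓ₁ ∧ ∀ ℓ ≥ ℓ₁, ∀ (g : SL2) (τ : ℝ) (a : Finset ℕ) (m k : ℕ) (x₀ : ℝ),
      m ≤ k →
      volume (Zt L t ℓ g τ a ∩ Icc x₀ (x₀ + Real.exp (τ + k * ℓ)))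
        ≤ ENNReal.ofReal ((C * Real.exp (ℓ / 10 ^ 14)) ^ (k - m)
          * Real.exp (τ + k * ℓ - ℓ * cd a m k)) ∧
      volume (Zs L t ℓ g τ a ∩ Icc x₀ (x₀ + Real.exp (-τ - m * ℓ)))
        ≤ ENNReal.ofReal ((C * Real.exp (ℓ / 10 ^ 14)) ^ (k - m)
          * Real.exp (-τ - m * ℓ - ℓ * cd a m k)) := by
  obtain ⟨C, ℓ₁, H⟩ := G.cover ht
  refine ⟨max C 2, max ℓ₁ 1, (by norm_num : (1 : ℝ) ≤ 2).trans (le_max_right _ _), le_max_right _ _,
    fun ℓ hℓ g τ a m k x₀ hmk => ?_⟩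
  have l0 : 0 ≤ ℓ := zero_le_one.trans ((le_max_right _ _).trans hℓ)
  have k1 : C * Real.exp (ℓ / 10 ^ 14) ≤ max C 2 * Real.exp (ℓ / 10 ^ 14) := by
    gcongr; exact le_max_left _ _
  have k2 : 2 ≤ max C 2 * Real.exp (ℓ / 10 ^ 14) := by
    have := Real.one_le_exp (show 0 ≤ ℓ / 10 ^ 14 by positivity)
    nlinarith [le_max_right C 2]
  replace H := H ℓ ((le_max_left _ _).trans hℓ) g
  generalize max C 2 * Real.exp (ℓ / 10 ^ 14) = K at k1 k2
  have one : ∀ (A : Set ℝ) (σ c : ℝ) (n j : ℕ), (j ∈ a → ∀ x ∈ A, nr L t ℓ g σ x) →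
      (∀ z, volume (A ∩ Icc z (z + Real.exp σ)) ≤ ENNReal.ofReal (K ^ n * Real.exp (σ - ℓ * c))) →
      ∀ z, volume (A ∩ Icc z (z + Real.exp (σ + ℓ))) ≤ ENNReal.ofReal
        (K ^ (n + 1) * Real.exp (σ + ℓ - ℓ * (c + if j ∈ a then 1 else 0))) := by
    intro A σ c n j hj h z
    split_ifs with hja
    · obtain ⟨s, s1, s2⟩ := H σ z
      refine (vol_step (by positivity) h s (s1.trans k1)
        fun x hx => s2 x hx.2 (hj hja x hx.1)).trans (le_of_eq ?_)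
      congr 1
      rw [show σ + ℓ - ℓ * (c + 1) = σ - ℓ * c by ring]
      ring
    · obtain ⟨s, s1, s2⟩ := vol_grid z (Real.exp_pos σ) (Real.exp ℓ)
      have s3 : (s.card : ℝ) ≤ K * Real.exp ℓ := by
        have h1 : (s.card : ℝ) ≤ ⌊Real.exp ℓ⌋₊ + 1 := by exact_mod_cast s1
        nlinarith [Nat.floor_le (Real.exp_pos ℓ).le, Real.one_le_exp l0]
      refine (vol_step (by positivity) h s s3 fun x hx => s2 x ?_).trans (le_of_eq ?_)
      · rw [← Real.exp_add, add_comm ℓ]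
        exact hx.2
      · congr 1
        rw [show σ + ℓ - ℓ * (c + 0) = ℓ + (σ - ℓ * c) by ring, Real.exp_add ℓ]
        ring
  have base : ∀ (A : Set ℝ) (σ z : ℝ) (m : ℕ), volume (A ∩ Icc z (z + Real.exp σ)) ≤
      ENNReal.ofReal (K ^ 0 * Real.exp (σ - ℓ * cd a m m)) := fun A σ z m => by
    refine (measure_mono inter_subset_right).trans (le_of_eq ?_)
    simp [cd]
  constructor
  · induction k, hmk using Nat.le_induction generalizing x₀ with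
    | base => rw [Nat.sub_self]; exact base _ _ _ _
    | succ k hk ih =>
      have := one (Zt L t ℓ g τ a) (τ + k * ℓ) (cd a m k) (k - m) k (fun h x hx => hx k h) ih x₀
      rwa [← vol_cd_top a hk, ← Nat.sub_add_comm hk,
        show τ + k * ℓ + ℓ = τ + (k + 1 : ℕ) * ℓ by push_cast; ring] at this
  · obtain ⟨n, rfl⟩ := Nat.exists_eq_add_of_le hmk
    rw [Nat.add_sub_cancel_left]
    clear hmk
    induction n generalizing m x₀ with
    | zero => exact base _ _ _ _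
    | succ n ih =>
      have := one (Zs L t ℓ g τ a) (-τ - (m + 1 : ℕ) * ℓ) (cd a (m + 1) (m + 1 + n)) n m
        (fun h x hx => by push_cast; exact hx m h) (ih (m + 1)) x₀
      rwa [← vol_cd_bot a (by omega), show m + 1 + n = m + (n + 1) by omega,
        show -τ - (m + 1 : ℕ) * ℓ + ℓ = -τ - m * ℓ by push_cast; ring] at this

end Pool.Agent.Lib.MP_a52643_an.NS
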